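import Pool.Agent.P.MP_da365b_co.MaxClass

namespace Pool.Agent.P.MP_da365b_co

open Classical

variable {G : Type*} [Group G]

section general

variable {Ω : Type*} [MulAction G Ω]

/-- The labels `L` are matched with the points `X` of a `G`-set. -/
def Mt (L : Set G) (X : Set Ω) : Prop :=
  (∀ g ∈ L, g⁻¹ ∈ L) ∧ ∃ π : G → Ω, Set.BijOn π L X ∧ ∀ g ∈ L, π g = g • π g⁻¹

theorem Mt.empty [Nonempty Ω] : Mt (∅ : Set G) (∅ : Set Ω) :=
  ⟨by simp, ⟨fun _ => Classical.arbitrary Ω, by simp, by simp⟩⟩

theorem Mt.union {A B : Set G} {X Y : Set Ω} (hA : Mt A X) (hB : Mt B Y)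
    (h1 : Disjoint A B) (h2 : Disjoint X Y) : Mt (A ∪ B) (X ∪ Y) := by
  obtain ⟨iA, π, hπ, cπ⟩ := hA
  obtain ⟨iB, σ, hσ, cσ⟩ := hB
  have hnA : ∀ g ∈ B, g ∉ A := fun g hg hg' => Set.disjoint_left.1 h1 hg' hg
  refine ⟨?_, ⟨fun g => if g ∈ A then π g else σ g, ?_, ?_⟩⟩
  · rintro g (h | h)
    · exact Or.inl (iA g h)
    · exact Or.inr (iB g h)
  · have e1 : Set.BijOn (fun g => if g ∈ A then π g else σ g) A X := by
      apply hπ.congr
      intro g hg
      simp [hg]
    have e2 : Set.BijOn (fun g => if g ∈ A then π g else σ g) B Y := by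
      apply hσ.congr
      intro g hg
      simp [hnA g hg]
    apply e1.union e2
    intro a ha b hb hab
    rcases ha with ha | ha <;> rcases hb with hb | hb
    · exact e1.injOn ha hb hab
    · have h3 := e2.mapsTo hb
      beta_reduce at hab
      rw [← hab] at h3
      exact absurd (e1.mapsTo ha) (fun h => Set.disjoint_left.1 h2 h h3)
    · have h3 := e2.mapsTo ha
      beta_reduce at hab
      rw [hab] at h3
      exact absurd (e1.mapsTo hb) (fun h => Set.disjoint_left.1 h2 h h3)
    · exact e2.injOn ha hb hab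
  · rintro g (h | h)
    · simp only [h, iA g h, if_true]
      exact cπ g h
    · simp only [hnA g h, hnA _ (iB g h), if_false]
      exact cσ g h

theorem Mt.biUnion [Nonempty Ω] {ι : Type*} (s : Finset ι) (L : ι → Set G) (X : ι → Set Ω)
    (h : ∀ i ∈ s, Mt (L i) (X i)) (h1 : ∀ i ∈ s, ∀ j ∈ s, i ≠ j → Disjoint (L i) (L j))
    (h2 : ∀ i ∈ s, ∀ j ∈ s, i ≠ j → Disjoint (X i) (X j)) :
    Mt (⋃ i ∈ s, L i) (⋃ i ∈ s, X i) := by
  induction s using Finset.induction_on with
  | empty => simpa using Mt.empty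
  | insert a s ha ih =>
    rw [Finset.set_biUnion_insert, Finset.set_biUnion_insert]
    have hne : ∀ j ∈ s, a ≠ j := fun j hj e => ha (e ▸ hj)
    apply (h a (by simp)).union
    · exact ih (fun i hi => h i (by simp [hi]))
        (fun i hi j hj => h1 i (by simp [hi]) j (by simp [hj]))
        (fun i hi j hj => h2 i (by simp [hi]) j (by simp [hj]))
    · simp only [Set.disjoint_iUnion_right]
      exact fun j hj => h1 a (by simp) j (by simp [hj]) (hne j hj)
    · simp only [Set.disjoint_iUnion_right]
      exact fun j hj => h2 a (by simp) j (by simp [hj]) (hne j hj)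

theorem Mt.cover [Finite G] (A : Finset G) :
    ∀ (X : Set Ω), (∀ g : G, ∀ x ∈ X, g • x ∈ X) → (∀ g ∈ A, g ≠ 1) → Mt (A : Set G) X →
      Cover A := by
  induction A using Finset.strongInduction with
  | H A ih =>
    intro X hX h1 hM
    rcases A.eq_empty_or_nonempty with rfl | ⟨a, ha⟩
    · exact Cover.empty
    obtain ⟨iA, π, hπ, cπ⟩ := hM
    set x := π a with hx
    have horb : ∀ g ∈ A, (π g⁻¹ ∈ MulAction.orbit G x ↔ π g ∈ MulAction.orbit G x) := by
      intro g hg
      rw [cπ g hg]
      constructor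
      · rintro ⟨h, hh⟩
        exact ⟨g * h, by simp only [mul_smul]; exact congrArg _ hh⟩
      · rintro ⟨h, hh⟩
        refine ⟨g⁻¹ * h, ?_⟩
        simp only [mul_smul] at hh ⊢
        rw [hh, inv_smul_smul]
    have c2 : Cover (A.filter fun g => π g ∉ MulAction.orbit G x) := by
      apply ih _ _ (X \ MulAction.orbit G x)
      · rintro g y ⟨hy1, hy2⟩
        refine ⟨hX g y hy1, ?_⟩
        rintro ⟨h, hh⟩
        apply hy2
        refine ⟨g⁻¹ * h, ?_⟩
        simp only [mul_smul] at hh ⊢
        rw [hh, inv_smul_smul]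
      · exact fun g hg => h1 g (Finset.mem_filter.1 hg).1
      · refine ⟨?_, π, ⟨?_, ?_, ?_⟩, ?_⟩
        · intro g hg
          simp only [Finset.coe_filter, Set.mem_ofPred_eq] at hg ⊢
          exact ⟨iA g hg.1, fun h => hg.2 ((horb g hg.1).1 h)⟩
        · intro g hg
          simp only [Finset.coe_filter, Set.mem_ofPred_eq] at hg
          exact ⟨hπ.mapsTo hg.1, hg.2⟩
        · exact hπ.injOn.mono (by
            intro g hg
            simp only [Finset.coe_filter, Set.mem_ofPred_eq] at hg
            exact hg.1)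
        · rintro y ⟨hy1, hy2⟩
          obtain ⟨g, hg, rfl⟩ := hπ.surjOn hy1
          exact ⟨g, by simp only [Finset.coe_filter, Set.mem_ofPred_eq]; exact ⟨hg, hy2⟩, rfl⟩
        · intro g hg
          simp only [Finset.coe_filter, Set.mem_ofPred_eq] at hg
          exact cπ g hg.1
      · apply Finset.filter_ssubset.2
        exact ⟨a, ha, by simp [hx]⟩
    have c1 : Cover (A.filter fun g => π g ∈ MulAction.orbit G x) := by
      apply PM.cover (K := MulAction.stabilizer G x)
      set f := MulAction.ofQuotientStabilizer G x with hf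
      have finj : Function.Injective f := MulAction.injective_ofQuotientStabilizer G x
      have hinv : ∀ y ∈ MulAction.orbit G x, f (Function.invFun f y) = y := by
        rintro y ⟨h, rfl⟩
        exact Function.invFun_eq ⟨(h : G ⧸ MulAction.stabilizer G x), rfl⟩
      refine ⟨fun g hg => h1 g (Finset.mem_filter.1 hg).1, ?_,
        fun g => Function.invFun f (π g), ⟨fun _ _ => Set.mem_univ _, ?_, ?_⟩, ?_⟩
      · intro g hg
        rw [Finset.mem_filter] at hg ⊢
        exact ⟨iA g hg.1, (horb g hg.1).2 hg.2⟩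
      · intro g hg h hh e
        simp only [Finset.coe_filter, Set.mem_ofPred_eq] at hg hh
        apply hπ.injOn hg.1 hh.1
        rw [← hinv _ hg.2, ← hinv _ hh.2]
        exact congrArg f e
      · intro q _
        have hq : f q ∈ MulAction.orbit G x := MulAction.ofQuotientStabilizer_mem_orbit G x q
        have hqX : f q ∈ X := by
          obtain ⟨h, hh⟩ := hq
          rw [← hh]
          exact hX h x (hπ.mapsTo ha)
        obtain ⟨g, hg, e⟩ := hπ.surjOn hqX
        refine ⟨g, ?_, ?_⟩
        · simp only [Finset.coe_filter, Set.mem_ofPred_eq]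
          exact ⟨hg, e ▸ hq⟩
        · apply finj
          beta_reduce
          rw [e, hinv _ hq]
      · intro g hg
        rw [Finset.mem_filter] at hg
        apply finj
        rw [hf, MulAction.ofQuotientStabilizer_smul, ← hf, hinv _ hg.2,
          hinv _ ((horb g hg.1).2 hg.2)]
        exact cπ g hg.1
    have := Cover.union (Finset.disjoint_filter_filter_not A A _) c1 c2
    rwa [Finset.filter_union_filter_not_eq] at this

end general

theorem cover_outside [Fintype G] (Y : Subgroup G) (hY : ∀ g, g * g ∈ Y) :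
    Cover (Finset.univ.filter fun g : G => g ∉ Y) := by
  apply Cover.singles
  · intro y hy
    simpa using hy
  · intro y hy
    have hy' : y ∉ Y := by simpa using hy
    refine ⟨fun e => hy' (e ▸ Y.one_mem), Or.inr ?_⟩
    obtain ⟨K, hK1, hK2, hK3⟩ := exists_maxK Y y hy'
    have key : ∀ a, a ∉ K → a⁻¹ * y ∈ K := by
      intro a ha
      have n1 : ∀ x ∈ K, a * x * a⁻¹ ∈ K := by
        intro x hx
        have : a * x * a⁻¹ = (a * x) * (a * x) * x⁻¹ * (a⁻¹ * a⁻¹) := by group
        rw [this]
        exact K.mul_mem (K.mul_mem (hK1 (hY _)) (K.inv_mem hx)) (hK1 (hY _))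
      by_contra hc
      have := hK3 (adj K a n1 (hK1 (hY a))) le_adj (by
        rw [mem_adj]
        exact fun h => h.elim hK2 hc)
      exact ha (this self_mem_adj)
    refine ⟨K, hK2, fun a b ha hb => ?_⟩
    have : a⁻¹ * b = (a⁻¹ * y) * (b⁻¹ * y)⁻¹ := by group
    rw [this]
    exact K.mul_mem (key a ha) (K.inv_mem (key b hb))

end Pool.Agent.P.MP_da365b_co
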