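import Pool.Agent.P.MP_da365b_co.Basic

namespace Pool.Agent.P.MP_da365b_co

open Classical

variable {G : Type*} [Group G]

def adj (N : Subgroup G) (g : G) (h1 : ∀ x ∈ N, g * x * g⁻¹ ∈ N) (h2 : g * g ∈ N) :
    Subgroup G where
  carrier := {x | x ∈ N ∨ g⁻¹ * x ∈ N}
  one_mem' := Or.inl N.one_mem
  mul_mem' := by
    intro x y hx hy
    rcases hx with hx | hx <;> rcases hy with hy | hy
    · exact Or.inl (N.mul_mem hx hy)
    · right
      have : g⁻¹ * (x * y) = (g * g)⁻¹ * (g * x * g⁻¹) * (g * g) * (g⁻¹ * y) := by group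
      rw [this]
      exact N.mul_mem (N.mul_mem (N.mul_mem (N.inv_mem h2) (h1 x hx)) h2) hy
    · right
      rw [← mul_assoc]
      exact N.mul_mem hx hy
    · left
      have : x * y = (g * (g⁻¹ * x) * g⁻¹) * (g * g) * (g⁻¹ * y) := by group
      rw [this]
      exact N.mul_mem (N.mul_mem (h1 _ hx) h2) hy
  inv_mem' := by
    intro x hx
    rcases hx with hx | hx
    · exact Or.inl (N.inv_mem hx)
    · right
      have : g⁻¹ * x⁻¹ = (g * g)⁻¹ * (g * (g⁻¹ * x)⁻¹ * g⁻¹) := by group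
      rw [this]
      exact N.mul_mem (N.inv_mem h2) (h1 _ (N.inv_mem hx))

theorem mem_adj {N : Subgroup G} {g : G} {h1 h2} {x : G} :
    x ∈ adj N g h1 h2 ↔ x ∈ N ∨ g⁻¹ * x ∈ N := Iff.rfl

theorem le_adj {N : Subgroup G} {g : G} {h1 h2} : N ≤ adj N g h1 h2 := fun _ hx => Or.inl hx

theorem self_mem_adj {N : Subgroup G} {g : G} {h1 h2} : g ∈ adj N g h1 h2 :=
  Or.inr (by simp)

/-- number of elements of a subgroup, as a filter. -/
noncomputable def cd [Fintype G] (N : Subgroup G) : ℕ := (Finset.univ.filter (· ∈ N)).card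

theorem cd_eq [Fintype G] (N : Subgroup G) : cd N = Nat.card N := by
  unfold cd
  rw [Nat.card_eq_fintype_card, Fintype.card_subtype]

theorem card_coset [Fintype G] (N : Subgroup G) (g : G) :
    (Finset.univ.filter (fun x => g⁻¹ * x ∈ N)).card = cd N := by
  unfold cd
  apply Finset.card_bij (fun x _ => g⁻¹ * x)
  · intro a ha
    simpa using ha
  · intro a _ b _ h
    simpa using h
  · intro b hb
    exact ⟨g * b, by simpa using hb, by simp⟩

theorem cd_of_two [Fintype G] {N S : Subgroup G} {g : G} (hg : g ∉ N)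
    (hS : ∀ x, x ∈ S ↔ x ∈ N ∨ g⁻¹ * x ∈ N) : cd S = 2 * cd N := by
  have e : Finset.univ.filter (· ∈ S) =
      Finset.univ.filter (· ∈ N) ∪ Finset.univ.filter (fun x => g⁻¹ * x ∈ N) := by
    ext x
    simp [hS]
  have hd : Disjoint (Finset.univ.filter (· ∈ N))
      (Finset.univ.filter (fun x => g⁻¹ * x ∈ N)) := by
    rw [Finset.disjoint_left]
    intro x hx hx'
    simp only [Finset.mem_filter, Finset.mem_univ, true_and] at hx hx'
    apply hg
    have : g = x * (g⁻¹ * x)⁻¹ := by group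
    rw [this]
    exact N.mul_mem hx (N.inv_mem hx')
  unfold cd
  rw [e, Finset.card_union_of_disjoint hd, card_coset, cd, two_mul]

theorem adj_normal {N : Subgroup G} [hN : N.Normal] {w : G} {h1 h2}
    (hw : ∀ g, g * w * g⁻¹ * w⁻¹ ∈ N) : (adj N w h1 h2).Normal := by
  constructor
  intro x hx g
  rcases hx with hx | hx
  · exact Or.inl (hN.conj_mem x hx g)
  · right
    have : w⁻¹ * (g * x * g⁻¹) =
        (w⁻¹ * (g * w * g⁻¹ * w⁻¹) * w⁻¹⁻¹) * (g * (w⁻¹ * x) * g⁻¹) := by group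
    rw [this]
    exact N.mul_mem (hN.conj_mem _ (hw g) _) (hN.conj_mem _ hx _)

theorem exists_invol_pow {Q : Type*} [Group Q] (hQ : IsPGroup 2 Q) {z : Q} (hz : z ≠ 1) :
    ∃ k : ℕ, z ^ k ≠ 1 ∧ z ^ k * z ^ k = 1 := by
  obtain ⟨k, hk⟩ := hQ z
  induction k with
  | zero => exact absurd (by simpa using hk) hz
  | succ k ih =>
    by_cases h : z ^ 2 ^ k = 1
    · exact ih h
    · exact ⟨2 ^ k, h, by rw [← pow_add, ← two_mul, ← pow_succ', hk]⟩

theorem exists_central_invol {Q : Type*} [Group Q] [Finite Q] (hQ : IsPGroup 2 Q)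
    (C : Subgroup Q) [C.Normal] (hC : C ≠ ⊥) :
    ∃ z ∈ C, z ≠ 1 ∧ z * z = 1 ∧ ∀ g, g * z = z * g := by
  have : Fact (Nat.Prime 2) := ⟨Nat.prime_two⟩
  have hnt : Nontrivial C := (Subgroup.nontrivial_iff_ne_bot C).2 hC
  have dvd : 2 ∣ Nat.card C := by
    obtain ⟨n, hn0, hn⟩ := (hQ.to_subgroup C).nontrivial_iff_card.mp hnt
    exact hn.symm ▸ dvd_pow_self _ (ne_of_gt hn0)
  have h1 : (1 : C) ∈ MulAction.fixedPoints (ConjAct Q) C := by
    intro g
    exact smul_one g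
  obtain ⟨b, hb, hne⟩ :=
    (hQ.of_equiv ConjAct.toConjAct).exists_fixed_point_of_prime_dvd_card_of_fixed_point C dvd h1
  have hb1 : (b : Q) ≠ 1 := fun h => hne (Subtype.ext h.symm)
  have hcomm : ∀ g : Q, g * b = b * g := by
    intro g
    have := congrArg Subtype.val (hb (ConjAct.toConjAct g))
    have h2 : g * b * g⁻¹ = b := this
    rw [← mul_inv_eq_iff_eq_mul]
    exact h2
  obtain ⟨k, hk1, hk2⟩ := exists_invol_pow hQ hb1
  refine ⟨b ^ k, C.pow_mem b.2 k, hk1, hk2, fun g => ?_⟩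
  exact (Commute.pow_right (hcomm g) k)

theorem exists_step [Finite G] (hG : IsPGroup 2 G) (N C : Subgroup G) [N.Normal] [C.Normal]
    (h : ∃ c ∈ C, c ∉ N) :
    ∃ w ∈ C, w ∉ N ∧ w * w ∈ N ∧ ∀ g, g * w * g⁻¹ * w⁻¹ ∈ N := by
  have hn : (C.map (QuotientGroup.mk' N)).Normal :=
    Subgroup.Normal.map inferInstance _ (QuotientGroup.mk'_surjective N)
  have hne : C.map (QuotientGroup.mk' N) ≠ ⊥ := by
    obtain ⟨c, hc, hcN⟩ := h
    intro h'
    have : (QuotientGroup.mk' N) c ∈ C.map (QuotientGroup.mk' N) := Subgroup.mem_map_of_mem _ hc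
    rw [h', Subgroup.mem_bot] at this
    exact hcN ((QuotientGroup.eq_one_iff c).1 this)
  obtain ⟨z, hz, hz1, hz2, hz3⟩ := exists_central_invol (hG.to_quotient N) _ hne
  obtain ⟨w, hw, rfl⟩ := hz
  refine ⟨w, hw, fun h' => hz1 ((QuotientGroup.eq_one_iff w).2 h'), ?_, fun g => ?_⟩
  · rw [← QuotientGroup.eq_one_iff]
    simpa using hz2
  · rw [← QuotientGroup.eq_one_iff]
    have := hz3 (QuotientGroup.mk' N g)
    simp only [QuotientGroup.mk'_apply] at this
    simp [this]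

end Pool.Agent.P.MP_da365b_co
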