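import Pool.Agent.P.MP_da365b_co.Defs

namespace Pool.Agent.P.MP_da365b_co

open Classical

variable {G : Type*} [Group G]

def Valid (S : Finset (G × G)) : Prop :=
  (∀ e ∈ S, e.1 ≠ e.2) ∧ ∃ H : Subgroup G,
      (∀ q : G ⧸ H,
        Multiset.countP (fun x : G => (x : G ⧸ H) = q) (∑ e ∈ S, edgeEnds e) = 1) ∧
      ∀ e ∈ S, ∀ t : G, InvolFixes t e → t ∈ H

def Cover (A : Finset G) : Prop :=
  ∃ L : List (Finset (G × G)), (∀ S ∈ L, Valid S) ∧
    (L.map fun S => ∑ e ∈ S, edgeDiffs e).sum = A.val

theorem Cover.empty : Cover (∅ : Finset G) := ⟨[], by simp, by simp⟩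

theorem Cover.union {A B : Finset G} (h : Disjoint A B) (hA : Cover A) (hB : Cover B) :
    Cover (A ∪ B) := by
  obtain ⟨L, hL, eL⟩ := hA
  obtain ⟨M, hM, eM⟩ := hB
  refine ⟨L ++ M, ?_, ?_⟩
  · intro S hS
    rcases List.mem_append.1 hS with h1 | h1
    · exact hL S h1
    · exact hM S h1
  · rw [List.map_append, List.sum_append, eL, eM, ← Finset.disjUnion_eq_union A B h]
    rfl

theorem hasStarter_of_cover [Fintype G] (h : Cover (Finset.univ.erase (1 : G))) :
    HasStarter G := by
  obtain ⟨L, hL, eL⟩ := h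
  refine ⟨L.length, fun i => L.get i, ?_, ?_, ?_⟩
  · intro i
    exact (hL _ (List.get_mem L i)).1
  · intro g
    have : (∑ i : Fin L.length, ∑ e ∈ L.get i, edgeDiffs e) =
        (L.map fun S => ∑ e ∈ S, edgeDiffs e).sum := by
      rw [← List.sum_ofFn]
      congr 1
      apply List.ext_getElem
      · simp
      · intro n h1 h2
        simp
    rw [this, eL]
    by_cases hg : g = 1
    · simp [hg]
    · rw [if_neg hg]
      apply Multiset.count_eq_one_of_mem (Finset.nodup _)
      exact (Finset.mem_erase.2 ⟨hg, Finset.mem_univ _⟩ : g ∈ Finset.univ.erase 1)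
  · intro i
    exact (hL _ (List.get_mem L i)).2

structure PM (K : Subgroup G) (A : Finset G) (X : Set (G ⧸ K)) : Prop where
  ne_one : ∀ g ∈ A, g ≠ 1
  inv_mem : ∀ g ∈ A, g⁻¹ ∈ A
  ex : ∃ π : G → G ⧸ K, Set.BijOn π A X ∧ ∀ g ∈ A, π g = g • π g⁻¹

theorem PM.empty (K : Subgroup G) : PM K ∅ ∅ :=
  ⟨by simp, by simp, ⟨fun _ => ((1 : G) : G ⧸ K), by simp, by simp⟩⟩

theorem PM.union {K : Subgroup G} {A B : Finset G} {X Y : Set (G ⧸ K)}
    (hA : PM K A X) (hB : PM K B Y) (h1 : Disjoint A B) (h2 : Disjoint X Y) :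
    PM K (A ∪ B) (X ∪ Y) := by
  obtain ⟨π, hπ, cπ⟩ := hA.ex
  obtain ⟨σ, hσ, cσ⟩ := hB.ex
  have hnA : ∀ g ∈ B, g ∉ A := fun g hg hg' => Finset.disjoint_left.1 h1 hg' hg
  refine ⟨?_, ?_, ⟨fun g => if g ∈ A then π g else σ g, ?_, ?_⟩⟩
  · intro g hg
    rcases Finset.mem_union.1 hg with h | h
    · exact hA.ne_one g h
    · exact hB.ne_one g h
  · intro g hg
    rcases Finset.mem_union.1 hg with h | h
    · exact Finset.mem_union_left _ (hA.inv_mem g h)
    · exact Finset.mem_union_right _ (hB.inv_mem g h)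
  · have e1 : Set.BijOn (fun g => if g ∈ A then π g else σ g) A X := by
      apply hπ.congr
      intro g hg
      simp only [Finset.mem_coe] at hg
      simp [hg]
    have e2 : Set.BijOn (fun g => if g ∈ A then π g else σ g) B Y := by
      apply hσ.congr
      intro g hg
      simp only [Finset.mem_coe] at hg
      simp [hnA g hg]
    rw [Finset.coe_union]
    apply e1.union e2
    intro a ha b hb hab
    rcases ha with ha | ha <;> rcases hb with hb | hb
    · exact e1.injOn ha hb hab
    · have h3 := e2.mapsTo hb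
      beta_reduce at hab
      rw [← hab] at h3
      exact absurd (e1.mapsTo ha) (fun h => Set.disjoint_left.1 h2 h h3)
    · have h3 := e2.mapsTo ha
      beta_reduce at hab
      rw [hab] at h3
      exact absurd (e1.mapsTo hb) (fun h => Set.disjoint_left.1 h2 h h3)
    · exact e2.injOn ha hb hab
  · intro g hg
    rcases Finset.mem_union.1 hg with h | h
    · simp only [h, hA.inv_mem g h, if_true]
      exact cπ g h
    · simp only [hnA g h, hnA _ (hB.inv_mem g h), if_false]
      exact cσ g h

theorem PM.long {K : Subgroup G} {g : G} {b : G ⧸ K} (hg : g * g ≠ 1) (hb : g • b ≠ b) :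
    PM K {g, g⁻¹} {b, g • b} := by
  have hne : g ≠ g⁻¹ := fun h => hg (by nth_rewrite 2 [h]; simp)
  have h1 : g ≠ 1 := fun h => hg (by simp [h])
  refine ⟨?_, ?_, ⟨fun x => if x = g then g • b else b, ?_, ?_⟩⟩
  · intro x hx
    simp only [Finset.mem_insert, Finset.mem_singleton] at hx
    rcases hx with rfl | rfl
    · exact h1
    · simpa using h1
  · intro x hx
    simp only [Finset.mem_insert, Finset.mem_singleton] at hx ⊢
    rcases hx with rfl | rfl <;> simp
  · refine ⟨?_, ?_, ?_⟩
    · intro x _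
      by_cases h : x = g <;> simp [h]
    · intro x hx y hy hxy
      simp only [Finset.coe_insert, Finset.coe_singleton, Set.mem_insert_iff,
        Set.mem_singleton_iff] at hx hy
      rcases hx with rfl | rfl <;> rcases hy with rfl | rfl
      · rfl
      · simp [hne.symm, hb] at hxy
      · simp [hne.symm, hb.symm] at hxy
      · rfl
    · intro y hy
      simp only [Set.mem_insert_iff, Set.mem_singleton_iff] at hy
      rcases hy with rfl | rfl
      · exact ⟨g⁻¹, by simp, by simp [hne.symm]⟩
      · exact ⟨g, by simp, by simp⟩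
  · intro x hx
    simp only [Finset.mem_insert, Finset.mem_singleton] at hx
    rcases hx with rfl | rfl
    · simp [hne.symm]
    · simp [hne.symm]

theorem PM.short {K : Subgroup G} {t : G} {b : G ⧸ K} (h1 : t ≠ 1) (ht : t * t = 1)
    (hb : t • b = b) : PM K {t} {b} := by
  have hi : t⁻¹ = t := inv_eq_of_mul_eq_one_right ht
  refine ⟨by simpa using h1, by simp [hi], ⟨fun _ => b, ?_, ?_⟩⟩
  · simp
  · simp [hb]

theorem involFixes_iff {t x y : G} (hxy : x ≠ y) :
    InvolFixes t (x, y) ↔ t = x⁻¹ * y ∧ t * t = 1 := by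
  unfold InvolFixes
  simp only [Sym2.eq_iff]
  constructor
  · rintro ⟨ho, h⟩
    have h2 : t * t = 1 := by
      have := pow_orderOf_eq_one t
      rwa [ho, pow_two] at this
    have h1 : t ≠ 1 := by
      rintro rfl
      simp at ho
    rcases h with ⟨h, _⟩ | ⟨h, _⟩
    · exact absurd (by simpa using h) h1
    · exact ⟨by rw [← h]; group, h2⟩
  · rintro ⟨h, h2⟩
    have h1 : t ≠ 1 := by
      intro h'
      apply hxy
      rw [h'] at h
      exact (inv_mul_eq_one.1 h.symm)
    refine ⟨orderOf_eq_prime (by rwa [pow_two]) h1, Or.inr ⟨by rw [h]; group, ?_⟩⟩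
    have : y = x * t := by rw [h]; group
    rw [this, mul_assoc, h2, mul_one]

theorem sum_reps (A : Finset G) (hinv : ∀ g ∈ A, g⁻¹ ∈ A) (f : G → ℕ) (hf : Function.Injective f) :
    (∑ g ∈ A.filter (fun g => f g ≤ f g⁻¹),
      (if g * g = 1 then ({g} : Multiset G) else {g, g⁻¹})) = A.val := by
  ext x
  rw [Multiset.count_sum']
  have key : ∀ g : G, Multiset.count x (if g * g = 1 then ({g} : Multiset G) else {g, g⁻¹}) =
      (if g = x then 1 else 0) + (if g = x⁻¹ then (if x * x = 1 then 0 else 1) else 0) := by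
    intro g
    by_cases h : g * g = 1
    · rw [if_pos h, Multiset.count_singleton]
      by_cases h2 : g = x⁻¹
      · have : x * x = 1 := by
          rw [h2] at h
          have := congrArg (·⁻¹) h
          simpa using this
        simp [this, eq_comm]
      · simp [h2, eq_comm]
    · rw [if_neg h, Multiset.insert_eq_cons, Multiset.count_cons, Multiset.count_singleton]
      by_cases h2 : g = x⁻¹
      · have h3 : x * x ≠ 1 := by
          intro h3
          apply h
          rw [h2]
          have := congrArg (·⁻¹) h3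
          simpa using this
        have h4 : x = g⁻¹ := by rw [h2]; simp
        rw [if_pos h4, if_pos h2, if_neg h3, add_comm]
        simp [eq_comm]
      · have h4 : x ≠ g⁻¹ := by
          intro h4
          apply h2
          rw [h4]; simp
        rw [if_neg h4, if_neg h2]
        simp [eq_comm]
  simp_rw [key]
  rw [Finset.sum_add_distrib, Finset.sum_ite_eq', Finset.sum_ite_eq']
  simp only [Finset.mem_filter, inv_inv]
  by_cases hx : x ∈ A
  · rw [Multiset.count_eq_one_of_mem (Finset.nodup _) hx]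
    by_cases h : x * x = 1
    · have hi : x⁻¹ = x := inv_eq_of_mul_eq_one_right h
      simp [hx, h, hi]
    · have hne : f x ≠ f x⁻¹ := by
        intro h'
        apply h
        nth_rewrite 2 [hf h']
        simp
      by_cases hle : f x ≤ f x⁻¹
      · have : ¬ f x⁻¹ ≤ f x := by omega
        simp [hx, hle, this]
      · have : f x⁻¹ ≤ f x := by omega
        simp [hle, this, hinv x hx, h]
  · have hx' : x⁻¹ ∉ A := fun h => hx (by simpa using hinv _ h)
    simp [hx, hx']

theorem PM.cover [Finite G] {K : Subgroup G} {A : Finset G} (h : PM K A Set.univ) : Cover A := by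
  obtain ⟨π, hπ, cπ⟩ := h.ex
  obtain ⟨f, hf⟩ := exists_injective_nat G
  set R := A.filter (fun g => f g ≤ f g⁻¹) with hR
  let e : G → G × G := fun g => (g * (π g⁻¹).out, (π g⁻¹).out)
  have he : Function.Injective e := by
    intro a b hab
    simp only [e, Prod.mk.injEq] at hab
    have := hab.1
    rw [hab.2] at this
    exact mul_right_cancel this
  have hRA : ∀ g ∈ R, g ∈ A := fun g hg => (Finset.mem_filter.1 hg).1
  have hne : ∀ g ∈ A, (e g).1 ≠ (e g).2 := by
    intro g hg h'
    exact h.ne_one g hg (by simpa [e] using h')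
  have hshort : ∀ g ∈ A, ((∃ t, InvolFixes t (e g)) ↔ g * g = 1) := by
    intro g hg
    have hne' := hne g hg
    simp only [e] at hne' ⊢
    simp only [involFixes_iff hne']
    constructor
    · rintro ⟨t, rfl, h2⟩
      have : g⁻¹ * g⁻¹ = 1 := by
        have h3 : (π g⁻¹).out * (((g * (π g⁻¹).out)⁻¹ * (π g⁻¹).out) *
            ((g * (π g⁻¹).out)⁻¹ * (π g⁻¹).out)) * (π g⁻¹).out⁻¹ = g⁻¹ * g⁻¹ := by group
        rw [← h3, h2]; group
      have := congrArg (·⁻¹) this
      simpa using this
    · intro h2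
      refine ⟨_, rfl, ?_⟩
      have h3 : ((g * (π g⁻¹).out)⁻¹ * (π g⁻¹).out) *
            ((g * (π g⁻¹).out)⁻¹ * (π g⁻¹).out) = (π g⁻¹).out⁻¹ * (g * g)⁻¹ * (π g⁻¹).out := by
        group
      rw [h3, h2]; group
  have hd : ∀ g ∈ A, edgeDiffs (e g) = if g * g = 1 then ({g} : Multiset G) else {g, g⁻¹} := by
    intro g hg
    unfold edgeDiffs
    rw [hshort g hg]
    simp [e]
  have hmk1 : ∀ g ∈ A, (((e g).1 : G) : G ⧸ K) = π g := by
    intro g hg
    rw [cπ g hg]
    simp only [e]
    conv_rhs => rw [← QuotientGroup.out_eq' (π g⁻¹)]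
    rfl
  have hmk2 : ∀ g ∈ A, (((e g).2 : G) : G ⧸ K) = π g⁻¹ := by
    intro g _
    simp [e]
  have hend : ∀ g ∈ A, (edgeEnds (e g)).map (fun x : G => (x : G ⧸ K)) =
      (edgeDiffs (e g)).map π := by
    intro g hg
    rw [hd g hg]
    unfold edgeEnds
    rw [hshort g hg]
    by_cases h2 : g * g = 1
    · simp [h2, hmk1 g hg]
    · simp [h2, hmk1 g hg, hmk2 g hg]
  have hsum : (∑ x ∈ R.image e, edgeDiffs x) = A.val := by
    rw [Finset.sum_image (fun a _ b _ hab => he hab), ← sum_reps A h.inv_mem f hf]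
    exact Finset.sum_congr rfl fun g hg => hd g (hRA g hg)
  refine ⟨[R.image e], ?_, by simpa using hsum⟩
  intro S hS
  rw [List.mem_singleton] at hS
  subst hS
  refine ⟨?_, K, ?_, ?_⟩
  · intro x hx
    obtain ⟨g, hg, rfl⟩ := Finset.mem_image.1 hx
    exact hne g (hRA g hg)
  · intro q
    have h1 : (∑ x ∈ R.image e, edgeEnds x).map (fun x : G => (x : G ⧸ K)) = A.val.map π := by
      rw [← hsum, Finset.sum_image (fun a _ b _ hab => he hab),
        Finset.sum_image (fun a _ b _ hab => he hab)]
      have m1 := map_sum (Multiset.mapAddMonoidHom (fun x : G => (x : G ⧸ K)))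
        (fun g => edgeEnds (e g)) R
      have m2 := map_sum (Multiset.mapAddMonoidHom π) (fun g => edgeDiffs (e g)) R
      simp only [Multiset.coe_mapAddMonoidHom] at m1 m2
      rw [m1, m2]
      exact Finset.sum_congr rfl fun g hg => hend g (hRA g hg)
    have h2 : Multiset.count q (A.val.map π) = 1 := by
      apply Multiset.count_eq_one_of_mem
      · exact Multiset.Nodup.map_on (fun a ha b hb hab => hπ.injOn ha hb hab) A.nodup
      · obtain ⟨g, hg, rfl⟩ := hπ.surjOn (Set.mem_univ q)
        exact Multiset.mem_map_of_mem _ hg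
    rw [← h1, Multiset.count_map] at h2
    rw [Multiset.countP_eq_card_filter, ← h2]
    congr 1
    exact Multiset.filter_congr fun x _ => eq_comm
  · intro x hx t ht
    obtain ⟨g, hg, rfl⟩ := Finset.mem_image.1 hx
    have hgA := hRA g hg
    have h2 := (hshort g hgA).1 ⟨t, ht⟩
    have hi : g⁻¹ = g := inv_eq_of_mul_eq_one_right h2
    have ht' := ((involFixes_iff (hne g hgA)).1 ht).1
    rw [ht', ← QuotientGroup.eq, hmk1 g hgA, hmk2 g hgA, hi]

theorem Cover.invol [Finite G] {t : G} (h1 : t ≠ 1) (ht : t * t = 1) : Cover {t} := by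
  have : Subsingleton (G ⧸ (⊤ : Subgroup G)) := QuotientGroup.subsingleton_quotient_top
  have := PM.short (K := ⊤) (b := ((1 : G) : G ⧸ (⊤ : Subgroup G))) h1 ht (Subsingleton.elim _ _)
  apply PM.cover (K := ⊤)
  have e : ({((1 : G) : G ⧸ (⊤ : Subgroup G))} : Set _) = Set.univ := by
    ext x
    simp only [Set.mem_singleton_iff, Set.mem_univ, iff_true]
    exact Subsingleton.elim _ _
  rwa [e] at this

theorem Cover.invols [Finite G] (W : Finset G) (h : ∀ t ∈ W, t ≠ 1 ∧ t * t = 1) : Cover W := by
  induction W using Finset.induction_on with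
  | empty => exact Cover.empty
  | insert t W ht ih =>
    rw [Finset.insert_eq]
    apply Cover.union (by simpa using ht)
    · exact Cover.invol (h t (by simp)).1 (h t (by simp)).2
    · exact ih fun s hs => h s (by simp [hs])

end Pool.Agent.P.MP_da365b_co
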