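import Pool.Agent.P.MP_da365b_co.Act

namespace Pool.Agent.P.MP_da365b_co

open Classical

set_option linter.unusedSectionVars false

variable {G : Type*} [Group G]

/-- Points: a subset of `G` with a colour; `G` acts by conjugation on the subset. -/
def Pt (G : Type*) : Type _ := Set G × Bool

instance : Nonempty (Pt G) := ⟨(∅, false)⟩

instance : MulAction G (Pt G) where
  smul h p := ((fun x => h * x * h⁻¹) '' p.1, p.2)
  one_smul p := by
    change ((fun x => 1 * x * 1⁻¹) '' p.1, p.2) = p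
    simp only [one_mul, inv_one, mul_one, Set.image_id']
    rfl
  mul_smul a b p := by
    change ((fun x => a * b * x * (a * b)⁻¹) '' p.1, p.2) =
      ((fun x => a * x * a⁻¹) '' ((fun x => b * x * b⁻¹) '' p.1), p.2)
    rw [Set.image_image]
    congr 2
    funext x
    group

/-- The point of an element. -/
def el (g : G) : Pt G := (({g} : Set G), false)

/-- The point of an inverse pair with a colour. -/
def pr (g : G) (b : Bool) : Pt G := (({g, g⁻¹} : Set G), b)

theorem smul_el (h g : G) : h • el g = el (h * g * h⁻¹) := by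
  change ((fun x => h * x * h⁻¹) '' {g}, false) = _
  rw [Set.image_singleton]
  rfl

theorem smul_pr (h g : G) (b : Bool) : h • pr g b = pr (h * g * h⁻¹) b := by
  change ((fun x => h * x * h⁻¹) '' {g, g⁻¹}, b) = _
  rw [Set.image_pair]
  unfold pr
  congr 3
  group

theorem el_inj {g h : G} (e : el g = el h) : g = h :=
  Set.singleton_injective (congrArg Prod.fst e)

theorem pr_inv (g : G) (b : Bool) : pr g⁻¹ b = pr g b := by
  unfold pr
  rw [inv_inv, Set.pair_comm]

theorem pr_inj {g h : G} {b c : Bool} (e : pr g b = pr h c) : (g = h ∨ g = h⁻¹) ∧ b = c := by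
  refine ⟨?_, congrArg Prod.snd e⟩
  have h1 : ({g, g⁻¹} : Set G) = {h, h⁻¹} := congrArg Prod.fst e
  have : g ∈ ({h, h⁻¹} : Set G) := h1 ▸ Set.mem_insert _ _
  simpa using this

theorem pr_el {g h : G} {b : Bool} (e : pr g b = el h) : g = h := by
  have h1 : ({g, g⁻¹} : Set G) = {h} := congrArg Prod.fst e
  have : g ∈ ({h} : Set G) := h1 ▸ Set.mem_insert _ _
  simpa using this

/-- Pair points over a set. -/
def XP (D : Set G) : Set (Pt G) := {p | ∃ g ∈ D, ∃ b, p = pr g b ∧ (g * g = 1 → b = false)}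

theorem exists_colour [Finite G] (a : G) :
    ∃ c : G → Bool, (∀ d, a * a * d = d * (a * a) → c (a * d⁻¹ * a⁻¹) = c d) ∧
      (∀ d, d * d = 1 → c d = false) ∧
      (∀ d, d * d ≠ 1 → a * d ≠ d * a → c d⁻¹ = !c d) := by
  obtain ⟨f, hf⟩ := exists_injective_nat G
  let m : G → ℕ := fun d => min (f d) (f (a * d⁻¹ * a⁻¹))
  refine ⟨fun d => decide (m d < m d⁻¹), ?_, ?_, ?_⟩
  · intro d hd
    have e1 : a * (a * d⁻¹ * a⁻¹)⁻¹ * a⁻¹ = d := by
      have : a * (a * d⁻¹ * a⁻¹)⁻¹ * a⁻¹ = (a * a * d) * (a * a)⁻¹ := by group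
      rw [this, hd]; group
    have e2 : (a * d⁻¹ * a⁻¹)⁻¹ = a * d⁻¹⁻¹ * a⁻¹ := by group
    have e3 : a * (a * d⁻¹⁻¹ * a⁻¹)⁻¹ * a⁻¹ = d⁻¹ := by
      have : a * (a * d⁻¹⁻¹ * a⁻¹)⁻¹ * a⁻¹ = (a * a) * (a * a * d)⁻¹ := by group
      rw [this, hd]; group
    have m1 : m (a * d⁻¹ * a⁻¹) = m d := by
      simp only [m]
      rw [e1, min_comm]
    have m2 : m (a * d⁻¹ * a⁻¹)⁻¹ = m d⁻¹ := by
      rw [e2]
      simp only [m]
      rw [e3, min_comm]
    simp only [m1, m2]
  · intro d hd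
    have hi : d⁻¹ = d := inv_eq_of_mul_eq_one_right hd
    simp [hi]
  · intro d h1 h2
    have n1 : d ≠ d⁻¹ := fun h => h1 (by nth_rewrite 2 [h]; simp)
    have n2 : d ≠ a * d⁻¹⁻¹ * a⁻¹ := by
      intro h
      apply h2
      rw [inv_inv] at h
      nth_rewrite 2 [h]
      group
    have n3 : a * d⁻¹ * a⁻¹ ≠ d⁻¹ := by
      intro h
      apply n2
      have h3 : (a * d⁻¹ * a⁻¹)⁻¹ = a * d⁻¹⁻¹ * a⁻¹ := by group
      rw [← h3, h, inv_inv]
    have n4 : a * d⁻¹ * a⁻¹ ≠ a * d⁻¹⁻¹ * a⁻¹ := by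
      intro h
      apply n1
      simpa using h.symm
    have : m d ≠ m d⁻¹ := by
      simp only [m]
      have k1 := hf.ne n1
      have k2 := hf.ne n2
      have k3 := hf.ne n3
      have k4 := hf.ne n4
      omega
    simp only [inv_inv]
    by_cases h : m d < m d⁻¹
    · have : ¬ m d⁻¹ < m d := by omega
      simp [h, this]
    · have : m d⁻¹ < m d := by omega
      simp [h, this]

/-- Labels `L`, points the elements of `L a`. -/
theorem mt_el [Finite G] (a : G) (L : Set G) (h1 : ∀ d ∈ L, d⁻¹ ∈ L)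
    (h2 : ∀ d ∈ L, a * d * a⁻¹ ∈ L) (h3 : ∀ d ∈ L, a * a * d = d * (a * a))
    (h4 : ∀ d ∈ L, d * d ≠ 1) (h5 : ∀ d ∈ L, a * d ≠ d * a) :
    Mt L (el '' {g | g * a⁻¹ ∈ L}) := by
  obtain ⟨c, c1, -, c3⟩ := exists_colour a
  have ss : ∀ d ∈ L, a * (a * d⁻¹ * a⁻¹)⁻¹ * a⁻¹ = d := by
    intro d hd
    have : a * (a * d⁻¹ * a⁻¹)⁻¹ * a⁻¹ = (a * a * d) * (a * a)⁻¹ := by group
    rw [this, h3 d hd]; group
  refine ⟨h1, fun d => el (if c d then d * a else a * d⁻¹), ⟨?_, ?_, ?_⟩, ?_⟩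
  · intro d hd
    refine ⟨_, ?_, rfl⟩
    by_cases h : c d
    · simpa [h] using hd
    · simpa [h] using h2 _ (h1 d hd)
  · intro d hd e he hde
    have := el_inj hde
    by_cases h : c d <;> by_cases h' : c e
    · simpa [h, h'] using this
    · simp only [h, h', if_true, Bool.false_eq_true, if_false] at this
      have e1 : d = a * e⁻¹ * a⁻¹ := by rw [← this]; group
      rw [e1, c1 e (h3 e he)] at h
      exact absurd h h'
    · simp only [h, h', if_true, Bool.false_eq_true, if_false] at this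
      have e1 : e = a * d⁻¹ * a⁻¹ := by rw [this]; group
      rw [e1, c1 d (h3 d hd)] at h'
      exact absurd h' h
    · simpa [h, h'] using this
  · rintro p ⟨g, hg, rfl⟩
    have hg' : g * a⁻¹ ∈ L := hg
    by_cases h : c (g * a⁻¹)
    · exact ⟨g * a⁻¹, hg', by simp [h]⟩
    · refine ⟨a * (g * a⁻¹)⁻¹ * a⁻¹, h2 _ (h1 _ hg'), ?_⟩
      have := ss _ hg'
      simp only [c1 _ (h3 _ hg'), h, Bool.false_eq_true, if_false]
      congr 1
      rw [← mul_left_inj a⁻¹, this]
  · intro d hd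
    simp only [smul_el, c3 d (h4 d hd) (h5 d hd)]
    congr 1
    by_cases h : c d
    · simp [h]; group
    · simp [h]

/-- Labels `L`, points the coloured inverse pairs of `L s`. -/
theorem mt_pr [Finite G] (s : G) (hs : s * s = 1) (L : Set G) (h1 : ∀ d ∈ L, d⁻¹ ∈ L)
    (h2 : ∀ d ∈ L, s * d * s ∈ L) (h5 : ∀ d ∈ L, s * d ≠ d * s) :
    Mt L (XP {g | g * s ∈ L}) := by
  obtain ⟨c, c1, c2, c3⟩ := exists_colour s
  have hi : s⁻¹ = s := inv_eq_of_mul_eq_one_right hs
  have hss : ∀ x : G, x * s * s = x := fun x => by rw [mul_assoc, hs, mul_one]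
  have nc : ∀ g, g * s ∈ L → s * g ≠ g * s := by
    intro g hg h
    apply h5 _ hg
    rw [← mul_assoc, h]
  refine ⟨h1, fun d => pr (d * s) (c (d * s)), ⟨?_, ?_, ?_⟩, ?_⟩
  · intro d hd
    exact ⟨d * s, by simpa [hss] using hd, _, rfl, c2 _⟩
  · intro d hd e he hde
    obtain ⟨k1 | k1, k2⟩ := pr_inj hde
    · exact mul_right_cancel k1
    · by_cases h : e * s * (e * s) = 1
      · rw [inv_eq_of_mul_eq_one_right h] at k1
        exact mul_right_cancel k1
      · rw [k1, c3 _ h (nc _ (by simpa [hss] using he))] at k2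
        simp at k2
  · rintro p ⟨g, hg, b, rfl, hb⟩
    have hg' : g * s ∈ L := hg
    by_cases h : c g = b
    · exact ⟨g * s, hg', by simp [hss, h]⟩
    · have hgg : g * g ≠ 1 := fun h' => h (by rw [hb h', c2 g h'])
      refine ⟨g⁻¹ * s, ?_, ?_⟩
      · have := h2 _ (h1 _ hg')
        rw [mul_inv_rev, hi, ← mul_assoc, hs, one_mul] at this
        exact this
      · simp only [hss, pr_inv, c3 g hgg (nc g hg')]
        congr 1
        revert h
        cases c g <;> cases b <;> simp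
  · intro d _
    have e1 : d⁻¹ * s = s * (d * s)⁻¹ * s⁻¹ := by
      rw [hi, mul_inv_rev, hi, ← mul_assoc, hs, one_mul]
    have e2 : c (d⁻¹ * s) = c (d * s) := by
      rw [e1]
      exact c1 _ (by rw [hs]; simp)
    simp only [smul_pr, e2]
    rw [← pr_inv]
    congr 1
    rw [mul_inv_rev, hi]
    group

theorem mt_inv (L : Set G) (h : ∀ d ∈ L, d * d = 1) : Mt L (XP L) := by
  have hi : ∀ d ∈ L, d⁻¹ = d := fun d hd => inv_eq_of_mul_eq_one_right (h d hd)
  refine ⟨fun d hd => by rwa [hi d hd], fun d => pr d false, ⟨?_, ?_, ?_⟩, ?_⟩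
  · exact fun d hd => ⟨d, hd, false, rfl, fun _ => rfl⟩
  · intro d _ e he hde
    obtain ⟨k1 | k1, -⟩ := pr_inj hde
    · exact k1
    · rwa [hi e he] at k1
  · rintro p ⟨g, hg, b, rfl, hb⟩
    exact ⟨g, hg, by rw [hb (h g hg)]⟩
  · intro d hd
    simp only [smul_pr, hi d hd]
    congr 1
    rw [h d hd, one_mul]

end Pool.Agent.P.MP_da365b_co
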