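import Mathlib

namespace Pool.Agent.P.MP_da365b_co

open Classical

variable {G : Type*} [Group G]

/-- `t` is an involution of `G` fixing the edge `[e.1, e.2]` under right translation. -/
def InvolFixes (t : G) (e : G × G) : Prop :=
  orderOf t = 2 ∧ s(e.1 * t, e.2 * t) = s(e.1, e.2)

/-- The multiset of differences of the edge `[x, y]`. -/
noncomputable def edgeDiffs (e : G × G) : Multiset G :=
  if ∃ t, InvolFixes t e then {e.1 * e.2⁻¹} else {e.1 * e.2⁻¹, e.2 * e.1⁻¹}

/-- The multiset `φ` of the edge `[x, y]`. -/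
noncomputable def edgeEnds (e : G × G) : Multiset G :=
  if ∃ t, InvolFixes t e then {e.1} else {e.1, e.2}

/-- `G` admits a starter. -/
def HasStarter (G : Type*) [Group G] : Prop :=
  ∃ (k : ℕ) (S : Fin k → Finset (G × G)),
    (∀ i, ∀ e ∈ S i, e.1 ≠ e.2) ∧
    (∀ g : G, Multiset.count g (∑ i, ∑ e ∈ S i, edgeDiffs e) = if g = 1 then 0 else 1) ∧
    ∀ i, ∃ H : Subgroup G,
      (∀ q : G ⧸ H,
        Multiset.countP (fun x : G => (x : G ⧸ H) = q) (∑ e ∈ S i, edgeEnds e) = 1) ∧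
      ∀ e ∈ S i, ∀ t : G, InvolFixes t e → t ∈ H

end Pool.Agent.P.MP_da365b_co
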