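import Pool.Agent.P.MP_da365b_co.Adjoin

namespace Pool.Agent.P.MP_da365b_co

open Classical

set_option linter.unusedSectionVars false

variable {G : Type*} [Group G]

def Strong (j g : G) : Prop := g * g ≠ 1 ∧ g * g ≠ j

def Clo (j : G) (U : Finset G) : Prop := ∀ g ∈ U, g⁻¹ ∈ U ∧ g * j ∈ U

noncomputable def quad (j g : G) : Finset G := {g, g⁻¹, g * j, g⁻¹ * j}

theorem mem_quad {j g x : G} : x ∈ quad j g ↔ x = g ∨ x = g⁻¹ ∨ x = g * j ∨ x = g⁻¹ * j := by
  simp [quad]

theorem self_mem_quad (j g : G) : g ∈ quad j g := by simp [quad]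

theorem card_quad_le (j g : G) : (quad j g).card ≤ 4 := Finset.card_le_four

section
variable {j : G} (hj2 : j * j = 1) (hjc : ∀ g, g * j = j * g)
include hj2 hjc

theorem inv_mul_j (g : G) : (g * j)⁻¹ = g⁻¹ * j := by
  have hi : j⁻¹ = j := inv_eq_of_mul_eq_one_right hj2
  rw [mul_inv_rev, hi, hjc]

theorem clo_quad (g : G) : Clo j (quad j g) := by
  intro x hx
  rw [mem_quad] at hx
  simp only [mem_quad]
  rcases hx with rfl | rfl | rfl | rfl
  · simp
  · simp
  · simp [inv_mul_j hj2 hjc, mul_assoc, hj2]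
  · simp [inv_mul_j hj2 hjc, mul_assoc, hj2]

theorem quad_subset {U : Finset G} (hU : Clo j U) {g : G} (hg : g ∈ U) : quad j g ⊆ U := by
  intro x hx
  rw [mem_quad] at hx
  rcases hx with rfl | rfl | rfl | rfl
  · exact hg
  · exact (hU _ hg).1
  · exact (hU _ hg).2
  · exact (hU _ (hU _ hg).1).2

theorem mem_quad_symm {g x : G} (h : x ∈ quad j g) : g ∈ quad j x := by
  rw [mem_quad] at h ⊢
  rcases h with rfl | rfl | rfl | rfl
  · simp
  · simp
  · simp [mul_assoc, hj2]
  · simp [inv_mul_j hj2 hjc, mul_assoc, hj2]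

theorem disjoint_quad {U : Finset G} (hU : Clo j U) {g : G} (hg : g ∉ U) :
    Disjoint (quad j g) U := by
  rw [Finset.disjoint_left]
  intro x hx hxU
  exact hg (quad_subset hj2 hjc hU hxU (mem_quad_symm hj2 hjc hx))

theorem strong_of_mem_quad {g x : G} (hg : Strong j g) (h : x ∈ quad j g) : Strong j x := by
  have hi : j⁻¹ = j := inv_eq_of_mul_eq_one_right hj2
  have a1 : ∀ y, Strong j y → Strong j y⁻¹ := by
    intro y hy
    constructor
    · intro h'
      apply hy.1
      have := congrArg (·⁻¹) h'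
      simpa using this
    · intro h'
      apply hy.2
      have := congrArg (·⁻¹) h'
      simpa [hi] using this
  have a2 : ∀ y, Strong j y → Strong j (y * j) := by
    intro y hy
    have : y * j * (y * j) = y * y := by
      rw [mul_assoc, ← mul_assoc j, ← hjc y, mul_assoc y j, hj2, mul_one]
    unfold Strong
    rw [this]
    exact hy
  rw [mem_quad] at h
  rcases h with rfl | rfl | rfl | rfl
  · exact hg
  · exact a1 _ hg
  · exact a2 _ hg
  · exact a2 _ (a1 _ hg)

end

theorem Clo.union {j : G} {U V : Finset G} (hU : Clo j U) (hV : Clo j V) : Clo j (U ∪ V) := by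
  intro g hg
  rcases Finset.mem_union.1 hg with h | h
  · exact ⟨Finset.mem_union_left _ (hU g h).1, Finset.mem_union_left _ (hU g h).2⟩
  · exact ⟨Finset.mem_union_right _ (hV g h).1, Finset.mem_union_right _ (hV g h).2⟩

variable {Ω : Type*} [MulAction G Ω] [DecidableEq Ω]

noncomputable def pts (e : G × Ω) : Finset Ω := {e.2, e.1 • e.2}

noncomputable def labs (j : G) (E : Finset (G × Ω)) : Finset G := E.biUnion fun e => quad j e.1

noncomputable def cov (E : Finset (G × Ω)) : Finset Ω := E.biUnion pts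

structure Good (j : G) (U : Finset G) (E : Finset (G × Ω)) : Prop where
  strong : ∀ e ∈ E, Strong j e.1
  notU : ∀ e ∈ E, e.1 ∉ U
  move : ∀ e ∈ E, e.1 • e.2 ≠ e.2
  dq : ∀ e ∈ E, ∀ e' ∈ E, e ≠ e' → Disjoint (quad j e.1) (quad j e'.1)
  dp : ∀ e ∈ E, ∀ e' ∈ E, e ≠ e' → Disjoint (pts e) (pts e')

theorem Good.mono {j : G} {U : Finset G} {E E' : Finset (G × Ω)} (h : Good j U E) (hs : E' ⊆ E) :
    Good j U E' :=
  ⟨fun e he => h.strong e (hs he), fun e he => h.notU e (hs he), fun e he => h.move e (hs he),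
    fun e he e' he' => h.dq e (hs he) e' (hs he'), fun e he e' he' => h.dp e (hs he) e' (hs he')⟩

theorem clo_labs {j : G} (hj2 : j * j = 1) (hjc : ∀ g, g * j = j * g) (E : Finset (G × Ω)) :
    Clo j (labs j E) := by
  intro g hg
  obtain ⟨e, he, hg⟩ := Finset.mem_biUnion.1 hg
  exact ⟨Finset.mem_biUnion.2 ⟨e, he, (clo_quad hj2 hjc _ _ hg).1⟩,
    Finset.mem_biUnion.2 ⟨e, he, (clo_quad hj2 hjc _ _ hg).2⟩⟩

theorem card_labs_le (j : G) (E : Finset (G × Ω)) : (labs j E).card ≤ 4 * E.card := by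
  unfold labs
  refine Finset.card_biUnion_le.trans ?_
  calc ∑ e ∈ E, (quad j e.1).card ≤ ∑ _e ∈ E, 4 := Finset.sum_le_sum fun e _ => card_quad_le _ _
    _ = 4 * E.card := by simp [mul_comm]

theorem Good.sum_cov {j : G} {U : Finset G} {E : Finset (G × Ω)} (h : Good j U E) (f : Ω → ℕ) :
    ∑ x ∈ cov E, f x = ∑ e ∈ E, (f e.2 + f (e.1 • e.2)) := by
  unfold cov
  rw [Finset.sum_biUnion]
  · apply Finset.sum_congr rfl
    intro e he
    unfold pts
    rw [Finset.sum_pair (h.move e he).symm]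
  · intro e he e' he' hne
    exact h.dp e he e' he' hne

theorem Good.card_cov {j : G} {U : Finset G} {E : Finset (G × Ω)} (h : Good j U E) :
    (cov E).card = 2 * E.card := by
  have := h.sum_cov (fun _ => 1)
  simpa [mul_comm] using this

theorem Good.insert {j : G} {U : Finset G} {E : Finset (G × Ω)} (h : Good j U E) (e : G × Ω)
    (h1 : Strong j e.1) (h2 : e.1 ∉ U) (h3 : e.1 • e.2 ≠ e.2)
    (h4 : Disjoint (quad j e.1) (labs j E)) (h5 : e.2 ∉ cov E) (h6 : e.1 • e.2 ∉ cov E) :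
    Good j U (insert e E) ∧ e ∉ E := by
  have q : ∀ e' ∈ E, Disjoint (quad j e.1) (quad j e'.1) := fun e' he' =>
    h4.mono_right (Finset.subset_biUnion_of_mem (fun e : G × Ω => quad j e.1) he')
  have p : ∀ e' ∈ E, Disjoint (pts e) (pts e') := by
    intro e' he'
    rw [Finset.disjoint_left]
    intro x hx hx'
    have hc : x ∈ cov E := Finset.mem_biUnion.2 ⟨e', he', hx'⟩
    simp only [pts, Finset.mem_insert, Finset.mem_singleton] at hx
    rcases hx with rfl | rfl
    · exact h5 hc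
    · exact h6 hc
  refine ⟨⟨?_, ?_, ?_, ?_, ?_⟩, ?_⟩
  · intro x hx
    rcases Finset.mem_insert.1 hx with rfl | hx
    · exact h1
    · exact h.strong x hx
  · intro x hx
    rcases Finset.mem_insert.1 hx with rfl | hx
    · exact h2
    · exact h.notU x hx
  · intro x hx
    rcases Finset.mem_insert.1 hx with rfl | hx
    · exact h3
    · exact h.move x hx
  · intro x hx y hy hxy
    rcases Finset.mem_insert.1 hx with hx' | hx' <;> rcases Finset.mem_insert.1 hy with hy' | hy'
    · exact absurd (hx'.trans hy'.symm) hxy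
    · exact hx' ▸ q y hy'
    · exact hy' ▸ (q x hx').symm
    · exact h.dq x hx' y hy' hxy
  · intro x hx y hy hxy
    rcases Finset.mem_insert.1 hx with hx' | hx' <;> rcases Finset.mem_insert.1 hy with hy' | hy'
    · exact absurd (hx'.trans hy'.symm) hxy
    · exact hx' ▸ p y hy'
    · exact hy' ▸ (p x hx').symm
    · exact h.dp x hx' y hy' hxy
  · intro he
    exact h5 (Finset.mem_biUnion.2 ⟨e, he, by simp [pts]⟩)

theorem labs_mono (j : G) {E E' : Finset (G × Ω)} (h : E' ⊆ E) : labs j E' ⊆ labs j E :=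
  Finset.biUnion_subset_biUnion_of_subset_left _ h

theorem cov_mono {E E' : Finset (G × Ω)} (h : E' ⊆ E) : cov E' ⊆ cov E :=
  Finset.biUnion_subset_biUnion_of_subset_left _ h

theorem exchange {j : G} (hj2 : j * j = 1) (hjc : ∀ g, g * j = j * g) {U : Finset G}
    {E : Finset (G × Ω)} (h : Good j U E) {e : G × Ω} (he : e ∈ E) {a b : Ω} (hab : a ≠ b)
    (ha : a ∉ cov E) (hb : b ∉ cov E) {g₁ g₂ : G} (s1 : Strong j g₁) (s2 : Strong j g₂)
    (w1 : g₁ ∉ U ∪ labs j E) (w2 : g₂ ∉ U ∪ labs j E) (hq : g₁ ∉ quad j g₂)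
    (x1 : g₁ • a ∈ pts e) (x2 : g₂ • b ∈ pts e) (x3 : g₁ • a ≠ g₂ • b) :
    ∃ E' : Finset (G × Ω), E'.card = E.card + 1 ∧ Good j U E' := by
  have hsub : E.erase e ⊆ E := Finset.erase_subset _ _
  have hpe : pts e ⊆ cov E := Finset.subset_biUnion_of_mem pts he
  have hfree : ∀ x ∈ pts e, x ∉ cov (E.erase e) := by
    intro x hx hc
    obtain ⟨e', he', hx'⟩ := Finset.mem_biUnion.1 hc
    have := Finset.mem_erase.1 he'
    exact Finset.disjoint_left.1 (h.dp e he e' this.2 this.1.symm) hx hx'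
  rw [Finset.mem_union, not_or] at w1 w2
  obtain ⟨G1, n1⟩ := (h.mono hsub).insert (g₂, b) s2 w2.1 (fun h' : g₂ • b = b => hb (hpe (h' ▸ x2)))
    (disjoint_quad hj2 hjc (clo_labs hj2 hjc _) (fun h' => w2.2 (labs_mono j hsub h')))
    (fun h' => hb (cov_mono hsub h')) (hfree _ x2)
  obtain ⟨G2, n2⟩ := G1.insert (g₁, a) s1 w1.1 (fun h' : g₁ • a = a => ha (hpe (h' ▸ x1)))
    (disjoint_quad hj2 hjc (clo_labs hj2 hjc _) (by
      intro h'
      simp only [labs, Finset.biUnion_insert, Finset.mem_union] at h'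
      rcases h' with h' | h'
      · exact hq h'
      · exact w1.2 (labs_mono j hsub h')))
    (by
      intro h'
      simp only [cov, Finset.biUnion_insert, Finset.mem_union, pts, Finset.mem_insert,
        Finset.mem_singleton] at h'
      rcases h' with (h' | h') | h'
      · exact hab h'
      · exact ha (hpe (h' ▸ x2))
      · exact ha (cov_mono hsub h'))
    (by
      intro h'
      simp only [cov, Finset.biUnion_insert, Finset.mem_union, pts, Finset.mem_insert,
        Finset.mem_singleton] at h'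
      rcases h' with (h' | h') | h'
      · exact hb (hpe (h' ▸ x1))
      · exact x3 h'
      · exact hfree _ x1 h')
  refine ⟨_, ?_, G2⟩
  rw [Finset.card_insert_of_notMem n2, Finset.card_insert_of_notMem n1,
    Finset.card_erase_add_one he]

theorem dirac_step [Fintype G] [Fintype Ω] {j : G} (hj2 : j * j = 1) (hjc : ∀ g, g * j = j * g)
    {U : Finset G} (s : ℕ) (hs8 : 8 ≤ s)
    (hs : ∀ a b : Ω, a ≠ b → s ≤ (Finset.univ.filter fun g : G => Strong j g ∧ g • a = b).card)
    (hbound : 2 * U.card + 4 * Fintype.card Ω ≤ Fintype.card Ω * s)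
    {E : Finset (G × Ω)} (h : Good j U E) (hm : 2 * (E.card + 1) ≤ Fintype.card Ω) :
    ∃ E' : Finset (G × Ω), E'.card = E.card + 1 ∧ Good j U E' := by
  by_contra hcon
  set W := U ∪ labs j E with hW
  have hWc : W.card ≤ U.card + 4 * E.card :=
    (Finset.card_union_le _ _).trans (Nat.add_le_add_left (card_labs_le j E) _)
  have hcc : (cov E)ᶜ.card = Fintype.card Ω - 2 * E.card := by
    rw [Finset.card_compl, h.card_cov]
  obtain ⟨a, ha, b, hb, hab⟩ : ∃ a ∈ (cov E)ᶜ, ∃ b ∈ (cov E)ᶜ, a ≠ b :=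
    Finset.one_lt_card.1 (by omega)
  have ha' : a ∉ cov E := Finset.mem_compl.1 ha
  have hb' : b ∉ cov E := Finset.mem_compl.1 hb
  let av : Ω → Ω → Finset G := fun x y =>
    Finset.univ.filter fun g : G => Strong j g ∧ g • x = y ∧ g ∉ W
  let cnt : Ω → Ω → ℕ := fun x y => (W.filter fun g => g • x = y).card
  have hav : ∀ x y, x ≠ y → s ≤ (av x y).card + cnt x y := by
    intro x y hxy
    refine (hs x y hxy).trans ((Finset.card_le_card ?_).trans (Finset.card_union_le _ _))
    intro g hg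
    simp only [Finset.mem_filter, Finset.mem_univ, true_and, Finset.mem_union, av] at hg ⊢
    by_cases hgW : g ∈ W
    · exact Or.inr ⟨hgW, hg.2⟩
    · exact Or.inl ⟨hg.1, hg.2, hgW⟩
  have hfree : ∀ x ∉ cov E, ∀ y ∉ cov E, x ≠ y → s ≤ cnt x y := by
    intro x hx y hy hxy
    have : av x y = ∅ := by
      rw [Finset.eq_empty_iff_forall_notMem]
      intro g hg
      simp only [Finset.mem_filter, Finset.mem_univ, true_and, av] at hg
      obtain ⟨g1, g2, g3⟩ := hg
      rw [hW, Finset.mem_union, not_or] at g3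
      obtain ⟨G1, n1⟩ := h.insert (g, x) g1 g3.1 (by simpa [g2] using hxy.symm)
        (disjoint_quad hj2 hjc (clo_labs hj2 hjc _) g3.2) hx (by simpa [g2] using hy)
      exact hcon ⟨_, Finset.card_insert_of_notMem n1, G1⟩
    have h2 := hav x y hxy
    rw [this] at h2
    simpa using h2
  have hex : ∀ e ∈ E, ∀ x ∈ pts e, ∀ y ∈ pts e, x ≠ y → s ≤ cnt a x + cnt b y := by
    intro e he x hx y hy hxy
    have hpe : pts e ⊆ cov E := Finset.subset_biUnion_of_mem pts he
    have h1 := hav a x (fun h' => ha' (h' ▸ hpe hx))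
    have h2 := hav b y (fun h' => hb' (h' ▸ hpe hy))
    rcases (av a x).eq_empty_or_nonempty with e1 | ⟨g₁, hg₁⟩
    · rw [e1] at h1
      simp only [Finset.card_empty] at h1
      omega
    rcases (av b y).eq_empty_or_nonempty with e2 | ⟨g₂, hg₂⟩
    · rw [e2] at h2
      simp only [Finset.card_empty] at h2
      omega
    have key : ∀ u ∈ av a x, ∀ v ∈ av b y, u ∈ quad j v := by
      intro u hu v hv
      by_contra hq
      simp only [Finset.mem_filter, Finset.mem_univ, true_and, av] at hu hv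
      exact hcon (exchange hj2 hjc h he hab ha' hb' hu.1 hv.1 hu.2.2 hv.2.2 hq
        (hu.2.1 ▸ hx) (hv.2.1 ▸ hy) (by rw [hu.2.1, hv.2.1]; exact hxy))
    have c1 : (av a x).card ≤ 4 :=
      (Finset.card_le_card fun u hu => key u hu g₂ hg₂).trans (card_quad_le _ _)
    have c2 : (av b y).card ≤ 4 :=
      (Finset.card_le_card fun v hv => mem_quad_symm hj2 hjc (key g₁ hg₁ v hv)).trans
        (card_quad_le _ _)
    omega
  have htot : ∀ x, x ∉ cov E →
      (∑ y ∈ cov E, cnt x y) + (Fintype.card Ω - 2 * E.card - 1) * s ≤ W.card := by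
    intro x hx
    have t1 : W.card = ∑ y : Ω, cnt x y :=
      Finset.card_eq_sum_card_fiberwise (f := fun g : G => g • x) (fun _ _ => Finset.mem_univ _)
    have t2 : ∑ y : Ω, cnt x y = ∑ y ∈ cov E, cnt x y + ∑ y ∈ (cov E)ᶜ, cnt x y :=
      (Finset.sum_add_sum_compl _ _).symm
    have t3 : ∑ y ∈ (cov E)ᶜ.erase x, cnt x y ≤ ∑ y ∈ (cov E)ᶜ, cnt x y :=
      Finset.sum_le_sum_of_subset (Finset.erase_subset _ _)
    have t4 : ((cov E)ᶜ.erase x).card * s ≤ ∑ y ∈ (cov E)ᶜ.erase x, cnt x y := by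
      rw [← smul_eq_mul]
      apply Finset.card_nsmul_le_sum
      intro y hy
      have := Finset.mem_erase.1 hy
      exact hfree x hx y (Finset.mem_compl.1 this.2) this.1.symm
    rw [Finset.card_erase_of_mem (Finset.mem_compl.2 hx), hcc] at t4
    omega
  have hsum : E.card * (2 * s) ≤ (∑ y ∈ cov E, cnt a y) + ∑ y ∈ cov E, cnt b y := by
    rw [h.sum_cov, h.sum_cov, ← Finset.sum_add_distrib, ← smul_eq_mul]
    apply Finset.card_nsmul_le_sum
    intro e he
    have m1 : e.2 ∈ pts e := by simp [pts]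
    have m2 : e.1 • e.2 ∈ pts e := by simp [pts]
    have := hex e he _ m1 _ m2 (h.move e he).symm
    have := hex e he _ m2 _ m1 (h.move e he)
    omega
  have ta := htot a ha'
  have tb := htot b hb'
  obtain ⟨t, ht⟩ : ∃ t, Fintype.card Ω = 2 * E.card + 2 + t := ⟨Fintype.card Ω - (2 * E.card + 2), by omega⟩
  rw [ht] at ta tb hbound
  have e1 : 2 * E.card + 2 + t - 2 * E.card - 1 = t + 1 := by omega
  rw [e1] at ta tb
  nlinarith [Nat.zero_le (t * s)]

theorem dirac [Fintype G] [Fintype Ω] {j : G} (hj2 : j * j = 1) (hjc : ∀ g, g * j = j * g)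
    {U : Finset G} (s : ℕ) (hs8 : 8 ≤ s)
    (hs : ∀ a b : Ω, a ≠ b → s ≤ (Finset.univ.filter fun g : G => Strong j g ∧ g • a = b).card)
    (hbound : 2 * U.card + 4 * Fintype.card Ω ≤ Fintype.card Ω * s) (m : ℕ)
    (hm : 2 * m ≤ Fintype.card Ω) :
    ∃ E : Finset (G × Ω), E.card = m ∧ Good j U E := by
  induction m with
  | zero => exact ⟨∅, rfl, ⟨by simp, by simp, by simp, by simp, by simp⟩⟩
  | succ m ih =>
    obtain ⟨E, hE, hG⟩ := ih (by omega)
    obtain ⟨E', hE', hG'⟩ := dirac_step hj2 hjc s hs8 hs hbound hG (by omega)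
    exact ⟨E', by omega, hG'⟩

end Pool.Agent.P.MP_da365b_co
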