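import Pool.Agent.P.MP_da365b_co.SelfC

namespace Pool.Agent.P.MP_da365b_co

set_option linter.unusedSectionVars false

/-- The hypothesis of `selfc`. -/
def SC (G : Type*) [Group G] : Prop :=
  ∃ Y E F : Subgroup G, (∀ g, g * g ∈ Y) ∧ E ≤ F ∧ F ≤ Y ∧ (∀ e ∈ E, e * e = 1) ∧
    (∀ a ∈ F, ∀ e ∈ E, a * e = e * a) ∧ (∀ a ∈ F, a * a ∈ E) ∧
    (∀ a ∈ F, (∀ b ∈ F, a * b = b * a) → a ∈ E) ∧
    (∀ y ∈ Y, (∀ e ∈ E, y * e = e * y) → (∀ a ∈ F, y * a * y⁻¹ * a⁻¹ ∈ E) → y ∈ F) ∧
    (∀ y ∈ Y, (∀ e ∈ E, y * e = e * y) → ∀ e ∈ E, ∀ x : G,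
      (x * e * x⁻¹) * y * (x * e * x⁻¹) = y⁻¹ → y ∈ E)

theorem SC.starter {G : Type*} [Group G] [Finite G] (h : SC G) : HasStarter G := by
  obtain ⟨Y, E, F, h1, h2, h3, h4, h5, h6, h7, h8, h9⟩ := h
  exact selfc Y E F h1 h2 h3 h4 h5 h6 h7 h8 h9

theorem SC.of_equiv {G H : Type*} [Group G] [Group H] (φ : G ≃* H) (h : SC H) : SC G := by
  obtain ⟨Y, E, F, h1, h2, h3, h4, h5, h6, h7, h8, h9⟩ := h
  have cE : ∀ y : G, (∀ e ∈ E.comap φ.toMonoidHom, y * e = e * y) →
      ∀ e ∈ E, φ y * e = e * φ y := by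
    intro y hy e he
    have := congrArg φ (hy (φ.symm e) (by simpa using he))
    simpa using this
  refine ⟨Y.comap φ.toMonoidHom, E.comap φ.toMonoidHom, F.comap φ.toMonoidHom, ?_,
    Subgroup.comap_mono h2, Subgroup.comap_mono h3, ?_, ?_, ?_, ?_, ?_, ?_⟩
  · intro g
    simpa using h1 (φ g)
  · intro e he
    apply φ.injective
    simpa using h4 (φ e) he
  · intro a ha e he
    apply φ.injective
    simpa using h5 (φ a) ha (φ e) he
  · intro a ha
    simpa using h6 (φ a) ha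
  · intro a ha h
    apply h7 (φ a) ha
    intro b hb
    have := congrArg φ (h (φ.symm b) (by simpa using hb))
    simpa using this
  · intro y hy k1 k2
    apply h8 (φ y) hy (cE y k1)
    intro a ha
    simpa using k2 (φ.symm a) (by simpa using ha)
  · intro y hy k1 e he x k2
    apply h9 (φ y) hy (cE y k1) (φ e) he (φ x)
    simpa using congrArg φ k2

theorem SC.of_self {G : Type*} [Group G] (E : Subgroup G) (h1 : ∀ e ∈ E, e * e = 1)
    (h2 : ∀ y : G, (∀ e ∈ E, y * e = e * y) → y ∈ E) : SC G := by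
  have hc : ∀ a ∈ E, ∀ e ∈ E, a * e = e * a := by
    intro a ha e he
    have := h1 _ (E.mul_mem ha he)
    rw [← inv_eq_of_mul_eq_one_right this, mul_inv_rev, inv_eq_of_mul_eq_one_right (h1 a ha),
      inv_eq_of_mul_eq_one_right (h1 e he)]
  exact ⟨⊤, E, E, fun _ => trivial, le_rfl, le_top, h1, hc, fun a ha => E.mul_mem ha ha,
    fun a ha _ => ha, fun y _ h _ => h2 y h, fun y _ h _ _ _ _ => h2 y h⟩

section perm

variable {α : Type*} [DecidableEq α]

/-- Permutations moving each point inside its pair. -/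
def pairGrp (σ : α → α) (hσ : ∀ i, σ (σ i) = i) : Subgroup (Equiv.Perm α) where
  carrier := {g | ∀ i, g i = i ∨ g i = σ i}
  one_mem' := fun _ => Or.inl rfl
  mul_mem' := by
    intro g h hg hh i
    rw [Equiv.Perm.mul_apply]
    rcases hh i with k | k <;> rw [k]
    · exact hg i
    · rcases hg (σ i) with k' | k'
      · exact Or.inr k'
      · exact Or.inl (k'.trans (hσ i))
  inv_mem' := by
    intro g hg i
    rcases hg (g⁻¹ i) with k | k
    · left
      rw [← k]
      simp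
    · right
      have : i = σ (g⁻¹ i) := by
        rw [← k]
        simp
      conv_rhs => rw [this, hσ]

theorem pairGrp_sq (σ : α → α) (hσ : ∀ i, σ (σ i) = i) (g : Equiv.Perm α)
    (hg : g ∈ pairGrp σ hσ) : g * g = 1 := by
  ext i
  rw [Equiv.Perm.mul_apply, Equiv.Perm.one_apply]
  rcases hg i with k | k
  · rw [k, k]
  · rcases hg (σ i) with k' | k'
    · have : σ i = i := g.injective (k'.trans k.symm)
      rw [k, k', this]
    · rw [k, k', hσ]

theorem swap_mem (σ : α → α) (hσ : ∀ i, σ (σ i) = i) (i : α) :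
    Equiv.swap i (σ i) ∈ pairGrp σ hσ := by
  intro j
  by_cases h1 : j = i
  · right
    rw [h1, Equiv.swap_apply_left]
  · by_cases h2 : j = σ i
    · right
      rw [h2, Equiv.swap_apply_right, hσ]
    · left
      exact Equiv.swap_apply_of_ne_of_ne h1 h2

theorem mem_of_moved (σ : α → α) (hσ : ∀ i, σ (σ i) = i)
    (h1 : ∀ i j, σ i = i → σ j = j → i = j) (y : Equiv.Perm α)
    (hy : ∀ i, σ i ≠ i → y i = i ∨ y i = σ i) (hy' : ∀ i, σ i ≠ i → y⁻¹ i = i ∨ y⁻¹ i = σ i) :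
    y ∈ pairGrp σ hσ := by
  intro i
  by_cases h : σ i = i
  · left
    by_cases h' : σ (y i) = y i
    · exact h1 _ _ h' h
    · rcases hy' _ h' with k | k
      · simpa using k.symm
      · have : i = σ (y i) := by simpa using k
        have k2 : σ i = y i := by
          conv_lhs => rw [this, hσ]
        rw [← k2, h]
  · exact hy i h

theorem moved_of_comm {y g : Equiv.Perm α} (h : y * g = g * y) {i : α} (hi : g i ≠ i) :
    g (y i) ≠ y i := by
  intro k
  apply hi
  apply y.injective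
  rw [← Equiv.Perm.mul_apply, h, Equiv.Perm.mul_apply, k]

theorem inv_comm' {G : Type*} [Group G] {y g : G} (h : y * g = g * y) : y⁻¹ * g = g * y⁻¹ := by
  rw [inv_mul_eq_iff_eq_mul, ← mul_assoc, h, mul_inv_cancel_right]

end perm

/-- The pairing `2k ↔ 2k+1` of `Fin n`. -/
def prg (n : ℕ) (i : Fin n) : Fin n :=
  if h : i.1 % 2 = 0 then (if h' : i.1 + 1 < n then ⟨i.1 + 1, h'⟩ else i)
  else ⟨i.1 - 1, by omega⟩

theorem prg_val (n : ℕ) (i : Fin n) :
    (prg n i).1 = if i.1 % 2 = 0 then (if i.1 + 1 < n then i.1 + 1 else i.1) else i.1 - 1 := by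
  unfold prg
  split_ifs <;> rfl

theorem prg_prg (n : ℕ) (i : Fin n) : prg n (prg n i) = i := by
  apply Fin.ext
  have := i.2
  rw [prg_val, prg_val]
  split_ifs <;> omega

theorem prg_fix (n : ℕ) (i j : Fin n) (hi : prg n i = i) (hj : prg n j = j) : i = j := by
  apply Fin.ext
  have h1 := congrArg Fin.val hi
  have h2 := congrArg Fin.val hj
  have := i.2
  have := j.2
  rw [prg_val] at h1 h2
  split_ifs at h1 h2 <;> omega

theorem sc_perm (n : ℕ) : SC (Equiv.Perm (Fin n)) := by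
  apply SC.of_self (pairGrp (prg n) (prg_prg n)) (pairGrp_sq _ _)
  have key : ∀ y : Equiv.Perm (Fin n), (∀ e ∈ pairGrp (prg n) (prg_prg n), y * e = e * y) →
      ∀ i, prg n i ≠ i → y i = i ∨ y i = prg n i := by
    intro y hy i hi
    have := moved_of_comm (hy _ (swap_mem _ (prg_prg n) i)) (i := i) (by simpa using hi)
    by_contra h
    push Not at h
    exact this (Equiv.swap_apply_of_ne_of_ne h.1 h.2)
  intro y hy
  exact mem_of_moved _ _ (prg_fix n) y (key y hy) (key y⁻¹ fun e he => inv_comm' (hy e he))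

theorem sc_alt_big (n : ℕ) (hn : 6 ≤ n) : SC (alternatingGroup (Fin n)) := by
  apply SC.of_self ((pairGrp (prg n) (prg_prg n)).subgroupOf _)
  · intro e he
    exact Subtype.ext (pairGrp_sq _ (prg_prg n) e.1 he)
  have key : ∀ y : alternatingGroup (Fin n),
      (∀ e ∈ (pairGrp (prg n) (prg_prg n)).subgroupOf (alternatingGroup (Fin n)), y * e = e * y) →
      ∀ i, prg n i ≠ i → y.1 i = i ∨ y.1 i = prg n i := by
    intro y hy i hi
    have two : ∀ j : Fin n, prg n j ≠ j → j ≠ i → prg n j ≠ i →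
        (y.1 i = i ∨ y.1 i = prg n i) ∨ (y.1 i = j ∨ y.1 i = prg n j) := by
      intro j hj h1 h2
      have hm : Equiv.swap i (prg n i) * Equiv.swap j (prg n j) ∈ alternatingGroup (Fin n) := by
        rw [Equiv.Perm.mem_alternatingGroup, Equiv.Perm.sign_mul, Equiv.Perm.sign_swap hi.symm,
          Equiv.Perm.sign_swap hj.symm]
        simp
      have hc := congrArg Subtype.val (hy ⟨_, hm⟩
        ((pairGrp _ _).mul_mem (swap_mem _ (prg_prg n) i) (swap_mem _ (prg_prg n) j)))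
      have := moved_of_comm (y := y.1) hc (i := i) (by
        rw [Equiv.Perm.mul_apply, Equiv.swap_apply_of_ne_of_ne h1.symm h2.symm]
        simpa using hi)
      by_contra h
      push Not at h
      apply this
      rw [Equiv.Perm.mul_apply, Equiv.swap_apply_of_ne_of_ne h.2.1 h.2.2,
        Equiv.swap_apply_of_ne_of_ne h.1.1 h.1.2]
    have ex : ∃ a b : ℕ, a % 2 = 0 ∧ b % 2 = 0 ∧ a < b ∧ b ≤ 4 ∧ i.1 ≠ a ∧ i.1 ≠ a + 1 ∧
        i.1 ≠ b ∧ i.1 ≠ b + 1 := by
      by_cases h1 : i.1 < 2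
      · exact ⟨2, 4, by omega⟩
      · by_cases h2 : i.1 < 4
        · exact ⟨0, 4, by omega⟩
        · exact ⟨0, 2, by omega⟩
    obtain ⟨a, b, k1, k2, k3, k4, k5, k6, k7, k8⟩ := ex
    have pa : (prg n ⟨a, by omega⟩).1 = a + 1 := by
      rw [prg_val, if_pos k1, if_pos (by simp only; omega)]
    have pb : (prg n ⟨b, by omega⟩).1 = b + 1 := by
      rw [prg_val, if_pos k2, if_pos (by simp only; omega)]
    rcases two ⟨a, by omega⟩ (by rw [Ne, Fin.ext_iff, pa]; simp)
      (by rw [Ne, Fin.ext_iff]; exact k5.symm) (by rw [Ne, Fin.ext_iff, pa]; exact k6.symm)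
      with h | h
    · exact h
    rcases two ⟨b, by omega⟩ (by rw [Ne, Fin.ext_iff, pb]; simp)
      (by rw [Ne, Fin.ext_iff]; exact k7.symm) (by rw [Ne, Fin.ext_iff, pb]; exact k8.symm)
      with h' | h'
    · exact h'
    simp only [Fin.ext_iff, pa, pb] at h h'
    omega
  intro y hy
  exact mem_of_moved _ (prg_prg n) (prg_fix n) y.1 (key y hy) (key y⁻¹ fun e he => inv_comm' (hy e he))

/-- The four-group generated by two commuting involutions. -/
def four {G : Type*} [Group G] (a b : G) (ha : a * a = 1) (hb : b * b = 1) (hab : b * a = a * b) :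
    Subgroup G where
  carrier := {g | g = 1 ∨ g = a ∨ g = b ∨ g = a * b}
  one_mem' := Or.inl rfl
  mul_mem' := by
    have e1 : a * (a * b) = b := by rw [← mul_assoc, ha, one_mul]
    have e2 : b * (a * b) = a := by rw [← mul_assoc, hab, mul_assoc, hb, mul_one]
    have e3 : a * b * a = b := by rw [mul_assoc, hab, e1]
    have e4 : a * b * b = a := by rw [mul_assoc, hb, mul_one]
    have e5 : a * b * (a * b) = 1 := by rw [← mul_assoc, e3, hb]
    rintro x y (rfl | rfl | rfl | rfl) (rfl | rfl | rfl | rfl) <;> simp [*]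
  inv_mem' := by
    have e3 : a * b * a = b := by rw [mul_assoc, hab, ← mul_assoc, ha, one_mul]
    have e5 : a * b * (a * b) = 1 := by rw [← mul_assoc, e3, hb]
    rintro x (rfl | rfl | rfl | rfl)
    · simp
    · simp [inv_eq_of_mul_eq_one_right ha]
    · simp [inv_eq_of_mul_eq_one_right hb]
    · rw [inv_eq_of_mul_eq_one_right e5]
      simp

theorem SC.of_four {G : Type*} [Group G] (a b : G) (ha : a * a = 1) (hb : b * b = 1)
    (hab : b * a = a * b)
    (h : ∀ y : G, y * a = a * y → y * b = b * y → y = 1 ∨ y = a ∨ y = b ∨ y = a * b) : SC G := by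
  apply SC.of_self (four a b ha hb hab)
  · rintro x (rfl | rfl | rfl | rfl)
    · simp
    · exact ha
    · exact hb
    · rw [← mul_assoc, mul_assoc a b a, hab, ← mul_assoc, ha, one_mul, hb]
  · intro y hy
    exact h y (hy a (Or.inr (Or.inl rfl))) (hy b (Or.inr (Or.inr (Or.inl rfl))))

theorem four_cases {α : Type*} {a b y : Equiv.Perm α} (x : α) (h1 : y * a = a * y)
    (h2 : y * b = b * y) (g : Equiv.Perm α) (k1 : g * a = a * g) (k2 : g * b = b * g)
    (h : y x = g x) :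
    y x = g x ∧ y (a x) = g (a x) ∧ y (b x) = g (b x) ∧ y (a (b x)) = g (a (b x)) := by
  have e : ∀ (c u : Equiv.Perm α), u * c = c * u → ∀ z, u (c z) = c (u z) := by
    intro c u hu z
    rw [← Equiv.Perm.mul_apply, hu, Equiv.Perm.mul_apply]
  simp only [e a y h1, e b y h2, e a g k1, e b g k2, h, and_self]

theorem sc_alt_four {α : Type*} [Fintype α] [DecidableEq α] (p q r s : α) (h1 : p ≠ q)
    (h2 : p ≠ r) (h3 : p ≠ s) (h4 : q ≠ r) (h5 : q ≠ s) (h6 : r ≠ s)
    (h7 : ∀ u v : α, u ≠ p → u ≠ q → u ≠ r → u ≠ s → v ≠ p → v ≠ q → v ≠ r → v ≠ s → u = v) :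
    SC (alternatingGroup α) := by
  obtain ⟨a, am, ap, aq, ar, as, ao⟩ : ∃ a ∈ alternatingGroup α, a p = q ∧ a q = p ∧ a r = s ∧
      a s = r ∧ ∀ u, u ≠ p → u ≠ q → u ≠ r → u ≠ s → a u = u := by
    refine ⟨Equiv.swap p q * Equiv.swap r s, ?_, ?_, ?_, ?_, ?_, ?_⟩
    · rw [Equiv.Perm.mem_alternatingGroup, Equiv.Perm.sign_mul, Equiv.Perm.sign_swap h1,
        Equiv.Perm.sign_swap h6]
      simp
    · simp [Equiv.swap_apply_of_ne_of_ne h2 h3]
    · simp [Equiv.swap_apply_of_ne_of_ne h4 h5]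
    · simp [Equiv.swap_apply_of_ne_of_ne h3.symm h5.symm]
    · simp [Equiv.swap_apply_of_ne_of_ne h2.symm h4.symm]
    · intro u k1 k2 k3 k4
      simp [Equiv.swap_apply_of_ne_of_ne k3 k4, Equiv.swap_apply_of_ne_of_ne k1 k2]
  obtain ⟨b, bm, bp, bq, br, bs, bo⟩ : ∃ b ∈ alternatingGroup α, b p = r ∧ b q = s ∧ b r = p ∧
      b s = q ∧ ∀ u, u ≠ p → u ≠ q → u ≠ r → u ≠ s → b u = u := by
    refine ⟨Equiv.swap p r * Equiv.swap q s, ?_, ?_, ?_, ?_, ?_, ?_⟩
    · rw [Equiv.Perm.mem_alternatingGroup, Equiv.Perm.sign_mul, Equiv.Perm.sign_swap h2,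
        Equiv.Perm.sign_swap h5]
      simp
    · simp [Equiv.swap_apply_of_ne_of_ne h1 h3]
    · simp [Equiv.swap_apply_of_ne_of_ne h3.symm h6.symm]
    · simp [Equiv.swap_apply_of_ne_of_ne h4.symm h6]
    · simp [Equiv.swap_apply_of_ne_of_ne h1.symm h4]
    · intro u k1 k2 k3 k4
      simp [Equiv.swap_apply_of_ne_of_ne k2 k4, Equiv.swap_apply_of_ne_of_ne k1 k3]
  have cases : ∀ u : α, u = p ∨ u = q ∨ u = r ∨ u = s ∨ (u ≠ p ∧ u ≠ q ∧ u ≠ r ∧ u ≠ s) := by
    intro u
    tauto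
  have haa : a * a = 1 := by
    ext u
    rcases cases u with rfl | rfl | rfl | rfl | ⟨k1, k2, k3, k4⟩ <;> simp [*]
  have hbb : b * b = 1 := by
    ext u
    rcases cases u with rfl | rfl | rfl | rfl | ⟨k1, k2, k3, k4⟩ <;> simp [*]
  have hab : b * a = a * b := by
    ext u
    rcases cases u with rfl | rfl | rfl | rfl | ⟨k1, k2, k3, k4⟩ <;> simp [*]
  refine SC.of_four ⟨a, am⟩ ⟨b, bm⟩ (Subtype.ext haa) (Subtype.ext hbb) (Subtype.ext hab) ?_
  rintro ⟨y, hy⟩
  simp only [Subtype.ext_iff, Subgroup.coe_mul, Subgroup.coe_one]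
  intro c1 c2
  have fix : ∀ g : Equiv.Perm α, g * a = a * g → ∀ u, u ≠ p → u ≠ q → u ≠ r → u ≠ s → g u = u := by
    intro g hg u k1 k2 k3 k4
    have e : a (g u) = g u := by
      rw [← Equiv.Perm.mul_apply, ← hg, Equiv.Perm.mul_apply, ao u k1 k2 k3 k4]
    refine h7 _ _ ?_ ?_ ?_ ?_ k1 k2 k3 k4 <;> intro k <;> rw [k] at e
    · exact h1 (e.symm.trans ap)
    · exact h1 (aq.symm.trans e)
    · exact h6 (e.symm.trans ar)
    · exact h6 (as.symm.trans e)
  have all : ∀ g : Equiv.Perm α, g * a = a * g → g * b = b * g → y p = g p → y = g := by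
    intro g k1 k2 h
    obtain ⟨e1, e2, e3, e4⟩ := four_cases p c1 c2 g k1 k2 h
    rw [ap] at e2
    rw [bp, ar] at e4
    rw [bp] at e3
    ext u
    rcases cases u with rfl | rfl | rfl | rfl | ⟨j1, j2, j3, j4⟩
    · exact e1
    · exact e2
    · exact e3
    · exact e4
    · rw [fix y c1 u j1 j2 j3 j4, fix g k1 u j1 j2 j3 j4]
  rcases cases (y p) with h | h | h | h | ⟨j1, j2, j3, j4⟩
  · exact Or.inl (all 1 (by simp) (by simp) h)
  · exact Or.inr (Or.inl (all a rfl hab.symm (h.trans ap.symm)))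
  · exact Or.inr (Or.inr (Or.inl (all b hab rfl (h.trans bp.symm))))
  · refine Or.inr (Or.inr (Or.inr (all (a * b) (by rw [mul_assoc, hab]) (by
      rw [← mul_assoc, hab]) ?_)))
    rw [h, Equiv.Perm.mul_apply, bp, ar]
  · exact absurd (ao _ j1 j2 j3 j4) (moved_of_comm c1 (by rw [ap]; exact h1.symm))

theorem sc_alt_small (n : ℕ) (h4 : 4 ≤ n) (h5 : n ≤ 5) : SC (alternatingGroup (Fin n)) := by
  apply sc_alt_four (⟨0, by omega⟩ : Fin n) ⟨1, by omega⟩ ⟨2, by omega⟩ ⟨3, by omega⟩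
  all_goals simp only [Ne, Fin.ext_iff]
  all_goals omega

theorem sc_alt (n : ℕ) (h4 : 4 ≤ n) : SC (alternatingGroup (Fin n)) := by
  by_cases h : n ≤ 5
  · exact sc_alt_small n h4 h
  · exact sc_alt_big n (by omega)

end Pool.Agent.P.MP_da365b_co
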