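import Pool.Agent.P.MP_da365b_co.ExPerm

namespace Pool.Agent.P.MP_da365b_co

set_option linter.unusedSectionVars false

theorem sc_quat {G : Type*} [Group G] (z i j : G)
    (hz : ∀ y, y ∈ Subgroup.center G ↔ y = 1 ∨ y = z) (hzz : z * z = 1)
    (hi : i * i = z) (hj : j * j = z) (hij : j * i = i * j * z)
    (h1 : ∀ y, y * i = i * y → y * j = j * y → y = 1 ∨ y = z)
    (h2 : ∀ y, y * y = 1 → y = 1 ∨ y = z) :
    SC G ∧ SC (G ⧸ Subgroup.center G) := by
  have zc : ∀ g, g * z = z * g := fun g =>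
    Subgroup.mem_center_iff.1 ((hz z).2 (Or.inr rfl)) g
  have zq : (z : G ⧸ Subgroup.center G) = 1 := (QuotientGroup.eq_one_iff z).2 ((hz z).2 (Or.inr rfl))
  have ha : (i : G ⧸ Subgroup.center G) * i = 1 := by rw [← QuotientGroup.mk_mul, hi, zq]
  have hb : (j : G ⧸ Subgroup.center G) * j = 1 := by rw [← QuotientGroup.mk_mul, hj, zq]
  have hab : (j : G ⧸ Subgroup.center G) * i = i * j := by
    rw [← QuotientGroup.mk_mul, hij, QuotientGroup.mk_mul, zq, mul_one, QuotientGroup.mk_mul]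
  have hij' : i * j = j * i * z := by rw [hij, mul_assoc, hzz, mul_one]
  have one : ∀ y : G, y * i = i * y → y * j = j * y → (y : G ⧸ Subgroup.center G) = 1 :=
    fun y k1 k2 => (QuotientGroup.eq_one_iff y).2 ((hz y).2 (h1 y k1 k2))
  have lift : ∀ y g : G, (y : G ⧸ Subgroup.center G) * g = g * y →
      g * y = y * g ∨ g * y = y * g * z := by
    intro y g h
    rw [← QuotientGroup.mk_mul, ← QuotientGroup.mk_mul, QuotientGroup.eq, hz] at h
    rcases h with h | h
    · exact Or.inl (inv_mul_eq_one.1 h).symm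
    · exact Or.inr (inv_mul_eq_iff_eq_mul.1 h)
  have hbar : ∀ y : G ⧸ Subgroup.center G, y * i = i * y → y * j = j * y →
      y = 1 ∨ y = i ∨ y = j ∨ y = (i : G ⧸ Subgroup.center G) * j := by
    intro y
    induction y using QuotientGroup.induction_on with
    | H y =>
    intro k1 k2
    rcases lift y i k1 with k1 | k1 <;> rcases lift y j k2 with k2 | k2
    · exact Or.inl (one y k1.symm k2.symm)
    · right; left
      have := one (y * i) (by rw [← mul_assoc, k1]) (by
        rw [← mul_assoc, k2, mul_assoc y i, hij', mul_assoc (y * j), ← zc i]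
        group)
      rw [QuotientGroup.mk_mul] at this
      rw [← mul_left_inj (i : G ⧸ Subgroup.center G), this, ha]
    · right; right; left
      have := one (y * j) (by
        rw [← mul_assoc, k1, mul_assoc y j, hij, mul_assoc (y * i), ← zc j]
        group) (by rw [← mul_assoc, k2])
      rw [QuotientGroup.mk_mul] at this
      rw [← mul_left_inj (j : G ⧸ Subgroup.center G), this, hb]
    · right; right; right
      have := one (y * j * i) (by
        rw [← mul_assoc, ← mul_assoc, k1, mul_assoc y j i, hij, mul_assoc (y * i) z j, ← zc j]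
        group) (by
        rw [← mul_assoc, ← mul_assoc, k2, mul_assoc (y * j) i j, hij', mul_assoc (y * j) z j,
          ← zc j, mul_assoc (y * j) (j * z) i, mul_assoc j z i, ← zc i]
        group)
      rw [QuotientGroup.mk_mul, QuotientGroup.mk_mul] at this
      rw [← mul_left_inj (j : G ⧸ Subgroup.center G), ← mul_left_inj (i : G ⧸ Subgroup.center G),
        this, mul_assoc _ (j : G ⧸ Subgroup.center G) j, hb, mul_one, ha]
  refine ⟨?_, SC.of_four _ _ ha hb hab hbar⟩
  have ee : ∀ e ∈ Subgroup.center G, e * e = 1 := by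
    intro e he
    rcases (hz e).1 he with rfl | rfl
    · simp
    · exact hzz
  have mi : i ∈ (four _ _ ha hb hab).comap (QuotientGroup.mk' (Subgroup.center G)) :=
    Or.inr (Or.inl rfl)
  have mj : j ∈ (four _ _ ha hb hab).comap (QuotientGroup.mk' (Subgroup.center G)) :=
    Or.inr (Or.inr (Or.inl rfl))
  refine ⟨⊤, Subgroup.center G, (four _ _ ha hb hab).comap (QuotientGroup.mk' _),
    fun _ => trivial, ?_, le_top, ee, fun a _ e he => Subgroup.mem_center_iff.1 he a, ?_, ?_, ?_,
    ?_⟩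
  · exact fun e he => Or.inl ((QuotientGroup.eq_one_iff e).2 he)
  · intro a h
    rw [← QuotientGroup.eq_one_iff, QuotientGroup.mk_mul]
    have h' : (a : G ⧸ Subgroup.center G) = 1 ∨ (a : G ⧸ Subgroup.center G) = i ∨
      (a : G ⧸ Subgroup.center G) = j ∨ (a : G ⧸ Subgroup.center G) = i * j := h
    rcases h' with h | h | h | h <;> rw [h]
    · simp
    · exact ha
    · exact hb
    · rw [← mul_assoc, mul_assoc _ (j : G ⧸ Subgroup.center G) i, hab, ← mul_assoc, ha, one_mul, hb]
  · exact fun a _ h => (hz a).2 (h1 a (h i mi) (h j mj))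
  · intro y _ _ h
    have c : ∀ g : G, y * g * y⁻¹ * g⁻¹ ∈ Subgroup.center G →
        (y : G ⧸ Subgroup.center G) * g = g * y := by
      intro g hg
      rw [← QuotientGroup.eq_one_iff] at hg
      simp only [QuotientGroup.mk_mul, QuotientGroup.mk_inv] at hg
      rw [mul_inv_eq_one, mul_inv_eq_iff_eq_mul] at hg
      exact hg
    exact hbar y (c i (h i mi)) (c j (h j mj))
  · intro y _ _ e he x h
    have ec := Subgroup.mem_center_iff.1 he
    rw [ec x, mul_inv_cancel_right, ← ec y, mul_assoc, ee e he, mul_one] at h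
    apply (hz y).2 (h2 y _)
    nth_rewrite 2 [h]
    simp

open Matrix

variable {F : Type*} [Field F]

theorem sl_ext {A B : SpecialLinearGroup (Fin 2) F} :
    A = B ↔ A.1 0 0 = B.1 0 0 ∧ A.1 0 1 = B.1 0 1 ∧ A.1 1 0 = B.1 1 0 ∧ A.1 1 1 = B.1 1 1 := by
  constructor
  · rintro rfl
    simp
  · rintro ⟨h1, h2, h3, h4⟩
    apply Subtype.ext
    ext a b
    fin_cases a <;> fin_cases b <;> assumption

theorem sl_mul (A B : SpecialLinearGroup (Fin 2) F) (a b : Fin 2) :
    (A * B).1 a b = A.1 a 0 * B.1 0 b + A.1 a 1 * B.1 1 b := by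
  simp [Matrix.mul_apply, Fin.sum_univ_two]

theorem sl_det (A : SpecialLinearGroup (Fin 2) F) :
    A.1 0 0 * A.1 1 1 - A.1 0 1 * A.1 1 0 = 1 := by
  rw [← Matrix.det_fin_two]
  exact A.2

theorem sl_mk (a b c d : F) (h : a * d - b * c = 1) :
    ∃ z : SpecialLinearGroup (Fin 2) F, z.1 0 0 = a ∧ z.1 0 1 = b ∧ z.1 1 0 = c ∧ z.1 1 1 = d :=
  ⟨⟨!![a, b; c, d], by rw [Matrix.det_fin_two_of]; exact h⟩, rfl, rfl, rfl, rfl⟩

theorem sl_one : (1 : SpecialLinearGroup (Fin 2) F).1 0 0 = 1 ∧
    (1 : SpecialLinearGroup (Fin 2) F).1 0 1 = 0 ∧ (1 : SpecialLinearGroup (Fin 2) F).1 1 0 = 0 ∧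
    (1 : SpecialLinearGroup (Fin 2) F).1 1 1 = 1 := by
  simp

theorem sc_sl_odd [Finite F] (h2 : (2 : F) ≠ 0) :
    SC (SpecialLinearGroup (Fin 2) F) ∧ SC (ProjectiveSpecialLinearGroup (Fin 2) F) := by
  have := Fintype.ofFinite F
  have hodd : Fintype.card F % 2 = 1 := by
    apply FiniteField.odd_card_of_char_ne_two
    intro h
    apply h2
    have := ringChar.Nat.cast_ringChar (R := F)
    rw [h] at this
    exact_mod_cast this
  obtain ⟨a, b, hab⟩ : ∃ a b : F, a * a + b * b + 1 = 0 := by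
    obtain ⟨a, b, h⟩ := FiniteField.exists_root_sum_quadratic
      (f := (Polynomial.X ^ 2 : Polynomial F))
      (g := Polynomial.X ^ 2 + Polynomial.C 1) (Polynomial.degree_X_pow 2)
      (Polynomial.degree_X_pow_add_C (by decide) _) hodd
    refine ⟨a, b, ?_⟩
    simp at h
    linear_combination h
  obtain ⟨o1, o2, o3, o4⟩ := sl_one (F := F)
  obtain ⟨z, z1, z2, z3, z4⟩ := sl_mk (-1 : F) 0 0 (-1) (by ring)
  obtain ⟨i, i1, i2, i3, i4⟩ := sl_mk (0 : F) (-1) 1 0 (by ring)
  obtain ⟨j, j1, j2, j3, j4⟩ := sl_mk a b b (-a) (by linear_combination -hab)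
  have fin : ∀ y : SpecialLinearGroup (Fin 2) F, y.1 0 1 = 0 → y.1 1 0 = 0 → y.1 0 0 = y.1 1 1 →
      y = 1 ∨ y = z := by
    intro y k1 k2 k3
    have d := sl_det y
    rw [k1, k2, ← k3] at d
    have : y.1 0 0 = 1 ∨ y.1 0 0 = -1 := mul_self_eq_one_iff.1 (by linear_combination d)
    rcases this with h | h
    · left
      rw [sl_ext, o1, o2, o3, o4]
      exact ⟨h, k1, k2, k3 ▸ h⟩
    · right
      rw [sl_ext, z1, z2, z3, z4]
      exact ⟨h, k1, k2, k3 ▸ h⟩
  have h1 : ∀ y, y * i = i * y → y * j = j * y → y = 1 ∨ y = z := by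
    intro y k1 k2
    rw [sl_ext] at k1 k2
    simp only [sl_mul, i1, i2, i3, i4, j1, j2, j3, j4] at k1 k2
    obtain ⟨p1, p2, -, -⟩ := k1
    obtain ⟨q1, q2, -, -⟩ := k2
    have e1 : y.1 0 1 * b * 2 = 0 := by linear_combination q1 + b * p1
    have e2 : y.1 0 1 * a * 2 = 0 := by linear_combination -q2 - b * p2
    have e3 : y.1 0 1 * 2 = 0 := by linear_combination y.1 0 1 * 2 * hab - a * e2 - b * e1
    have e4 : y.1 0 1 = 0 := (mul_eq_zero.1 e3).resolve_right h2
    exact fin y e4 (by linear_combination p1 - e4) (by linear_combination -p2)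
  apply sc_quat z i j
  · intro y
    constructor
    · intro hy
      have := Subgroup.mem_center_iff.1 hy
      exact h1 y (this i).symm (this j).symm
    · rintro (h | h)
      · exact h ▸ Subgroup.one_mem _
      · rw [h, Subgroup.mem_center_iff]
        intro g
        rw [sl_ext]
        simp only [sl_mul, z1, z2, z3, z4]
        exact ⟨by ring, by ring, by ring, by ring⟩
  · rw [sl_ext]
    simp only [sl_mul, z1, z2, z3, z4, o1, o2, o3, o4]
    exact ⟨by ring, by ring, by ring, by ring⟩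
  · rw [sl_ext]
    simp only [sl_mul, z1, z2, z3, z4, i1, i2, i3, i4]
    exact ⟨by ring, by ring, by ring, by ring⟩
  · rw [sl_ext]
    simp only [sl_mul, z1, z2, z3, z4, j1, j2, j3, j4]
    exact ⟨by linear_combination hab, by ring, by ring, by linear_combination hab⟩
  · rw [sl_ext]
    simp only [sl_mul, z1, z2, z3, z4, j1, j2, j3, j4, i1, i2, i3, i4]
    exact ⟨by ring, by ring, by ring, by ring⟩
  · exact h1
  · intro y k
    have d := sl_det y
    rw [sl_ext] at k
    simp only [sl_mul, o1, o2, o3, o4] at k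
    obtain ⟨p1, p2, p3, p4⟩ := k
    have t : (y.1 0 0 + y.1 1 1) * y.1 0 0 = 2 := by linear_combination p1 + d
    have t0 : y.1 0 0 + y.1 1 1 ≠ 0 := by
      intro h
      rw [h, zero_mul] at t
      exact h2 t.symm
    have f1 : (y.1 0 0 + y.1 1 1) * y.1 0 1 = 0 := by linear_combination p2
    have f2 : (y.1 0 0 + y.1 1 1) * y.1 1 0 = 0 := by linear_combination p3
    have f3 : (y.1 0 0 + y.1 1 1) * (y.1 0 0 - y.1 1 1) = 0 := by linear_combination p1 - p4
    exact fin y ((mul_eq_zero.1 f1).resolve_left t0) ((mul_eq_zero.1 f2).resolve_left t0)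
      (sub_eq_zero.1 ((mul_eq_zero.1 f3).resolve_left t0))

theorem sc_sl_even (h2 : (2 : F) = 0) :
    SC (SpecialLinearGroup (Fin 2) F) ∧ SC (ProjectiveSpecialLinearGroup (Fin 2) F) := by
  obtain ⟨o1, o2, o3, o4⟩ := sl_one (F := F)
  let E : Subgroup (SpecialLinearGroup (Fin 2) F) :=
    { carrier := {g | g.1 0 0 = 1 ∧ g.1 1 0 = 0 ∧ g.1 1 1 = 1}
      one_mem' := ⟨o1, o3, o4⟩
      mul_mem' := by
        rintro x y ⟨x1, x2, x3⟩ ⟨y1, y2, y3⟩
        simp only [Set.mem_ofPred_eq, sl_mul, x1, x2, x3, y1, y2, y3]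
        exact ⟨by ring, by ring, by ring⟩
      inv_mem' := by
        rintro x ⟨x1, x2, x3⟩
        have k := mul_inv_cancel x
        have d := sl_det x⁻¹
        rw [sl_ext] at k
        simp only [sl_mul, o1, o2, o3, o4, x1, x2, x3] at k
        obtain ⟨p1, -, p3, p4⟩ := k
        exact ⟨by linear_combination p1 - x.1 0 1 * p3, by linear_combination p3,
          by linear_combination p4⟩ }
  obtain ⟨u, u1, u2, u3, u4⟩ := sl_mk (1 : F) 1 0 1 (by ring)
  obtain ⟨v, v1, v2, v3, v4⟩ := sl_mk (1 : F) 0 1 1 (by ring)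
  have key : ∀ y : SpecialLinearGroup (Fin 2) F, y * u = u * y → y ∈ E := by
    intro y k
    have d := sl_det y
    rw [sl_ext] at k
    simp only [sl_mul, u1, u2, u3, u4] at k
    obtain ⟨p1, p2, -, -⟩ := k
    have e1 : y.1 1 0 = 0 := by linear_combination -p1
    have e2 : y.1 0 0 = y.1 1 1 := by linear_combination p2
    have e3 : (y.1 0 0 - 1) * (y.1 0 0 - 1) = 0 := by
      rw [e1, ← e2] at d
      linear_combination d + (1 - y.1 0 0) * h2
    have e4 : y.1 0 0 = 1 := sub_eq_zero.1 (mul_self_eq_zero.1 e3)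
    exact ⟨e4, e1, e2 ▸ e4⟩
  have s : SC (SpecialLinearGroup (Fin 2) F) := by
    apply SC.of_self E
    · rintro x ⟨x1, x2, x3⟩
      rw [sl_ext]
      simp only [sl_mul, x1, x2, x3, o1, o2, o3, o4]
      exact ⟨by ring, by linear_combination x.1 0 1 * h2, by ring, by ring⟩
    · exact fun y hy => key y (hy u ⟨u1, u3, u4⟩)
  refine ⟨s, SC.of_equiv ((QuotientGroup.quotientMulEquivOfEq ?_).trans
    QuotientGroup.quotientBot) s⟩
  rw [eq_bot_iff]
  intro y hy
  have c := Subgroup.mem_center_iff.1 hy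
  obtain ⟨y1, y2, y3⟩ := key y (c u).symm
  have k := c v
  rw [sl_ext] at k
  simp only [sl_mul, v1, v2, v3, v4] at k
  rw [Subgroup.mem_bot, sl_ext, o1, o2, o3, o4]
  exact ⟨y1, by linear_combination -k.1, y2, y3⟩

theorem sc_sl [Finite F] :
    SC (SpecialLinearGroup (Fin 2) F) ∧ SC (ProjectiveSpecialLinearGroup (Fin 2) F) := by
  by_cases h : (2 : F) = 0
  · exact sc_sl_even h
  · exact sc_sl_odd h

end Pool.Agent.P.MP_da365b_co
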