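import Pool.Agent.P.MP_da365b_co.Half

namespace Pool.Agent.P.MP_da365b_co

open Classical

set_option linter.unusedSectionVars false

variable {G : Type*} [Group G]

theorem exists_maxK [Finite G] (M : Subgroup G) (w : G) (hw : w ∉ M) :
    ∃ K : Subgroup G, M ≤ K ∧ w ∉ K ∧ ∀ K' : Subgroup G, K ≤ K' → w ∉ K' → K' ≤ K := by
  obtain ⟨K, hK⟩ := (Set.toFinite {K : Subgroup G | M ≤ K ∧ w ∉ K}).exists_maximal
    ⟨M, le_rfl, hw⟩
  exact ⟨K, hK.prop.1, hK.prop.2, fun K' h1 h2 => hK.le_of_ge ⟨hK.prop.1.trans h1, h2⟩ h1⟩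

noncomputable def rest [Fintype G] (M : Subgroup G) (U W : Finset G) : Finset G :=
  (Finset.univ.filter fun g => g ∉ M ∧ g ∉ U) ∪ W

theorem four_ind [Fintype G] (hG : IsPGroup 2 G) {j : G} (hj1 : j ≠ 1) (hj2 : j * j = 1)
    (hjc : ∀ g, g * j = j * g) (k : ℕ) :
    ∀ (M : Subgroup G) [M.Normal], Fintype.card G ≤ cd M + k → j ∈ M → 4 ∣ cd M →
      ∀ U : Finset G, Clo j U → (∀ g ∈ U, Strong j g) →
      ∀ W : Finset G, (∀ t ∈ W, t ∈ M ∧ t ≠ 1 ∧ t * t = 1) → 2 ≤ W.card →
      (4 * cd M * U.card + 4 * Fintype.card G ≤ cd M * Fintype.card G ∨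
        ((∀ g, g ∉ M → Strong j g) ∧
          2 * cd M * U.card + 4 * Fintype.card G ≤ cd M * Fintype.card G)) →
      Cover (rest M U W) := by
  have : Fact (Nat.Prime 2) := ⟨Nat.prime_two⟩
  have base : ∀ (M : Subgroup G), (∀ g, g ∈ M) → ∀ U W : Finset G,
      (∀ t ∈ W, t ∈ M ∧ t ≠ 1 ∧ t * t = 1) → Cover (rest M U W) := by
    intro M hM U W hW
    have : rest M U W = W := by
      ext g
      simp [rest, hM]
    rw [this]
    exact Cover.invols W fun t ht => (hW t ht).2
  induction k with
  | zero =>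
    intro M _ hc _ _ U _ _ W hW _ _
    apply base M _ U W hW
    intro g
    have : Finset.univ.filter (· ∈ M) = Finset.univ :=
      Finset.eq_univ_of_card _ (le_antisymm (Finset.card_le_univ _) hc)
    have h2 : g ∈ Finset.univ.filter (· ∈ M) := by rw [this]; simp
    simpa using h2
  | succ k ih =>
    intro M hMn hc hjM h4 U hU hUs W hW hW2 hphase
    by_cases hall : ∀ g, g ∈ M
    · exact base M hall U W hW
    push Not at hall
    obtain ⟨w, -, hw0, hw2, hwc⟩ := exists_step hG M ⊤ (by simpa using hall)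
    have hwM : ∀ x ∈ M, w * x * w⁻¹ ∈ M := fun x hx => hMn.conj_mem x hx w
    set Mp := adj M w hwM hw2 with hMp
    have hMpn : Mp.Normal := adj_normal hwc
    have hcMp : cd Mp = 2 * cd M := cd_of_two hw0 fun x => mem_adj
    have hm0 : 0 < cd M := Finset.card_pos.2 ⟨1, by simp⟩
    have hm4 : 4 ≤ cd M := Nat.le_of_dvd hm0 h4
    obtain ⟨K, hMK, hwK, hmax⟩ := exists_maxK M w hw0
    have hwK' : ∀ x ∈ K, w * x * w⁻¹ ∈ K := by
      intro x hx
      have : w * x * w⁻¹ = x * (x⁻¹ * w * x⁻¹⁻¹ * w⁻¹) := by group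
      rw [this]
      exact K.mul_mem hx (hMK (hwc _))
    set S := adj K w hwK' (hMK hw2) with hS
    have hL : Lev M w K S := ⟨hMn, hw2, hwc, hMK, hwK, fun x => mem_adj⟩
    have := Fintype.ofFinite (G ⧸ S)
    set p := Fintype.card (G ⧸ S) with hp
    set n := Fintype.card G with hn
    have hcS : cd S = 2 * cd K := cd_of_two hwK fun x => mem_adj
    have hpn : p * (2 * cd K) = n := by
      rw [← hcS, cd_eq, hp, hn, ← Nat.card_eq_fintype_card, ← Nat.card_eq_fintype_card]
      exact (Subgroup.card_eq_card_quotient_mul_card_subgroup S).symm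
    have hp2 : 2 ∣ p ∨ p = 1 := by
      obtain ⟨e, he⟩ := hG.index S
      have : p = 2 ^ e := by
        rw [← he, hp, ← Nat.card_eq_fintype_card]
        rfl
      rcases e with _ | e
      · right; simpa using this
      · left; rw [this]; exact dvd_pow_self 2 (by omega)
    have hMKc : cd M ≤ cd K := Finset.card_le_card fun x hx => by
      simp only [Finset.mem_filter, Finset.mem_univ, true_and] at hx ⊢
      exact hMK hx
    -- the counting bound and the new phase
    have key : ∃ s, 8 ≤ s ∧ (∀ a b : G ⧸ S, a ≠ b →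
        s ≤ (Finset.univ.filter fun g : G => Strong j g ∧ g • a = b).card) ∧
        2 * U.card + 4 * p ≤ p * s ∧ ∀ u' : ℕ, u' ≤ U.card + 2 * p →
          (4 * cd Mp * u' + 4 * n ≤ cd Mp * n ∨
            ((∀ g, g ∉ Mp → Strong j g) ∧ 2 * cd Mp * u' + 4 * n ≤ cd Mp * n)) := by
      have beta : (∀ g, g ∉ Mp → Strong j g) → 2 * cd M * U.card + 4 * n ≤ cd M * n →
          ∃ s, 8 ≤ s ∧ (∀ a b : G ⧸ S, a ≠ b →
          s ≤ (Finset.univ.filter fun g : G => Strong j g ∧ g • a = b).card) ∧
          2 * U.card + 4 * p ≤ p * s ∧ ∀ u' : ℕ, u' ≤ U.card + 2 * p →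
            (4 * cd Mp * u' + 4 * n ≤ cd Mp * n ∨
              ((∀ g, g ∉ Mp → Strong j g) ∧ 2 * cd Mp * u' + 4 * n ≤ cd Mp * n)) := by
        intro hst hb
        have e1 : 2 * p * cd M ≤ n := by
          rw [← hpn]; nlinarith
        refine ⟨2 * cd K, by omega, fun a b hab => hL.full a b hab _ hst, ?_, fun u' hu' => ?_⟩
        · rw [hpn]
          apply Nat.le_of_mul_le_mul_left _ hm0
          nlinarith
        · right
          refine ⟨hst, ?_⟩
          rw [hcMp]
          nlinarith
      rcases hphase with hα | ⟨hst, hβ⟩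
      · by_cases hKM : K ≤ M
        · apply beta _ (by nlinarith)
          intro g hg
          have : g * g ∉ M := by
            intro hgg
            have hgM : ∀ x ∈ M, g * x * g⁻¹ ∈ M := fun x hx => hMn.conj_mem x hx g
            have := hmax (adj M g hgM hgg) (hKM.trans le_adj) (by
              rw [mem_adj]
              rintro (h' | h')
              · exact hw0 h'
              · apply hg
                have e : g = w * (g⁻¹ * w)⁻¹ := by group
                rw [e]
                exact Mp.mul_mem self_mem_adj (Mp.inv_mem (le_adj h')))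
            exact hg (le_adj (hKM (this self_mem_adj)))
          exact ⟨fun h' => this (h' ▸ M.one_mem), fun h' => this (h' ▸ hjM)⟩
        · obtain ⟨c, hc1, hc2⟩ := SetLike.not_le_iff_exists.1 hKM
          have h2 := two_cd_le hMK hc1 hc2
          have e1 : 4 * p * cd M ≤ n := by
            rw [← hpn]; nlinarith
          refine ⟨cd K, by omega, fun a b hab => (hL.half hmax a b hab).trans ?_, ?_,
            fun u' hu' => ?_⟩
          · apply Finset.card_le_card
            intro g hg
            simp only [Finset.mem_filter, Finset.mem_univ, true_and] at hg ⊢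
            exact ⟨⟨fun h' => hg.1 (h' ▸ M.one_mem), fun h' => hg.1 (h' ▸ hjM)⟩, hg.2⟩
          · apply Nat.le_of_mul_le_mul_left _ (show 0 < 2 * cd M by omega)
            have : 2 * cd M * (p * cd K) = cd M * n := by rw [← hpn]; ring
            rw [this]
            nlinarith
          · left
            rw [hcMp]
            nlinarith
      · exact beta (fun g hg => hst g fun h' => hg (le_adj h')) hβ
    obtain ⟨s, hs8, hs, hbound, hnew⟩ := key
    -- the level
    set D := Finset.univ.filter fun x : G => w⁻¹ * x ∈ M ∧ x * x ≠ 1 ∧ x ∉ U with hD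
    set I := Finset.univ.filter fun x : G => w⁻¹ * x ∈ M ∧ x * x = 1 with hI
    set V := Finset.univ.filter fun x : G => w⁻¹ * x ∈ M ∧ x ∈ U with hV
    have lvinv : ∀ x, w⁻¹ * x ∈ M → w⁻¹ * x⁻¹ ∈ M := by
      intro x hx
      have : w⁻¹ * x⁻¹ = (w⁻¹ * (w⁻¹ * x)⁻¹ * w⁻¹⁻¹) * (w * w)⁻¹ := by group
      rw [this]
      exact M.mul_mem (hMn.conj_mem _ (M.inv_mem hx) _) (M.inv_mem hw2)
    have lvnot : ∀ x, w⁻¹ * x ∈ M → x ∉ M := by
      intro x hx hx'
      exact hw0 (M.inv_mem_iff.1 ((M.mul_mem_cancel_right hx').1 hx))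
    have hD1 : ∀ x ∈ D, x⁻¹ ∈ D := by
      intro x hx
      simp only [hD, Finset.mem_filter, Finset.mem_univ, true_and] at hx ⊢
      refine ⟨lvinv x hx.1, fun h' => hx.2.1 ?_, fun h' => hx.2.2 (by simpa using (hU _ h').1)⟩
      have := congrArg (·⁻¹) h'
      simpa using this
    have hD2 : ∀ x ∈ D, w⁻¹ * x ∈ M ∧ x * x ≠ 1 := by
      intro x hx
      simp only [hD, Finset.mem_filter, Finset.mem_univ, true_and] at hx
      exact ⟨hx.1, hx.2.1⟩
    obtain ⟨a, ha⟩ := even_card_of_inv D hD1 fun x hx => (hD2 x hx).2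
    have hV4 : 4 ∣ V.card := by
      apply four_dvd_card hj1 hj2 hjc
      · intro x hx
        simp only [hV, Finset.mem_filter, Finset.mem_univ, true_and] at hx ⊢
        exact ⟨⟨lvinv x hx.1, (hU x hx.2).1⟩, by rw [← mul_assoc]; exact M.mul_mem hx.1 hjM,
          (hU x hx.2).2⟩
      · intro x hx
        simp only [hV, Finset.mem_filter, Finset.mem_univ, true_and] at hx
        exact hUs x hx.2
    have hsum : D.card + I.card + V.card = cd M := by
      rw [← card_coset M w, ← Finset.card_union_of_disjoint, ← Finset.card_union_of_disjoint]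
      · congr 1
        ext x
        simp only [hD, hI, hV, Finset.mem_union, Finset.mem_filter, Finset.mem_univ, true_and]
        tauto
      · rw [Finset.disjoint_left]
        intro x hx hx'
        simp only [hD, hI, hV, Finset.mem_union, Finset.mem_filter, Finset.mem_univ,
          true_and] at hx hx'
        rcases hx with hx | hx
        · exact hx.2.2 hx'.2
        · exact (hUs x hx'.2).1 hx.2
      · rw [Finset.disjoint_left]
        intro x hx hx'
        simp only [hD, hI, Finset.mem_filter, Finset.mem_univ, true_and] at hx hx'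
        exact hx.2.1 hx'.2
    have hWI : Disjoint W I := by
      rw [Finset.disjoint_left]
      intro x hx hx'
      simp only [hI, Finset.mem_filter, Finset.mem_univ, true_and] at hx'
      exact lvnot x hx'.1 (hW x hx).1
    -- choose the pseudo label
    have hPex : ∃ (P : Finset G) (F : Finset G), P ⊆ W ∧ 2 ≤ ((W \ P) ∪ I).card ∧ Clo j F ∧
        (∀ g ∈ F, Strong j g ∧ g ∉ U ∧ ¬ (g ∈ M ∨ w⁻¹ * g ∈ M)) ∧
        F.card ≤ 2 * p ∧ Cover (F ∪ P ∪ D) := by
      by_cases hev : 2 ∣ a ∨ p = 1
      · obtain ⟨F, f1, f2, f3, f4⟩ := hL.special hj1 hj2 hjc hjM hU s hs8 hs hbound D hD1 hD2 a 0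
          ha ∅ (by simp) (by simp) (by simp) (by
            intro X hX
            rw [Finset.card_eq_zero] at hX
            simpa [hX] using PM.empty K) (by omega)
        refine ⟨∅, F, by simp, ?_, f1, f2, f3, f4⟩
        exact hW2.trans (Finset.card_le_card (by simp))
      · obtain ⟨t₁, h1, t₂, h2, hne⟩ := Finset.one_lt_card.1 hW2
        obtain ⟨F, f1, f2, f3, f4⟩ := hL.special hj1 hj2 hjc hjM hU s hs8 hs hbound D hD1 hD2 a 1
          ha {t₁, t₂} (by simp [(hW _ h1).1, (hW _ h2).1]) le_rfl (by simp) (by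
            intro X hX
            obtain ⟨b, rfl⟩ := Finset.card_eq_one.1 hX
            rw [Finset.coe_singleton]
            exact hL.pseudoB hne (hW _ h1).1 (hW _ h2).1 (hW _ h1).2.1 (hW _ h2).2.1
              (hW _ h1).2.2 (hW _ h2).2.2 b) (by omega)
        refine ⟨{t₁, t₂}, F, ?_, ?_, f1, f2, f3, f4⟩
        · intro x hx
          simp only [Finset.mem_insert, Finset.mem_singleton] at hx
          rcases hx with rfl | rfl <;> assumption
        · have : 2 ≤ I.card := by omega
          exact this.trans (Finset.card_le_card Finset.subset_union_right)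
    obtain ⟨P, F, hPW, hW', hFc, hF, hFcard, hcov⟩ := hPex
    have hrec := ih Mp (by omega) (le_adj hjM) (by rw [hcMp]; omega) (U ∪ F) (hU.union hFc)
      (by
        intro g hg
        rcases Finset.mem_union.1 hg with h' | h'
        · exact hUs g h'
        · exact (hF g h').1) ((W \ P) ∪ I) (by
        intro t ht
        rcases Finset.mem_union.1 ht with h' | h'
        · have := hW t (Finset.mem_sdiff.1 h').1
          exact ⟨le_adj this.1, this.2⟩
        · simp only [hI, Finset.mem_filter, Finset.mem_univ, true_and] at h'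
          exact ⟨Or.inr h'.1, fun h1 => lvnot t h'.1 (h1 ▸ M.one_mem), h'.2⟩) hW'
      (hnew _ ((Finset.card_union_le _ _).trans (by omega)))
    have hmem : ∀ x, x ∈ Mp ↔ x ∈ M ∨ w⁻¹ * x ∈ M := fun x => mem_adj
    have hdis : Disjoint (F ∪ P ∪ D) (rest Mp (U ∪ F) ((W \ P) ∪ I)) := by
      rw [Finset.disjoint_left]
      intro x hx hx'
      simp only [rest, hD, hI, hmem, Finset.mem_union, Finset.mem_filter, Finset.mem_univ, true_and,
        Finset.mem_sdiff] at hx hx'
      rcases hx with (hx | hx) | hx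
      · have a1 := hF x hx
        rcases hx' with h' | h' | h'
        · exact h'.2 (Or.inr hx)
        · exact a1.2.2 (Or.inl (hW x h'.1).1)
        · exact a1.2.2 (Or.inr h'.1)
      · have a1 := (hW x (hPW hx)).1
        rcases hx' with h' | h' | h'
        · exact h'.1 (Or.inl a1)
        · exact h'.2 hx
        · exact lvnot x h'.1 a1
      · rcases hx' with h' | h' | h'
        · exact h'.1 (Or.inr hx.1)
        · exact lvnot x hx.1 (hW x h'.1).1
        · exact hx.2.1 h'.2
    have heq : rest M U W = (F ∪ P ∪ D) ∪ rest Mp (U ∪ F) ((W \ P) ∪ I) := by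
      ext x
      simp only [rest, hD, hI, hmem, Finset.mem_union, Finset.mem_filter, Finset.mem_univ, true_and,
        Finset.mem_sdiff]
      constructor
      · rintro (⟨h1, h2⟩ | h1)
        · by_cases hxF : x ∈ F
          · exact Or.inl (Or.inl (Or.inl hxF))
          by_cases hl : w⁻¹ * x ∈ M
          · by_cases hxx : x * x = 1
            · exact Or.inr (Or.inr (Or.inr ⟨hl, hxx⟩))
            · exact Or.inl (Or.inr ⟨hl, hxx, h2⟩)
          · exact Or.inr (Or.inl ⟨fun h' => h'.elim h1 hl, fun h' => h'.elim h2 hxF⟩)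
        · by_cases hxP : x ∈ P
          · exact Or.inl (Or.inl (Or.inr hxP))
          · exact Or.inr (Or.inr (Or.inl ⟨h1, hxP⟩))
      · rintro (((h1 | h1) | h1) | h1 | h1 | h1)
        · exact Or.inl ⟨fun h' => (hF x h1).2.2 (Or.inl h'), (hF x h1).2.1⟩
        · exact Or.inr (hPW h1)
        · exact Or.inl ⟨lvnot x h1.1, h1.2.2⟩
        · exact Or.inl ⟨fun h' => h1.1 (Or.inl h'), fun h' => h1.2 (Or.inl h')⟩
        · exact Or.inr h1.1
        · exact Or.inl ⟨lvnot x h1.1, fun h' => (hUs x h').1 h1.2⟩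
    rw [heq]
    exact Cover.union hdis hcov hrec

theorem cover_of_four [Fintype G] (hG : IsPGroup 2 G) {j c : G} (hj1 : j ≠ 1) (hj2 : j * j = 1)
    (hjc : ∀ g, g * j = j * g) (hc1 : c ≠ 1) (hc2 : c * c = 1) (hcj : c ≠ j)
    (hcn : ∀ g, g * c * g⁻¹ = c ∨ g * c * g⁻¹ = c * j) :
    Cover (Finset.univ.erase (1 : G)) := by
  have hi : j⁻¹ = j := inv_eq_of_mul_eq_one_right hj2
  have hic : c⁻¹ = c := inv_eq_of_mul_eq_one_right hc2
  set J := adj (⊥ : Subgroup G) j (by simp) (by simp [hj2]) with hJ
  have memJ : ∀ x, x ∈ J ↔ x = 1 ∨ x = j := by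
    intro x
    rw [mem_adj, Subgroup.mem_bot, Subgroup.mem_bot, inv_mul_eq_one, eq_comm (a := j)]
  have hJn : J.Normal := adj_normal (by intro g; simp [hjc g])
  have cJ : cd J = 2 := by
    rw [cd_of_two (N := ⊥) (by simpa using hj1) (fun x => mem_adj), cd_eq]
    simp
  set E := adj J c (fun x hx => hJn.conj_mem x hx c) (by simp [hc2]) with hE
  have hcJ : c ∉ J := by simp [memJ, hc1, hcj]
  have hEn : E.Normal := adj_normal (by
    intro g
    rw [memJ]
    rcases hcn g with h | h <;> rw [h]
    · simp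
    · right
      rw [hjc c]
      simp)
  have cE : cd E = 4 := by
    rw [cd_of_two hcJ (fun x => mem_adj), cJ]
  have memE : ∀ x, x ∈ E ↔ x = 1 ∨ x = j ∨ x = c ∨ x = c * j := by
    intro x
    rw [mem_adj, memJ, memJ, inv_mul_eq_one, inv_mul_eq_iff_eq_mul, eq_comm (a := c), or_assoc]
  have hcj1 : c * j ≠ 1 := by
    intro h'
    apply hcj
    rw [← hi]
    exact eq_inv_of_mul_eq_one_left h'
  have := four_ind hG hj1 hj2 hjc (Fintype.card G) E (by omega) (by simp [memE]) (by rw [cE]) ∅
    (by simp [Clo]) (by simp) {j, c, c * j} (by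
      intro t ht
      simp only [Finset.mem_insert, Finset.mem_singleton] at ht
      rcases ht with rfl | rfl | rfl
      · exact ⟨by simp [memE], hj1, hj2⟩
      · exact ⟨by simp [memE], hc1, hc2⟩
      · refine ⟨by simp [memE], hcj1, ?_⟩
        rw [mul_assoc, ← mul_assoc j, ← hjc c, mul_assoc c j, hj2, mul_one, hc2])
    (Finset.one_lt_card.2 ⟨j, by simp, c, by simp, hcj.symm⟩) (by left; rw [cE]; simp)
  convert this using 1
  ext x
  simp only [rest, memE, Finset.mem_erase, Finset.mem_univ, and_true, Finset.mem_union,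
    Finset.mem_filter, true_and, Finset.notMem_empty, not_false_eq_true, Finset.mem_insert,
    Finset.mem_singleton]
  constructor
  · tauto
  · rintro (h | rfl | rfl | rfl)
    · tauto
    · exact hj1
    · exact hc1
    · exact hcj1

end Pool.Agent.P.MP_da365b_co
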