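import Pool.Agent.P.MP_da365b_co.Stage

namespace Pool.Agent.P.MP_da365b_co

open Classical

set_option linter.unusedSectionVars false

variable {G : Type*} [Group G]

theorem two_cd_le [Fintype G] {H S : Subgroup G} (hle : H ≤ S) {c : G} (hc : c ∈ S) (hc' : c ∉ H) :
    2 * cd H ≤ cd S := by
  have hd : Disjoint (Finset.univ.filter (· ∈ H))
      (Finset.univ.filter (fun x => c⁻¹ * x ∈ H)) := by
    rw [Finset.disjoint_left]
    intro x hx hx'
    simp only [Finset.mem_filter, Finset.mem_univ, true_and] at hx hx'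
    apply hc'
    have : c = x * (c⁻¹ * x)⁻¹ := by group
    rw [this]
    exact H.mul_mem hx (H.inv_mem hx')
  have hsub : Finset.univ.filter (· ∈ H) ∪ Finset.univ.filter (fun x => c⁻¹ * x ∈ H) ⊆
      Finset.univ.filter (· ∈ S) := by
    intro x hx
    simp only [Finset.mem_union, Finset.mem_filter, Finset.mem_univ, true_and] at hx ⊢
    rcases hx with hx | hx
    · exact hle hx
    · have : x = c * (c⁻¹ * x) := by group
      rw [this]
      exact S.mul_mem hc (hle hx)
  have := Finset.card_le_card hsub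
  rw [Finset.card_union_of_disjoint hd, card_coset] at this
  unfold cd at this ⊢
  omega

namespace Lev

variable {M : Subgroup G} {w : G} {K S : Subgroup G} (h : Lev M w K S)
include h

theorem conjK {x : G} (hx : x ∈ K) : w * x * w⁻¹ ∈ K := by
  have : w * x * w⁻¹ = x * (x⁻¹ * w * x⁻¹⁻¹ * w⁻¹) := by group
  rw [this]
  exact K.mul_mem hx (h.le (h.comm _))

theorem idx2 {a b : G} (ha : a ∈ S) (hb : b ∈ S) : a * b ∈ K ↔ (a ∈ K ↔ b ∈ K) := by
  constructor
  · intro hab
    constructor
    · intro h1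
      exact (K.mul_mem_cancel_left h1).1 hab
    · intro h1
      exact (K.mul_mem_cancel_right h1).1 hab
  · intro hab
    by_cases h1 : a ∈ K
    · exact K.mul_mem h1 (hab.1 h1)
    · have h2 : b ∉ K := fun h' => h1 (hab.2 h')
      have a1 := ((h.memS a).1 ha).resolve_left h1
      have b1 := ((h.memS b).1 hb).resolve_left h2
      have : a * b = (w * (w⁻¹ * a) * w⁻¹) * (w * w) * (w⁻¹ * b) := by group
      rw [this]
      exact K.mul_mem (K.mul_mem (h.conjK a1) (h.le h.sq)) b1

def agree (t : G) : Subgroup G where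
  carrier := {s | s ∈ S ∧ t⁻¹ * s * t ∈ S ∧ (s ∈ K ↔ t⁻¹ * s * t ∈ K)}
  one_mem' := by simp
  mul_mem' := by
    rintro a b ⟨a1, a2, a3⟩ ⟨b1, b2, b3⟩
    have : t⁻¹ * (a * b) * t = (t⁻¹ * a * t) * (t⁻¹ * b * t) := by group
    refine ⟨S.mul_mem a1 b1, this ▸ S.mul_mem a2 b2, ?_⟩
    rw [this, h.idx2 a1 b1, h.idx2 a2 b2, a3, b3]
  inv_mem' := by
    rintro a ⟨a1, a2, a3⟩
    have : t⁻¹ * a⁻¹ * t = (t⁻¹ * a * t)⁻¹ := by group
    refine ⟨S.inv_mem a1, this ▸ S.inv_mem a2, ?_⟩
    rw [this, K.inv_mem_iff, K.inv_mem_iff, a3]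

theorem half_core [Fintype G] (hmax : ∀ K' : Subgroup G, K ≤ K' → w ∉ K' → K' ≤ K)
    {t₀ : G} (ht₀ : t₀ ∉ S) :
    cd K ≤ (Finset.univ.filter fun s : G => s ∈ S ∧ t₀ * s * (t₀ * s) ∉ M).card := by
  have hS : cd S = 2 * cd K := cd_of_two h.notK h.memS
  have hsplit := Finset.card_filter_add_card_filter_not (s := Finset.univ.filter (· ∈ S))
    (fun s : G => t₀ * s * (t₀ * s) ∈ M)
  rw [Finset.filter_filter, Finset.filter_filter] at hsplit
  have hB : (Finset.univ.filter fun s : G => s ∈ S ∧ t₀ * s * (t₀ * s) ∈ M).card ≤ cd K := by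
    rcases (Finset.univ.filter fun s : G => s ∈ S ∧ t₀ * s * (t₀ * s) ∈ M).eq_empty_or_nonempty
      with e | ⟨s₀, hs₀⟩
    · rw [e]; simp
    simp only [Finset.mem_filter, Finset.mem_univ, true_and] at hs₀
    set t := t₀ * s₀ with ht
    have htS : t ∉ S := fun h' => ht₀ ((S.mul_mem_cancel_right hs₀.1).1 h')
    have h1 : (Finset.univ.filter fun s : G => s ∈ S ∧ t₀ * s * (t₀ * s) ∈ M).card ≤
        cd (h.agree t) := by
      unfold cd
      apply Finset.card_le_card_of_injOn (fun s => s₀⁻¹ * s)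
      · intro s hs
        simp only [Finset.coe_filter, Finset.mem_univ, true_and, Set.mem_ofPred_eq] at hs ⊢
        have s1 : s₀⁻¹ * s ∈ S := S.mul_mem (S.inv_mem hs₀.1) hs.1
        have m1 : t⁻¹ * (s₀⁻¹ * s) * t * (s₀⁻¹ * s) ∈ M := by
          have : t⁻¹ * (s₀⁻¹ * s) * t * (s₀⁻¹ * s) = (t * t)⁻¹ * (t₀ * s * (t₀ * s)) := by
            rw [ht]; group
          rw [this]
          exact M.mul_mem (M.inv_mem hs₀.2) hs.2
        refine ⟨s1, (S.mul_mem_cancel_right s1).1 (h.leS (h.le m1)), ?_, ?_⟩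
        · intro h'
          exact (K.mul_mem_cancel_right h').1 (h.le m1)
        · intro h'
          exact (K.mul_mem_cancel_left h').1 (h.le m1)
      · intro a _ b _ hab
        simpa using hab
    have h2 : ∃ c ∈ S, c ∉ h.agree t := by
      by_contra hcon
      push Not at hcon
      have c1 : ∀ x ∈ K, t⁻¹ * x * t⁻¹⁻¹ ∈ K := by
        intro x hx
        rw [inv_inv]
        exact (hcon x (h.leS hx)).2.2.1 hx
      have c2 : t⁻¹ * t⁻¹ ∈ K := by
        rw [← mul_inv_rev]
        exact K.inv_mem (h.le hs₀.2)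
      have := hmax (adj K t⁻¹ c1 c2) le_adj (by
        rw [mem_adj]
        rintro (h' | h')
        · exact h.notK h'
        · rw [inv_inv] at h'
          exact htS ((S.mul_mem_cancel_right h.wS).1 (h.leS h')))
      exact htS (S.inv_mem_iff.1 (h.leS (this self_mem_adj)))
    obtain ⟨c, hc, hc'⟩ := h2
    have h3 := two_cd_le (H := h.agree t) (S := S) (fun x hx => hx.1) hc hc'
    omega
  unfold cd at hS hB ⊢
  omega

theorem half [Fintype G] (hmax : ∀ K' : Subgroup G, K ≤ K' → w ∉ K' → K' ≤ K)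
    (a b : G ⧸ S) (hab : a ≠ b) :
    cd K ≤ (Finset.univ.filter fun g : G => g * g ∉ M ∧ g • a = b).card := by
  induction a using QuotientGroup.induction_on with
  | H x =>
  induction b using QuotientGroup.induction_on with
  | H y =>
    rw [Ne, QuotientGroup.eq] at hab
    refine (h.half_core hmax hab).trans ?_
    apply Finset.card_le_card_of_injOn (fun s => y * s * x⁻¹)
    · intro s hs
      simp only [Finset.coe_filter, Finset.mem_univ, true_and, Set.mem_ofPred_eq] at hs ⊢
      constructor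
      · intro h'
        apply hs.2
        have : x⁻¹ * y * s * (x⁻¹ * y * s) = x⁻¹ * (y * s * x⁻¹ * (y * s * x⁻¹)) * x⁻¹⁻¹ := by
          group
        rw [this]
        exact h.normal.conj_mem _ h' _
      · change ((y * s * x⁻¹ * x : G) : G ⧸ S) = y
        rw [eq_comm, QuotientGroup.eq]
        simpa [mul_assoc] using hs.1
    · intro a _ b _ hab
      simpa using hab

theorem full [Fintype G] (a b : G ⧸ S) (hab : a ≠ b) (P : G → Prop)
    (hP : ∀ g, ¬ (g ∈ M ∨ w⁻¹ * g ∈ M) → P g) :
    2 * cd K ≤ (Finset.univ.filter fun g : G => P g ∧ g • a = b).card := by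
  rw [← cd_of_two h.notK h.memS]
  induction a using QuotientGroup.induction_on with
  | H x =>
  induction b using QuotientGroup.induction_on with
  | H y =>
    unfold cd
    apply Finset.card_le_card_of_injOn (fun s => y * s * x⁻¹)
    · intro s hs
      simp only [Finset.coe_filter, Finset.mem_univ, true_and, Set.mem_ofPred_eq] at hs ⊢
      have e : (y * s * x⁻¹) • (x : G ⧸ S) = y := by
        change ((y * s * x⁻¹ * x : G) : G ⧸ S) = y
        rw [eq_comm, QuotientGroup.eq]
        simpa [mul_assoc] using hs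
      refine ⟨hP _ fun h' => hab ?_, e⟩
      rw [← e, h.smul_S h']
    · intro a _ b _ hab
      simpa using hab

end Lev

theorem even_card_of_inv (D : Finset G) (h1 : ∀ x ∈ D, x⁻¹ ∈ D) (h2 : ∀ x ∈ D, x * x ≠ 1) :
    2 ∣ D.card := by
  induction D using Finset.strongInduction with
  | H D ih =>
    rcases D.eq_empty_or_nonempty with rfl | ⟨x, hx⟩
    · simp
    have hne : x ≠ x⁻¹ := fun h' => h2 x hx (by nth_rewrite 2 [h']; simp)
    have hsub : ({x, x⁻¹} : Finset G) ⊆ D := by
      intro y hy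
      simp only [Finset.mem_insert, Finset.mem_singleton] at hy
      rcases hy with rfl | rfl
      · exact hx
      · exact h1 _ hx
    have := ih (D \ {x, x⁻¹}) (Finset.sdiff_ssubset hsub (by simp)) (by
      intro y hy
      simp only [Finset.mem_sdiff, Finset.mem_insert, Finset.mem_singleton, not_or] at hy ⊢
      exact ⟨h1 y hy.1, fun h' => hy.2.2 (by rw [← h']; simp), fun h' => hy.2.1 (by simpa using h')⟩)
      (fun y hy => h2 y (Finset.mem_sdiff.1 hy).1)
    have c := Finset.card_sdiff_add_card_eq_card hsub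
    rw [Finset.card_pair hne] at c
    omega

theorem card_quad {j : G} (hj1 : j ≠ 1) (hj2 : j * j = 1) {g : G} (hg : Strong j g) :
    (quad j g).card = 4 := by
  have hi : j⁻¹ = j := inv_eq_of_mul_eq_one_right hj2
  have n1 : g ≠ g⁻¹ := fun h' => hg.1 (by nth_rewrite 2 [h']; simp)
  have n2 : g ≠ g * j := by simpa using hj1
  have n3 : g ≠ g⁻¹ * j := fun h' => hg.2 (by nth_rewrite 2 [h']; simp)
  have n4 : g⁻¹ ≠ g * j := by
    intro h'
    apply hg.2
    have : g * g = j⁻¹ := by
      rw [eq_inv_iff_mul_eq_one, mul_assoc, ← h']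
      simp
    rw [this, hi]
  have n5 : g⁻¹ ≠ g⁻¹ * j := by simpa using hj1
  have n6 : g * j ≠ g⁻¹ * j := by simpa using n1
  unfold quad
  rw [Finset.card_insert_of_notMem (by simp [n1, n2, n3]),
    Finset.card_insert_of_notMem (by simp [n4, n5]), Finset.card_pair n6]

theorem four_dvd_card {j : G} (hj1 : j ≠ 1) (hj2 : j * j = 1) (hjc : ∀ g, g * j = j * g)
    (V : Finset G) (h1 : Clo j V) (h2 : ∀ x ∈ V, Strong j x) : 4 ∣ V.card := by
  induction V using Finset.strongInduction with
  | H V ih =>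
    rcases V.eq_empty_or_nonempty with rfl | ⟨x, hx⟩
    · simp
    have hsub := quad_subset hj2 hjc h1 hx
    have := ih (V \ quad j x) (Finset.sdiff_ssubset hsub ⟨x, self_mem_quad j x⟩) (by
      intro y hy
      simp only [Finset.mem_sdiff] at hy ⊢
      refine ⟨⟨(h1 y hy.1).1, fun h' => hy.2 ?_⟩, (h1 y hy.1).2, fun h' => hy.2 ?_⟩
      · simpa using (clo_quad hj2 hjc x _ h').1
      · simpa [mul_assoc, hj2] using (clo_quad hj2 hjc x _ h').2)
      (fun y hy => h2 y (Finset.mem_sdiff.1 hy).1)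
    have c := Finset.card_sdiff_add_card_eq_card hsub
    rw [card_quad hj1 hj2 (h2 x hx)] at c
    omega

end Pool.Agent.P.MP_da365b_co
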