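import Pool.Agent.P.MP_da365b_co.MaxClass

namespace Pool.Agent.P.MP_da365b_co

open Classical

set_option linter.unusedSectionVars false

variable {G : Type*} [Group G]

def HasFour (G : Type*) [Group G] : Prop :=
  ∃ j c : G, j ≠ 1 ∧ j * j = 1 ∧ (∀ g, g * j = j * g) ∧ c ≠ 1 ∧ c * c = 1 ∧ c ≠ j ∧
    ∀ g, g * c * g⁻¹ = c ∨ g * c * g⁻¹ = c * j

theorem coprime_two_pow (b : ℕ) (s : ℤ) : IsCoprime ((2 : ℤ) ^ b) (2 * s + 1) := by
  apply IsCoprime.pow_left
  exact ⟨-s, 1, by ring⟩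

theorem four_of {x g : G} {b : ℕ} (hx : orderOf x = 2 * 2 ^ b)
    (hA : (Subgroup.zpowers x).Normal) (hg : g ∉ Subgroup.zpowers x)
    (hc : ∀ h, h * g * h⁻¹ * g⁻¹ ∈ Subgroup.zpowers x) {u e : ℤ}
    (hu : g * x * g⁻¹ = x ^ u) (hu4 : u % 4 = 1) (he : g * g = x ^ e) (hev : e % 2 = 0) :
    HasFour G := by
  have xe := zpow_eq_iff hx
  have x1 := zpow_eq_one_iff' hx
  push_cast at xe x1
  set N : ℤ := 2 ^ b with hN
  have hN0 : 0 < N := by positivity
  obtain ⟨s, rfl⟩ : ∃ s, u = 4 * s + 1 := ⟨u / 4, by omega⟩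
  obtain ⟨f, rfl⟩ : ∃ f, e = 2 * f := ⟨e / 2, by omega⟩
  have cop : IsCoprime N (2 * s + 1) := coprime_two_pow b s
  obtain ⟨α, β, hαβ⟩ := id cop
  have hgx : ∀ k : ℤ, g * x ^ k = x ^ ((4 * s + 1) * k) * g := by
    intro k
    rw [← conj_zpow' hu]
    group
  have sqf : ∀ k : ℤ, x ^ k * g * (x ^ k * g) = x ^ (k + (4 * s + 1) * k + 2 * f) := by
    intro k
    rw [mul_assoc, ← mul_assoc g, hgx, mul_assoc, he, ← zpow_add, ← zpow_add, add_assoc]
  have invol : ∀ k : ℤ, N ∣ k → x ^ k = 1 ∨ x ^ k = x ^ N := by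
    rintro k ⟨t, rfl⟩
    rw [x1, xe]
    rcases Int.even_or_odd' t with ⟨r, rfl | rfl⟩
    · left; exact ⟨r, by ring⟩
    · right; exact ⟨-r, by ring⟩
  have hj1 : x ^ N ≠ 1 := by
    rw [Ne, x1]
    intro h
    have := Int.le_of_dvd hN0 h
    omega
  have hj2 : x ^ N * x ^ N = 1 := by
    rw [← zpow_add, x1]
    exact ⟨1, by ring⟩
  have hjc : ∀ h, h * x ^ N = x ^ N * h := by
    intro h
    obtain ⟨k, hk⟩ := mem_zp.1 (hA.conj_mem _ (mem_zp.2 ⟨N, rfl⟩) h)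
    have h2 : x ^ k * x ^ k = 1 := by
      rw [← hk]
      have : h * x ^ N * h⁻¹ * (h * x ^ N * h⁻¹) = h * (x ^ N * x ^ N) * h⁻¹ := by group
      rw [this, hj2]; group
    rw [← zpow_add, x1] at h2
    obtain ⟨t, ht⟩ := h2
    rcases invol k ⟨t, by linarith⟩ with h3 | h3
    · exfalso
      apply hj1
      rw [h3] at hk
      simpa using hk
    · rw [h3] at hk
      rw [← mul_inv_eq_iff_eq_mul, hk]
  have notA : ∀ k : ℤ, x ^ k * g ∉ Subgroup.zpowers x := fun k h =>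
    hg (((Subgroup.zpowers x).mul_mem_cancel_left (mem_zp.2 ⟨k, rfl⟩)).1 h)
  set i : ℤ := -f * β with hi
  have hc2 : x ^ i * g * (x ^ i * g) = 1 := by
    rw [sqf, x1]
    exact ⟨f * α, by rw [hi]; linear_combination (-2 * f) * hαβ⟩
  refine ⟨x ^ N, x ^ i * g, hj1, hj2, hjc, fun h => notA i (h ▸ Subgroup.one_mem _), hc2,
    fun h => notA i (h ▸ mem_zp.2 ⟨N, rfl⟩), fun h => ?_⟩
  have m1 : h * (x ^ i * g) * h⁻¹ * g⁻¹ ∈ Subgroup.zpowers x := by
    have : h * (x ^ i * g) * h⁻¹ * g⁻¹ = (h * x ^ i * h⁻¹) * (h * g * h⁻¹ * g⁻¹) := by group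
    rw [this]
    exact Subgroup.mul_mem _ (hA.conj_mem _ (mem_zp.2 ⟨i, rfl⟩) h) (hc h)
  obtain ⟨k, hk⟩ := mem_zp.1 m1
  rw [mul_inv_eq_iff_eq_mul] at hk
  have h2 : x ^ k * g * (x ^ k * g) = 1 := by
    rw [← hk]
    have : h * (x ^ i * g) * h⁻¹ * (h * (x ^ i * g) * h⁻¹) =
      h * (x ^ i * g * (x ^ i * g)) * h⁻¹ := by group
    rw [this, hc2]; group
  rw [sqf, x1] at h2 hc2
  obtain ⟨t1, ht1⟩ := h2
  obtain ⟨t2, ht2⟩ := hc2
  have hd : N ∣ k - i := by
    apply cop.dvd_of_dvd_mul_right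
    exact ⟨t1 - t2, by linarith⟩
  have e3 : x ^ k * g = x ^ (k - i) * (x ^ i * g) := by group
  rw [hk, e3]
  rcases invol _ hd with h3 | h3 <;> rw [h3]
  · left; rw [one_mul]
  · right; rw [hjc]

theorem cover_of_no_four [Fintype G] (hG : IsPGroup 2 G) (hcyc : ¬ IsCyclic G)
    (h4 : ¬ HasFour G) : Cover (Finset.univ.erase (1 : G)) := by
  have : Fact (Nat.Prime 2) := ⟨Nat.prime_two⟩
  obtain ⟨A, hAmax⟩ := (Set.toFinite
    {A : Subgroup G | A.Normal ∧ ∃ x, A = Subgroup.zpowers x}).exists_maximal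
    ⟨⊥, inferInstance, 1, by simp⟩
  obtain ⟨hAn, x, rfl⟩ := hAmax.prop
  have hmax : ∀ g, x ∈ Subgroup.zpowers g → (Subgroup.zpowers g).Normal →
      g ∈ Subgroup.zpowers x := by
    intro g h1 h2
    exact hAmax.le_of_ge ⟨h2, g, rfl⟩ ((Subgroup.zpowers_le).2 h1) (Subgroup.mem_zpowers g)
  have hne : ∃ g, g ∉ Subgroup.zpowers x := by
    by_contra hcon
    push Not at hcon
    exact hcyc ⟨⟨x, hcon⟩⟩
  -- normality of a cyclic overgroup
  have hnorm : ∀ g, x ∈ Subgroup.zpowers g → (∀ h, h * g * h⁻¹ * g⁻¹ ∈ Subgroup.zpowers x) →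
      g ∈ Subgroup.zpowers x := by
    intro g h1 h2
    apply hmax g h1
    constructor
    intro y hy h
    obtain ⟨k, rfl⟩ := mem_zp.1 hy
    rw [← conj_zpow]
    apply Subgroup.zpow_mem
    have : h * g * h⁻¹ = (h * g * h⁻¹ * g⁻¹) * g := by group
    rw [this]
    exact Subgroup.mul_mem _ ((Subgroup.zpowers_le).2 h1 (h2 h)) (Subgroup.mem_zpowers g)
  have hx1 : x ≠ 1 := by
    rintro rfl
    obtain ⟨w, -, hw0, -, hwc⟩ := exists_step hG (Subgroup.zpowers (1 : G)) ⊤ (by simpa using hne)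
    exact hw0 (hnorm w (Subgroup.one_mem _) hwc)
  obtain ⟨b, hx⟩ : ∃ b, orderOf x = 2 * 2 ^ b := by
    obtain ⟨k, hk⟩ := IsPGroup.iff_orderOf.1 hG x
    rcases k with _ | k
    · exact absurd (orderOf_eq_one_iff.1 (by simpa using hk)) hx1
    · exact ⟨k, by rw [hk, pow_succ']⟩
  have xe := zpow_eq_iff hx
  have x1 := zpow_eq_one_iff' hx
  push_cast at xe x1
  have cop2 : ∀ s : ℤ, IsCoprime (2 * (2 : ℤ) ^ b) (2 * s + 1) := by
    intro s
    rw [← pow_succ']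
    exact coprime_two_pow _ s
  -- elements acting as `u ≡ 1 (mod 4)` with square in `A` give a four-group
  have step : ∀ g, g ∉ Subgroup.zpowers x → g * g ∈ Subgroup.zpowers x →
      (∀ h, h * g * h⁻¹ * g⁻¹ ∈ Subgroup.zpowers x) → ∀ u : ℤ, g * x * g⁻¹ = x ^ u →
      u % 4 ≠ 1 := by
    intro g hg hg2 hc u hu hu4
    obtain ⟨e, he⟩ := mem_zp.1 hg2
    by_cases hev : e % 2 = 0
    · exact h4 (four_of hx hAn hg hc hu hu4 he hev)
    · apply hg
      apply hnorm g _ hc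
      obtain ⟨f, rfl⟩ : ∃ f, e = 2 * f + 1 := ⟨e / 2, by omega⟩
      obtain ⟨α, β, hαβ⟩ := cop2 f
      have : x = (g * g) ^ β := by
        rw [he, ← zpow_mul]
        nth_rewrite 1 [← zpow_one x]
        rw [xe]
        exact ⟨-α, by linear_combination hαβ⟩
      rw [this]
      exact Subgroup.zpow_mem _
        (Subgroup.mul_mem _ (Subgroup.mem_zpowers g) (Subgroup.mem_zpowers g)) _
  have cent : ∀ h, h * x = x * h → h ∈ Subgroup.zpowers x := by
    intro h hh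
    by_contra hcon
    have hCn : (Subgroup.centralizer (Subgroup.zpowers x : Set G)).Normal := inferInstance
    obtain ⟨w, hwC, hw0, hw2, hwc⟩ := exists_step hG (Subgroup.zpowers x)
      (Subgroup.centralizer (Subgroup.zpowers x : Set G)) ⟨h, by
        rw [Subgroup.mem_centralizer_iff]
        intro y hy
        obtain ⟨k, rfl⟩ := mem_zp.1 hy
        exact (Commute.zpow_left (show Commute x h from hh.symm) k), hcon⟩
    rw [Subgroup.mem_centralizer_iff] at hwC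
    have := hwC x (Subgroup.mem_zpowers x)
    exact step w hw0 hw2 hwc 1 (by rw [← this]; simp) rfl
  have act : ∀ h, ∃ u : ℤ, h * x * h⁻¹ = x ^ u := fun h =>
    mem_zp.1 (hAn.conj_mem x (Subgroup.mem_zpowers x) h)
  have actmul : ∀ (g h : G) (u v : ℤ), g * x * g⁻¹ = x ^ u → h * x * h⁻¹ = x ^ v →
      (g * h) * x * (g * h)⁻¹ = x ^ (u * v) := by
    intro g h u v hu hv
    rw [← conj_zpow' hu, ← hv]
    group
  have comm : ∀ g h, h * g * h⁻¹ * g⁻¹ ∈ Subgroup.zpowers x := by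
    intro g h
    obtain ⟨u, hu⟩ := act g
    obtain ⟨v, hv⟩ := act h
    have e1 := actmul g h u v hu hv
    have e2 := actmul h g v u hv hu
    rw [mul_comm v u, ← e1] at e2
    have : (g * h)⁻¹ * (h * g) ∈ Subgroup.zpowers x := by
      apply cent
      have e3 : (g * h)⁻¹ * (h * g) * x = (g * h)⁻¹ * (h * g * x * (h * g)⁻¹) * (h * g) := by group
      rw [e3, e2]
      group
    have e4 : h * g * h⁻¹ * g⁻¹ = (g * h) * ((g * h)⁻¹ * (h * g)) * (g * h)⁻¹ := by group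
    rw [e4]
    exact hAn.conj_mem _ this _
  have odd : ∀ (h : G) (u : ℤ), h * x * h⁻¹ = x ^ u → u % 2 = 1 := by
    intro h u hu
    by_contra hcon
    obtain ⟨v, rfl⟩ : ∃ v, u = 2 * v := ⟨u / 2, by omega⟩
    have h1 := conj_zpow' hu (2 ^ b)
    have h2 : x ^ (2 * v * 2 ^ b) = 1 := by
      rw [x1]
      exact ⟨v, by ring⟩
    rw [h2] at h1
    have h3 : x ^ ((2 : ℤ) ^ b) = 1 := by simpa using h1
    rw [x1] at h3
    have hN0 : (0 : ℤ) < 2 ^ b := by positivity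
    have := Int.le_of_dvd hN0 h3
    omega
  have three : ∀ g, g ∉ Subgroup.zpowers x → g * g ∈ Subgroup.zpowers x →
      ∀ u : ℤ, g * x * g⁻¹ = x ^ u → u % 4 = 3 := by
    intro g hg hg2 u hu
    have := step g hg hg2 (comm g) u hu
    have := odd g u hu
    omega
  have sqmem : ∀ (k : ℕ) (h : G), h ^ 2 ^ k ∈ Subgroup.zpowers x → h ∉ Subgroup.zpowers x →
      h * h ∈ Subgroup.zpowers x := by
    intro k
    induction k with
    | zero =>
      intro h h1 h2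
      exact absurd (by simpa using h1) h2
    | succ k ih =>
      intro h h1 h2
      by_contra h3
      have h5 := ih (h * h) (by rwa [← pow_two, ← pow_mul, ← pow_succ']) h3
      obtain ⟨v, hv⟩ := act h
      have h6 := three (h * h) h3 h5 _ (actmul h h v v hv hv)
      have h7 := odd h v hv
      obtain ⟨t, rfl⟩ : ∃ t, v = 2 * t + 1 := ⟨v / 2, by omega⟩
      have : (2 * t + 1) * (2 * t + 1) = 4 * (t * t + t) + 1 := by ring
      omega
  have three' : ∀ g, g ∉ Subgroup.zpowers x → ∀ u : ℤ, g * x * g⁻¹ = x ^ u → u % 4 = 3 := by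
    intro g hg
    obtain ⟨k, hk⟩ := hG g
    exact three g hg (sqmem k g (hk ▸ Subgroup.one_mem _) hg)
  obtain ⟨g, hg⟩ := hne
  have hall : ∀ y, y ∈ Subgroup.zpowers x ∨ g⁻¹ * y ∈ Subgroup.zpowers x := by
    intro y
    by_contra hcon
    rw [not_or] at hcon
    obtain ⟨u, hu⟩ := act g⁻¹
    obtain ⟨v, hv⟩ := act y
    have h1 := three' g⁻¹ (by simpa using hg) u hu
    have h2 := three' y hcon.1 v hv
    have h3 := three' _ hcon.2 _ (actmul _ _ u v hu hv)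
    obtain ⟨s, rfl⟩ : ∃ s, u = 4 * s + 3 := ⟨u / 4, by omega⟩
    obtain ⟨t, rfl⟩ : ∃ t, v = 4 * t + 3 := ⟨v / 4, by omega⟩
    have : (4 * s + 3) * (4 * t + 3) = 4 * (4 * s * t + 3 * s + 3 * t + 2) + 1 := by ring
    omega
  obtain ⟨u, hu⟩ := act g
  have hu4 := three' g hg u hu
  obtain ⟨k, hk⟩ := hG g
  obtain ⟨e, he⟩ := mem_zp.1 (sqmem k g (hk ▸ Subgroup.one_mem _) hg)
  rcases b with _ | b
  · have := three' g hg (u - 2) (by
      rw [hu, xe]
      exact ⟨-1, by ring⟩)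
    omega
  refine cover_of_index_two (n := 2 ^ b) (by positivity) (by rw [hx, pow_succ']) hg hall hu hu4
    he ?_
  have h1 := conj_zpow' hu e
  rw [← he] at h1
  have h2 : x ^ e = x ^ (u * e) := by
    rw [← h1, ← he]; group
  rw [xe] at h2
  obtain ⟨t, ht⟩ := h2
  obtain ⟨s, rfl⟩ : ∃ s, u = 4 * s + 3 := ⟨u / 4, by omega⟩
  push_cast
  rw [← pow_succ']
  apply (coprime_two_pow (b + 1) s).dvd_of_dvd_mul_right
  exact ⟨t, by linarith⟩

theorem main {G : Type*} [Group G] [Finite G] (k : ℕ) (hk : Nat.card G = 2 ^ k)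
    (h : ¬ HasStarter G) : IsCyclic G := by
  by_contra hcyc
  have := Fintype.ofFinite G
  have hG : IsPGroup 2 G := IsPGroup.of_card hk
  apply h
  apply hasStarter_of_cover
  by_cases h4 : HasFour G
  · obtain ⟨j, c, h1, h2, h3, h5, h6, h7, h8⟩ := h4
    exact cover_of_four hG h1 h2 h3 h5 h6 h7 h8
  · exact cover_of_no_four hG hcyc h4

end Pool.Agent.P.MP_da365b_co
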