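import Pool.Agent.P.MP_da365b_co.Four

namespace Pool.Agent.P.MP_da365b_co

open Classical

set_option linter.unusedSectionVars false

variable {G : Type*} [Group G]

theorem Cover.singles [Finite G] (R : Finset G) (h1 : ∀ y ∈ R, y⁻¹ ∈ R)
    (h2 : ∀ y ∈ R, y ≠ 1 ∧ (y * y = 1 ∨
      ∃ H : Subgroup G, y ∉ H ∧ ∀ a b, a ∉ H → b ∉ H → a⁻¹ * b ∈ H)) : Cover R := by
  induction R using Finset.strongInduction with
  | H R ih =>
    rcases R.eq_empty_or_nonempty with rfl | ⟨x, hx⟩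
    · exact Cover.empty
    have hsub : ({x, x⁻¹} : Finset G) ⊆ R := by
      intro y hy
      simp only [Finset.mem_insert, Finset.mem_singleton] at hy
      rcases hy with rfl | rfl
      · exact hx
      · exact h1 _ hx
    have c2 := ih (R \ {x, x⁻¹}) (Finset.sdiff_ssubset hsub (by simp)) (by
      intro y hy
      simp only [Finset.mem_sdiff, Finset.mem_insert, Finset.mem_singleton, not_or] at hy ⊢
      exact ⟨h1 y hy.1, fun h' => hy.2.2 (by rw [← h']; simp), fun h' => hy.2.1 (by simpa using h')⟩)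
      (fun y hy => h2 y (Finset.mem_sdiff.1 hy).1)
    have c1 : Cover ({x, x⁻¹} : Finset G) := by
      by_cases hxx : x * x = 1
      · have hi : x⁻¹ = x := inv_eq_of_mul_eq_one_right hxx
        simpa [hi] using Cover.invol (h2 x hx).1 hxx
      · obtain ⟨H, hH1, hH2⟩ := (h2 x hx).2.resolve_left hxx
        have e : x • ((1 : G) : G ⧸ H) = (x : G ⧸ H) := by
          change ((x * 1 : G) : G ⧸ H) = x
          rw [mul_one]
        have := PM.long (K := H) (b := ((1 : G) : G ⧸ H)) hxx (by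
          rw [e, Ne, QuotientGroup.eq]
          simpa using hH1)
        apply PM.cover (K := H)
        convert this using 1
        ext q
        induction q using QuotientGroup.induction_on with
        | H y =>
          simp only [Set.mem_univ, Set.mem_insert_iff, Set.mem_singleton_iff, true_iff, e]
          by_cases hy : y ∈ H
          · left
            rw [eq_comm, QuotientGroup.eq]
            simpa using hy
          · right
            rw [eq_comm, QuotientGroup.eq]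
            exact hH2 x y hH1 hy
    have := Cover.union Finset.disjoint_sdiff c1 c2
    rwa [Finset.union_sdiff_of_subset hsub] at this

theorem zpow_eq_iff {x : G} {N : ℕ} (hx : orderOf x = 2 * N) (k l : ℤ) :
    x ^ k = x ^ l ↔ (2 * N : ℤ) ∣ l - k := by
  rw [zpow_eq_zpow_iff_modEq, Int.modEq_iff_dvd, hx]
  push_cast
  rfl

theorem zpow_eq_one_iff' {x : G} {N : ℕ} (hx : orderOf x = 2 * N) (k : ℤ) :
    x ^ k = 1 ↔ (2 * N : ℤ) ∣ k := by
  rw [← zpow_zero x, eq_comm, zpow_eq_iff hx, sub_zero]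

theorem conj_zpow' {x g : G} {u : ℤ} (hu : g * x * g⁻¹ = x ^ u) (k : ℤ) :
    g * x ^ k * g⁻¹ = x ^ (u * k) := by
  rw [← conj_zpow, hu, zpow_mul]

theorem mem_zp {x y : G} : y ∈ Subgroup.zpowers x ↔ ∃ k : ℤ, y = x ^ k := by
  rw [Subgroup.mem_zpowers_iff]
  exact ⟨fun ⟨k, hk⟩ => ⟨k, hk.symm⟩, fun ⟨k, hk⟩ => ⟨k, hk.symm⟩⟩

theorem cover_of_index_two [Fintype G] {x g : G} {n : ℕ} (hn : 0 < n)
    (hx : orderOf x = 2 * (2 * n)) (hg : g ∉ Subgroup.zpowers x)
    (hall : ∀ y, y ∈ Subgroup.zpowers x ∨ g⁻¹ * y ∈ Subgroup.zpowers x) {u e : ℤ}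
    (hu : g * x * g⁻¹ = x ^ u) (hu4 : u % 4 = 3) (he : g * g = x ^ e) (hed : (2 * n : ℤ) ∣ e) :
    Cover (Finset.univ.erase (1 : G)) := by
  have xe := zpow_eq_iff hx
  have x1 := zpow_eq_one_iff' hx
  push_cast at xe x1
  have hn' : (0 : ℤ) < n := by exact_mod_cast hn
  set j := x ^ (2 * n : ℤ) with hj
  have hj1 : j ≠ 1 := by
    rw [hj, Ne, x1]
    intro h
    have := Int.le_of_dvd (by omega) h
    omega
  have hj2 : j * j = 1 := by
    rw [hj, ← zpow_add, x1]
    exact ⟨1, by ring⟩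
  have hgx : ∀ k : ℤ, g * x ^ k = x ^ (u * k) * g := by
    intro k
    rw [← conj_zpow' hu]
    group
  have hgj : g * j * g⁻¹ = j := by
    rw [hj, conj_zpow' hu, xe]
    exact ⟨(1 - u) / 2, by
      obtain ⟨v, hv⟩ : ∃ v, u = 4 * v + 3 := ⟨u / 4, by omega⟩
      subst hv
      have : (1 - (4 * v + 3)) / 2 = -2 * v - 1 := by omega
      rw [this]; ring⟩
  set J := adj (⊥ : Subgroup G) j (by simp) (by simp [hj2]) with hJ
  have memJ : ∀ y, y ∈ J ↔ y = 1 ∨ y = j := by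
    intro y
    rw [mem_adj, Subgroup.mem_bot, Subgroup.mem_bot, inv_mul_eq_one, eq_comm (a := j)]
  have powJ : ∀ k : ℤ, x ^ k ∈ J ↔ (2 * n : ℤ) ∣ k := by
    intro k
    rw [memJ, x1, hj, xe]
    constructor
    · rintro (⟨t, ht⟩ | ⟨t, ht⟩)
      · exact ⟨2 * t, by rw [ht]; ring⟩
      · exact ⟨1 - 2 * t, by linear_combination -ht⟩
    · rintro ⟨t, rfl⟩
      rcases Int.even_or_odd' t with ⟨s, rfl | rfl⟩
      · left; exact ⟨s, by ring⟩
      · right; exact ⟨-s, by ring⟩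
  have hJA : J ≤ Subgroup.zpowers x := by
    intro y hy
    rcases (memJ y).1 hy with rfl | rfl
    · exact Subgroup.one_mem _
    · exact mem_zp.2 ⟨_, rfl⟩
  set K := adj J g (by
    intro y hy
    rw [memJ] at hy ⊢
    rcases hy with rfl | rfl
    · simp
    · exact Or.inr hgj) (by rw [he, powJ]; exact hed) with hK
  have powK : ∀ k : ℤ, x ^ k ∈ K ↔ (2 * n : ℤ) ∣ k := by
    intro k
    rw [mem_adj, powJ]
    refine ⟨fun h => h.resolve_right fun h' => hg ?_, Or.inl⟩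
    exact (Subgroup.inv_mem_iff _).1
      (((Subgroup.zpowers x).mul_mem_cancel_right (mem_zp.2 ⟨k, rfl⟩)).1 (hJA h'))
  have mkeq : ∀ k l : ℤ, ((x ^ k : G) : G ⧸ K) = (x ^ l : G) ↔ (2 * n : ℤ) ∣ l - k := by
    intro k l
    rw [QuotientGroup.eq, ← zpow_neg, ← zpow_add, powK, neg_add_eq_sub]
  have mkg : ∀ y : G, ((y * g : G) : G ⧸ K) = y := by
    intro y
    rw [eq_comm, QuotientGroup.eq]
    simpa using (self_mem_adj : g ∈ K)
  have allpt : ∀ q : G ⧸ K, ∃ i : ℤ, q = (x ^ i : G) := by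
    intro q
    induction q using QuotientGroup.induction_on with
    | H y =>
      rcases hall y with h | h
      · obtain ⟨k, rfl⟩ := mem_zp.1 h
        exact ⟨k, rfl⟩
      · obtain ⟨k, hk⟩ := mem_zp.1 h
        refine ⟨u * k, ?_⟩
        rw [inv_mul_eq_iff_eq_mul] at hk
        rw [hk, hgx, mkg]
  set A₁ := Finset.univ.filter fun y : G => (∃ i : ℤ, y = x ^ (2 * i)) ∧ y * y ≠ 1 with hA₁
  have memA : ∀ y, y ∈ A₁ ↔ (∃ i : ℤ, y = x ^ (2 * i)) ∧ y * y ≠ 1 := by simp [hA₁]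
  let π : G → G ⧸ K := fun y =>
    if h : ∃ i : ℤ, y = x ^ (2 * i) then ((x ^ h.choose : G) : G ⧸ K) else ((1 : G) : G ⧸ K)
  have hπ : ∀ i : ℤ, π (x ^ (2 * i)) = (x ^ i : G) := by
    intro i
    have h : ∃ i' : ℤ, x ^ (2 * i) = x ^ (2 * i') := ⟨i, rfl⟩
    simp only [π, dif_pos h]
    have := h.choose_spec
    rw [eq_comm, xe] at this
    obtain ⟨t, ht⟩ := this
    rw [mkeq]
    exact ⟨t, by linarith⟩
  set b₀ : G ⧸ K := ((x ^ (0 : ℤ) : G) : G ⧸ K) with hb₀
  set b₁ : G ⧸ K := ((x ^ (n : ℤ) : G) : G ⧸ K) with hb₁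
  have hb01 : b₀ ≠ b₁ := by
    rw [hb₀, hb₁, Ne, mkeq]
    intro h
    have := Int.le_of_dvd (by omega) h
    omega
  have pm1 : PM K A₁ {b₀, b₁}ᶜ := by
    refine ⟨?_, ?_, π, ⟨?_, ?_, ?_⟩, ?_⟩
    · intro y hy h'
      exact ((memA y).1 hy).2 (by simp [h'])
    · intro y hy
      obtain ⟨⟨i, rfl⟩, h2⟩ := (memA y).1 hy
      refine (memA _).2 ⟨⟨-i, by rw [← zpow_neg]; congr 1; ring⟩, fun h' => h2 ?_⟩
      have := congrArg (·⁻¹) h'
      simpa using this
    · intro y hy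
      obtain ⟨⟨i, rfl⟩, h2⟩ := (memA y).1 hy
      rw [← zpow_add, Ne, x1] at h2
      simp only [hπ, Set.mem_compl_iff, Set.mem_insert_iff, Set.mem_singleton_iff, hb₀, hb₁, mkeq]
      rintro (⟨t, ht⟩ | ⟨t, ht⟩)
      · exact h2 ⟨-2 * t, by linear_combination -4 * ht⟩
      · exact h2 ⟨1 - 2 * t, by linear_combination -4 * ht⟩
    · intro y hy z hz hyz
      obtain ⟨⟨i, rfl⟩, -⟩ := (memA y).1 hy
      obtain ⟨⟨k, rfl⟩, -⟩ := (memA z).1 hz
      rw [hπ, hπ, mkeq] at hyz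
      obtain ⟨t, ht⟩ := hyz
      rw [xe]
      exact ⟨t, by linear_combination 2 * ht⟩
    · intro q hq
      obtain ⟨i, rfl⟩ := allpt q
      simp only [Set.mem_compl_iff, Set.mem_insert_iff, Set.mem_singleton_iff, hb₀, hb₁, mkeq,
        not_or] at hq
      refine ⟨x ^ (2 * i), (memA _).2 ⟨⟨i, rfl⟩, ?_⟩, hπ i⟩
      rw [← zpow_add, Ne, x1]
      rintro ⟨t, ht⟩
      rcases Int.even_or_odd' t with ⟨s, rfl | rfl⟩
      · exact hq.1 ⟨-s, by linarith⟩
      · exact hq.2 ⟨-s, by linarith⟩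
    · intro y hy
      obtain ⟨⟨i, rfl⟩, -⟩ := (memA y).1 hy
      have : (x ^ (2 * i))⁻¹ = x ^ (2 * (-i)) := by rw [← zpow_neg]; congr 1; ring
      rw [this, hπ, hπ]
      change _ = ((x ^ (2 * i) * x ^ (-i) : G) : G ⧸ K)
      rw [← zpow_add]
      congr 2
      ring
  have notA : ∀ k : ℤ, x ^ k * g ∉ Subgroup.zpowers x := fun k h =>
    hg (((Subgroup.zpowers x).mul_mem_cancel_left (mem_zp.2 ⟨k, rfl⟩)).1 h)
  have hP : ∃ P : Finset G, Disjoint A₁ P ∧ PM K P {b₀, b₁} := by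
    by_cases hgg : g * g = 1
    · refine ⟨{j} ∪ {g}, ?_, ?_⟩
      · rw [Finset.disjoint_left]
        intro y hy hy'
        simp only [Finset.mem_union, Finset.mem_singleton] at hy'
        rcases hy' with rfl | rfl
        · exact ((memA _).1 hy).2 hj2
        · exact ((memA _).1 hy).2 hgg
      · have g1 : g ≠ 1 := fun h => hg (h ▸ Subgroup.one_mem _)
        refine (PM.short (b := b₀) hj1 hj2 ?_).union (PM.short (b := b₁) g1 hgg ?_) ?_ ?_
        · change ((x ^ (2 * n : ℤ) * x ^ (0 : ℤ) : G) : G ⧸ K) = (x ^ (0 : ℤ) : G)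
          rw [← zpow_add, mkeq]
          exact ⟨-1, by ring⟩
        · change ((g * x ^ (n : ℤ) : G) : G ⧸ K) = (x ^ (n : ℤ) : G)
          rw [hgx, mkg, mkeq]
          obtain ⟨v, hv⟩ : ∃ v, u = 4 * v + 3 := ⟨u / 4, by omega⟩
          exact ⟨-2 * v - 1, by rw [hv]; ring⟩
        · simp only [Finset.disjoint_singleton]
          intro h
          exact hg (h ▸ mem_zp.2 ⟨_, rfl⟩)
        · simpa using hb01
    · have e1 : (x ^ (n : ℤ) * g) • b₀ = b₁ := by
        change ((x ^ (n : ℤ) * g * x ^ (0 : ℤ) : G) : G ⧸ K) = (x ^ (n : ℤ) : G)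
        rw [zpow_zero, mul_one, mkg]
      have e2 : x ^ (n : ℤ) * g * (x ^ (n : ℤ) * g) = g * g := by
        rw [mul_assoc, ← mul_assoc g, hgx, mul_assoc, ← mul_assoc, ← zpow_add]
        have : x ^ ((n : ℤ) + u * n) = 1 := by
          rw [x1]
          obtain ⟨v, hv⟩ : ∃ v, u = 4 * v + 3 := ⟨u / 4, by omega⟩
          exact ⟨v + 1, by rw [hv]; ring⟩
        rw [this, one_mul]
      refine ⟨{x ^ (n : ℤ) * g, (x ^ (n : ℤ) * g)⁻¹}, ?_, ?_⟩
      · rw [Finset.disjoint_left]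
        intro y hy hy'
        obtain ⟨⟨i, hi⟩, -⟩ := (memA y).1 hy
        have hyA : y ∈ Subgroup.zpowers x := mem_zp.2 ⟨_, hi⟩
        simp only [Finset.mem_insert, Finset.mem_singleton] at hy'
        rcases hy' with rfl | rfl
        · exact notA _ hyA
        · exact notA _ ((Subgroup.inv_mem_iff _).1 hyA)
      · rw [← e1]
        exact PM.long (by rw [e2]; exact hgg) (by rw [e1]; exact hb01.symm)
  obtain ⟨P, hdis, pm2⟩ := hP
  have pm3 := pm1.union pm2 hdis disjoint_compl_left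
  rw [Set.compl_union_self] at pm3
  have hsub : A₁ ∪ P ⊆ Finset.univ.erase (1 : G) := fun y hy =>
    Finset.mem_erase.2 ⟨pm3.ne_one y hy, Finset.mem_univ _⟩
  have mem2 : ∀ y, y ∈ Subgroup.zpowers (x ^ (2 : ℤ)) ↔ ∃ i : ℤ, y = x ^ (2 * i) := by
    intro y
    simp only [mem_zp, ← zpow_mul]
  set H := adj (Subgroup.zpowers (x ^ (2 : ℤ))) g (by
    intro y hy
    obtain ⟨i, rfl⟩ := (mem2 y).1 hy
    rw [conj_zpow' hu, mem2]
    exact ⟨u * i, by congr 1; ring⟩) (by
      obtain ⟨t, ht⟩ := hed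
      rw [he, mem2]
      exact ⟨n * t, by congr 1; rw [ht]; ring⟩) with hH
  have hH2 : ∀ y, y ∉ H → x⁻¹ * y ∈ H := by
    intro y hy
    rw [mem_adj, mem2, mem2] at hy ⊢
    rcases hall y with h | h
    · obtain ⟨k, rfl⟩ := mem_zp.1 h
      rcases Int.even_or_odd' k with ⟨s, rfl | rfl⟩
      · exact absurd (Or.inl ⟨s, rfl⟩) hy
      · left
        exact ⟨s, by group⟩
    · obtain ⟨k, hk⟩ := mem_zp.1 h
      rcases Int.even_or_odd' k with ⟨s, rfl | rfl⟩
      · exact absurd (Or.inr ⟨s, hk⟩) hy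
      · right
        have c1 : g⁻¹ * x⁻¹ * g = x ^ (u * (-1)) := by
          rw [← conj_zpow' hu]
          have : g⁻¹ * x⁻¹ * g = g * ((g * g)⁻¹ * x⁻¹ * (g * g)) * g⁻¹ := by group
          rw [this, he]
          congr 2
          group
        obtain ⟨v, hv⟩ : ∃ v, u = 4 * v + 3 := ⟨u / 4, by omega⟩
        refine ⟨s - 2 * v - 1, ?_⟩
        have : g⁻¹ * (x⁻¹ * y) = (g⁻¹ * x⁻¹ * g) * (g⁻¹ * y) := by group
        rw [this, c1, hk, ← zpow_add]
        congr 1
        rw [hv]; ring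
  have c2 : Cover (Finset.univ.erase (1 : G) \ (A₁ ∪ P)) := by
    apply Cover.singles
    · intro y hy
      rw [Finset.mem_sdiff] at hy ⊢
      exact ⟨by simpa using hy.1, fun h' => hy.2 (by simpa using pm3.inv_mem _ h')⟩
    · intro y hy
      rw [Finset.mem_sdiff, Finset.mem_union, not_or, memA] at hy
      refine ⟨by simpa using hy.1, ?_⟩
      by_cases hyy : y * y = 1
      · exact Or.inl hyy
      right
      by_cases hyA : y ∈ Subgroup.zpowers x
      · refine ⟨H, ?_, fun a b ha hb => ?_⟩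
        · rw [mem_adj, mem2, mem2]
          rintro (h | ⟨i, hi⟩)
          · exact hy.2.1 ⟨h, hyy⟩
          · apply hg
            have : g⁻¹ * y ∈ Subgroup.zpowers x := mem_zp.2 ⟨_, hi⟩
            exact (Subgroup.inv_mem_iff _).1
              (((Subgroup.zpowers x).mul_mem_cancel_right hyA).1 this)
        · have : a⁻¹ * b = (x⁻¹ * a)⁻¹ * (x⁻¹ * b) := by group
          rw [this]
          exact H.mul_mem (H.inv_mem (hH2 a ha)) (hH2 b hb)
      · refine ⟨Subgroup.zpowers x, hyA, fun a b ha hb => ?_⟩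
        have : a⁻¹ * b = (g⁻¹ * a)⁻¹ * (g⁻¹ * b) := by group
        rw [this]
        exact Subgroup.mul_mem _ (Subgroup.inv_mem _ ((hall a).resolve_left ha))
          ((hall b).resolve_left hb)
  have := Cover.union Finset.disjoint_sdiff pm3.cover c2
  rwa [Finset.union_sdiff_of_subset hsub] at this

end Pool.Agent.P.MP_da365b_co
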