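import Pool.Agent.P.MP_da365b_co.Conj

namespace Pool.Agent.P.MP_da365b_co

open Classical

set_option linter.unusedSectionVars false

variable {G : Type*} [Group G]

/-- Points over `D`: coloured pairs over `R`, elements outside `R`. -/
def XX (R D : Set G) : Set (Pt G) := XP (D ∩ R) ∪ el '' (D \ R)

theorem XX_union (R A B : Set G) : XX R (A ∪ B) = XX R A ∪ XX R B := by
  ext p
  simp only [XX, XP, Set.mem_union, Set.mem_ofPred_eq, Set.mem_image, Set.mem_inter_iff,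
    Set.mem_sdiff]
  constructor
  · rintro (⟨g, ⟨h | h, hr⟩, k⟩ | ⟨g, ⟨h | h, hr⟩, k⟩)
    · exact Or.inl (Or.inl ⟨g, ⟨h, hr⟩, k⟩)
    · exact Or.inr (Or.inl ⟨g, ⟨h, hr⟩, k⟩)
    · exact Or.inl (Or.inr ⟨g, ⟨h, hr⟩, k⟩)
    · exact Or.inr (Or.inr ⟨g, ⟨h, hr⟩, k⟩)
  · rintro ((⟨g, ⟨h, hr⟩, k⟩ | ⟨g, ⟨h, hr⟩, k⟩) | (⟨g, ⟨h, hr⟩, k⟩ | ⟨g, ⟨h, hr⟩, k⟩))
    · exact Or.inl ⟨g, ⟨Or.inl h, hr⟩, k⟩
    · exact Or.inr ⟨g, ⟨Or.inl h, hr⟩, k⟩
    · exact Or.inl ⟨g, ⟨Or.inr h, hr⟩, k⟩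
    · exact Or.inr ⟨g, ⟨Or.inr h, hr⟩, k⟩

theorem XX_mem {R D : Set G} {p : Pt G} (h : p ∈ XX R D) :
    ∃ g ∈ D, g ∈ p.1 ∧ ∀ x ∈ p.1, x = g ∨ x = g⁻¹ := by
  rcases h with ⟨g, hg, b, rfl, -⟩ | ⟨g, hg, rfl⟩
  · exact ⟨g, hg.1, Set.mem_insert _ _, fun x hx => hx⟩
  · exact ⟨g, hg.1, rfl, fun x hx => Or.inl hx⟩

theorem XX_disj (R : Set G) {A B : Set G} (h : Disjoint A B) (hB : ∀ g ∈ B, g⁻¹ ∈ B) :
    Disjoint (XX R A) (XX R B) := by
  rw [Set.disjoint_left]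
  intro p h1 h2
  obtain ⟨g, hg, k, -⟩ := XX_mem h1
  obtain ⟨g', hg', -, k'⟩ := XX_mem h2
  rcases k' g k with rfl | rfl
  · exact Set.disjoint_left.1 h hg hg'
  · exact Set.disjoint_left.1 h hg (hB _ hg')

def Gd (R D : Set G) : Prop := Mt D (XX R D)

theorem Gd.union {R A B : Set G} (hA : Gd R A) (hB : Gd R B) (h : Disjoint A B) :
    Gd R (A ∪ B) := by
  unfold Gd
  rw [XX_union]
  exact Mt.union hA hB h (XX_disj R h hB.1)

theorem Gd.empty (R : Set G) : Gd R ∅ := by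
  have : XX R (∅ : Set G) = ∅ := by simp [XX, XP]
  unfold Gd
  rw [this]
  exact Mt.empty

theorem Gd.chain (R : Set G) (B : Subgroup G) (C : G → Subgroup G) (T₀ : Set G)
    (h1 : ∀ a ∈ T₀, a ∈ B) (h2 : ∀ a ∈ T₀, ∀ b ∈ T₀, a ∈ C b)
    (h3 : ∀ a ∈ T₀, ∀ H : Subgroup G, H ≤ B → a ∈ H → Gd R {y | y ∈ H ∧ y ∉ C a})
    (T : Finset G) (hT : ∀ a ∈ T, a ∈ T₀) : Gd R {y | y ∈ B ∧ ∃ a ∈ T, y ∉ C a} := by
  induction T using Finset.induction_on with
  | empty => simpa using Gd.empty R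
  | insert a T _ ih =>
    have k1 := ih fun b hb => hT b (by simp [hb])
    have k2 := h3 a (hT a (by simp)) (B ⊓ ⨅ b ∈ T, C b) inf_le_left (by
      simp only [Subgroup.mem_inf, Subgroup.mem_iInf]
      exact ⟨h1 a (hT a (by simp)), fun b hb => h2 a (hT a (by simp)) b (hT b (by simp [hb]))⟩)
    have := k1.union k2 (by
      rw [Set.disjoint_left]
      rintro y ⟨-, b, hb, k⟩ ⟨hy, -⟩
      simp only [Subgroup.mem_inf, Subgroup.mem_iInf] at hy
      exact k (hy.2 b hb))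
    have e : ({y | y ∈ B ∧ ∃ b ∈ insert a T, y ∉ C b} : Set G) =
        {y | y ∈ B ∧ ∃ a ∈ T, y ∉ C a} ∪ {y | y ∈ B ⊓ ⨅ b ∈ T, C b ∧ y ∉ C a} := by
      ext y
      simp only [Set.mem_ofPred_eq, Set.mem_union, Subgroup.mem_inf, Subgroup.mem_iInf,
        Finset.mem_insert]
      constructor
      · rintro ⟨hy, b, hb | hb, k⟩
        · by_cases h : ∃ a ∈ T, y ∉ C a
          · exact Or.inl ⟨hy, h⟩
          · push Not at h
            exact Or.inr ⟨⟨hy, h⟩, hb ▸ k⟩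
        · exact Or.inl ⟨hy, b, hb, k⟩
      · rintro (⟨hy, b, hb, k⟩ | ⟨⟨hy, -⟩, k⟩)
        · exact ⟨hy, b, Or.inr hb, k⟩
        · exact ⟨hy, a, Or.inl rfl, k⟩
    rw [e]
    exact this

theorem stage_one [Finite G] (R : Set G) (r1 : ∀ g ∈ R, g⁻¹ ∈ R)
    (r2 : ∀ h, ∀ g ∈ R, h * g * h⁻¹ ∈ R) (s : G) (hs : s * s = 1)
    (r3 : ∀ d, d * d = 1 → d * s ∈ R) (H : Subgroup G) (hH : s ∈ H) :
    Gd R {y | y ∈ H ∧ y ∉ Subgroup.centralizer {s}} := by
  have hi : s⁻¹ = s := inv_eq_of_mul_eq_one_right hs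
  have hss : ∀ x : G, x * s * s = x := fun x => by rw [mul_assoc, hs, mul_one]
  set C := Subgroup.centralizer ({s} : Set G) with hC
  have sC : s ∈ C := by simp [hC, Subgroup.mem_centralizer_iff]
  have mC : ∀ y, y ∉ C → s * y ≠ y * s := by
    intro y hy h
    exact hy (by simpa [hC, Subgroup.mem_centralizer_iff] using h)
  set D : Set G := {y | y ∈ H ∧ y ∉ C} with hD
  have d1 : ∀ y ∈ D, y⁻¹ ∈ D := fun y hy => ⟨H.inv_mem hy.1, fun h => hy.2 (by simpa using h)⟩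
  have d2 : ∀ y, y * s ∈ D ↔ y ∈ D := by
    intro y
    simp only [hD, Set.mem_ofPred_eq, H.mul_mem_cancel_right hH, C.mul_mem_cancel_right sC]
  have d3 : ∀ y, s * y ∈ D ↔ y ∈ D := by
    intro y
    simp only [hD, Set.mem_ofPred_eq, H.mul_mem_cancel_left hH, C.mul_mem_cancel_left sC]
  have ri : ∀ d, d * s ∈ R → d⁻¹ * s ∈ R := by
    intro d hd
    have := r2 s _ (r1 _ hd)
    rwa [mul_inv_rev, hi, ← mul_assoc, hs, one_mul] at this
  have rc : ∀ d, d * s ∈ R → s * d * s * s ∈ R := by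
    intro d hd
    have := r2 s _ hd
    rwa [hi, ← mul_assoc] at this
  have rc' : ∀ d, s * d * s * s ∈ R → d * s ∈ R := by
    intro d hd
    have := rc _ hd
    rwa [hss, ← mul_assoc, ← mul_assoc, hs, one_mul] at this
  have k1 := mt_pr s hs {d | d ∈ D ∧ d * s ∈ R} (fun d hd => ⟨d1 d hd.1, ri d hd.2⟩)
    (fun d hd => ⟨(d2 _).2 ((d3 _).2 hd.1), rc d hd.2⟩) (fun d hd => mC d hd.1.2)
  have k2 := mt_el s {d | d ∈ D ∧ d * s ∉ R}
    (fun d hd => ⟨d1 d hd.1, fun h => hd.2 (by simpa using ri _ h)⟩)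
    (fun d hd => by
      rw [hi]
      exact ⟨(d2 _).2 ((d3 _).2 hd.1), fun h => hd.2 (rc' d h)⟩)
    (fun d _ => by rw [hs]; simp) (fun d hd h => hd.2 (r3 d h)) (fun d hd => mC d hd.1.2)
  have e1 : ({g | g * s ∈ ({d | d ∈ D ∧ d * s ∈ R} : Set G)} : Set G) = D ∩ R := by
    ext g
    simp only [Set.mem_ofPred_eq, hss, Set.mem_inter_iff]
    rw [d2]
  have e2 : ({g | g * s⁻¹ ∈ ({d | d ∈ D ∧ d * s ∉ R} : Set G)} : Set G) = D \ R := by
    ext g
    simp only [Set.mem_ofPred_eq, hi, hss, Set.mem_sdiff]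
    rw [d2]
  rw [e1] at k1
  rw [e2] at k2
  have := k1.union k2 (by
    rw [Set.disjoint_left]
    exact fun d h h' => h'.2 h.2) (by
    rw [Set.disjoint_left]
    rintro p ⟨g, hg, b, rfl, -⟩ ⟨g', hg', e⟩
    exact hg'.2 (pr_el e.symm ▸ hg.2))
  have e3 : ({d | d ∈ D ∧ d * s ∈ R} : Set G) ∪ {d | d ∈ D ∧ d * s ∉ R} = D := by
    ext d
    simp only [Set.mem_union, Set.mem_ofPred_eq]
    tauto
  rwa [e3] at this

theorem XX_out {R D : Set G} (h : ∀ g ∈ D, g ∉ R) : XX R D = el '' D := by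
  have e1 : D ∩ R = ∅ := Set.eq_empty_of_forall_notMem fun g hg => h g hg.1 hg.2
  have e2 : D \ R = D := by
    ext g
    exact ⟨fun k => k.1, fun k => ⟨k, h g k⟩⟩
  simp [XX, XP, e1, e2]

/-- Elements centralising `E` whose commutator with `a` lies in `E`. -/
def cm (E : Subgroup G) (a : G) : Subgroup G where
  carrier := {y | (∀ e ∈ E, y * e = e * y) ∧ y * a * y⁻¹ * a⁻¹ ∈ E}
  one_mem' := by simp
  mul_mem' := by
    rintro x y ⟨x1, x2⟩ ⟨y1, y2⟩
    refine ⟨fun e he => by rw [mul_assoc, y1 e he, ← mul_assoc, x1 e he, mul_assoc], ?_⟩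
    have : x * y * a * (x * y)⁻¹ * a⁻¹ =
        (x * (y * a * y⁻¹ * a⁻¹)) * x⁻¹ * (x * a * x⁻¹ * a⁻¹) := by group
    rw [this, x1 _ y2, mul_inv_cancel_right]
    exact E.mul_mem y2 x2
  inv_mem' := by
    rintro y ⟨y1, y2⟩
    refine ⟨fun e he => ?_, ?_⟩
    · rw [inv_mul_eq_iff_eq_mul, ← mul_assoc, y1 e he, mul_inv_cancel_right]
    · have : y⁻¹ * a * y⁻¹⁻¹ * a⁻¹ = y⁻¹ * ((y * a * y⁻¹ * a⁻¹)⁻¹ * y) := by group
      rw [this, ← y1 _ (E.inv_mem y2), inv_mul_cancel_left]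
      exact E.inv_mem y2

theorem final_stage [Finite G] (E F : Subgroup G) (hEF : E ≤ F)
    (hFE : ∀ a ∈ F, ∀ e ∈ E, a * e = e * a) (hF : ∀ a ∈ F, a * a ∈ E)
    (hZ : ∀ a ∈ F, (∀ b ∈ F, a * b = b * a) → a ∈ E)
    (hI : ∀ a ∈ F, a * a = 1 → a ∈ E) :
    Mt {y | y ∈ F ∧ y ∉ E} (el '' {y | y ∈ F ∧ y ∉ E}) := by
  have := Fintype.ofFinite (G ⧸ E)
  have hcomm : ∀ a ∈ F, ∀ b ∈ F, a * b * a⁻¹ * b⁻¹ ∈ E := by
    intro a ha b hb
    have : a * b * a⁻¹ * b⁻¹ = (a * b) * (a * b) * (b⁻¹ * (a⁻¹ * a⁻¹)) * b * (b⁻¹ * b⁻¹) := by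
      group
    rw [this, hFE _ (F.inv_mem hb) _ (hF _ (F.inv_mem ha)), mul_assoc _ _ b, inv_mul_cancel_right]
    exact E.mul_mem (E.mul_mem (hF _ (F.mul_mem ha hb)) (hF _ (F.inv_mem ha)))
      (hF _ (F.inv_mem hb))
  have hout : ∀ y : G, ∃ e ∈ E, (y : G ⧸ E).out = y * e := by
    intro y
    obtain ⟨e, he⟩ := QuotientGroup.mk_out_eq_mul E y
    exact ⟨e, e.2, he⟩
  have hce : ∀ u ∈ F, ∀ y ∈ F, ∀ e ∈ E, (u * (y * e) = y * e * u ↔ u * y = y * u) := by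
    intro u hu y _ e he
    rw [mul_assoc y, ← hFE u hu e he, ← mul_assoc, ← mul_assoc, mul_left_inj]
  set Q : Finset (G ⧸ E) := Finset.univ.filter fun q => q.out ∈ F with hQ
  set S : Finset (G ⧸ E) := Finset.univ.filter fun q => q.out ∈ F ∧ q.out ∉ E with hS
  have half : ∀ u ∈ F, u ∉ E →
      (Q.filter fun q => u * q.out = q.out * u).card ≤
        (Q.filter fun q => ¬ u * q.out = q.out * u).card := by
    intro u hu huE
    have : ∃ b ∈ F, u * b ≠ b * u := by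
      by_contra h
      push Not at h
      exact huE (hZ u hu h)
    obtain ⟨b, hb, hub⟩ := this
    apply Finset.card_le_card_of_injOn (fun q => b • q)
    · intro q hq
      simp only [hQ, Finset.coe_filter, Finset.mem_filter, Finset.mem_univ, true_and,
        Set.mem_ofPred_eq] at hq ⊢
      have e1 : b • q = ((b * q.out : G) : G ⧸ E) := by
        conv_lhs => rw [← QuotientGroup.out_eq' q]
        rfl
      obtain ⟨e, he, e2⟩ := hout (b * q.out)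
      rw [e1, e2]
      refine ⟨F.mul_mem (F.mul_mem hb hq.1) (hEF he), ?_⟩
      rw [hce u hu _ (F.mul_mem hb hq.1) e he, mul_assoc, ← hq.2, ← mul_assoc, ← mul_assoc,
        mul_left_inj]
      exact hub
    · intro q _ q' _ h
      exact MulAction.injective b h
  have hsub : ∀ u ∈ F, ∀ q ∈ Q.filter (fun q => ¬ u * q.out = q.out * u), q ∈ S := by
    intro u hu q hq
    simp only [hQ, hS, Finset.mem_filter, Finset.mem_univ, true_and] at hq ⊢
    exact ⟨hq.1, fun h => hq.2 (hFE u hu _ h)⟩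
  have hall : ∃ f : S → G ⧸ E, Function.Injective f ∧
      ∀ q, f q ∈ Q.filter (fun q' => ¬ q.1.out * q'.out = q'.out * q.1.out) := by
    apply (Finset.all_card_le_biUnion_card_iff_exists_injective _).1
    intro s
    rcases s.eq_empty_or_nonempty with rfl | ⟨q₀, hq₀⟩
    · simp
    have mS : ∀ q : S, q.1.out ∈ F ∧ q.1.out ∉ E := fun q => (Finset.mem_filter.1 q.2).2
    by_cases hall : ∀ q' ∈ S, ∃ q ∈ s, ¬ q.1.out * q'.out = q'.out * q.1.out
    · have h1 : s.card ≤ S.card := by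
        simpa using Finset.card_le_univ s
      refine h1.trans (Finset.card_le_card fun q' hq' => ?_)
      obtain ⟨q, hq, k⟩ := hall q' hq'
      refine Finset.mem_biUnion.2 ⟨q, hq, Finset.mem_filter.2 ⟨?_, k⟩⟩
      simp only [hQ, hS, Finset.mem_filter, Finset.mem_univ, true_and] at hq' ⊢
      exact hq'.1
    · push Not at hall
      obtain ⟨q', hq', k⟩ := hall
      have hq2 := (Finset.mem_filter.1 hq').2
      have h1 : s.card ≤ (Q.filter fun q => q'.out * q.out = q.out * q'.out).card := by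
        apply Finset.card_le_card_of_injOn (fun q => q.1)
        · intro q hq
          simp only [hQ, Finset.coe_filter, Finset.mem_filter, Finset.mem_univ, true_and,
            Set.mem_ofPred_eq]
          exact ⟨(mS q).1, (k q hq).symm⟩
        · exact fun q _ r _ h => Subtype.ext h
      have h2 := half _ hq2.1 hq2.2
      have h3 := half _ (mS q₀).1 (mS q₀).2
      have h4 := Finset.card_filter_add_card_filter_not (s := Q)
        (fun q => q'.out * q.out = q.out * q'.out)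
      have h5 := Finset.card_filter_add_card_filter_not (s := Q)
        (fun q => q₀.1.out * q.out = q.out * q₀.1.out)
      have h6 : (Q.filter (fun q' => ¬ q₀.1.out * q'.out = q'.out * q₀.1.out)).card ≤
          (s.biUnion fun q : S =>
            Q.filter (fun q' => ¬ q.1.out * q'.out = q'.out * q.1.out)).card :=
        Finset.card_le_card (Finset.subset_biUnion_of_mem (fun q : S =>
            Q.filter (fun q' => ¬ q.1.out * q'.out = q'.out * q.1.out)) hq₀)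
      omega
  obtain ⟨f, finj, hf⟩ := hall
  have mS : ∀ q : S, q.1.out ∈ F ∧ q.1.out ∉ E := fun q => (Finset.mem_filter.1 q.2).2
  have fS : ∀ q, f q ∈ S := fun q => hsub _ (mS q).1 _ (hf q)
  have fsurj : ∀ q' ∈ S, ∃ q, f q = q' := by
    intro q' hq'
    have : Function.Surjective (fun q : S => (⟨f q, fS q⟩ : S)) :=
      Finite.surjective_of_injective fun a b h => finj (congrArg Subtype.val h)
    obtain ⟨q, hq⟩ := this ⟨q', hq'⟩
    exact ⟨q, congrArg Subtype.val hq⟩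
  have cos : ∀ (q : G ⧸ E) (y : G), (y : G ⧸ E) = q ↔ ∃ e ∈ E, y = q.out * e := by
    intro q y
    conv_lhs => rw [← QuotientGroup.out_eq' q, eq_comm, QuotientGroup.eq]
    exact ⟨fun h => ⟨_, h, by group⟩, fun ⟨e, he, h⟩ => by rw [h]; simpa using he⟩
  have memS : ∀ y : G, (y ∈ F ∧ y ∉ E) ↔ (y : G ⧸ E) ∈ S := by
    intro y
    obtain ⟨e, he, h⟩ := hout y
    simp only [hS, Finset.mem_filter, Finset.mem_univ, true_and, h,
      F.mul_mem_cancel_right (hEF he), E.mul_mem_cancel_right he]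
  have key : ∀ q : S, Mt {y : G | (y : G ⧸ E) = q.1} (el '' {y : G | (y : G ⧸ E) = f q}) := by
    intro q
    have hu := mS q
    have ht := mS ⟨f q, fS q⟩
    have hn := (Finset.mem_filter.1 (hf q)).2
    simp only at ht
    set u := q.1.out with hu'
    set t := (f q).out with ht'
    have ha : u⁻¹ * t ∈ F := F.mul_mem (F.inv_mem hu.1) ht.1
    have hL : ∀ y : G, (y : G ⧸ E) = q.1 → y ∈ F ∧ y ∉ E := fun y hy =>
      (memS y).2 (hy ▸ q.2)
    have k := mt_el (u⁻¹ * t) {y : G | (y : G ⧸ E) = q.1} ?_ ?_ ?_ ?_ ?_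
    · have e : ({g | g * (u⁻¹ * t)⁻¹ ∈ ({y : G | (y : G ⧸ E) = q.1} : Set G)} : Set G) =
          {y : G | (y : G ⧸ E) = f q} := by
        ext g
        simp only [Set.mem_ofPred_eq, cos, ← hu', ← ht']
        constructor
        · rintro ⟨e, he, h⟩
          refine ⟨e, he, ?_⟩
          rw [mul_inv_eq_iff_eq_mul] at h
          rw [h, hFE u hu.1 e he, hFE t ht.1 e he]
          group
        · rintro ⟨e, he, h⟩
          refine ⟨e, he, ?_⟩
          rw [h, hFE u hu.1 e he, hFE t ht.1 e he]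
          group
      rwa [e] at k
    · intro d hd
      have hd' : (d : G ⧸ E) = q.1 := hd
      change ((d⁻¹ : G) : G ⧸ E) = q.1
      rw [← hd', QuotientGroup.eq, inv_inv]
      exact hF d (hL d hd').1
    · intro d hd
      have hd' : (d : G ⧸ E) = q.1 := hd
      change ((u⁻¹ * t * d * (u⁻¹ * t)⁻¹ : G) : G ⧸ E) = q.1
      rw [← hd', QuotientGroup.eq]
      have := hcomm _ ha _ (F.inv_mem (hL d hd').1)
      have e : (u⁻¹ * t * d * (u⁻¹ * t)⁻¹)⁻¹ * d = u⁻¹ * t * d⁻¹ * (u⁻¹ * t)⁻¹ * d⁻¹⁻¹ := by group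
      rwa [e]
    · exact fun d hd => (hFE d (hL d hd).1 _ (hF _ ha)).symm
    · exact fun d hd h => (hL d hd).2 (hI d (hL d hd).1 h)
    · intro d hd h
      obtain ⟨e, he, rfl⟩ := (cos _ d).1 hd
      rw [hce _ ha _ hu.1 e he] at h
      apply hn
      have e2 : t * u = u * (u⁻¹ * t * u) := by group
      rw [e2, h]
      group
  have := Mt.biUnion (Finset.univ : Finset S) _ _ (fun q _ => key q) (by
    intro i _ j _ hij
    rw [Set.disjoint_left]
    intro y h1 h2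
    exact hij (Subtype.ext (Eq.trans (Eq.symm h1) h2))) (by
    intro i _ j _ hij
    rw [Set.disjoint_left]
    rintro p ⟨y, h1, rfl⟩ ⟨y', h2, e⟩
    rw [el_inj e] at h2
    exact hij (finj (Eq.trans (Eq.symm h1) h2)))
  have e1 : (⋃ q ∈ (Finset.univ : Finset S), {y : G | (y : G ⧸ E) = q.1}) =
      {y | y ∈ F ∧ y ∉ E} := by
    ext y
    simp only [Finset.mem_univ, Set.iUnion_true, Set.mem_iUnion, Set.mem_ofPred_eq, memS]
    exact ⟨fun ⟨q, h⟩ => h ▸ q.2, fun h => ⟨⟨_, h⟩, rfl⟩⟩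
  have e2 : (⋃ q ∈ (Finset.univ : Finset S), el '' {y : G | (y : G ⧸ E) = f q}) =
      el '' {y | y ∈ F ∧ y ∉ E} := by
    ext p
    simp only [Finset.mem_univ, Set.iUnion_true, Set.mem_iUnion, Set.mem_image,
      Set.mem_ofPred_eq, memS]
    constructor
    · rintro ⟨q, y, h, k⟩
      exact ⟨y, h ▸ fS q, k⟩
    · rintro ⟨y, h, k⟩
      obtain ⟨q, hq⟩ := fsurj _ h
      exact ⟨q, y, hq.symm, k⟩
  rwa [e1, e2] at this

theorem selfc [Finite G] (Y E F : Subgroup G) (hY : ∀ g, g * g ∈ Y) (hEF : E ≤ F) (hFY : F ≤ Y)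
    (hE : ∀ e ∈ E, e * e = 1) (hFE : ∀ a ∈ F, ∀ e ∈ E, a * e = e * a)
    (hF : ∀ a ∈ F, a * a ∈ E) (hZ : ∀ a ∈ F, (∀ b ∈ F, a * b = b * a) → a ∈ E)
    (hC : ∀ y ∈ Y, (∀ e ∈ E, y * e = e * y) → (∀ a ∈ F, y * a * y⁻¹ * a⁻¹ ∈ E) → y ∈ F)
    (hR : ∀ y ∈ Y, (∀ e ∈ E, y * e = e * y) → ∀ e ∈ E, ∀ x : G,
      (x * e * x⁻¹) * y * (x * e * x⁻¹) = y⁻¹ → y ∈ E) :
    HasStarter G := by
  have := Fintype.ofFinite G
  set R : Set G := {y | ∃ e ∈ E, ∃ x : G, (x * e * x⁻¹) * y * (x * e * x⁻¹) = y⁻¹} with hRdef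
  have r1 : ∀ g ∈ R, g⁻¹ ∈ R := by
    rintro g ⟨e, he, x, h⟩
    refine ⟨e⁻¹, E.inv_mem he, x, ?_⟩
    have : x * e⁻¹ * x⁻¹ * g⁻¹ * (x * e⁻¹ * x⁻¹) = (x * e * x⁻¹ * g * (x * e * x⁻¹))⁻¹ := by group
    rw [this, h]
  have r2 : ∀ h, ∀ g ∈ R, h * g * h⁻¹ ∈ R := by
    rintro h g ⟨e, he, x, k⟩
    refine ⟨e, he, h * x, ?_⟩
    have : h * x * e * (h * x)⁻¹ * (h * g * h⁻¹) * (h * x * e * (h * x)⁻¹) =
        h * (x * e * x⁻¹ * g * (x * e * x⁻¹)) * h⁻¹ := by group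
    rw [this, k]
    group
  have r3 : ∀ s ∈ E, ∀ d, d * d = 1 → d * s ∈ R := by
    intro s hs d hd
    refine ⟨s, hs, 1, ?_⟩
    rw [mul_inv_rev, inv_eq_of_mul_eq_one_right hd, inv_eq_of_mul_eq_one_right (hE s hs)]
    simp only [one_mul, inv_one, mul_one, mul_assoc, hE s hs]
  have r4 : ∀ d, d * d = 1 → d ∈ R := fun d hd => by simpa using r3 1 E.one_mem d hd
  set K : Subgroup G := Y ⊓ Subgroup.centralizer (E : Set G) with hK
  have mK : ∀ y, y ∈ K ↔ y ∈ Y ∧ ∀ e ∈ E, y * e = e * y := by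
    intro y
    simp only [hK, Subgroup.mem_inf, Subgroup.mem_centralizer_iff, SetLike.mem_coe]
    exact ⟨fun h => ⟨h.1, fun e he => (h.2 e he).symm⟩, fun h => ⟨h.1, fun e he => (h.2 e he).symm⟩⟩
  have r5 : ∀ y ∈ K, y ∉ E → y ∉ R := by
    rintro y hy hyE ⟨e, he, x, k⟩
    exact hyE (hR y ((mK y).1 hy).1 ((mK y).1 hy).2 e he x k)
  have hFK : ∀ a ∈ F, a ∈ K := fun a ha => (mK a).2 ⟨hFY ha, hFE a ha⟩
  have hcomm : ∀ a ∈ F, ∀ b ∈ F, a * b * a⁻¹ * b⁻¹ ∈ E := by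
    intro a ha b hb
    have : a * b * a⁻¹ * b⁻¹ = (a * b) * (a * b) * (b⁻¹ * (a⁻¹ * a⁻¹)) * b * (b⁻¹ * b⁻¹) := by
      group
    rw [this, hFE _ (F.inv_mem hb) _ (hF _ (F.inv_mem ha)), mul_assoc _ _ b, inv_mul_cancel_right]
    exact E.mul_mem (E.mul_mem (hF _ (F.mul_mem ha hb)) (hF _ (F.inv_mem ha)))
      (hF _ (F.inv_mem hb))
  have g1 := Gd.chain R Y (fun s => Subgroup.centralizer {s}) E (fun a ha => hFY (hEF ha))
    (fun a ha b hb => by
      simp only [Subgroup.mem_centralizer_iff, Set.mem_singleton_iff, forall_eq]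
      exact hFE b (hEF hb) a ha)
    (fun s hs H _ hH => stage_one R r1 r2 s (hE s hs) (r3 s hs) H hH)
    (Finset.univ.filter (· ∈ E)) (fun a ha => by simpa using ha)
  have g2 := Gd.chain R K (cm E) F hFK (fun a ha b hb => ⟨hFE a ha, hcomm a ha b hb⟩)
    (fun a ha H hH haH => by
      have aC : a ∈ cm E a := ⟨hFE a ha, by simp⟩
      have nE : ∀ y, y ∈ H ∧ y ∉ cm E a → y ∉ E := fun y hy h =>
        hy.2 ⟨((mK y).1 (hH hy.1)).2, hcomm y (hEF h) a ha⟩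
      unfold Gd
      rw [XX_out (D := {y | y ∈ H ∧ y ∉ cm E a}) fun y hy => r5 y (hH hy.1) (nE y hy)]
      have k := mt_el a {y | y ∈ H ∧ y ∉ cm E a}
        (fun y hy => ⟨H.inv_mem hy.1, fun h => hy.2 (by simpa using h)⟩)
        (fun y hy => ⟨H.mul_mem (H.mul_mem haH hy.1) (H.inv_mem haH), fun h => hy.2 (by
          rwa [(cm E a).mul_mem_cancel_right ((cm E a).inv_mem aC),
            (cm E a).mul_mem_cancel_left aC] at h)⟩)
        (fun y hy => (((mK y).1 (hH hy.1)).2 _ (hF a ha)).symm)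
        (fun y hy h => r5 y (hH hy.1) (nE y hy) (r4 y h))
        (fun y hy h => hy.2 ⟨((mK y).1 (hH hy.1)).2, by rw [← h]; simp⟩)
      have e : ({g | g * a⁻¹ ∈ ({y | y ∈ H ∧ y ∉ cm E a} : Set G)} : Set G) =
          {y | y ∈ H ∧ y ∉ cm E a} := by
        ext g
        simp only [Set.mem_ofPred_eq, H.mul_mem_cancel_right (H.inv_mem haH),
          (cm E a).mul_mem_cancel_right ((cm E a).inv_mem aC)]
      rwa [e] at k)
    (Finset.univ.filter (· ∈ F)) (fun a ha => by simpa using ha)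
  have g3 : Gd R {y | y ∈ F ∧ y ∉ E} := by
    unfold Gd
    rw [XX_out fun y hy => r5 y (hFK y hy.1) hy.2]
    refine final_stage E F hEF hFE hF hZ fun a ha h => ?_
    by_contra h'
    exact r5 a (hFK a ha) h' (r4 a h)
  have g4 : Gd R {y | y ∈ E ∧ y ≠ 1} := by
    have e1 : ({y | y ∈ E ∧ y ≠ 1} : Set G) ∩ R = {y | y ∈ E ∧ y ≠ 1} :=
      Set.inter_eq_left.2 fun y hy => r4 y (hE y hy.1)
    have e2 : ({y | y ∈ E ∧ y ≠ 1} : Set G) \ R = ∅ :=
      Set.sdiff_eq_empty.2 fun y hy => r4 y (hE y hy.1)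
    unfold Gd XX
    rw [e1, e2, Set.image_empty, Set.union_empty]
    exact mt_inv _ fun d hd => hE d hd.1
  have e1 : ({y | y ∈ Y ∧ ∃ a ∈ Finset.univ.filter (· ∈ E), y ∉ Subgroup.centralizer {a}} : Set G)
      = {y | y ∈ Y ∧ y ∉ K} := by
    ext y
    simp only [Set.mem_ofPred_eq, Finset.mem_filter, Finset.mem_univ, true_and, mK,
      Subgroup.mem_centralizer_iff, Set.mem_singleton_iff, forall_eq]
    constructor
    · rintro ⟨h, a, ha, k⟩
      exact ⟨h, fun h' => k (h'.2 a ha).symm⟩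
    · rintro ⟨h, k⟩
      refine ⟨h, ?_⟩
      by_contra h'
      push Not at h'
      exact k ⟨h, fun e he => (h' e he).symm⟩
  have e2 : ({y | y ∈ K ∧ ∃ a ∈ Finset.univ.filter (· ∈ F), y ∉ cm E a} : Set G)
      = {y | y ∈ K ∧ y ∉ F} := by
    ext y
    simp only [Set.mem_ofPred_eq, Finset.mem_filter, Finset.mem_univ, true_and]
    constructor
    · rintro ⟨h, a, ha, k⟩
      exact ⟨h, fun h' => k ⟨hFE y h', hcomm y h' a ha⟩⟩
    · rintro ⟨h, k⟩
      refine ⟨h, ?_⟩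
      by_contra h'
      push Not at h'
      exact k (hC y ((mK y).1 h).1 ((mK y).1 h).2 fun a ha => (h' a ha).2)
  rw [e1] at g1
  rw [e2] at g2
  have g5 := g1.union (g2.union (g3.union g4 (by
    rw [Set.disjoint_left]
    exact fun y h h' => h.2 h'.1)) (by
    rw [Set.disjoint_left]
    rintro y h (h' | h')
    · exact h.2 h'.1
    · exact h.2 (hEF h'.1))) (by
    rw [Set.disjoint_left]
    rintro y h (h' | h' | h')
    · exact h.2 h'.1
    · exact h.2 (hFK y h'.1)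
    · exact h.2 (hFK y (hEF h'.1)))
  have e3 : ({y | y ∈ Y ∧ y ∉ K} : Set G) ∪ ({y | y ∈ K ∧ y ∉ F} ∪
      ({y | y ∈ F ∧ y ∉ E} ∪ {y | y ∈ E ∧ y ≠ 1})) =
      ((Finset.univ.filter fun y : G => y ∈ Y ∧ y ≠ 1 : Finset G) : Set G) := by
    ext y
    simp only [Set.mem_union, Set.mem_ofPred_eq, Finset.coe_filter, Finset.mem_univ, true_and]
    constructor
    · rintro (h | h | h | h)
      · exact ⟨h.1, fun e => h.2 (e ▸ K.one_mem)⟩
      · exact ⟨((mK y).1 h.1).1, fun e => h.2 (e ▸ F.one_mem)⟩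
      · exact ⟨hFY h.1, fun e => h.2 (e ▸ E.one_mem)⟩
      · exact ⟨hFY (hEF h.1), h.2⟩
    · rintro ⟨h1, h2⟩
      tauto
  rw [e3] at g5
  have nY : ∀ h, ∀ x ∈ Y, h * x * h⁻¹ ∈ Y := by
    intro h x hx
    have : h * x * h⁻¹ = (h * x) * (h * x) * x⁻¹ * (h⁻¹ * h⁻¹) := by group
    rw [this]
    exact Y.mul_mem (Y.mul_mem (hY _) (Y.inv_mem hx)) (hY _)
  have nD : ∀ h : G, ∀ x ∈ ((Finset.univ.filter fun y : G => y ∈ Y ∧ y ≠ 1 : Finset G) : Set G),
      h * x * h⁻¹ ∈ ((Finset.univ.filter fun y : G => y ∈ Y ∧ y ≠ 1 : Finset G) : Set G) := by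
    intro h x hx
    simp only [Finset.coe_filter, Finset.mem_univ, true_and, Set.mem_ofPred_eq] at hx ⊢
    exact ⟨nY h x hx.1, by simpa using hx.2⟩
  have c1 := Mt.cover _ _ (by
    rintro h p (⟨g, hg, b, rfl, hb⟩ | ⟨g, hg, rfl⟩)
    · left
      refine ⟨h * g * h⁻¹, ⟨nD h g hg.1, r2 h g hg.2⟩, b, smul_pr h g b, fun k => hb ?_⟩
      have : g * g = h⁻¹ * (h * g * h⁻¹ * (h * g * h⁻¹)) * h := by group
      rw [this, k]
      simp
    · right
      refine ⟨h * g * h⁻¹, ⟨nD h g hg.1, fun k => hg.2 ?_⟩, (smul_el h g).symm⟩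
      have := r2 h⁻¹ _ k
      simpa [mul_assoc] using this) (fun g hg => (Finset.mem_filter.1 hg).2.2) g5
  have c2 := cover_outside Y hY
  apply hasStarter_of_cover
  have := Cover.union (by
    rw [Finset.disjoint_left]
    intro y h h'
    exact (Finset.mem_filter.1 h').2 (Finset.mem_filter.1 h).2.1) c1 c2
  have e4 : (Finset.univ.filter fun y : G => y ∈ Y ∧ y ≠ 1) ∪
      (Finset.univ.filter fun g : G => g ∉ Y) = Finset.univ.erase 1 := by
    ext y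
    simp only [Finset.mem_union, Finset.mem_filter, Finset.mem_univ, true_and, Finset.mem_erase,
      and_true]
    constructor
    · rintro (h | h)
      · exact h.2
      · exact fun e => h (e ▸ Y.one_mem)
    · intro h
      tauto
  rwa [e4] at this

end Pool.Agent.P.MP_da365b_co
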