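import Pool.Agent.P.MP_da365b_co.Dirac

namespace Pool.Agent.P.MP_da365b_co

open Classical

set_option linter.unusedSectionVars false

variable {G : Type*} [Group G]

structure Lev (M : Subgroup G) (w : G) (K S : Subgroup G) : Prop where
  normal : M.Normal
  sq : w * w ∈ M
  comm : ∀ g, g * w * g⁻¹ * w⁻¹ ∈ M
  le : M ≤ K
  notK : w ∉ K
  memS : ∀ x, x ∈ S ↔ x ∈ K ∨ w⁻¹ * x ∈ K

namespace Lev

variable {M : Subgroup G} {w : G} {K S : Subgroup G} (h : Lev M w K S)
include h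

theorem leS : K ≤ S := fun x hx => (h.memS x).2 (Or.inl hx)

theorem wS : w ∈ S := (h.memS w).2 (Or.inr (by simp))

def rho : G ⧸ K → G ⧸ S := Subgroup.quotientMapOfLE h.leS

theorem rho_mk (x : G) : h.rho (x : G ⧸ K) = (x : G ⧸ S) := rfl

theorem rho_smul (g : G) (b : G ⧸ K) : h.rho (g • b) = g • h.rho b := by
  induction b using QuotientGroup.induction_on with
  | H y => rfl

theorem rho_surj (b : G ⧸ S) : ∃ c, h.rho c = b := by
  induction b using QuotientGroup.induction_on with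
  | H y => exact ⟨(y : G ⧸ K), rfl⟩

theorem smul_M {x : G} (hx : x ∈ M) (b : G ⧸ K) : x • b = b := by
  induction b using QuotientGroup.induction_on with
  | H y =>
    change ((x * y : G) : G ⧸ K) = y
    rw [QuotientGroup.eq]
    apply h.le
    have : (x * y)⁻¹ * y = y⁻¹ * x⁻¹ * y⁻¹⁻¹ := by group
    rw [this]
    exact h.normal.conj_mem _ (M.inv_mem hx) _

theorem smul_lv {x : G} (hx : w⁻¹ * x ∈ M) (b : G ⧸ K) : x • b = w • b := by
  have : x = w * (w⁻¹ * x) := by group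
  rw [this, mul_smul, h.smul_M hx]

theorem smul_comm' (g : G) (b : G ⧸ K) : g • w • b = w • g • b := by
  have : g * w = (g * w * g⁻¹ * w⁻¹) * (w * g) := by group
  rw [← mul_smul, this, mul_smul, h.smul_M (h.comm g), mul_smul]

theorem ww (b : G ⧸ K) : w • w • b = b := by
  rw [← mul_smul, h.smul_M h.sq]

theorem w_mk (y : G) : w • (y : G ⧸ K) = ((y * w : G) : G ⧸ K) := by
  change ((w * y : G) : G ⧸ K) = _
  rw [QuotientGroup.eq]
  apply h.le
  have : (w * y)⁻¹ * (y * w) = w⁻¹ * (y⁻¹ * w * y⁻¹⁻¹ * w⁻¹)⁻¹ * w⁻¹⁻¹ := by group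
  rw [this]
  exact h.normal.conj_mem _ (M.inv_mem (h.comm _)) _

theorem w_move (b : G ⧸ K) : w • b ≠ b := by
  induction b using QuotientGroup.induction_on with
  | H y =>
    rw [h.w_mk, Ne, QuotientGroup.eq]
    intro h'
    apply h.notK
    have : w = ((y * w)⁻¹ * y)⁻¹ := by group
    rw [this]
    exact K.inv_mem h'

theorem rho_eq_iff (b c : G ⧸ K) : h.rho c = h.rho b ↔ c = b ∨ c = w • b := by
  induction b using QuotientGroup.induction_on with
  | H y =>
  induction c using QuotientGroup.induction_on with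
  | H x =>
    rw [h.rho_mk, h.rho_mk, h.w_mk, eq_comm, QuotientGroup.eq, h.memS, eq_comm (a := (x : G ⧸ K)),
      eq_comm (a := (x : G ⧸ K)), QuotientGroup.eq, QuotientGroup.eq]
    simp [mul_assoc]

theorem preimage_single (b : G ⧸ K) : h.rho ⁻¹' {h.rho b} = {b, w • b} := by
  ext c
  simp [h.rho_eq_iff]

theorem smul_S {x : G} (hx : x ∈ M ∨ w⁻¹ * x ∈ M) (b : G ⧸ S) : x • b = b := by
  obtain ⟨c, rfl⟩ := h.rho_surj b
  rw [← h.rho_smul, h.rho_eq_iff]
  rcases hx with hx | hx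
  · exact Or.inl (h.smul_M hx c)
  · exact Or.inr (h.smul_lv hx c)

theorem loopB {x : G} (hx : w⁻¹ * x ∈ M) (h2 : x * x ≠ 1) (b : G ⧸ S) :
    PM K {x, x⁻¹} (h.rho ⁻¹' {b}) := by
  obtain ⟨c, rfl⟩ := h.rho_surj b
  rw [h.preimage_single, ← h.smul_lv hx]
  exact PM.long h2 (by rw [h.smul_lv hx]; exact h.w_move c)

theorem pseudoB {t₁ t₂ : G} (hne : t₁ ≠ t₂) (m1 : t₁ ∈ M) (m2 : t₂ ∈ M) (n1 : t₁ ≠ 1)
    (n2 : t₂ ≠ 1) (s1 : t₁ * t₁ = 1) (s2 : t₂ * t₂ = 1) (b : G ⧸ S) :
    PM K {t₁, t₂} (h.rho ⁻¹' {b}) := by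
  obtain ⟨c, rfl⟩ := h.rho_surj b
  rw [h.preimage_single]
  have := (PM.short n1 s1 (h.smul_M m1 c)).union (PM.short n2 s2 (h.smul_M m2 (w • c)))
    (by simpa using hne) (by simpa using (h.w_move c).symm)
  rw [Finset.insert_eq, Set.insert_eq]
  exact this

theorem dblB {j : G} (hj1 : j ≠ 1) (hj2 : j * j = 1) (hjc : ∀ g, g * j = j * g) (hjM : j ∈ M)
    (e : G × (G ⧸ S)) (hs : Strong j e.1) (hm : e.1 • e.2 ≠ e.2) :
    PM K (quad j e.1) (h.rho ⁻¹' (pts e : Set (G ⧸ S))) := by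
  obtain ⟨g, b⟩ := e
  obtain ⟨c, rfl⟩ := h.rho_surj b
  simp only at hs hm ⊢
  rw [← h.rho_smul, Ne, h.rho_eq_iff, not_or] at hm
  have hgj : (g * j) • w • c = w • g • c := by
    rw [mul_smul, h.smul_M hjM, h.smul_comm']
  have sq : g * j * (g * j) = g * g := by
    rw [mul_assoc, ← mul_assoc j, ← hjc g, mul_assoc g j, hj2, mul_one]
  have hi : j⁻¹ = j := inv_eq_of_mul_eq_one_right hj2
  have p1 := PM.long hs.1 hm.1
  have p2 := PM.long (K := K) (g := g * j) (b := w • c) (by rw [sq]; exact hs.1) (by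
    rw [hgj]
    intro h'
    exact hm.1 (smul_left_cancel w h'))
  rw [hgj, inv_mul_j hj2 hjc] at p2
  have := p1.union p2 (by
    simp only [Finset.disjoint_insert_left, Finset.mem_insert, Finset.mem_singleton, not_or,
      Finset.disjoint_singleton_left]
    refine ⟨⟨?_, ?_⟩, ?_, ?_⟩
    · simpa using hj1
    · intro h'
      apply hs.2
      nth_rewrite 2 [h']
      simp
    · intro h'
      apply hs.2
      have : g * g = j⁻¹ := by
        rw [eq_inv_iff_mul_eq_one, mul_assoc, ← h']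
        simp
      rw [this, hi]
    · simpa using hj1) (by
    rw [Set.disjoint_left]
    intro x hx hx'
    simp only [Set.mem_insert_iff, Set.mem_singleton_iff] at hx hx'
    rcases hx with rfl | rfl <;> rcases hx' with h' | h'
    · exact h.w_move _ h'.symm
    · apply hm.2
      nth_rewrite 2 [h']
      rw [h.ww]
    · exact hm.2 h'
    · exact h.w_move _ h'.symm)
  convert this using 1
  · ext x
    simp only [mem_quad, Finset.mem_union, Finset.mem_insert, Finset.mem_singleton]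
    tauto
  · ext x
    simp only [pts, Finset.coe_insert, Finset.coe_singleton, Set.mem_preimage, Set.mem_insert_iff,
      Set.mem_singleton_iff, Set.mem_union, ← h.rho_smul, h.rho_eq_iff]
    tauto

theorem dbls {j : G} (hj1 : j ≠ 1) (hj2 : j * j = 1) (hjc : ∀ g, g * j = j * g) (hjM : j ∈ M)
    {U : Finset G} (E : Finset (G × (G ⧸ S))) (hE : Good j U E) :
    PM K (labs j E) (h.rho ⁻¹' (cov E : Set (G ⧸ S))) := by
  induction E using Finset.induction_on with
  | empty => simpa [labs, cov] using PM.empty K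
  | insert e E he ih =>
    have h1 := ih (hE.mono (Finset.subset_insert _ _))
    have h2 := h.dblB hj1 hj2 hjc hjM e (hE.strong e (by simp)) (hE.move e (by simp))
    have := h2.union h1 (by
      unfold labs
      rw [Finset.disjoint_biUnion_right]
      intro e' he'
      exact hE.dq e (by simp) e' (by simp [he']) (fun h' => he (h' ▸ he'))) (by
      apply Disjoint.preimage
      rw [Finset.disjoint_coe]
      unfold cov
      rw [Finset.disjoint_biUnion_right]
      intro e' he'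
      exact hE.dp e (by simp) e' (by simp [he']) (fun h' => he (h' ▸ he')))
    simpa [labs, cov, Finset.biUnion_insert, Set.preimage_union] using this

theorem loops (X : Finset (G ⧸ S)) (D : Finset G) (hD1 : ∀ x ∈ D, x⁻¹ ∈ D)
    (hD2 : ∀ x ∈ D, w⁻¹ * x ∈ M ∧ x * x ≠ 1) (hc : 2 * X.card ≤ D.card) :
    ∃ D₁ ⊆ D, PM K D₁ (h.rho ⁻¹' (X : Set (G ⧸ S))) ∧ D₁.card = 2 * X.card := by
  induction X using Finset.induction_on with
  | empty => exact ⟨∅, by simp, by simpa using PM.empty K, by simp⟩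
  | insert b X hb ih =>
    rw [Finset.card_insert_of_notMem hb] at hc ⊢
    obtain ⟨D₁, hsub, hpm, hcard⟩ := ih (by omega)
    obtain ⟨x, hxD, hx⟩ : ∃ x ∈ D, x ∉ D₁ := by
      by_contra hcon
      push Not at hcon
      have := Finset.card_le_card (show D ⊆ D₁ from hcon)
      omega
    have hx' : x⁻¹ ∉ D₁ := fun h' => hx (by simpa using hpm.inv_mem _ h')
    have hne : x ≠ x⁻¹ := fun h' => (hD2 x hxD).2 (by nth_rewrite 2 [h']; simp)
    have hdis : Disjoint ({x, x⁻¹} : Finset G) D₁ := by simp [hx, hx']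
    refine ⟨{x, x⁻¹} ∪ D₁, ?_, ?_, ?_⟩
    · intro y hy
      simp only [Finset.mem_union, Finset.mem_insert, Finset.mem_singleton] at hy
      rcases hy with (rfl | rfl) | hy
      · exact hxD
      · exact hD1 _ hxD
      · exact hsub hy
    · have := (h.loopB (hD2 x hxD).1 (hD2 x hxD).2 b).union hpm hdis (by
        apply Disjoint.preimage
        simpa using hb)
      rw [Finset.coe_insert, Set.insert_eq, Set.preimage_union]
      exact this
    · rw [Finset.card_union_of_disjoint hdis, Finset.card_pair hne]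
      omega

theorem copies [Finite G] [Fintype (G ⧸ S)] (q : ℕ) (D : Finset G) (hD1 : ∀ x ∈ D, x⁻¹ ∈ D)
    (hD2 : ∀ x ∈ D, w⁻¹ * x ∈ M ∧ x * x ≠ 1) (hc : D.card = 2 * (q * Fintype.card (G ⧸ S))) :
    Cover D := by
  induction q generalizing D with
  | zero =>
    have : D = ∅ := by simpa using hc
    rw [this]
    exact Cover.empty
  | succ q ih =>
    obtain ⟨D₁, hsub, hpm, hcard⟩ := h.loops Finset.univ D hD1 hD2 (by
      rw [hc, Finset.card_univ]; nlinarith)
    rw [Finset.card_univ] at hcard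
    have c1 : Cover D₁ := PM.cover (K := K) (by simpa using hpm)
    have c2 : Cover (D \ D₁) := by
      apply ih
      · intro x hx
        rw [Finset.mem_sdiff] at hx ⊢
        exact ⟨hD1 x hx.1, fun h' => hx.2 (by simpa using hpm.inv_mem _ h')⟩
      · intro x hx
        exact hD2 x (Finset.mem_sdiff.1 hx).1
      · rw [Finset.card_sdiff_of_subset hsub, hc, hcard, add_mul]
        omega
    have := Cover.union Finset.disjoint_sdiff c1 c2
    rwa [Finset.union_sdiff_of_subset hsub] at this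

theorem special [Fintype G] [Fintype (G ⧸ S)] {j : G} (hj1 : j ≠ 1) (hj2 : j * j = 1)
    (hjc : ∀ g, g * j = j * g) (hjM : j ∈ M) {U : Finset G} (hU : Clo j U) (s : ℕ) (hs8 : 8 ≤ s)
    (hs : ∀ a b : G ⧸ S, a ≠ b →
      s ≤ (Finset.univ.filter fun g : G => Strong j g ∧ g • a = b).card)
    (hbound : 2 * U.card + 4 * Fintype.card (G ⧸ S) ≤ Fintype.card (G ⧸ S) * s)
    (D : Finset G) (hD1 : ∀ x ∈ D, x⁻¹ ∈ D) (hD2 : ∀ x ∈ D, w⁻¹ * x ∈ M ∧ x * x ≠ 1)
    (a ε : ℕ) (ha : D.card = 2 * a) (P : Finset G) (hPM : ∀ t ∈ P, t ∈ M) (hε : ε ≤ 1)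
    (hP0 : ε = 0 → P = ∅)
    (hP : ∀ X : Finset (G ⧸ S), X.card = ε → PM K P (h.rho ⁻¹' (X : Set (G ⧸ S))))
    (hpar : (2 ∣ a + ε ∧ 2 ∣ Fintype.card (G ⧸ S)) ∨ Fintype.card (G ⧸ S) = 1) :
    ∃ F : Finset G, Clo j F ∧ (∀ g ∈ F, Strong j g ∧ g ∉ U ∧ ¬ (g ∈ M ∨ w⁻¹ * g ∈ M)) ∧
      F.card ≤ 2 * Fintype.card (G ⧸ S) ∧ Cover (F ∪ P ∪ D) := by
  set p := Fintype.card (G ⧸ S) with hp
  have hp0 : 0 < p := Fintype.card_pos
  by_cases h0 : a + ε = 0
  · refine ⟨∅, by simp [Clo], by simp, by simp, ?_⟩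
    have : D = ∅ := by
      rw [← Finset.card_eq_zero]; omega
    rw [this, hP0 (by omega)]
    simpa using Cover.empty
  obtain ⟨q, r, hqr, hr1, hrp⟩ : ∃ q r, a + ε = q * p + r ∧ 1 ≤ r ∧ r ≤ p := by
    refine ⟨(a + ε - 1) / p, (a + ε - 1) % p + 1, ?_, by omega, Nat.mod_lt _ hp0⟩
    have := Nat.div_add_mod (a + ε - 1) p
    rw [mul_comm] at this
    omega
  obtain ⟨m, hm⟩ : ∃ m, 2 * m + r = p := by
    rcases hpar with ⟨h1, h2⟩ | h1
    · have : 2 ∣ q * p := Dvd.dvd.mul_left h2 q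
      exact ⟨(p - r) / 2, by omega⟩
    · exact ⟨0, by omega⟩
  obtain ⟨E, hEc, hE⟩ := dirac hj2 hjc s hs8 hs hbound m (by omega)
  have hcc : (cov E)ᶜ.card = r := by
    rw [Finset.card_compl, hE.card_cov]; omega
  obtain ⟨XP, hXP, hXPc⟩ := Finset.exists_subset_card_eq (s := (cov E)ᶜ) (n := ε) (by omega)
  have hXL : ((cov E)ᶜ \ XP).card = r - ε := by rw [Finset.card_sdiff_of_subset hXP, hcc, hXPc]
  obtain ⟨D₁, hsub, hpm, hcard⟩ := h.loops ((cov E)ᶜ \ XP) D hD1 hD2 (by
    rw [hXL, ha]; omega)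
  have hF : ∀ g ∈ labs j E, Strong j g ∧ g ∉ U ∧ ¬ (g ∈ M ∨ w⁻¹ * g ∈ M) := by
    intro g hg
    obtain ⟨e, he, hg⟩ := Finset.mem_biUnion.1 hg
    refine ⟨strong_of_mem_quad hj2 hjc (hE.strong e he) hg,
      Finset.disjoint_left.1 (disjoint_quad hj2 hjc hU (hE.notU e he)) hg, ?_⟩
    intro h'
    apply hE.move e he
    have h1 := h.smul_S h'
    have h2 := h.smul_S (Or.inl hjM)
    have h3 : ∀ b : G ⧸ S, g⁻¹ • b = b := fun b => by rw [inv_smul_eq_iff, h1]
    rcases mem_quad.1 (mem_quad_symm hj2 hjc hg) with h4 | h4 | h4 | h4 <;> rw [h4]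
    · exact h1 _
    · exact h3 _
    · rw [mul_smul, h2, h1]
    · rw [mul_smul, h2, h3]
  have dFP : Disjoint (labs j E) P := by
    rw [Finset.disjoint_left]
    intro g hg hg'
    exact (hF g hg).2.2 (Or.inl (hPM g hg'))
  have dD : Disjoint (labs j E ∪ P) D := by
    rw [Finset.disjoint_left]
    intro g hg hg'
    rcases Finset.mem_union.1 hg with h1 | h1
    · exact (hF g h1).2.2 (Or.inr (hD2 g hg').1)
    · apply h.notK
      apply h.le
      have : w = g * (w⁻¹ * g)⁻¹ := by group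
      rw [this]
      exact M.mul_mem (hPM g h1) (M.inv_mem (hD2 g hg').1)
  have pm1 := (h.dbls hj1 hj2 hjc hjM E hE).union (hP XP hXPc) dFP (by
    apply Disjoint.preimage
    rw [Finset.disjoint_coe]
    exact Finset.disjoint_left.2 fun x hx hx' => Finset.mem_compl.1 (hXP hx') hx)
  have pm2 := pm1.union hpm (dD.mono_right hsub) (by
    rw [← Set.preimage_union]
    apply Disjoint.preimage
    rw [← Finset.coe_union, Finset.disjoint_coe, Finset.disjoint_left]
    intro x hx hx'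
    rw [Finset.mem_sdiff, Finset.mem_compl] at hx'
    rcases Finset.mem_union.1 hx with h1 | h1
    · exact hx'.1 h1
    · exact hx'.2 h1)
  have huniv : (h.rho ⁻¹' (cov E : Set (G ⧸ S)) ∪ h.rho ⁻¹' (XP : Set (G ⧸ S))) ∪
      h.rho ⁻¹' (((cov E)ᶜ \ XP : Finset (G ⧸ S)) : Set (G ⧸ S)) = Set.univ := by
    ext x
    simp only [Set.mem_union, Set.mem_preimage, Finset.mem_coe, Finset.mem_sdiff,
      Finset.mem_compl, Set.mem_univ, iff_true]
    tauto
  rw [huniv] at pm2
  have c2 : Cover (D \ D₁) := by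
    apply h.copies q
    · intro x hx
      rw [Finset.mem_sdiff] at hx ⊢
      exact ⟨hD1 x hx.1, fun h' => hx.2 (by simpa using hpm.inv_mem _ h')⟩
    · intro x hx
      exact hD2 x (Finset.mem_sdiff.1 hx).1
    · rw [Finset.card_sdiff_of_subset hsub, ha, hcard, hXL, ← hp]
      omega
  refine ⟨labs j E, clo_labs hj2 hjc E, hF, (card_labs_le j E).trans (by omega), ?_⟩
  have := Cover.union (A := labs j E ∪ P ∪ D₁) (B := D \ D₁) (by
    rw [Finset.disjoint_union_left]
    exact ⟨dD.mono_right Finset.sdiff_subset, Finset.disjoint_sdiff⟩) pm2.cover c2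
  rwa [Finset.union_assoc _ D₁, Finset.union_sdiff_of_subset hsub] at this

end Lev

end Pool.Agent.P.MP_da365b_co
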