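import Pool.Agent.P.MP_da365b_co.VBlk0

namespace Pool.Agent.P.MP_da365b_co.SV

open Classical

set_option linter.unusedSectionVars false

universe u

variable {G : Type u} [Group G]

theorem vblk_char {P : Subgroup G} (χ : G →* ℤˣ) {a b : G}
    (e : (a : G ⧸ (P ⊓ χ.ker)) = b) : χ a = χ b := by
  have h' : χ (a⁻¹ * b) = 1 := (QuotientGroup.eq.1 e).2
  rw [map_mul, map_inv, inv_mul_eq_one] at h'
  exact h'

theorem vblk_free {O P : Subgroup G} (h : Hall O P) {o a : G} (ho : o ∈ O)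
    (ha : a⁻¹ * o * a ∈ P) : o = 1 := by
  obtain ⟨k, hk⟩ := h.two ⟨_, ha⟩
  have h1 : (a⁻¹ * o * a) ^ 2 ^ k = 1 := congrArg Subtype.val hk
  have h2 : o ^ 2 ^ k = 1 := by
    have e : (a⁻¹ * o * a) ^ 2 ^ k = a⁻¹ * o ^ 2 ^ k * a := by
      have := conj_pow (i := 2 ^ k) (a := a⁻¹) (b := o)
      rwa [inv_inv] at this
    rw [e] at h1
    have e2 : o ^ 2 ^ k = a * (a⁻¹ * o ^ 2 ^ k * a) * a⁻¹ := by group
    rw [e2, h1]
    group
  have d1 : orderOf o ∣ 2 ^ k := orderOf_dvd_of_pow_eq_one h2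
  have d2 : orderOf o ∣ Nat.card O := Subgroup.orderOf_dvd_natCard O ho
  have hc : Nat.Coprime (2 ^ k) (Nat.card O) :=
    Nat.Coprime.pow_left k (Nat.coprime_two_left.2 h.odd)
  exact orderOf_eq_one_iff.1 (Nat.eq_one_of_dvd_coprimes hc d1 d2)

theorem vblk_odd_sq {O P : Subgroup G} (h : Hall O P) {o : G} (ho : o ∈ O)
    (h2 : o * o = 1) : o = 1 := by
  have d1 : orderOf o ∣ 2 := orderOf_dvd_of_pow_eq_one (by rw [pow_two, h2])
  have d2 : orderOf o ∣ Nat.card O := Subgroup.orderOf_dvd_natCard O ho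
  exact orderOf_eq_one_iff.1
    (Nat.eq_one_of_dvd_coprimes (Nat.coprime_two_left.2 h.odd) d1 d2)

theorem vblk_pair {Ω : Type*} [MulAction G Ω] (f : G) (p : Ω) (h5 : f * f ≠ 1)
    (hp : f⁻¹ • p ≠ p) : Mt ({f, f⁻¹} : Set G) ({p, f⁻¹ • p} : Set Ω) := by
  have hne : f⁻¹ ≠ f := fun e => h5 (by
    have : f * f = f * f⁻¹ := by rw [e]
    rw [this, mul_inv_cancel])
  refine ⟨?_, fun g => if g = f then p else f⁻¹ • p, ⟨?_, ?_, ?_⟩, ?_⟩
  · rintro g (rfl | rfl)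
    · exact Or.inr rfl
    · exact Or.inl (inv_inv _)
  · rintro g (rfl | rfl)
    · simp
    · simp [hne]
  · rintro a (rfl | rfl) b (rfl | rfl) e
    · rfl
    · simp only [hne, if_true, if_false] at e
      exact absurd e.symm hp
    · simp only [hne, if_true, if_false] at e
      exact absurd e hp
    · rfl
  · rintro x (rfl | rfl)
    · exact ⟨f, Or.inl rfl, by simp⟩
    · exact ⟨f⁻¹, Or.inr rfl, by simp [hne]⟩
  · rintro g (rfl | rfl)
    · simp [hne]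
    · simp [hne]

theorem vblk_fib [Fintype G] {O P : Subgroup G} (h : Hall O P) (F : Fat P)
    (hF : ∀ g, F.t g ∈ O) (Q : Subgroup G) (hQ : Q ≤ P) {t₀ : G} (h2 : t₀ * t₀ = 1)
    (hu : (F.y t₀ : G) ∈ Q) :
    Mt (((F.fib (F.y t₀)).erase t₀ : Finset G) : Set G)
      {x : G ⧸ Q | x ≠ (F.t t₀ : G ⧸ Q) ∧ ∃ o ∈ O, x = (o : G ⧸ Q)} := by
  have hi : t₀⁻¹ = t₀ := inv_eq_of_mul_eq_one_right h2
  have hy : (F.y t₀)⁻¹ = F.y t₀ := by rw [← F.y_inv, hi]
  have mem : ∀ g, g ∈ (((F.fib (F.y t₀)).erase t₀ : Finset G) : Set G) ↔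
      g ≠ t₀ ∧ F.y g = F.y t₀ := by
    intro g
    simp [Fat.fib, and_comm]
  have hinv : ∀ g, F.y g = F.y t₀ → F.y g⁻¹ = F.y t₀ := by
    intro g hg
    rw [F.y_inv, hg, hy]
  have inj : ∀ g g', F.y g = F.y t₀ → F.y g' = F.y t₀ →
      (F.t g : G ⧸ Q) = (F.t g' : G ⧸ Q) → g = g' := by
    intro g g' hg hg' e
    exact F.inj g g' (F.tr g g' (hQ (QuotientGroup.eq.1 e))) (hg.trans hg'.symm)
  refine ⟨?_, fun g => (F.t g⁻¹ : G ⧸ Q), ⟨?_, ?_, ?_⟩, ?_⟩
  · intro g hg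
    rw [mem] at hg ⊢
    exact ⟨fun e => hg.1 (by rw [← inv_inv g, e, hi]), hinv g hg.2⟩
  · intro g hg
    rw [mem] at hg
    refine ⟨fun e => hg.1 ?_, F.t g⁻¹, hF _, rfl⟩
    have := inj _ _ (hinv g hg.2) rfl e
    rw [← inv_inv g, this, hi]
  · intro g hg g' hg' e
    rw [mem] at hg hg'
    exact inv_injective (inj _ _ (hinv g hg.2) (hinv g' hg'.2) e)
  · rintro x ⟨hx, o, ho, rfl⟩
    obtain ⟨g, hg1, hg2⟩ := F.surj o (F.y t₀)
    have e : o⁻¹ * F.t g = 1 :=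
      vblk_free (a := 1) h (O.mul_mem (O.inv_mem ho) (hF g)) (by simpa using hg1)
    have e' : F.t g = o := (inv_mul_eq_one.1 e).symm
    refine ⟨g⁻¹, (mem _).2 ⟨fun e2 => hx ?_, hinv g hg2⟩, ?_⟩
    · have : g = t₀ := by rw [← inv_inv g, e2, hi]
      rw [← e', this]
    · simp only [inv_inv, e']
  · intro g hg
    rw [mem] at hg
    simp only [inv_inv]
    rw [MulAction.Quotient.smul_mk, smul_eq_mul, F.eq g, hg.2]
    apply QuotientGroup.eq.2
    simpa using hu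

theorem block_two [Fintype G] {O P : Subgroup G} (h : Hall O P) (F : Fat P)
    (hF : ∀ g, F.t g ∈ O) (χ : G →* ℤˣ) {t₀ f : G} (h1 : t₀ ≠ 1) (h2 : t₀ * t₀ = 1)
    (h3 : χ t₀ = 1) (h4 : χ f = -1) (h5 : f * f ≠ 1) :
    Cov (sharp O ∪ (F.fib (F.y t₀)).erase t₀ ∪ {f, f⁻¹}) := by
  have hO : ∀ o ∈ O, χ o = 1 := fun o ho => mem_Kc.1 (h.le_Kc ho) χ
  have hne : (-1 : ℤˣ) ≠ 1 := by decide
  have h4' : χ f⁻¹ = -1 := by rw [map_inv, h4]; rfl
  have hu1 : F.y t₀ ≠ 1 := fun e => h1 (vblk_odd_sq h ((h.y_eq_one F hF t₀).1 e) h2)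
  have hu2 : χ (F.y t₀) = 1 := by rw [h.char_y F hF, h3]
  have hS : ∀ g, g ∈ sharp O ↔ g ∈ O ∧ g ≠ 1 := by
    intro g
    simp [sharp]
  have hB : ∀ g, g ∈ (F.fib (F.y t₀)).erase t₀ → F.y g = F.y t₀ := by
    intro g hg
    have := (Finset.mem_erase.1 hg).2
    simpa [Fat.fib] using this
  have hB' : ∀ g, g ∈ (F.fib (F.y t₀)).erase t₀ → χ g = 1 := by
    intro g hg
    rw [← h.char_y F hF, hB g hg, hu2]
  have dec : ∀ g : G, ∃ o ∈ O, ∃ p ∈ P, g = o * p := by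
    intro g
    obtain ⟨⟨o, p⟩, e⟩ := h.compl.2 g
    exact ⟨o, o.2, p, p.2, e.symm⟩
  set Q := P ⊓ χ.ker with hQ
  set p₂ : G ⧸ Q := (F.t t₀ : G ⧸ Q) with hp₂
  have hp₁ : f⁻¹ • p₂ = ((f⁻¹ * F.t t₀ : G) : G ⧸ Q) := rfl
  have ha : χ (f⁻¹ * F.t t₀) = -1 := by rw [map_mul, h4', hO _ (hF _), mul_one]
  have hsm : ∀ o : G, o • f⁻¹ • p₂ = ((o * (f⁻¹ * F.t t₀) : G) : G ⧸ Q) := fun o => rfl
  have hp : f⁻¹ • p₂ ≠ p₂ := by
    intro e
    have := vblk_char χ (hp₁.symm.trans e)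
    rw [ha, hO _ (hF _)] at this
    exact hne this
  have m1 := patterned h.odd (f⁻¹ • p₂) (by
    intro o ho e
    rw [hsm, hp₁] at e
    have := (QuotientGroup.eq.1 e.symm).1
    exact vblk_free (a := f⁻¹ * F.t t₀) h ho (by rw [mul_assoc]; exact this))
  have m2 := vblk_fib h F hF Q inf_le_left h2 ⟨(F.y t₀).2, hu2⟩
  have m3 := vblk_pair f p₂ h5 hp
  have m12 := m1.union m2 (by
    rw [Set.disjoint_left]
    intro g hg hg'
    have e := (h.y_eq_one F hF g).2 ((hS g).1 hg).1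
    exact hu1 ((hB g hg').symm.trans e)) (by
    rw [Set.disjoint_left]
    rintro x ⟨_, o, ho, rfl⟩ ⟨_, o', ho', e⟩
    rw [hsm] at e
    have := vblk_char χ e
    rw [map_mul, ha, hO o ho, hO o' ho', one_mul] at this
    exact hne this)
  have m123 := m12.union m3 (by
    rw [Set.disjoint_left]
    intro g hg hg'
    have e1 : χ g = 1 := hg.elim (fun hg => hO g ((hS g).1 hg).1) (fun hg => hB' g hg)
    have e2 : χ g = -1 := by
      rcases hg' with rfl | rfl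
      · exact h4
      · exact h4'
    exact hne (e2.symm.trans e1)) (by
    rw [Set.disjoint_left]
    rintro x (⟨hx, o, ho, e⟩ | ⟨hx, o, ho, e⟩) (hx' | hx')
    · have := vblk_char χ ((hsm o).symm.trans (e.symm.trans hx'))
      rw [map_mul, ha, hO o ho, hO _ (hF _), one_mul] at this
      exact hne this
    · exact hx hx'
    · exact hx hx'
    · have := vblk_char χ (hp₁.symm.trans (hx'.symm.trans e))
      rw [ha, hO o ho] at this
      exact hne this)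
  refine ⟨?_, G ⧸ Q, inferInstance, Set.univ, fun _ _ _ => Set.mem_univ _, ?_⟩
  · intro g hg e
    subst e
    simp only [Finset.mem_union, Finset.mem_insert, Finset.mem_singleton] at hg
    rcases hg with (hg | hg) | hg | hg
    · exact ((hS _).1 hg).2 rfl
    · exact hu1 ((hB _ hg).symm.trans F.y_one)
    · exact h5 (by rw [← hg, one_mul])
    · exact h5 (by rw [inv_eq_one.1 hg.symm, one_mul])
  · rw [Finset.coe_union, Finset.coe_union, Finset.coe_pair]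
    have e : (Set.univ : Set (G ⧸ Q)) =
        ({x | x ≠ f⁻¹ • p₂ ∧ ∃ o ∈ O, x = o • f⁻¹ • p₂} ∪
          {x : G ⧸ Q | x ≠ (F.t t₀ : G ⧸ Q) ∧ ∃ o ∈ O, x = (o : G ⧸ Q)}) ∪ {p₂, f⁻¹ • p₂} := by
      symm
      rw [Set.eq_univ_iff_forall]
      intro x
      by_cases x1 : x = p₂
      · exact Or.inr (Or.inl x1)
      by_cases x2 : x = f⁻¹ • p₂
      · exact Or.inr (Or.inr x2)
      left
      obtain ⟨g, rfl⟩ := QuotientGroup.mk_surjective x
      obtain ⟨o, ho, p, hpP, rfl⟩ := dec g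
      rcases Int.units_eq_one_or (χ p) with c | c
      · right
        refine ⟨x1, o, ho, (QuotientGroup.eq.2 ?_).symm⟩
        rw [inv_mul_cancel_left]
        exact ⟨hpP, c⟩
      · left
        obtain ⟨o', ho', p', hp', e'⟩ := dec (f⁻¹ * F.t t₀)
        have c' : χ p' = -1 := by
          rw [e', map_mul, hO o' ho', one_mul] at ha
          exact ha
        refine ⟨x2, o * o'⁻¹, O.mul_mem ho (O.inv_mem ho'), ?_⟩
        rw [hsm, e']
        apply QuotientGroup.eq.2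
        have e3 : (o * p)⁻¹ * (o * o'⁻¹ * (o' * p')) = p⁻¹ * p' := by group
        rw [e3]
        refine ⟨P.mul_mem (P.inv_mem hpP) hp', ?_⟩
        show χ (p⁻¹ * p') = 1
        rw [map_mul, map_inv, c, c', inv_mul_cancel]
    rw [e]
    exact m123

end Pool.Agent.P.MP_da365b_co.SV
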