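import Pool.Agent.P.MP_da365b_co.VLift

namespace Pool.Agent.P.MP_da365b_co.SV

open Classical

set_option linter.unusedSectionVars false

universe u

variable {G : Type u} [Group G]

theorem vblk0_pow {O : Subgroup G} {k : ℕ} (hk : Nat.card O = 2 * k + 1) {o : G} (ho : o ∈ O) :
    o ^ (2 * k + 1) = 1 := by
  have e : (⟨o, ho⟩ : O) ^ Nat.card O = 1 := pow_card_eq_one'
  rw [hk] at e
  simpa using congrArg Subtype.val e

theorem vblk0_root {O : Subgroup G} {k : ℕ} (hk : Nat.card O = 2 * k + 1) {o : G} (ho : o ∈ O) :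
    o ^ (k + 1) * o ^ (k + 1) = o := by
  rw [← pow_add, show k + 1 + (k + 1) = (2 * k + 1) + 1 by ring, pow_succ, vblk0_pow hk ho,
    one_mul]

theorem vblk0_sq {O : Subgroup G} (hodd : Odd (Nat.card O)) {o : G} (ho : o ∈ O)
    (h : o * o = 1) : o = 1 := by
  obtain ⟨k, hk⟩ := hodd
  have e := vblk0_pow hk ho
  rwa [pow_succ, pow_mul, pow_two, h, one_pow, one_mul] at e

theorem vblk0_inter {O P : Subgroup G} (h : Hall O P) {g : G} (h1 : g ∈ O) (h2 : g ∈ P) :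
    g = 1 := by
  have e := h.compl.disjoint
  rw [Subgroup.disjoint_def] at e
  exact e h1 h2

theorem vblk0_dec {O P : Subgroup G} (h : Hall O P) (g : G) :
    ∃ o ∈ O, ∃ p ∈ P, g = o * p := by
  obtain ⟨⟨o, p⟩, e⟩ := (h.compl.existsUnique g).exists
  exact ⟨o, o.2, p, p.2, e.symm⟩

theorem Hall.index {O P : Subgroup G} (h : Hall O P) : P.index = Nat.card O :=
  h.compl.index_eq_card

theorem Hall.le_Kc [Finite G] {O P : Subgroup G} (h : Hall O P) : O ≤ Kc G := by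
  intro o ho
  rw [mem_Kc]
  intro χ
  obtain ⟨k, hk⟩ := h.odd
  rw [← vblk0_root hk ho, map_mul]
  exact Int.units_mul_self _

theorem Hall.y_eq_one {O P : Subgroup G} (h : Hall O P) (F : Fat P) (hF : ∀ g, F.t g ∈ O)
    (g : G) : F.y g = 1 ↔ g ∈ O := by
  have e := F.eq g
  constructor
  · intro hy
    rw [hy] at e
    have e2 : g = F.t g⁻¹ * (F.t g)⁻¹ := by
      rw [eq_mul_inv_iff_mul_eq, e]
      simp
    rw [e2]
    exact O.mul_mem (hF _) (O.inv_mem (hF _))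
  · intro hg
    have e2 : (F.y g : G) = (F.t g⁻¹)⁻¹ * (g * F.t g) := by
      rw [e, inv_mul_cancel_left]
    apply Subtype.ext
    apply vblk0_inter h _ (F.y g).2
    rw [e2]
    exact O.mul_mem (O.inv_mem (hF _)) (O.mul_mem hg (hF _))

theorem Hall.char_y [Finite G] {O P : Subgroup G} (h : Hall O P) (F : Fat P)
    (hF : ∀ g, F.t g ∈ O) (χ : G →* ℤˣ) (g : G) : χ (F.y g) = χ g := by
  have e := congrArg χ (F.eq g)
  have h1 : ∀ x, χ (F.t x) = 1 := fun x => mem_Kc.1 (h.le_Kc (hF x)) χ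
  rw [map_mul, map_mul, h1, h1, mul_one, one_mul] at e
  exact e.symm

theorem Hall.y_coset [Finite G] {O P : Subgroup G} (h : Hall O P) (F : Fat P)
    (hF : ∀ g, F.t g ∈ O) (g g' : G) :
    (F.y g)⁻¹ * F.y g' ∈ (Kc G).subgroupOf P ↔ g⁻¹ * g' ∈ Kc G := by
  rw [Subgroup.mem_subgroupOf, mem_Kc, mem_Kc]
  apply forall_congr'
  intro χ
  rw [Subgroup.coe_mul, Subgroup.coe_inv, map_mul, map_mul, map_inv, map_inv,
    h.char_y F hF, h.char_y F hF]

theorem Hall.y_mem [Finite G] {O P : Subgroup G} (h : Hall O P) (F : Fat P)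
    (hF : ∀ g, F.t g ∈ O) (g : G) : F.y g ∈ (Kc G).subgroupOf P ↔ g ∈ Kc G := by
  rw [Subgroup.mem_subgroupOf, mem_Kc, mem_Kc]
  apply forall_congr'
  intro χ
  rw [h.char_y F hF]

theorem Hall.sub_ne_top [Finite G] {O P : Subgroup G} (h : Hall O P) (hK : Kc G ≠ ⊤) :
    (Kc G).subgroupOf P ≠ ⊤ := by
  intro e
  apply hK
  rw [Subgroup.subgroupOf_eq_top] at e
  rw [eq_top_iff]
  intro g _
  obtain ⟨o, ho, p, hp, rfl⟩ := vblk0_dec h g
  exact (Kc G).mul_mem (h.le_Kc ho) (e hp)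

theorem vblk0_mem_sharp [Fintype G] {O : Subgroup G} {g : G} :
    g ∈ sharp O ↔ g ∈ O ∧ g ≠ 1 := by
  simp [sharp]

/-- The non-identity elements of `O` on a regular orbit with one hole. -/
theorem patterned [Fintype G] {O : Subgroup G} (hodd : Odd (Nat.card O)) {Ω : Type*}
    [MulAction G Ω] (x₀ : Ω) (hx : ∀ o ∈ O, o • x₀ = x₀ → o = 1) :
    Mt (sharp O : Set G) {x | x ≠ x₀ ∧ ∃ o ∈ O, x = o • x₀} := by
  obtain ⟨k, hk⟩ := id hodd
  refine ⟨?_, fun o => o ^ (k + 1) • x₀, ⟨?_, ?_, ?_⟩, ?_⟩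
  · intro g hg
    rw [Finset.mem_coe, vblk0_mem_sharp] at hg ⊢
    exact ⟨O.inv_mem hg.1, inv_ne_one.2 hg.2⟩
  · intro g hg
    rw [Finset.mem_coe, vblk0_mem_sharp] at hg
    refine ⟨fun e => hg.2 ?_, g ^ (k + 1), O.pow_mem hg.1 _, rfl⟩
    have e1 := hx _ (O.pow_mem hg.1 _) e
    rw [← vblk0_root hk hg.1, e1, one_mul]
  · intro a ha b hb e
    rw [Finset.mem_coe, vblk0_mem_sharp] at ha hb
    have e1 : ((b ^ (k + 1))⁻¹ * a ^ (k + 1)) • x₀ = x₀ := by
      rw [mul_smul, inv_smul_eq_iff]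
      exact e
    have e2 := hx _ (O.mul_mem (O.inv_mem (O.pow_mem hb.1 _)) (O.pow_mem ha.1 _)) e1
    rw [inv_mul_eq_one] at e2
    rw [← vblk0_root hk ha.1, ← e2, vblk0_root hk hb.1]
  · rintro x ⟨hne, o, ho, rfl⟩
    refine ⟨o * o, ?_, ?_⟩
    · rw [Finset.mem_coe, vblk0_mem_sharp]
      refine ⟨O.mul_mem ho ho, fun e => hne ?_⟩
      rw [vblk0_sq hodd ho e, one_smul]
    · have e : (o * o) ^ (k + 1) = o := by
        rw [(Commute.refl o).mul_pow, vblk0_root hk ho]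
      show (o * o) ^ (k + 1) • x₀ = o • x₀
      rw [e]
  · intro g hg
    rw [Finset.mem_coe, vblk0_mem_sharp] at hg
    have e : g ^ (k + 1) = g * g⁻¹ ^ (k + 1) := by
      rw [inv_pow, eq_mul_inv_iff_mul_eq, vblk0_root hk hg.1]
    show g ^ (k + 1) • x₀ = g • g⁻¹ ^ (k + 1) • x₀
    rw [← mul_smul, ← e]

theorem block_one [Fintype G] {O P : Subgroup G} (h : Hall O P) (F : Fat P)
    (hF : ∀ g, F.t g ∈ O) {t₀ : G} (h1 : t₀ ≠ 1) (h2 : t₀ * t₀ = 1) :
    Cov (insert t₀ (sharp O)) := by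
  have hnO : t₀ ∉ O := fun e => h1 (vblk0_sq h.odd e h2)
  have hinv : t₀⁻¹ = t₀ := inv_eq_of_mul_eq_one_right h2
  set x₀ : G ⧸ P := (F.t t₀ : G ⧸ P) with hx₀
  have hsm : ∀ g : G, g • x₀ = ((g * F.t t₀ : G) : G ⧸ P) := fun g => rfl
  have hfix : t₀ • x₀ = x₀ := by
    rw [hsm, F.eq, hinv, hx₀]
    exact QuotientGroup.mk_mul_of_mem _ (F.y t₀).2
  have hx : ∀ o ∈ O, o • x₀ = x₀ → o = 1 := by
    intro o ho e
    rw [hsm, hx₀, eq_comm, QuotientGroup.eq] at e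
    have e1 := vblk0_inter h
      (O.mul_mem (O.inv_mem (hF t₀)) (O.mul_mem ho (hF t₀))) e
    rw [inv_mul_eq_one] at e1
    exact mul_right_cancel (e1.symm.trans (one_mul _).symm)
  have hall : ∀ x : G ⧸ P, ∃ o ∈ O, x = o • x₀ := by
    intro x
    obtain ⟨g, rfl⟩ := QuotientGroup.mk_surjective x
    obtain ⟨o, ho, p, hp, rfl⟩ := vblk0_dec h g
    refine ⟨o * (F.t t₀)⁻¹, O.mul_mem ho (O.inv_mem (hF _)), ?_⟩
    rw [hsm, inv_mul_cancel_right]
    exact QuotientGroup.mk_mul_of_mem _ hp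
  have m1 : Mt ({t₀} : Set G) ({x₀} : Set (G ⧸ P)) := by
    refine ⟨?_, fun _ => x₀, ?_, ?_⟩
    · intro g hg
      rw [Set.mem_singleton_iff] at hg ⊢
      rw [hg, hinv]
    · exact Set.bijOn_singleton.2 rfl
    · intro g hg
      rw [Set.mem_singleton_iff] at hg
      rw [hg]
      exact hfix.symm
  have m2 := patterned h.odd x₀ hx
  have m3 := m1.union m2
    (by
      rw [Set.disjoint_singleton_left, Finset.mem_coe, vblk0_mem_sharp]
      exact fun e => hnO e.1)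
    (by
      rw [Set.disjoint_singleton_left]
      exact fun e => e.1 rfl)
  refine ⟨?_, G ⧸ P, inferInstance, Set.univ, fun _ _ _ => Set.mem_univ _, ?_⟩
  · intro g hg
    rw [Finset.mem_insert, vblk0_mem_sharp] at hg
    rcases hg with rfl | hg
    · exact h1
    · exact hg.2
  · have e1 : ((insert t₀ (sharp O) : Finset G) : Set G) = {t₀} ∪ (sharp O : Set G) := by
      rw [Finset.coe_insert, Set.insert_eq]
    have e2 : (Set.univ : Set (G ⧸ P)) = {x₀} ∪ {x | x ≠ x₀ ∧ ∃ o ∈ O, x = o • x₀} := by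
      ext x
      simp only [Set.mem_univ, true_iff]
      by_cases e : x = x₀
      · exact Or.inl e
      · exact Or.inr ⟨e, hall x⟩
    rw [e1, e2]
    exact m3

end Pool.Agent.P.MP_da365b_co.SV
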