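import Pool.Agent.P.MP_da365b_co.VDefs

namespace Pool.Agent.P.MP_da365b_co.SV

open Classical

set_option linter.unusedSectionVars false

universe u

variable {G : Type u} [Group G]

theorem Cov.ne_one {A : Finset G} (h : Cov A) {g : G} (hg : g ∈ A) : g ≠ 1 := h.1 g hg

theorem Cov.inv_mem {A : Finset G} (h : Cov A) {g : G} (hg : g ∈ A) : g⁻¹ ∈ A := by
  obtain ⟨_, Ω, _, X, _, hM⟩ := h
  exact hM.1 g hg

theorem Cov.cover [Finite G] {A : Finset G} (h : Cov A) : Cover A := by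
  obtain ⟨h1, Ω, _, X, hX, hM⟩ := h
  exact Mt.cover A X hX h1 hM

theorem Cov.empty : Cov (∅ : Finset G) := by
  refine ⟨by simp, G, inferInstance, ∅, by simp, ?_⟩
  rw [Finset.coe_empty]
  exact Mt.empty

theorem vcov_map {Ω Ω' : Type*} [MulAction G Ω] [MulAction G Ω'] (f : Ω → Ω')
    (hf : Function.Injective f) (hs : ∀ (g : G) x, f (g • x) = g • f x) {L : Set G} {X : Set Ω}
    (h : Mt L X) : Mt L (f '' X) := by
  obtain ⟨i, π, hπ, c⟩ := h
  refine ⟨i, f ∘ π, (hf.injOn.bijOn_image).comp hπ, ?_⟩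
  intro g hg
  simp only [Function.comp]
  rw [← hs, ← c g hg]

theorem Cov.union {A B : Finset G} (h : Disjoint A B) (hA : Cov A) (hB : Cov B) :
    Cov (A ∪ B) := by
  obtain ⟨a1, Ω, iΩ, X, hX, hM⟩ := hA
  obtain ⟨b1, Ω', iΩ', Y, hY, hN⟩ := hB
  refine ⟨?_, Ω ⊕ Ω', inferInstance, Sum.inl '' X ∪ Sum.inr '' Y, ?_, ?_⟩
  · intro g hg
    rcases Finset.mem_union.1 hg with h1 | h1
    · exact a1 g h1
    · exact b1 g h1
  · rintro g x (⟨y, hy, rfl⟩ | ⟨y, hy, rfl⟩)
    · exact Or.inl ⟨g • y, hX g y hy, rfl⟩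
    · exact Or.inr ⟨g • y, hY g y hy, rfl⟩
  · rw [Finset.coe_union]
    apply Mt.union (vcov_map Sum.inl Sum.inl_injective (fun _ _ => rfl) hM)
      (vcov_map Sum.inr Sum.inr_injective (fun _ _ => rfl) hN) (Finset.disjoint_coe.2 h)
    rw [Set.disjoint_left]
    rintro _ ⟨y, _, rfl⟩ ⟨z, _, hz⟩
    exact Sum.inr_ne_inl hz

theorem cov_of_pm {K : Subgroup G} {A : Finset G} (h : PM K A Set.univ) : Cov A :=
  ⟨h.ne_one, G ⧸ K, inferInstance, Set.univ, fun _ _ _ => Set.mem_univ _, h.inv_mem, h.ex⟩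

theorem mem_Kc {g : G} : g ∈ Kc G ↔ ∀ χ : G →* ℤˣ, χ g = 1 := by
  unfold Kc
  rw [Subgroup.mem_iInf]
  rfl

theorem not_mem_Kc {g : G} : g ∉ Kc G ↔ ∃ χ : G →* ℤˣ, χ g = -1 := by
  rw [mem_Kc, not_forall]
  refine exists_congr fun χ => ?_
  rcases Int.units_eq_one_or (χ g) with h | h <;> rw [h] <;> decide

instance Kc_normal : (Kc G).Normal := by
  refine ⟨fun n hn g => ?_⟩
  rw [mem_Kc] at hn ⊢
  intro χ
  rw [map_mul, map_mul, hn χ, mul_one, ← map_mul, mul_inv_cancel, map_one]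

theorem sq_mem_Kc (g : G) : g * g ∈ Kc G := by
  rw [mem_Kc]
  intro χ
  rw [map_mul, Int.units_mul_self]

theorem equiv_mem_Kc (α : G ≃* G) (g : G) : α g ∈ Kc G ↔ g ∈ Kc G := by
  rw [mem_Kc, mem_Kc]
  constructor
  · intro h χ
    have := h (χ.comp α.symm.toMonoidHom)
    simpa using this
  · intro h χ
    exact h (χ.comp α.toMonoidHom)

theorem mem_Km {N : Subgroup G} {g : N} : (g : G) ∈ Km N ↔ g ∈ Kc N := by
  unfold Km
  constructor
  · rintro ⟨x, hx, e⟩
    have : x = g := Subtype.ext e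
    exact this ▸ hx
  · intro h
    exact ⟨g, h, rfl⟩

theorem Km_le (N : Subgroup G) : Km N ≤ N := by
  rintro _ ⟨x, _, rfl⟩
  exact x.2

instance Km_normal (N : Subgroup G) [N.Normal] : (Km N).Normal := by
  refine ⟨fun n hn g => ?_⟩
  obtain ⟨x, hx, rfl⟩ := hn
  refine ⟨MulAut.conjNormal g x, (equiv_mem_Kc (MulAut.conjNormal g) x).2 hx, ?_⟩
  simp

theorem sq_mem_Km {N : Subgroup G} {g : G} (hg : g ∈ N) : g * g ∈ Km N :=
  ⟨⟨g, hg⟩ * ⟨g, hg⟩, sq_mem_Kc _, rfl⟩

theorem char_of_two (H : Subgroup G) (h : ∀ a b, a ∉ H → b ∉ H → a⁻¹ * b ∈ H) :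
    ∃ χ : G →* ℤˣ, ∀ g, χ g = -1 ↔ g ∉ H := by
  refine ⟨MonoidHom.mk' (fun g => if g ∈ H then 1 else -1) ?_, ?_⟩
  · intro a b
    by_cases ha : a ∈ H <;> by_cases hb : b ∈ H
    · simp [ha, hb, H.mul_mem ha hb]
    · have : a * b ∉ H := fun h' => hb ((H.mul_mem_cancel_left ha).1 h')
      simp [ha, hb, this]
    · have : a * b ∉ H := fun h' => ha ((H.mul_mem_cancel_right hb).1 h')
      simp [ha, hb, this]
    · have : a * b ∈ H := by
        have := h a⁻¹ b (fun h' => ha ((Subgroup.inv_mem_iff H).1 h')) hb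
        rwa [inv_inv] at this
      simp [ha, hb, this]
  · intro g
    by_cases hg : g ∈ H
    · simp only [MonoidHom.mk'_apply, hg, if_true, not_true, iff_false]
      decide
    · simp [hg]

theorem vcov_pair {x : G} (h : Sing x) : Cov ({x, x⁻¹} : Finset G) := by
  by_cases hxx : x * x = 1
  · have hi : x⁻¹ = x := inv_eq_of_mul_eq_one_right hxx
    have : Subsingleton (G ⧸ (⊤ : Subgroup G)) := QuotientGroup.subsingleton_quotient_top
    have h3 := PM.short (K := ⊤) (b := ((1 : G) : G ⧸ (⊤ : Subgroup G))) h.1 hxx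
      (Subsingleton.elim _ _)
    have e : ({((1 : G) : G ⧸ (⊤ : Subgroup G))} : Set _) = Set.univ := by
      ext x
      simp only [Set.mem_singleton_iff, Set.mem_univ, iff_true]
      exact Subsingleton.elim _ _
    rw [e] at h3
    have e2 : ({x, x⁻¹} : Finset G) = {x} := by simp [hi]
    rw [e2]
    exact cov_of_pm h3
  · obtain ⟨χ, hχ⟩ := h.2.resolve_left hxx
    have e : x • ((1 : G) : G ⧸ χ.ker) = (x : G ⧸ χ.ker) := by
      change ((x * 1 : G) : G ⧸ χ.ker) = x
      rw [mul_one]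
    have h3 := PM.long (K := χ.ker) (b := ((1 : G) : G ⧸ χ.ker)) hxx (by
      rw [e, Ne, QuotientGroup.eq, mul_one, MonoidHom.mem_ker, map_inv, hχ]
      decide)
    have e2 : ({((1 : G) : G ⧸ χ.ker), x • ((1 : G) : G ⧸ χ.ker)} : Set _) = Set.univ := by
      ext q
      induction q using QuotientGroup.induction_on with
      | H y =>
        simp only [Set.mem_univ, Set.mem_insert_iff, Set.mem_singleton_iff, iff_true, e]
        rcases Int.units_eq_one_or (χ y) with hy | hy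
        · left
          rw [eq_comm, QuotientGroup.eq, MonoidHom.mem_ker, map_mul, hy]
          simp
        · right
          rw [eq_comm, QuotientGroup.eq, MonoidHom.mem_ker, map_mul, map_inv, hy, hχ]
          simp
    rw [e2] at h3
    exact cov_of_pm h3

theorem Cov.singles [Finite G] (R : Finset G) (h1 : ∀ y ∈ R, y⁻¹ ∈ R) (h2 : ∀ y ∈ R, Sing y) :
    Cov R := by
  induction R using Finset.strongInduction with
  | H R ih =>
    rcases R.eq_empty_or_nonempty with rfl | ⟨x, hx⟩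
    · exact Cov.empty
    have hsub : ({x, x⁻¹} : Finset G) ⊆ R := by
      intro y hy
      simp only [Finset.mem_insert, Finset.mem_singleton] at hy
      rcases hy with rfl | rfl
      · exact hx
      · exact h1 _ hx
    have c2 := ih (R \ {x, x⁻¹}) (Finset.sdiff_ssubset hsub (by simp)) (by
      intro y hy
      simp only [Finset.mem_sdiff, Finset.mem_insert, Finset.mem_singleton, not_or] at hy ⊢
      exact ⟨h1 y hy.1, fun h' => hy.2.2 (by rw [← h']; simp), fun h' => hy.2.1 (by simpa using h')⟩)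
      (fun y hy => h2 y (Finset.mem_sdiff.1 hy).1)
    have := Cov.union Finset.disjoint_sdiff (vcov_pair (h2 x hx)) c2
    rwa [Finset.union_sdiff_of_subset hsub] at this

/-- Add to `Λ` all members of an inverse closed set of singles. -/
theorem Cov.add [Finite G] {Λ : Finset G} (h : Cov Λ) (R : Finset G) (h1 : ∀ y ∈ R, y⁻¹ ∈ R)
    (h2 : ∀ y ∈ R, y ∉ Λ → Sing y) : Cov (Λ ∪ R) := by
  have c2 : Cov (R \ Λ) := by
    apply Cov.singles
    · intro y hy
      rw [Finset.mem_sdiff] at hy ⊢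
      exact ⟨h1 y hy.1, fun h' => hy.2 (by simpa using h.inv_mem h')⟩
    · intro y hy
      rw [Finset.mem_sdiff] at hy
      exact h2 y hy.1 hy.2
  have := Cov.union Finset.disjoint_sdiff h c2
  rwa [Finset.union_sdiff_self_eq_union] at this

theorem Cov.finish [Fintype G] {Λ : Finset G} (h : Cov Λ)
    (h2 : ∀ y, y ≠ 1 → y ∉ Λ → Sing y) : Cov (Finset.univ.erase (1 : G)) := by
  have := h.add (Finset.univ.erase (1 : G)) (by
    intro y hy
    simpa using hy) (fun y hy hy' => h2 y (Finset.mem_erase.1 hy).1 hy')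
  rwa [Finset.union_eq_right.2 (fun y hy =>
    Finset.mem_erase.2 ⟨h.ne_one hy, Finset.mem_univ _⟩)] at this

theorem copies' [Finite G] {M : Subgroup G} {w : G} {K S : Subgroup G} (h : Lev M w K S)
    [Fintype (G ⧸ S)] (q : ℕ) (D : Finset G) (hD1 : ∀ x ∈ D, x⁻¹ ∈ D)
    (hD2 : ∀ x ∈ D, w⁻¹ * x ∈ M ∧ x * x ≠ 1) (hc : D.card = 2 * (q * Fintype.card (G ⧸ S))) :
    Cov D := by
  induction q generalizing D with
  | zero =>
    have : D = ∅ := by simpa using hc
    rw [this]
    exact Cov.empty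
  | succ q ih =>
    obtain ⟨D₁, hsub, hpm, hcard⟩ := h.loops Finset.univ D hD1 hD2 (by
      rw [hc, Finset.card_univ]; nlinarith)
    rw [Finset.card_univ] at hcard
    have c1 : Cov D₁ := cov_of_pm (K := K) (by simpa using hpm)
    have c2 : Cov (D \ D₁) := by
      apply ih
      · intro x hx
        rw [Finset.mem_sdiff] at hx ⊢
        exact ⟨hD1 x hx.1, fun h' => hx.2 (by simpa using hpm.inv_mem _ h')⟩
      · intro x hx
        exact hD2 x (Finset.mem_sdiff.1 hx).1
      · rw [Finset.card_sdiff_of_subset hsub, hc, hcard, add_mul]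
        omega
    have := Cov.union Finset.disjoint_sdiff c1 c2
    rwa [Finset.union_sdiff_of_subset hsub] at this

/-- Symmetric choice. -/
theorem symm_choice {X Y : Type*} [Finite X] (ι : X → X) (κ : Y → Y) (hι : ∀ x, ι (ι x) = x)
    (hκ : ∀ y, κ (κ y) = y) (R : X → Y → Prop) (h1 : ∀ x y, R x y → R (ι x) (κ y))
    (h2 : ∀ x, ι x ≠ x → ∃ y, R x y) (h3 : ∀ x, ι x = x → ∃ y, R x y ∧ κ y = y) :
    ∃ f : X → Y, ∀ x, R x (f x) ∧ f (ι x) = κ (f x) := by
  obtain ⟨f0, hf0⟩ := exists_injective_nat X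
  have h4 : ∀ x, ∃ y, R x y ∧ (ι x = x → κ y = y) := by
    intro x
    by_cases hx : ι x = x
    · obtain ⟨y, a, b⟩ := h3 x hx
      exact ⟨y, a, fun _ => b⟩
    · obtain ⟨y, a⟩ := h2 x hx
      exact ⟨y, a, fun h => absurd h hx⟩
  choose w hw1 hw2 using h4
  refine ⟨fun x => if f0 x ≤ f0 (ι x) then w x else κ (w (ι x)), fun x => ⟨?_, ?_⟩⟩
  · by_cases hx : f0 x ≤ f0 (ι x)
    · simp only [hx, if_true]
      exact hw1 x
    · simp only [hx, if_false]
      have := h1 _ _ (hw1 (ι x))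
      rwa [hι] at this
  · simp only [hι]
    by_cases hx : ι x = x
    · simp only [hx, le_refl, if_true]
      exact (hw2 x hx).symm
    · have hne : f0 (ι x) ≠ f0 x := fun h => hx (hf0 h)
      by_cases hle : f0 x ≤ f0 (ι x)
      · have : ¬ f0 (ι x) ≤ f0 x := by omega
        simp only [hle, this, if_true, if_false]
      · have : f0 (ι x) ≤ f0 x := by omega
        simp only [hle, this, if_true, if_false, hκ]

/-- An involution of a finite set of odd size has a fixed point. -/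
theorem exists_fixed {X : Type*} (s : Finset X) (ι : X → X) (h1 : ∀ x ∈ s, ι x ∈ s)
    (h2 : ∀ x ∈ s, ι (ι x) = x) (hodd : Odd s.card) : ∃ x ∈ s, ι x = x := by
  by_contra hc
  push Not at hc
  have h3 : ∑ _x ∈ s, (1 : ZMod 2) = 0 :=
    Finset.sum_involution (fun x _ => ι x) (fun _ _ => by decide) (fun x hx _ => hc x hx)
      h1 h2
  rw [Finset.sum_const, nsmul_eq_mul, mul_one, ZMod.natCast_eq_zero_iff_even] at h3
  exact (Nat.not_even_iff_odd.2 hodd) h3

end Pool.Agent.P.MP_da365b_co.SV
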