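import Pool.Agent.P.MP_da365b_co.VCov

namespace Pool.Agent.P.MP_da365b_co.SV

open Classical

set_option linter.unusedSectionVars false

universe u

variable {G : Type u} [Group G]

theorem vcyc_nd {N m : ℤ} (h0 : m ≠ 0) (h1 : -N < m) (h2 : m < N) : ¬ N ∣ m :=
  fun h => h0 (Int.eq_zero_of_abs_lt_dvd h (abs_lt.2 ⟨h1, h2⟩))

theorem vcyc_card {a b c d : G} (h1 : a ≠ b) (h2 : a ≠ c) (h3 : a ≠ d) (h4 : b ≠ c) (h5 : b ≠ d)
    (h6 : c ≠ d) : 4 ≤ ({a, b, c, d} : Finset G).card := by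
  rw [Finset.card_insert_of_notMem (by simp [h1, h2, h3]),
    Finset.card_insert_of_notMem (by simp [h4, h5]), Finset.card_pair h6]

theorem vcyc_par {y : G} {n : ℕ} (hy : orderOf y = 2 * (2 * n)) (i k : ℤ) :
    y ^ (2 * i) ≠ y ^ (2 * k + 1) := by
  rw [Ne, zpow_eq_iff hy]
  rintro ⟨t, ht⟩
  rw [mul_assoc] at ht
  omega

/-- The even labels other than `1`, the involution and `y ^ (± 2)`, with two odd pairs. -/
theorem vcyc_pm [Fintype G] {y : G} {n : ℕ} (hall : ∀ g, g ∈ Subgroup.zpowers y)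
    (hy : orderOf y = 2 * (2 * n)) (hn : 4 ≤ n) (A₁ : Finset G)
    (memA : ∀ g, g ∈ A₁ ↔ (∃ i : ℤ, g = y ^ (2 * i)) ∧ g * g ≠ 1 ∧ g ≠ y ^ (2 : ℤ) ∧
      g ≠ y ^ (-2 : ℤ)) {m : ℤ} (hm : (n : ℤ) = 2 * m) :
    Cov (A₁ ∪ ({y ^ (1 : ℤ), (y ^ (1 : ℤ))⁻¹} ∪ {y ^ (2 * m + 1), (y ^ (2 * m + 1))⁻¹})) := by
  have xe := zpow_eq_iff hy
  have x1 := zpow_eq_one_iff' hy
  push_cast at xe x1
  have hn' : (4 : ℤ) ≤ n := by exact_mod_cast hn
  set K := Subgroup.zpowers (y ^ (2 * n : ℤ)) with hK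
  have powK : ∀ k : ℤ, y ^ k ∈ K ↔ (2 * n : ℤ) ∣ k := by
    intro k
    rw [hK, mem_zp]
    constructor
    · rintro ⟨l, hl⟩
      rw [← zpow_mul, xe] at hl
      obtain ⟨t, ht⟩ := hl
      exact ⟨l - 2 * t, by linear_combination -ht⟩
    · rintro ⟨t, rfl⟩
      exact ⟨t, zpow_mul _ _ _⟩
  have mkeq : ∀ k l : ℤ, ((y ^ k : G) : G ⧸ K) = (y ^ l : G) ↔ (2 * n : ℤ) ∣ l - k := by
    intro k l
    rw [QuotientGroup.eq, ← zpow_neg, ← zpow_add, powK, neg_add_eq_sub]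
  have act : ∀ k l : ℤ, y ^ k • ((y ^ l : G) : G ⧸ K) = ((y ^ (k + l) : G) : G ⧸ K) := by
    intro k l
    change ((y ^ k * y ^ l : G) : G ⧸ K) = _
    rw [← zpow_add]
  have allpt : ∀ q : G ⧸ K, ∃ i : ℤ, q = (y ^ i : G) := by
    intro q
    induction q using QuotientGroup.induction_on with
    | H g =>
      obtain ⟨k, rfl⟩ := mem_zp.1 (hall g)
      exact ⟨k, rfl⟩
  let π : G → G ⧸ K := fun g =>
    if h : ∃ i : ℤ, g = y ^ (2 * i) then ((y ^ h.choose : G) : G ⧸ K) else ((1 : G) : G ⧸ K)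
  have hπ : ∀ i : ℤ, π (y ^ (2 * i)) = (y ^ i : G) := by
    intro i
    have h : ∃ i' : ℤ, y ^ (2 * i) = y ^ (2 * i') := ⟨i, rfl⟩
    simp only [π, dif_pos h]
    have := h.choose_spec
    rw [eq_comm, xe] at this
    obtain ⟨t, ht⟩ := this
    rw [mkeq]
    exact ⟨t, by linarith⟩
  set Z : Set (G ⧸ K) := {((y ^ (0 : ℤ) : G) : G ⧸ K), ((y ^ (1 + 0 : ℤ) : G) : G ⧸ K)} ∪
    {((y ^ (-1 : ℤ) : G) : G ⧸ K), ((y ^ (2 * m + 1 + -1) : G) : G ⧸ K)} with hZ
  have pm1 : PM K A₁ Zᶜ := by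
    refine ⟨?_, ?_, π, ⟨?_, ?_, ?_⟩, ?_⟩
    · intro g hg h'
      exact ((memA g).1 hg).2.1 (by simp [h'])
    · intro g hg
      obtain ⟨⟨i, rfl⟩, h2, h3, h4⟩ := (memA g).1 hg
      refine (memA _).2 ⟨⟨-i, by rw [← zpow_neg]; congr 1; ring⟩, fun h' => h2 ?_,
        fun h' => h4 ?_, fun h' => h3 ?_⟩
      · have := congrArg (·⁻¹) h'
        simpa using this
      · rw [← inv_inv (y ^ (2 * i)), h', ← zpow_neg]
      · rw [← inv_inv (y ^ (2 * i)), h', ← zpow_neg, neg_neg]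
    · intro g hg
      obtain ⟨⟨i, rfl⟩, h2, h3, h4⟩ := (memA g).1 hg
      rw [← zpow_add, Ne, x1] at h2
      rw [Ne, xe] at h3 h4
      simp only [hπ, hZ, Set.mem_compl_iff, Set.mem_union, Set.mem_insert_iff,
        Set.mem_singleton_iff, mkeq]
      rintro ((⟨t, ht⟩ | ⟨t, ht⟩) | (⟨t, ht⟩ | ⟨t, ht⟩))
      · exact h2 ⟨-2 * t, by linear_combination -4 * ht⟩
      · exact h3 ⟨t, by linear_combination 2 * ht⟩
      · exact h4 ⟨t, by linear_combination 2 * ht⟩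
      · exact h2 ⟨1 - 2 * t, by linear_combination -4 * ht - 4 * hm⟩
    · intro g hg z hz hgz
      obtain ⟨⟨i, rfl⟩, -⟩ := (memA g).1 hg
      obtain ⟨⟨k, rfl⟩, -⟩ := (memA z).1 hz
      rw [hπ, hπ, mkeq] at hgz
      obtain ⟨t, ht⟩ := hgz
      rw [xe]
      exact ⟨t, by linear_combination 2 * ht⟩
    · intro q hq
      obtain ⟨i, rfl⟩ := allpt q
      simp only [hZ, Set.mem_compl_iff, Set.mem_union, Set.mem_insert_iff, Set.mem_singleton_iff,
        mkeq, not_or] at hq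
      refine ⟨y ^ (2 * i), (memA _).2 ⟨⟨i, rfl⟩, ?_, ?_, ?_⟩, hπ i⟩
      · rw [← zpow_add, Ne, x1]
        rintro ⟨t, ht⟩
        have ht' : i = n * t := by linarith
        rcases Int.even_or_odd' t with ⟨s, rfl | rfl⟩
        · exact hq.1.1 ⟨-s, by linear_combination -ht'⟩
        · exact hq.2.2 ⟨-s, by linear_combination -ht' - hm⟩
      · rw [Ne, xe]
        rintro ⟨t, ht⟩
        exact hq.1.2 ⟨t, by linarith⟩
      · rw [Ne, xe]
        rintro ⟨t, ht⟩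
        exact hq.2.1 ⟨t, by linarith⟩
    · intro g hg
      obtain ⟨⟨i, rfl⟩, -⟩ := (memA g).1 hg
      have : (y ^ (2 * i))⁻¹ = y ^ (2 * (-i)) := by rw [← zpow_neg]; congr 1; ring
      rw [this, hπ, hπ, act]
      congr 2
      ring
  have long : ∀ k l : ℤ, 0 < k → k < 2 * n →
      PM K {y ^ k, (y ^ k)⁻¹} {((y ^ l : G) : G ⧸ K), ((y ^ (k + l) : G) : G ⧸ K)} := by
    intro k l h0 h1
    rw [← act]
    refine PM.long ?_ ?_
    · rw [← zpow_add, Ne, x1]
      exact vcyc_nd (by omega) (by omega) (by omega)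
    · rw [act, Ne, mkeq]
      exact vcyc_nd (by omega) (by omega) (by omega)
  have pm2 := (long 1 0 (by omega) (by omega)).union (long (2 * m + 1) (-1) (by omega) (by omega))
    (by
      simp only [Finset.disjoint_insert_left, Finset.disjoint_singleton_left, Finset.mem_insert,
        Finset.mem_singleton, ← zpow_neg, xe, not_or]
      refine ⟨⟨?_, ?_⟩, ?_, ?_⟩ <;> exact vcyc_nd (by omega) (by omega) (by omega))
    (by
      simp only [Set.disjoint_insert_left, Set.disjoint_singleton_left, Set.mem_insert_iff,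
        Set.mem_singleton_iff, mkeq, not_or]
      refine ⟨⟨?_, ?_⟩, ?_, ?_⟩ <;> exact vcyc_nd (by omega) (by omega) (by omega))
  have pm3 := pm1.union pm2 (by
      rw [Finset.disjoint_left]
      intro g hg hg'
      obtain ⟨⟨i, rfl⟩, -⟩ := (memA g).1 hg
      simp only [Finset.mem_union, Finset.mem_insert, Finset.mem_singleton, ← zpow_neg] at hg'
      rcases hg' with (h | h) | (h | h)
      · exact vcyc_par hy i 0 (by rw [h]; rfl)
      · exact vcyc_par hy i (-1) (by rw [h]; rfl)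
      · exact vcyc_par hy i m h
      · exact vcyc_par hy i (-m - 1) (by rw [h]; congr 1; ring)) disjoint_compl_left
  rw [Set.compl_union_self] at pm3
  exact cov_of_pm pm3

theorem cyc_block [Fintype G] {y : G} {n : ℕ} (hall : ∀ g, g ∈ Subgroup.zpowers y)
    (hy : orderOf y = 2 * (2 * n)) (hn : n = 2 ∨ (4 ≤ n ∧ Even n)) :
    ∃ B : Finset G, Cov B ∧ (∀ b ∈ B, b * b ≠ 1) ∧
      (∀ i : ℤ, y ^ (2 * i) ∈ B ↔ y ^ (2 * i) * y ^ (2 * i) ≠ 1 ∧ y ^ (2 * i) ≠ y ^ (2 : ℤ) ∧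
        y ^ (2 * i) ≠ y ^ (-2 : ℤ)) ∧
      ∃ Y₀ : Finset G, 4 ≤ Y₀.card ∧
        ∀ p ∈ Y₀, p⁻¹ ∈ Y₀ ∧ p ∉ B ∧ ∃ i : ℤ, p = y ^ (2 * i + 1) := by
  have xe := zpow_eq_iff hy
  have x1 := zpow_eq_one_iff' hy
  push_cast at xe x1
  rcases hn with rfl | ⟨hn, m', hm'⟩
  · push_cast at xe x1
    refine ⟨∅, Cov.empty, by simp, fun i => ?_,
      {y ^ (1 : ℤ), y ^ (-1 : ℤ), y ^ (3 : ℤ), y ^ (-3 : ℤ)}, ?_, fun p hp => ?_⟩
    · simp only [Finset.notMem_empty, false_iff, ← zpow_add, Ne, x1, xe]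
      omega
    · apply vcyc_card <;> rw [Ne, xe] <;> omega
    · simp only [Finset.mem_insert, Finset.mem_singleton, Finset.notMem_empty, not_false_eq_true,
        true_and] at hp ⊢
      rcases hp with rfl | rfl | rfl | rfl
      · exact ⟨by rw [← zpow_neg]; simp, 0, rfl⟩
      · exact ⟨by rw [← zpow_neg]; simp, -1, rfl⟩
      · exact ⟨by rw [← zpow_neg]; simp, 1, rfl⟩
      · exact ⟨by rw [← zpow_neg]; simp, -2, rfl⟩
  · obtain ⟨m, hm⟩ : ∃ m : ℤ, (n : ℤ) = 2 * m := ⟨m', by rw [hm']; push_cast; ring⟩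
    have hn' : (4 : ℤ) ≤ n := by exact_mod_cast hn
    set A₁ := Finset.univ.filter fun g : G => (∃ i : ℤ, g = y ^ (2 * i)) ∧ g * g ≠ 1 ∧
      g ≠ y ^ (2 : ℤ) ∧ g ≠ y ^ (-2 : ℤ) with hA₁
    have memA : ∀ g, g ∈ A₁ ↔ (∃ i : ℤ, g = y ^ (2 * i)) ∧ g * g ≠ 1 ∧ g ≠ y ^ (2 : ℤ) ∧
        g ≠ y ^ (-2 : ℤ) := by
      intro g
      rw [hA₁, Finset.mem_filter]
      exact and_iff_right (Finset.mem_univ g)
    have odd : ∀ k : ℤ, y ^ (2 * k + 1) ∉ A₁ := by
      intro k hk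
      obtain ⟨⟨i, hi⟩, -⟩ := (memA _).1 hk
      exact vcyc_par hy i k hi.symm
    refine ⟨_, vcyc_pm hall hy hn A₁ memA hm, fun b hb => ?_, fun i => ?_,
      {y ^ (2 * 1 + 1 : ℤ), y ^ (2 * (-2) + 1 : ℤ), y ^ (2 * n + 1 : ℤ),
        y ^ (2 * (-n - 1) + 1 : ℤ)}, ?_, fun p hp => ?_⟩
    · simp only [Finset.mem_union, Finset.mem_insert, Finset.mem_singleton, ← zpow_neg] at hb
      rcases hb with hb | (rfl | rfl) | (rfl | rfl)
      · exact ((memA b).1 hb).2.1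
      all_goals
        rw [← zpow_add, Ne, x1]
        exact vcyc_nd (by omega) (by omega) (by omega)
    · simp only [Finset.mem_union, Finset.mem_insert, Finset.mem_singleton, ← zpow_neg, memA]
      refine ⟨?_, fun h => Or.inl ⟨⟨i, rfl⟩, h⟩⟩
      rintro (h | (h | h) | (h | h))
      · exact h.2
      · exact absurd (by rw [h]; rfl) (vcyc_par hy i 0)
      · exact absurd (by rw [h]; rfl) (vcyc_par hy i (-1))
      · exact absurd h (vcyc_par hy i m)
      · exact absurd (by rw [h]; congr 1; ring) (vcyc_par hy i (-m - 1))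
    · apply vcyc_card <;> rw [Ne, xe]
      · exact vcyc_nd (by omega) (by omega) (by omega)
      · exact vcyc_nd (by omega) (by omega) (by omega)
      · exact vcyc_nd (by omega) (by omega) (by omega)
      · exact vcyc_nd (by omega) (by omega) (by omega)
      · exact vcyc_nd (by omega) (by omega) (by omega)
      · rintro ⟨t, ht⟩
        exact vcyc_nd (N := 2 * (2 * n)) (m := -2) (by omega) (by omega) (by omega)
          ⟨t + 1, by linear_combination ht⟩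
    · simp only [Finset.mem_union, Finset.mem_insert, Finset.mem_singleton, ← zpow_neg,
        not_or] at hp ⊢
      rcases hp with rfl | rfl | rfl | rfl
      all_goals
        refine ⟨?_, ⟨odd _, ⟨?_, ?_⟩, ?_, ?_⟩, _, rfl⟩
        · rw [← zpow_neg]
          first
            | (left; congr 1; omega)
            | (left; rfl)
            | (right; left; rfl)
            | (right; right; left; congr 1; omega)
            | (right; right; right; congr 1; omega)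
        all_goals
          rw [xe]
          exact vcyc_nd (by omega) (by omega) (by omega)

end Pool.Agent.P.MP_da365b_co.SV
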