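import Pool.Agent.P.MP_da365b_co.Main
import Pool.Agent.P.MP_da365b_co.Conj

namespace Pool.Agent.P.MP_da365b_co.SV

open Classical

set_option linter.unusedSectionVars false

universe u

variable {G : Type u} [Group G]

/-- The labels `A` are matched with an invariant set of points of a `G`-set. -/
def Cov (A : Finset G) : Prop :=
  (∀ g ∈ A, g ≠ 1) ∧ ∃ (Ω : Type u) (_ : MulAction G Ω) (X : Set Ω),
    (∀ g : G, ∀ x ∈ X, g • x ∈ X) ∧ Mt (A : Set G) X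

/-- The common kernel of the characters of order two. -/
def Kc (G : Type u) [Group G] : Subgroup G := ⨅ χ : G →* ℤˣ, χ.ker

/-- `Kc N` as a subgroup of `G`. -/
def Km (N : Subgroup G) : Subgroup G := (Kc N).map N.subtype

/-- Free labels. -/
def Sing (g : G) : Prop := g ≠ 1 ∧ (g * g = 1 ∨ ∃ χ : G →* ℤˣ, χ g = -1)

/-- The non-identity elements of a subgroup. -/
noncomputable def sharp [Fintype G] (O : Subgroup G) : Finset G :=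
  Finset.univ.filter fun g => g ∈ O ∧ g ≠ 1

/-- Data for lifting matchings from `H` to `G`. -/
structure Fat (H : Subgroup G) where
  t : G → G
  y : G → H
  eq : ∀ g, g * t g = t g⁻¹ * y g
  tr : ∀ g g', (t g)⁻¹ * t g' ∈ H → t g = t g'
  inj : ∀ g g', t g = t g' → y g = y g' → g = g'
  surj : ∀ (x : G) (h : H), ∃ g, x⁻¹ * t g ∈ H ∧ y g = h

/-- The labels over a set of labels of `H`. -/
noncomputable def Fat.pre [Fintype G] {H : Subgroup G} (F : Fat H) (A : Finset H) : Finset G :=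
  Finset.univ.filter fun g => F.y g ∈ A

/-- The labels over one label of `H`. -/
noncomputable def Fat.fib [Fintype G] {H : Subgroup G} (F : Fat H) (y₀ : H) : Finset G :=
  Finset.univ.filter fun g => F.y g = y₀

/-- `G = O P` with `O` of odd order and `P` a 2-group. -/
structure Hall (O P : Subgroup G) : Prop where
  compl : O.IsComplement' P
  odd : Odd (Nat.card O)
  two : IsPGroup 2 P

/-- `{1, j, c, c j}` is a normal four-group with `j` central. -/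
def IsFour (j c : G) : Prop :=
  j ≠ 1 ∧ j * j = 1 ∧ (∀ g, g * j = j * g) ∧ c ≠ 1 ∧ c * c = 1 ∧ c ≠ j ∧
    ∀ g, g * c * g⁻¹ = c ∨ g * c * g⁻¹ = c * j

def FourIn (C : Subgroup G) : Prop := ∃ j ∈ C, ∃ c ∈ C, IsFour j c

def HInv (C : Subgroup G) : Prop :=
  ∀ ψ : G →* ℤˣ, (∀ g ∈ C, ψ g = 1) →
    (∀ α : G ≃* G, (∀ g, α g ∈ C ↔ g ∈ C) → ∀ g, ψ (α g) = ψ g) → ∀ g, ψ g = 1

def NoInv (G : Type u) [Group G] : Prop :=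
  ∀ χ : G →* ℤˣ, (∀ α : G ≃* G, ∀ g, χ (α g) = χ g) → ∀ g, χ g = 1

def Core (C : Subgroup G) : Prop :=
  ∃ Λ : Finset G, Cov Λ ∧ (∀ g ∈ C, g ≠ 1 → g ∉ Λ → Sing g) ∧ (∃ g, g ∉ C ∧ g ∉ Λ) ∧
    ∃ t, t ≠ 1 ∧ t * t = 1 ∧ t ∉ Λ

def S1 (C : Subgroup G) : Prop :=
  ∃ Λ : Finset G, Cov Λ ∧ (∀ g ∈ C, g ≠ 1 → g ∈ Λ) ∧ ∃ u, u ∉ C ∧ u ∉ Λ ∧ u * u = 1

def S2 (C : Subgroup G) : Prop :=
  ∃ (Λ : Finset G) (u : G), Cov Λ ∧ u ∈ C ∧ u ≠ 1 ∧ u * u = 1 ∧ u ∉ Λ ∧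
    (∀ g ∈ C, g ≠ 1 → g ≠ u → g ∈ Λ) ∧ ∃ x, x ∉ C ∧ x ∉ Λ ∧ x * x ≠ 1

/-- `Λ` contains `C - 1` and misses an involution in every other coset. -/
def P1 (C : Subgroup G) (Λ : Finset G) : Prop :=
  Cov Λ ∧ (∀ g ∈ C, g ≠ 1 → g ∈ Λ) ∧
    ∀ g, g ∉ C → ∃ v, g⁻¹ * v ∈ C ∧ v ∉ Λ ∧ v * v = 1

/-- `Λ` contains `C - {1, u}`, misses `u`, two involutions in every other coset that has one,
and an element of every other coset. -/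
def P2 (C : Subgroup G) (Λ : Finset G) (u : G) : Prop :=
  Cov Λ ∧ u ∈ C ∧ u ≠ 1 ∧ u * u = 1 ∧ u ∉ Λ ∧ (∀ g ∈ C, g ≠ 1 → g ≠ u → g ∈ Λ) ∧
    (∀ g, g ∉ C → g * g = 1 → ∃ v v', v ≠ v' ∧ g⁻¹ * v ∈ C ∧ g⁻¹ * v' ∈ C ∧ v ∉ Λ ∧ v' ∉ Λ ∧
      v * v = 1 ∧ v' * v' = 1) ∧
    ∀ g, g ∉ C → ∃ v, g⁻¹ * v ∈ C ∧ v ∉ Λ

def Al (C : Subgroup G) : Prop :=
  ∃ Λ : Finset G, P1 C Λ ∧
    ∃ u u', u ≠ u' ∧ u ∉ C ∧ u⁻¹ * u' ∈ C ∧ u ∉ Λ ∧ u' ∉ Λ ∧ u * u = 1 ∧ u' * u' = 1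

def Be (C : Subgroup G) : Prop :=
  ∃ (Λ : Finset G) (u : G), P2 C Λ u ∧ ∃ x, ∀ v, x⁻¹ * v ∈ C → v * v ≠ 1

/-- An equidistributed set of unused labels. -/
def DOut (G : Type u) [Group G] [Fintype G] : Prop :=
  ∃ (D : Finset G) (a : ℕ), 1 ∈ D ∧ (∀ d ∈ D, d⁻¹ ∈ D) ∧ Cov (Finset.univ \ D) ∧
    (a = 1 ∨ a = 2) ∧ (∀ g, (D.filter fun d => g⁻¹ * d ∈ Kc G).card = a) ∧
    ∀ d ∈ D, d * d ≠ 1 → ∀ v, d⁻¹ * v ∈ Kc G → v * v ≠ 1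

def Psi (j : G) (C : Subgroup G) (U₀ A : Finset G) : Prop :=
  ∃ Λ : Finset G, Cov Λ ∧ Λ ⊆ A ∧ (∀ g ∈ A, g ∈ C → g * g ≠ 1 → g ∈ Λ) ∧
    (∀ g ∈ Λ, g ∉ C → Strong j g ∧ g ∉ U₀) ∧ ∃ t ∈ A, t ∈ C ∧ t ≠ 1 ∧ t * t = 1 ∧ t ∉ Λ

/-- A reserve: one quad in every coset of `C` that consists of strong elements. -/
structure Res (j : G) (C : Subgroup G) (U₀ : Finset G) : Prop where
  clo : Clo j U₀
  strong : ∀ g ∈ U₀, ∀ v, g⁻¹ * v ∈ C → Strong j v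
  four : ∀ g, (U₀.filter fun v => g⁻¹ * v ∈ C).card ≤ 4
  meet : ∀ g, (∀ v, g⁻¹ * v ∈ C → Strong j v) → ∃ v ∈ U₀, g⁻¹ * v ∈ C

end Pool.Agent.P.MP_da365b_co.SV
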