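import Pool.Agent.P.MP_da365b_co.VCov

namespace Pool.Agent.P.MP_da365b_co.SV

open Classical

set_option linter.unusedSectionVars false

universe u

variable {G : Type u} [Group G]

variable {Ω : Type*} [MulAction G Ω] [DecidableEq Ω]

theorem vdirac_arith (e y u w s : ℕ) (hy : 4 ≤ y) (h1 : w ≤ u + 4 * e)
    (h2 : 2 * u + 4 * (2 * e + y) ≤ (2 * e + y) * s)
    (h3 : e * (y * s) + y * ((y - 1) * s) ≤ y * w) : False := by
  obtain ⟨t, rfl⟩ : ∃ t, y = t + 4 := ⟨y - 4, by omega⟩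
  have e1 : t + 4 - 1 = t + 3 := by omega
  rw [e1] at h3
  have h4 : (t + 4) * (e * s + (t + 3) * s) ≤ (t + 4) * w := by
    calc (t + 4) * (e * s + (t + 3) * s) = e * ((t + 4) * s) + (t + 4) * ((t + 3) * s) := by ring
      _ ≤ _ := h3
  have h5 : e * s + (t + 3) * s ≤ w := Nat.le_of_mul_le_mul_left h4 (by omega)
  nlinarith [Nat.zero_le (t * s), Nat.zero_le s]

theorem dirac_step' [Fintype G] [Fintype Ω] {j : G} (hj2 : j * j = 1)
    (hjc : ∀ g, g * j = j * g) {U₁ U : Finset G} (s : ℕ) (hs4 : 4 ≤ s)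
    (hs : ∀ a b : Ω, a ≠ b →
      s ≤ (Finset.univ.filter fun g : G => Strong j g ∧ g ∉ U₁ ∧ g • a = b).card)
    (hbound : 2 * U.card + 4 * Fintype.card Ω ≤ Fintype.card Ω * s)
    {E : Finset (G × Ω)} (h : Good j (U₁ ∪ U) E) (hm : 2 * (E.card + 1) + 2 ≤ Fintype.card Ω) :
    ∃ E' : Finset (G × Ω), E'.card = E.card + 1 ∧ Good j (U₁ ∪ U) E' := by
  by_contra hcon
  set W := U ∪ labs j E with hW
  have hWc : W.card ≤ U.card + 4 * E.card :=
    (Finset.card_union_le _ _).trans (Nat.add_le_add_left (card_labs_le j E) _)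
  set Y := (cov E)ᶜ with hY
  have hcc : Y.card = Fintype.card Ω - 2 * E.card := by
    rw [hY, Finset.card_compl, h.card_cov]
  have hYm : ∀ a, a ∈ Y ↔ a ∉ cov E := fun a => Finset.mem_compl
  let av : Ω → Ω → Finset G := fun x y =>
    Finset.univ.filter fun g : G => Strong j g ∧ g • x = y ∧ g ∉ (U₁ ∪ U) ∪ labs j E
  let cnt : Ω → Ω → ℕ := fun x y => (W.filter fun g => g • x = y).card
  have hmem : ∀ x y g, g ∈ av x y ↔ Strong j g ∧ g • x = y ∧ g ∉ (U₁ ∪ U) ∪ labs j E := by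
    intro x y g
    simp only [Finset.mem_filter, Finset.mem_univ, true_and, av]
  have hav : ∀ x y, x ≠ y → s ≤ (av x y).card + cnt x y := by
    intro x y hxy
    refine (hs x y hxy).trans ((Finset.card_le_card ?_).trans (Finset.card_union_le _ _))
    intro g hg
    rw [Finset.mem_filter] at hg
    rw [Finset.mem_union, hmem, Finset.mem_filter]
    by_cases hgW : g ∈ W
    · exact Or.inr ⟨hgW, hg.2.2.2⟩
    · refine Or.inl ⟨hg.2.1, hg.2.2.2, ?_⟩
      rw [Finset.union_assoc, Finset.mem_union, not_or]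
      exact ⟨hg.2.2.1, hgW⟩
  have hfree : ∀ x ∉ cov E, ∀ y ∉ cov E, x ≠ y → s ≤ cnt x y := by
    intro x hx y hy hxy
    have : av x y = ∅ := by
      rw [Finset.eq_empty_iff_forall_notMem]
      intro g hg
      obtain ⟨g1, g2, g3⟩ := (hmem _ _ _).1 hg
      rw [Finset.mem_union, not_or] at g3
      obtain ⟨G1, n1⟩ := h.insert (g, x) g1 g3.1 (by simpa [g2] using hxy.symm)
        (disjoint_quad hj2 hjc (clo_labs hj2 hjc _) g3.2) hx (by simpa [g2] using hy)
      exact hcon ⟨_, Finset.card_insert_of_notMem n1, G1⟩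
    have h2 := hav x y hxy
    rw [this] at h2
    simpa using h2
  have hone : ∀ e ∈ E, ∀ x ∈ pts e, ∀ y ∈ pts e, x ≠ y → ∀ b ∈ Y, ∀ v ∈ av b y,
      (Y.card - 1) * s ≤ (∑ a ∈ Y, cnt a x) + 4 := by
    intro e he x hx y hy hxy b hb v hv
    have hpe : pts e ⊆ cov E := Finset.subset_biUnion_of_mem pts he
    have hv' := (hmem _ _ _).1 hv
    have key : ∀ a ∈ Y.erase b, av a x ⊆ (quad j v).filter fun g => g⁻¹ • x = a := by
      intro a ha u hu
      have ha' := Finset.mem_erase.1 ha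
      have hu' := (hmem _ _ _).1 hu
      rw [Finset.mem_filter]
      refine ⟨?_, by rw [← hu'.2.1, inv_smul_smul]⟩
      by_contra hq
      exact hcon (exchange hj2 hjc h he ha'.1 ((hYm _).1 ha'.2) ((hYm _).1 hb) hu'.1 hv'.1
        hu'.2.2 hv'.2.2 hq (hu'.2.1 ▸ hx) (hv'.2.1 ▸ hy) (by rw [hu'.2.1, hv'.2.1]; exact hxy))
    have t1 : (quad j v).card = ∑ a : Ω, ((quad j v).filter fun g => g⁻¹ • x = a).card :=
      Finset.card_eq_sum_card_fiberwise (f := fun g : G => g⁻¹ • x) (fun _ _ => Finset.mem_univ _)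
    have t2 : ∑ a ∈ Y.erase b, (av a x).card ≤ 4 := by
      calc ∑ a ∈ Y.erase b, (av a x).card
          ≤ ∑ a ∈ Y.erase b, ((quad j v).filter fun g => g⁻¹ • x = a).card :=
            Finset.sum_le_sum fun a ha => Finset.card_le_card (key a ha)
        _ ≤ ∑ a : Ω, ((quad j v).filter fun g => g⁻¹ • x = a).card :=
            Finset.sum_le_sum_of_subset (Finset.subset_univ _)
        _ ≤ 4 := t1 ▸ card_quad_le j v
    have t3 : (Y.erase b).card * s ≤ ∑ a ∈ Y.erase b, ((av a x).card + cnt a x) := by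
      rw [← smul_eq_mul]
      apply Finset.card_nsmul_le_sum
      intro a ha
      exact hav a x fun h' => (hYm _).1 (Finset.mem_erase.1 ha).2 (h' ▸ hpe hx)
    have t4 : ∑ a ∈ Y.erase b, cnt a x ≤ ∑ a ∈ Y, cnt a x :=
      Finset.sum_le_sum_of_subset (Finset.erase_subset _ _)
    rw [Finset.sum_add_distrib, Finset.card_erase_of_mem hb] at t3
    omega
  have hall : ∀ x ∈ cov E, (∀ a ∈ Y, av a x = ∅) → Y.card * s ≤ ∑ a ∈ Y, cnt a x := by
    intro x hx h0
    rw [← smul_eq_mul]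
    apply Finset.card_nsmul_le_sum
    intro a ha
    have h2 := hav a x fun h' => (hYm _).1 ha (h' ▸ hx)
    rw [h0 a ha] at h2
    simpa using h2
  have hex : ∀ e ∈ E, Y.card * s ≤ (∑ a ∈ Y, cnt a e.2) + ∑ a ∈ Y, cnt a (e.1 • e.2) := by
    intro e he
    have hpe : pts e ⊆ cov E := Finset.subset_biUnion_of_mem pts he
    have m1 : e.2 ∈ pts e := by simp [pts]
    have m2 : e.1 • e.2 ∈ pts e := by simp [pts]
    by_cases c1 : ∀ a ∈ Y, av a e.2 = ∅
    · exact (hall _ (hpe m1) c1).trans (Nat.le_add_right _ _)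
    by_cases c2 : ∀ a ∈ Y, av a (e.1 • e.2) = ∅
    · exact (hall _ (hpe m2) c2).trans (Nat.le_add_left _ _)
    simp only [not_forall] at c1 c2
    obtain ⟨a, ha, c1⟩ := c1
    obtain ⟨b, hb, c2⟩ := c2
    obtain ⟨u, hu⟩ := Finset.nonempty_iff_ne_empty.2 c1
    obtain ⟨v, hv⟩ := Finset.nonempty_iff_ne_empty.2 c2
    have r1 := hone e he _ m1 _ m2 (h.move e he).symm b hb v hv
    have r2 := hone e he _ m2 _ m1 (h.move e he) a ha u hu
    obtain ⟨t, ht⟩ : ∃ t, Y.card = t + 4 := ⟨Y.card - 4, by omega⟩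
    have e1 : t + 4 - 1 = t + 3 := by omega
    rw [ht, e1] at r1 r2
    rw [ht]
    nlinarith [Nat.zero_le (t * s)]
  have htot : ∀ x ∈ Y, (∑ y ∈ cov E, cnt x y) + (Y.card - 1) * s ≤ W.card := by
    intro x hx
    have t1 : W.card = ∑ y : Ω, cnt x y :=
      Finset.card_eq_sum_card_fiberwise (f := fun g : G => g • x) (fun _ _ => Finset.mem_univ _)
    have t2 : ∑ y : Ω, cnt x y = ∑ y ∈ cov E, cnt x y + ∑ y ∈ Y, cnt x y :=
      (Finset.sum_add_sum_compl _ _).symm
    have t3 : ∑ y ∈ Y.erase x, cnt x y ≤ ∑ y ∈ Y, cnt x y :=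
      Finset.sum_le_sum_of_subset (Finset.erase_subset _ _)
    have t4 : (Y.erase x).card * s ≤ ∑ y ∈ Y.erase x, cnt x y := by
      rw [← smul_eq_mul]
      apply Finset.card_nsmul_le_sum
      intro y hy
      have := Finset.mem_erase.1 hy
      exact hfree x ((hYm _).1 hx) y ((hYm _).1 this.2) this.1.symm
    rw [Finset.card_erase_of_mem hx] at t4
    omega
  have hsum : E.card * (Y.card * s) ≤ ∑ a ∈ Y, ∑ y ∈ cov E, cnt a y := by
    rw [Finset.sum_comm, h.sum_cov (fun y => ∑ a ∈ Y, cnt a y), ← smul_eq_mul]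
    exact Finset.card_nsmul_le_sum _ _ _ hex
  have hall2 : (∑ a ∈ Y, ∑ y ∈ cov E, cnt a y) + Y.card * ((Y.card - 1) * s)
      ≤ Y.card * W.card := by
    have := Finset.sum_le_sum htot
    rw [Finset.sum_add_distrib, Finset.sum_const, Finset.sum_const, smul_eq_mul,
      smul_eq_mul] at this
    exact this
  have hp : Fintype.card Ω = 2 * E.card + Y.card := by omega
  rw [hp] at hbound
  exact vdirac_arith E.card Y.card U.card W.card s (by omega) hWc hbound
    ((Nat.add_le_add_right hsum _).trans hall2)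

theorem dirac' [Fintype G] [Fintype Ω] {j : G} (hj2 : j * j = 1) (hjc : ∀ g, g * j = j * g)
    {U₁ U : Finset G} (s : ℕ) (hs4 : 4 ≤ s)
    (hs : ∀ a b : Ω, a ≠ b →
      s ≤ (Finset.univ.filter fun g : G => Strong j g ∧ g ∉ U₁ ∧ g • a = b).card)
    (hbound : 2 * U.card + 4 * Fintype.card Ω ≤ Fintype.card Ω * s) (m : ℕ)
    (hm : m = 0 ∨ 2 * m + 2 ≤ Fintype.card Ω) :
    ∃ E : Finset (G × Ω), E.card = m ∧ Good j (U₁ ∪ U) E := by
  induction m with
  | zero => exact ⟨∅, rfl, ⟨by simp, by simp, by simp, by simp, by simp⟩⟩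
  | succ m ih =>
    obtain ⟨E, hE, hG⟩ := ih (by omega)
    obtain ⟨E', hE', hG'⟩ := dirac_step' hj2 hjc s hs4 hs hbound hG (by omega)
    exact ⟨E', by omega, hG'⟩

end Pool.Agent.P.MP_da365b_co.SV
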