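import Pool.Agent.P.MP_da365b_co.VLS0

namespace Pool.Agent.P.MP_da365b_co.SV

open Classical

set_option linter.unusedSectionVars false

universe u

variable {G : Type u} [Group G]

theorem vls_conj {A : Type*} [Fintype A] [DecidableEq A] {σ τ : Equiv.Perm A} (hσ : σ ^ 2 = 1)
    (hτ : τ ^ 2 = 1) (h : σ.support.card = τ.support.card) : IsConj σ τ := by
  rw [Equiv.Perm.isConj_iff_cycleType_eq]
  have h1 := Equiv.Perm.cycleType_of_pow_prime_eq_one hσ
  have h2 := Equiv.Perm.cycleType_of_pow_prime_eq_one hτ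
  rw [← Equiv.Perm.sum_cycleType, ← Equiv.Perm.sum_cycleType, h1, h2, Multiset.sum_replicate,
    Multiset.sum_replicate, smul_eq_mul, smul_eq_mul] at h
  rw [h1, h2, show σ.cycleType.card = τ.cycleType.card by omega]

theorem vls_even {A : Type*} [Fintype A] [DecidableEq A] {σ : Equiv.Perm A} (hσ : σ ^ 2 = 1) :
    ∃ j, σ.support.card = 2 * j := by
  refine ⟨σ.cycleType.card, ?_⟩
  rw [← Equiv.Perm.sum_cycleType]
  conv_lhs => rw [Equiv.Perm.cycleType_of_pow_prime_eq_one hσ]
  rw [Multiset.sum_replicate, smul_eq_mul, mul_comm]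

theorem vls_set {A : Type*} [AddCommGroup A] [Fintype A] (h2 : ∀ a : A, a + a = 0 → a = 0)
    (j : ℕ) (hj : 2 * j < Fintype.card A) :
    ∃ E : Finset A, (∀ a ∈ E, -a ∈ E) ∧ (0 : A) ∉ E ∧ E.card = 2 * j := by
  induction j with
  | zero => exact ⟨∅, by simp, by simp, rfl⟩
  | succ j ih =>
    obtain ⟨E, h1, h3, h4⟩ := ih (by omega)
    obtain ⟨a, -, ha⟩ := Finset.exists_mem_notMem_of_card_lt_card (s := insert 0 E)
      (t := Finset.univ) (by rw [Finset.card_insert_of_notMem h3, Finset.card_univ]; omega)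
    rw [Finset.mem_insert, not_or] at ha
    have h5 : -a ∉ E := fun h => ha.2 (by simpa using h1 _ h)
    have h6 : a ≠ -a := fun h => ha.1 (h2 a (eq_neg_iff_add_eq_zero.1 h))
    refine ⟨insert a (insert (-a) E), fun b hb => ?_, ?_, ?_⟩
    · simp only [Finset.mem_insert] at hb ⊢
      rcases hb with rfl | rfl | hb
      · exact .inr (.inl rfl)
      · exact .inl (neg_neg a)
      · exact .inr (.inr (h1 b hb))
    · simp only [Finset.mem_insert, not_or]
      exact ⟨fun h => ha.1 h.symm, fun h => ha.1 (neg_eq_zero.1 h.symm), h3⟩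
    · rw [Finset.card_insert_of_notMem (by simp [h6, ha.2]), Finset.card_insert_of_notMem h5, h4]
      omega

/-- A Latin square of odd order whose transpose is its image under a given involution. -/
theorem ls {X : Type*} [Finite X] (hodd : Odd (Nat.card X)) (ι : X → X) (hι : ∀ x, ι (ι x) = x) :
    ∃ L : X → X → X, (∀ r c, L c r = ι (L r c)) ∧ ∀ c, Function.Injective fun r => L r c := by
  have hk : NeZero (Nat.card X) := ⟨fun h => by simp [h] at hodd⟩
  obtain ⟨e₀⟩ : Nonempty (X ≃ ZMod (Nat.card X)) := Finite.card_eq.1 (Nat.card_zmod _).symm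
  have h2 : ∀ a : ZMod (Nat.card X), a + a = 0 → a = 0 := fun a ha => by
    have h3 : addOrderOf a ∣ 2 := addOrderOf_dvd_of_nsmul_eq_zero (by rw [two_nsmul, ha])
    have h4 : addOrderOf a ∣ Nat.card X := by
      simpa only [Nat.card_zmod] using addOrderOf_dvd_natCard a
    exact AddMonoid.addOrderOf_eq_one_iff.1 (Nat.eq_one_of_dvd_coprimes
      (Nat.coprime_two_left.2 hodd) h3 h4)
  let σ : Equiv.Perm (ZMod (Nat.card X)) := e₀.permCongr (Function.Involutive.toPerm ι hι)
  have hσ' : ∀ x, σ (e₀ x) = e₀ (ι x) := fun x => by simp [σ]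
  have hσ : σ ^ 2 = 1 := Equiv.ext fun a => by
    obtain ⟨x, rfl⟩ := e₀.surjective a
    rw [pow_two, Equiv.Perm.mul_apply, hσ', hσ', hι, Equiv.Perm.one_apply]
  obtain ⟨j, hj⟩ := vls_even hσ
  have hj' : 2 * j < Fintype.card (ZMod (Nat.card X)) := by
    have h3 := σ.support.card_le_univ
    rw [ZMod.card] at h3 ⊢
    obtain ⟨m, hm⟩ := hodd
    omega
  obtain ⟨E, hE, h0, hc⟩ := vls_set h2 j hj'
  have hκ : Function.Involutive fun a : ZMod (Nat.card X) => if a ∈ E then -a else a := fun a => by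
    by_cases h : a ∈ E
    · simp [h, hE a h]
    · simp [h]
  have hτ : hκ.toPerm ^ 2 = 1 := Equiv.ext fun a => hκ a
  have hs : hκ.toPerm.support = E := by
    ext a
    rw [Equiv.Perm.mem_support]
    change (if a ∈ E then -a else a) ≠ a ↔ _
    by_cases h : a ∈ E
    · simp only [h, if_true, iff_true]
      intro h3
      exact h0 (h2 a (neg_eq_iff_add_eq_zero.1 h3) ▸ h)
    · simp [h]
  obtain ⟨g, hg⟩ := isConj_iff.1 (vls_conj hσ hτ (by rw [hs, hc, hj]))
  let e := e₀.trans g
  have he : ∀ x, e (ι x) = if e x ∈ E then -e x else e x := fun x => by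
    have h3 := DFunLike.congr_fun hg (g (e₀ x))
    have h5 : g⁻¹ (g (e₀ x)) = e₀ x := g.symm_apply_apply _
    simp only [Equiv.Perm.mul_apply, h5, hσ'] at h3
    exact h3
  obtain ⟨L, h3, h4⟩ := ls_model h2 (E : Set _) hE h0
  refine ⟨fun r c => e.symm (L (e r) (e c)), fun r c => e.injective ?_, fun c r r' h => ?_⟩
  · rw [he, e.apply_symm_apply, e.apply_symm_apply, h3]
    simp only [Finset.mem_coe]
  · exact e.injective (h4 (e c) (e.symm.injective h))

/-- The same, class by class, for an equivalence relation with classes of odd size. -/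
theorem ls_classes {X : Type*} [Finite X] (ι : X → X) (hι : ∀ x, ι (ι x) = x) (s : Setoid X)
    (hs : ∀ a b, s a b → s (ι a) (ι b)) (hodd : ∀ a, Odd (Nat.card {b // s b a})) :
    ∃ L : X → X → X, (∀ r c, s r (ι c) → s (L r c) r ∧ L c r = ι (L r c)) ∧
      ∀ r r' c, s r (ι c) → s r' (ι c) → L r c = L r' c → r = r' := by
  have hs' : ∀ a b, s a (ι b) → s b (ι a) := fun a b h => by
    have h1 := hs _ _ h
    rw [hι] at h1
    exact s.symm h1
  let ι' : Quotient s → Quotient s := Quotient.map ι hs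
  have hι' : ∀ q, ι' (ι' q) = q := fun q => by
    induction q using Quotient.inductionOn with
    | h a => exact congrArg (Quotient.mk s) (hι a)
  let R : Quotient s → (X → X → X) → Prop := fun q L =>
    (∀ r c, Quotient.mk s r = q → s r (ι c) → s (L r c) r) ∧
    (∀ r r' c, Quotient.mk s r = q → s r (ι c) → s r' (ι c) → L r c = L r' c → r = r') ∧
    ∀ r c c', Quotient.mk s r = q → s r (ι c) → s r (ι c') → L r c = L r c' → c = c'
  have hinj : Function.Injective ι := Function.Involutive.injective hι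
  refine (symm_choice ι' (fun (L : X → X → X) r c => ι (L c r)) hι'
    (fun L => funext fun r => funext fun c => hι _) R (fun q L h => ?_) (fun q _ => ?_)
    fun q hq => ?_).elim fun f hf => ?_
  · have h1 : ∀ r c, Quotient.mk s r = ι' q → s r (ι c) → Quotient.mk s c = q := fun r c a b => by
      rw [← hι' q, ← a]
      exact Quotient.sound (hs' r c b)
    refine ⟨fun r c a b => ?_, fun r r' c a b b' e => ?_, fun r c c' a b b' e => ?_⟩
    · exact s.trans (hs _ _ (h.1 c r (h1 r c a b) (hs' r c b))) (s.symm b)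
    · exact h.2.2 c r r' (h1 r c a b) (hs' r c b) (hs' r' c b') (hinj e)
    · exact h.2.1 c c' r (h1 r c a b) (hs' r c b) (hs' r c' b') (hinj e)
  · induction q using Quotient.inductionOn with
    | h a =>
      obtain ⟨L, h1, h2⟩ := ls (hodd a) id fun _ => rfl
      let L' : X → X → X := fun r c =>
        if h : s r a ∧ s (ι c) a then (L ⟨r, h.1⟩ ⟨ι c, h.2⟩ : X) else a
      have h3 : ∀ r c (x : s r a) (y : s (ι c) a), L' r c = L ⟨r, x⟩ ⟨ι c, y⟩ := fun r c x y =>
        dif_pos ⟨x, y⟩
      refine ⟨L', fun r c x y => ?_, fun r r' c x y y' e => ?_, fun r c c' x y y' e => ?_⟩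
      · have x' : s r a := Quotient.exact x
        rw [h3 r c x' (s.trans (s.symm y) x')]
        exact s.trans (L _ _).2 (s.symm x')
      · have x' : s r a := Quotient.exact x
        have z : s (ι c) a := s.trans (s.symm y) x'
        rw [h3 r c x' z, h3 r' c (s.trans y' z) z] at e
        exact congrArg Subtype.val (h2 _ (Subtype.ext e))
      · have x' : s r a := Quotient.exact x
        rw [h3 r c x' (s.trans (s.symm y) x'), h3 r c' x' (s.trans (s.symm y') x'), h1,
          h1 _ ⟨r, x'⟩] at e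
        exact hinj (congrArg Subtype.val (h2 _ (Subtype.ext e)))
  · induction q using Quotient.inductionOn with
    | h a =>
      have ha : s (ι a) a := Quotient.exact hq
      let ι₀ : {b // s b a} → {b // s b a} := fun b => ⟨ι b, s.trans (hs _ _ b.2) ha⟩
      have hι₀ : ∀ b, ι₀ (ι₀ b) = b := fun b => Subtype.ext (hι _)
      obtain ⟨L, h1, h2⟩ := ls (hodd a) ι₀ hι₀
      let d : X := L ⟨a, s.refl a⟩ ⟨a, s.refl a⟩
      have hd : ι d = d := (congrArg Subtype.val (h1 ⟨a, s.refl a⟩ ⟨a, s.refl a⟩)).symm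
      let L' : X → X → X := fun r c => if h : s r a ∧ s c a then (L ⟨r, h.1⟩ ⟨c, h.2⟩ : X) else d
      have h3 : ∀ r c (x : s r a) (y : s c a), L' r c = L ⟨r, x⟩ ⟨c, y⟩ := fun r c x y =>
        dif_pos ⟨x, y⟩
      have h4 : ∀ r c, s r a → s r (ι c) → s c a := fun r c x y =>
        s.trans (hs' r c y) (s.trans (hs _ _ x) ha)
      refine ⟨L', ⟨fun r c x y => ?_, fun r r' c x y y' e => ?_, fun r c c' x y y' e => ?_⟩,
        funext fun r => funext fun c => ?_⟩
      · have x' : s r a := Quotient.exact x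
        rw [h3 r c x' (h4 r c x' y)]
        exact s.trans (L _ _).2 (s.symm x')
      · have x' : s r a := Quotient.exact x
        rw [h3 r c x' (h4 r c x' y), h3 r' c (s.trans y' (s.trans (s.symm y) x')) (h4 r c x' y)] at e
        exact congrArg Subtype.val (h2 _ (Subtype.ext e))
      · have x' : s r a := Quotient.exact x
        rw [h3 r c x' (h4 r c x' y), h3 r c' x' (h4 r c' x' y'), h1 ⟨c, _⟩, h1 ⟨c', _⟩] at e
        exact congrArg Subtype.val (h2 _ (Subtype.ext (hinj e)))
      · by_cases h : s r a ∧ s c a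
        · rw [h3 r c h.1 h.2, h3 c r h.2 h.1, h1 ⟨c, h.2⟩ ⟨r, h.1⟩]
        · have h5 : L' r c = d := dif_neg h
          have h6 : L' c r = d := dif_neg fun h' => h ⟨h'.2, h'.1⟩
          rw [h5, h6, hd]
  · refine ⟨fun r c => f (Quotient.mk s r) r c, fun r c h => ⟨(hf _).1.1 r c rfl h, ?_⟩,
      fun r r' c h h' e => ?_⟩
    · have h1 : Quotient.mk s c = ι' (Quotient.mk s r) := Quotient.sound (hs' r c h)
      change f (Quotient.mk s c) c r = _
      rw [h1, (hf _).2]
    · have h1 : Quotient.mk s r' = Quotient.mk s r := Quotient.sound (s.trans h' (s.symm h))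
      change f (Quotient.mk s r) r c = f (Quotient.mk s r') r' c at e
      rw [h1] at e
      exact (hf _).1.2.1 r r' c rfl h h' e

end Pool.Agent.P.MP_da365b_co.SV
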