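import Pool.Agent.P.MP_da365b_co.VCov

namespace Pool.Agent.P.MP_da365b_co.SV

open Classical

set_option linter.unusedSectionVars false

universe u

variable {G : Type u} [Group G]

theorem Fat.y_inv {H : Subgroup G} (F : Fat H) (g : G) : F.y g⁻¹ = (F.y g)⁻¹ := by
  have h1 := F.eq g
  have h2 := F.eq g⁻¹
  rw [inv_inv, inv_mul_eq_iff_eq_mul, ← mul_assoc, h1, mul_assoc, left_eq_mul] at h2
  exact eq_inv_of_mul_eq_one_right (Subtype.ext h2)

theorem Fat.y_one {H : Subgroup G} (F : Fat H) : F.y 1 = 1 := by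
  have h1 := F.eq 1
  rw [one_mul, inv_one, left_eq_mul] at h1
  exact Subtype.ext h1

theorem Fat.y_sq {H : Subgroup G} (F : Fat H) {g : G} (h : g * g = 1) : F.y g * F.y g = 1 := by
  have h1 := F.y_inv g
  rw [inv_eq_of_mul_eq_one_right h] at h1
  exact mul_eq_one_iff_eq_inv.2 h1

theorem Fat.card_fib [Fintype G] {H : Subgroup G} (F : Fat H) (y₀ : H) :
    (F.fib y₀).card = H.index := by
  have : Fintype (G ⧸ H) := Fintype.ofFinite _
  rw [Subgroup.index_eq_card, Nat.card_eq_fintype_card, ← Finset.card_univ]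
  refine Finset.card_bij (fun g _ => (F.t g : G ⧸ H)) (fun _ _ => Finset.mem_univ _)
    (fun g hg g' hg' e => ?_) fun q _ => ?_
  · exact F.inj g g' (F.tr g g' (QuotientGroup.eq.1 e))
      ((Finset.mem_filter.1 hg).2.trans (Finset.mem_filter.1 hg').2.symm)
  · obtain ⟨g, h1, h2⟩ := F.surj q.out y₀
    exact ⟨g, Finset.mem_filter.2 ⟨Finset.mem_univ _, h2⟩,
      (QuotientGroup.eq.2 h1).symm.trans (QuotientGroup.out_eq' q)⟩

theorem Fat.exists_invol [Finite G] {H : Subgroup G} (F : Fat H) (hodd : Odd H.index) {y₀ : H}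
    (h : y₀ * y₀ = 1) : ∃ g, F.y g = y₀ ∧ g * g = 1 := by
  have : Fintype G := Fintype.ofFinite _
  by_contra hc
  have h1 : ∑ _g ∈ F.fib y₀, (1 : ZMod 2) = 0 := by
    refine Finset.sum_involution (fun g _ => g⁻¹) (fun _ _ => by decide)
      (fun g hg _ e => hc ⟨g, (Finset.mem_filter.1 hg).2, mul_eq_one_iff_eq_inv.2 e.symm⟩)
      (fun g hg => Finset.mem_filter.2 ⟨Finset.mem_univ _, ?_⟩) fun g _ => inv_inv g
    rw [F.y_inv, (Finset.mem_filter.1 hg).2, inv_eq_of_mul_eq_one_right h]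
  rw [Finset.sum_const, F.card_fib, nsmul_one, ZMod.natCast_eq_zero_iff_even] at h1
  exact Nat.not_even_iff_odd.2 hodd h1

/-- The points of the induced set. -/
@[ext] structure VLiftInd (H : Subgroup G) (Ω : Type u) : Type u where
  q : G ⧸ H
  x : Ω

/-- The cocycle of the induced action. -/
noncomputable def vlift_c {H : Subgroup G} (g : G) (q : G ⧸ H) : H :=
  ⟨(g • q).out⁻¹ * (g * q.out), QuotientGroup.eq.1 (by
    rw [QuotientGroup.out_eq', ← smul_eq_mul, ← MulAction.Quotient.smul_coe,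
      QuotientGroup.out_eq'])⟩

/-- The `H`-part of an element. -/
noncomputable def vlift_d (H : Subgroup G) (s : G) : H :=
  ⟨(s : G ⧸ H).out⁻¹ * s, QuotientGroup.eq.1 (QuotientGroup.out_eq' _)⟩

noncomputable instance vlift_act {H : Subgroup G} {Ω : Type u} [MulAction H Ω] :
    MulAction G (VLiftInd H Ω) where
  smul g p := ⟨g • p.q, vlift_c g p.q • p.x⟩
  one_smul p := by
    change (⟨(1 : G) • p.q, vlift_c 1 p.q • p.x⟩ : VLiftInd H Ω) = p
    have h : vlift_c 1 p.q = 1 := Subtype.ext (by simp [vlift_c])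
    rw [h, one_smul, one_smul]
  mul_smul g g' p := by
    change (⟨(g * g') • p.q, vlift_c (g * g') p.q • p.x⟩ : VLiftInd H Ω) =
      ⟨g • g' • p.q, vlift_c g (g' • p.q) • vlift_c g' p.q • p.x⟩
    have h : vlift_c (g * g') p.q = vlift_c g (g' • p.q) * vlift_c g' p.q :=
      Subtype.ext (by simp [vlift_c, mul_smul, mul_assoc])
    rw [h, mul_smul, mul_smul]

theorem Fat.lift [Fintype G] {H : Subgroup G} (F : Fat H) {A : Finset H} (h : Cov A) :
    Cov (F.pre A) := by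
  obtain ⟨h1, Ω, _, X, hX, iA, π, hπ, cπ⟩ := h
  have mem : ∀ g, g ∈ (F.pre A : Set G) ↔ F.y g ∈ A := fun g => by simp [Fat.pre]
  refine ⟨fun g hg e => h1 _ ((mem g).1 hg) (by rw [e, F.y_one]), VLiftInd H Ω, inferInstance,
    {p | p.x ∈ X}, fun g p hp => hX _ _ hp, fun g hg => (mem _).2 ?_,
    fun g => ⟨(F.t g⁻¹ : G ⧸ H), vlift_d H (F.t g⁻¹) • π (F.y g)⟩,
    ⟨fun g hg => hX _ _ (hπ.mapsTo ((mem g).1 hg)), fun g hg g' hg' e => ?_, fun p hp => ?_⟩,
    fun g hg => ?_⟩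
  · rw [F.y_inv]
    exact iA _ ((mem g).1 hg)
  · have e1 := F.tr _ _ (QuotientGroup.eq.1 (congrArg VLiftInd.q e))
    have e2 : vlift_d H (F.t g⁻¹) • π (F.y g) = vlift_d H (F.t g'⁻¹) • π (F.y g') :=
      congrArg VLiftInd.x e
    rw [e1, smul_left_cancel_iff] at e2
    have e3 := hπ.injOn ((mem g).1 hg) ((mem g').1 hg') e2
    exact inv_injective (F.inj _ _ e1 (by rw [F.y_inv, F.y_inv, e3]))
  · obtain ⟨g₀, h₀, -⟩ := F.surj p.q.out 1
    obtain ⟨a, ha, e⟩ := hπ.surjOn (hX (vlift_d H (F.t g₀))⁻¹ _ hp)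
    obtain ⟨g, h₁, h₂⟩ := F.surj p.q.out a⁻¹
    have e1 : (F.t g : G ⧸ H) = p.q :=
      (QuotientGroup.eq.2 h₁).symm.trans (QuotientGroup.out_eq' _)
    have e2 : F.t g = F.t g₀ := F.tr _ _ (QuotientGroup.eq.1 (e1.trans
      ((QuotientGroup.out_eq' _).symm.trans (QuotientGroup.eq.2 h₀))))
    have e3 : F.y g⁻¹ = a := by rw [F.y_inv, h₂, inv_inv]
    refine ⟨g⁻¹, (mem _).2 (e3 ▸ ha), VLiftInd.ext ?_ ?_⟩
    · simpa only [inv_inv] using e1
    · simp only [inv_inv, e3, e, e2, smul_inv_smul]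
  · have e1 : g • (F.t g : G ⧸ H) = (F.t g⁻¹ : G ⧸ H) := by
      rw [MulAction.Quotient.smul_coe, smul_eq_mul, F.eq, QuotientGroup.mk_mul_of_mem _ (F.y g).2]
    have e2 : vlift_c g (F.t g : G ⧸ H) * vlift_d H (F.t g) = vlift_d H (F.t g⁻¹) * F.y g :=
      Subtype.ext (by
        simp only [vlift_c, vlift_d, Subgroup.coe_mul, e1, mul_assoc, mul_inv_cancel_left, F.eq])
    change _ = (⟨g • (F.t g⁻¹⁻¹ : G ⧸ H), vlift_c g (F.t g⁻¹⁻¹ : G ⧸ H) •
      vlift_d H (F.t g⁻¹⁻¹) • π (F.y g⁻¹)⟩ : VLiftInd H Ω)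
    rw [inv_inv, e1, ← mul_smul, e2, mul_smul, F.y_inv, ← cπ _ ((mem g).1 hg)]

end Pool.Agent.P.MP_da365b_co.SV
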