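import Pool.Agent.P.MP_da365b_co.VFat0
import Pool.Agent.P.MP_da365b_co.VLift
import Pool.Agent.P.MP_da365b_co.VLS

namespace Pool.Agent.P.MP_da365b_co.SV

open Classical

set_option linter.unusedSectionVars false

universe u

variable {G : Type u} [Group G]

theorem vfat_rep {O P : Subgroup G} (hc : O.IsComplement' P) (g : G) :
    ∃ r : P, g⁻¹ * r ∈ O := by
  obtain ⟨⟨o, p⟩, h, -⟩ := hc.existsUnique g⁻¹
  have h' : (o : G) * (p : G) = g⁻¹ := h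
  refine ⟨(⟨p, p.2⟩ : P)⁻¹, ?_⟩
  have e : g⁻¹ * (((⟨p, p.2⟩ : P)⁻¹ : P) : G) = o := by
    rw [← h']
    simp
  rw [e]
  exact o.2

theorem vfat_one {O P : Subgroup G} (hc : O.IsComplement' P) {g : G} (h1 : g ∈ O) (h2 : g ∈ P) :
    g = 1 := Subgroup.disjoint_def.1 hc.disjoint h1 h2

theorem vfat_root {O : Subgroup G} (hodd : Odd (Nat.card O)) :
    ∃ k : ℕ, ∀ γ ∈ O, γ ^ k * γ ^ k = γ := by
  obtain ⟨j, hj⟩ := hodd
  refine ⟨j + 1, fun γ hγ => ?_⟩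
  have h : γ ^ Nat.card O = 1 := congrArg Subtype.val (pow_card_eq_one' (x := (⟨γ, hγ⟩ : O)))
  rw [← pow_add, show j + 1 + (j + 1) = Nat.card O + 1 by omega, pow_succ, h, one_mul]

theorem exists_fat [Finite G] {O P : Subgroup G} (hc : O.IsComplement' P)
    (hodd : Odd (Nat.card O)) : ∃ F : Fat P, ∀ g, F.t g ∈ O := by
  choose r hr using vfat_rep hc
  obtain ⟨x, a, hx, hxi, ha, hy⟩ := exists_base hc hodd
  obtain ⟨L, hL, hLi⟩ := ls_classes (fun y : P => y⁻¹) inv_inv (dc O P) (fun _ _ => dc_inv)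
    (dc_odd hc hodd)
  obtain ⟨k, hk⟩ := vfat_root hodd
  have hgc : ∀ g, g * r g⁻¹ ∈ O := fun g => by simpa using hr g⁻¹
  have hrc : ∀ g, dc O P (r g) (r g⁻¹)⁻¹ := fun g =>
    ⟨g * r g⁻¹, hgc g, (g⁻¹ * r g)⁻¹, O.inv_mem (hr g), by
      rw [Subgroup.coe_inv]
      group⟩
  have hxc : ∀ g, (x (r g⁻¹) : G) = (x (r g) : G)⁻¹ := fun g => by
    rw [hx _ _ (hrc g), hxi, Subgroup.coe_inv, inv_inv]
  have hxa : ∀ y : P, (x y : G) = (a y)⁻¹ * y * a y⁻¹ := fun y => by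
    rw [hy y]
    group
  obtain ⟨ga, hga⟩ : ∃ ga : G → G, ∀ g,
      ga g = (x (r g) : G)⁻¹ * (a (r g))⁻¹ * g * a (r g⁻¹) := ⟨_, fun _ => rfl⟩
  have ga1 : ∀ g, ga g ∈ O := fun g => by
    have e : ga g = (a (r g)⁻¹)⁻¹ * (g⁻¹ * r g)⁻¹ * a (r g⁻¹) := by
      rw [hga, hxa]
      group
    rw [e]
    exact O.mul_mem (O.mul_mem (O.inv_mem (ha _)) (O.inv_mem (hr g))) (ha _)
  have ga2 : ∀ g, ga g⁻¹ = x (r g) * (ga g)⁻¹ * (x (r g) : G)⁻¹ := fun g => by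
    rw [hga, hga, hxc, inv_inv, inv_inv]
    group
  obtain ⟨de, hde⟩ : ∃ de : G → G, ∀ g, de g = (ga g)⁻¹ ^ k := ⟨_, fun _ => rfl⟩
  have de1 : ∀ g, de g ∈ O := fun g => hde g ▸ O.pow_mem (O.inv_mem (ga1 g)) k
  have de2 : ∀ g, de g⁻¹ = x (r g) * (de g)⁻¹ * (x (r g) : G)⁻¹ := fun g => by
    rw [hde, hde, ga2, inv_pow, conj_pow]
    group
  have de3 : ∀ g, ga g = (de g)⁻¹ * (de g)⁻¹ := fun g => by
    rw [← mul_inv_rev, hde, hk _ (O.inv_mem (ga1 g)), inv_inv]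
  have hg : ∀ g, g = a (r g) * x (r g) * ((de g)⁻¹ * (de g)⁻¹) * (a (r g⁻¹))⁻¹ := fun g => by
    rw [← de3, hga]
    group
  obtain ⟨y, hy'⟩ : ∃ y : G → P, ∀ g, y g = L (r g) (r g⁻¹) := ⟨_, fun _ => rfl⟩
  have y1 : ∀ g, x (y g) = x (r g) := fun g => hx _ _ (hy' g ▸ (hL _ _ (hrc g)).1)
  have y2 : ∀ g, y g⁻¹ = (y g)⁻¹ := fun g => by
    rw [hy', hy', inv_inv]
    exact (hL _ _ (hrc g)).2
  obtain ⟨t, ht⟩ : ∃ t : G → G, ∀ g, t g = a (r g⁻¹) * de g * (a (y g)⁻¹)⁻¹ := ⟨_, fun _ => rfl⟩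
  have t1 : ∀ g, t g ∈ O := fun g =>
    ht g ▸ O.mul_mem (O.mul_mem (ha _) (de1 g)) (O.inv_mem (ha _))
  have hinj : ∀ g g', t g = t g' → y g = y g' → g = g' := by
    intro g g' h1 h2
    have e1 : x (r g) = x (r g') := by rw [← y1, ← y1, h2]
    have e2 : a (r g⁻¹) * de g = a (r g'⁻¹) * de g' := by
      rw [ht, ht, h2] at h1
      exact mul_right_cancel h1
    have e3 : ∀ g, (r g⁻¹ : G)⁻¹ * (a (r g⁻¹) * de g * (x (r g) : G)⁻¹) ∈ O := fun g => by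
      have e : (r g⁻¹ : G)⁻¹ * (a (r g⁻¹) * de g * (x (r g) : G)⁻¹) =
          a (r g⁻¹)⁻¹ * (de g⁻¹)⁻¹ := by
        have e' : (x (r g) : G) = (a (r g⁻¹)⁻¹)⁻¹ * (r g⁻¹ : G)⁻¹ * a (r g⁻¹) := by
          rw [← inv_inv (x (r g) : G), ← hxc, hxa]
          group
        rw [de2, e']
        group
      rw [e]
      exact O.mul_mem (ha _) (O.inv_mem (de1 _))
    have e4 : r g⁻¹ = r g'⁻¹ := by
      have e5 := O.mul_mem (e3 g) (O.inv_mem (e3 g'))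
      rw [e2, e1] at e5
      have e6 : (r g⁻¹ : G)⁻¹ * r g'⁻¹ ∈ O := by simpa [mul_assoc] using e5
      exact Subtype.ext (inv_mul_eq_one.1
        (vfat_one hc e6 (P.mul_mem (P.inv_mem (r g⁻¹).2) (r g'⁻¹).2)))
    have e5 : de g = de g' := by
      rw [e4] at e2
      exact mul_left_cancel e2
    have e6 : r g = r g' := by
      refine hLi _ _ (r g⁻¹) (hrc g) (e4 ▸ hrc g') ?_
      rw [← hy', h2, hy', e4]
    rw [hg g, hg g', e4, e5, e6]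
  refine ⟨⟨t, y, fun g => ?_, fun g g' h => ?_, hinj, fun z h => ?_⟩, t1⟩
  · have e : g * a (r g⁻¹) = a (r g) * x (r g) * ((de g)⁻¹ * (de g)⁻¹) :=
      (mul_inv_eq_iff_eq_mul.1 (hg g).symm).symm
    rw [ht, ht, y2, inv_inv, inv_inv, de2, hy (y g), y1, ← mul_assoc, ← mul_assoc, e]
    group
  · exact inv_mul_eq_one.1 (vfat_one hc (O.mul_mem (O.inv_mem (t1 g)) (t1 g')) h)
  · have hb : Function.Bijective fun g : G => ((⟨t g, t1 g⟩, y g) : O × P) := by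
      refine (Nat.bijective_iff_injective_and_card _).2 ⟨fun g g' h => ?_, ?_⟩
      · exact hinj g g' (congrArg (fun q : O × P => (q.1 : G)) h) (congrArg Prod.snd h)
      · rw [Nat.card_prod, hc.card_mul_card]
    obtain ⟨⟨o, p⟩, h1, -⟩ := hc.existsUnique z
    have h' : (o : G) * (p : G) = z := h1
    obtain ⟨g, hg'⟩ := hb.2 (⟨o, o.2⟩, h)
    have e1 : t g = o := congrArg (fun q : O × P => (q.1 : G)) hg'
    refine ⟨g, ?_, congrArg Prod.snd hg'⟩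
    rw [e1, ← h']
    simp

end Pool.Agent.P.MP_da365b_co.SV
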