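import Pool.Agent.P.MP_da365b_co.VCov

namespace Pool.Agent.P.MP_da365b_co.SV

open Classical

set_option linter.unusedSectionVars false

universe u

variable {G : Type u} [Group G]

/-- Equivalence of elements of `P` in the same double coset of `O`. -/
def dc (O P : Subgroup G) : Setoid P where
  r y y' := ∃ a ∈ O, ∃ b ∈ O, (y : G) = a * y' * b⁻¹
  iseqv :=
    { refl := fun y => ⟨1, O.one_mem, 1, O.one_mem, by group⟩
      symm := by
        rintro y y' ⟨a, ha, b, hb, h⟩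
        exact ⟨a⁻¹, O.inv_mem ha, b⁻¹, O.inv_mem hb, by rw [h]; group⟩
      trans := by
        rintro y y' y'' ⟨a, ha, b, hb, h⟩ ⟨a', ha', b', hb', h'⟩
        exact ⟨a * a', O.mul_mem ha ha', b * b', O.mul_mem hb hb', by rw [h, h']; group⟩ }

theorem dc_inv {O P : Subgroup G} {y y' : P} (h : dc O P y y') : dc O P y⁻¹ y'⁻¹ := by
  obtain ⟨a, ha, b, hb, h⟩ := h
  exact ⟨b, hb, a, ha, by rw [Subgroup.coe_inv, Subgroup.coe_inv, h]; group⟩

theorem dc_odd [Finite G] {O P : Subgroup G} (hc : O.IsComplement' P) (hodd : Odd (Nat.card O))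
    (y : P) : Odd (Nat.card {y' // dc O P y' y}) := by
  have e : Nat.card {y' // dc O P y' y} = Nat.card (MulAction.orbit O ((y : G) : G ⧸ O)) := by
    refine Nat.card_eq_of_bijective (fun y' => ⟨((y'.1 : G) : G ⧸ O), ?_⟩) ⟨?_, ?_⟩
    · obtain ⟨a, ha, b, hb, h⟩ := y'.2
      refine ⟨⟨a, ha⟩, ?_⟩
      change ((a * y : G) : G ⧸ O) = _
      rw [h, QuotientGroup.eq]
      simpa [mul_assoc] using hb
    · intro p q h
      have h1 : (p.1 : G)⁻¹ * q.1 ∈ O := QuotientGroup.eq.1 (congrArg Subtype.val h)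
      have h2 := Subgroup.disjoint_def.1 hc.disjoint h1 (P.mul_mem (P.inv_mem p.1.2) q.1.2)
      exact Subtype.ext (Subtype.ext (inv_mul_eq_one.1 h2))
    · rintro ⟨_, ⟨a, ha⟩, rfl⟩
      obtain ⟨⟨p, o⟩, h⟩ := hc.symm.2 (a * y)
      change (p : G) * o = a * y at h
      refine ⟨⟨⟨p, p.2⟩, a, ha, o, o.2, by rw [← h]; simp⟩, Subtype.ext ?_⟩
      change ((p : G) : G ⧸ O) = ((a * y : G) : G ⧸ O)
      rw [← h, QuotientGroup.eq]
      simp
  rw [e, Nat.card_coe_set_eq, ← MulAction.index_stabilizer]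
  exact hodd.of_dvd_nat (Subgroup.index_dvd_card _)

theorem vfat0_root [Finite G] {O : Subgroup G} (hodd : Odd (Nat.card O)) {x y α β : G}
    (hα : α ∈ O) (hβ : β ∈ O) (hx : x⁻¹ = x) (hy : y⁻¹ = y) (h : y = α * x * β⁻¹) :
    ∃ a ∈ O, y = a * x * a⁻¹ := by
  obtain ⟨k, hk⟩ := hodd
  have h' : y = β * x * α⁻¹ := by rw [← hy, h, mul_inv_rev, mul_inv_rev, inv_inv, hx, mul_assoc]
  have hγ : α⁻¹ * β ∈ O := O.mul_mem (O.inv_mem hα) hβ
  have h1 : (α⁻¹ * β) ^ (2 * k + 1) = 1 := by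
    have := congrArg Subtype.val (pow_card_eq_one' (G := O) (x := ⟨_, hγ⟩))
    rwa [hk] at this
  have h2 : x * (α⁻¹ * β)⁻¹ * x⁻¹ = α⁻¹ * β := by
    calc x * (α⁻¹ * β)⁻¹ * x⁻¹ = α⁻¹ * (α * x * β⁻¹) * α * x⁻¹ := by group
      _ = α⁻¹ * (β * x * α⁻¹) * α * x⁻¹ := by rw [← h, ← h']
      _ = α⁻¹ * β := by group
  generalize hg : α⁻¹ * β = γ at hγ h1 h2
  have h3 : x * (γ ^ (k + 1))⁻¹ * x⁻¹ = γ ^ (k + 1) := by rw [← inv_pow, ← conj_pow, h2]
  have h4 : γ ^ (k + 1) * γ ^ (k + 1) = γ := by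
    rw [← pow_add, show k + 1 + (k + 1) = 2 * k + 1 + 1 by ring, pow_succ, h1, one_mul]
  refine ⟨α * γ ^ (k + 1), O.mul_mem hα (O.pow_mem hγ _), ?_⟩
  generalize γ ^ (k + 1) = δ at h3 h4
  calc y = α * (α⁻¹ * β) * x * α⁻¹ := by rw [h']; group
    _ = α * (δ * (x * δ⁻¹ * x⁻¹)) * x * α⁻¹ := by rw [h3, h4, hg]
    _ = _ := by group

/-- Base points and representatives. -/
theorem exists_base [Finite G] {O P : Subgroup G} (hc : O.IsComplement' P)
    (hodd : Odd (Nat.card O)) :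
    ∃ (x : P → P) (a : P → G), (∀ y y', dc O P y y' → x y = x y') ∧ (∀ y, x y⁻¹ = (x y)⁻¹) ∧
      (∀ y, a y ∈ O) ∧ ∀ y : P, (y : G) = a y * x y * (a y⁻¹)⁻¹ := by
  have := Fintype.ofFinite P
  obtain ⟨f, hf⟩ := symm_choice (X := Quotient (dc O P)) (Y := P)
    (Quotient.map (sa := dc O P) (sb := dc O P) (fun y => y⁻¹) fun _ _ h => dc_inv h)
    (fun y => y⁻¹) (by rintro ⟨y⟩; exact congrArg (Quotient.mk _) (inv_inv y)) inv_inv
    (fun q p => Quotient.mk _ p = q) (by rintro _ p rfl; rfl) (by rintro ⟨y⟩ -; exact ⟨y, rfl⟩)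
    (by
      rintro ⟨y⟩ h
      have h0 : dc O P y⁻¹ y := Quotient.exact h
      obtain ⟨p, hp, hp'⟩ := exists_fixed (Finset.univ.filter fun p => dc O P p y) (fun p => p⁻¹)
        (fun p hp => Finset.mem_filter.2 ⟨Finset.mem_univ _,
          (dc O P).trans (dc_inv (Finset.mem_filter.1 hp).2) h0⟩) (fun p _ => inv_inv p)
        (by have := dc_odd hc hodd y
            rwa [Nat.card_eq_fintype_card, Fintype.card_subtype] at this)
      exact ⟨p, Quotient.sound (Finset.mem_filter.1 hp).2, hp'⟩)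
  have hx : ∀ y : P, f (Quotient.mk _ y⁻¹) = (f (Quotient.mk _ y))⁻¹ := fun y =>
    (hf (Quotient.mk _ y)).2
  have hr : ∀ y : P, dc O P y (f (Quotient.mk _ y)) := fun y =>
    Quotient.exact (hf (Quotient.mk _ y)).1.symm
  obtain ⟨a, ha⟩ := symm_choice (X := P) (Y := G × G) (fun y => y⁻¹) Prod.swap inv_inv
    Prod.swap_swap (fun y c => c.1 ∈ O ∧ c.2 ∈ O ∧ (y : G) = c.1 * f (Quotient.mk _ y) * c.2⁻¹)
    (by
      rintro y ⟨α, β⟩ ⟨h1, h2, h3⟩
      refine ⟨h2, h1, ?_⟩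
      rw [hx, Subgroup.coe_inv, Subgroup.coe_inv]
      exact (congrArg (·⁻¹) h3).trans (by simp [mul_assoc]))
    (fun y _ => by
      obtain ⟨α, h1, β, h2, h3⟩ := hr y
      exact ⟨(α, β), h1, h2, h3⟩)
    (fun y h => by
      obtain ⟨α, h1, β, h2, h3⟩ := hr y
      have h4 := hx y
      rw [h] at h4
      obtain ⟨c, h5, h6⟩ := vfat0_root hodd h1 h2 (congrArg Subtype.val h4).symm
        (congrArg Subtype.val h) h3
      exact ⟨(c, c), ⟨h5, h5, h6⟩, rfl⟩)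
  refine ⟨fun y => f (Quotient.mk _ y), fun y => (a y).1,
    fun y y' h => congrArg f (Quotient.sound h), hx, fun y => (ha y).1.1, fun y => ?_⟩
  beta_reduce
  rw [(ha y).2]
  exact (ha y).1.2.2

end Pool.Agent.P.MP_da365b_co.SV
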