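import Pool.Agent.P.MP_da365b_co.VSpec

namespace Pool.Agent.P.MP_da365b_co.SV

open Classical

set_option linter.unusedSectionVars false

universe u

variable {G : Type u} [Group G]

theorem vfour_beta {p r m u : ℕ} (hr : 1 ≤ r)
    (h : 2 * (m + 2) * u + 4 * (p * (2 * (r * (m + 2)))) ≤ (m + 2) * (p * (2 * (r * (m + 2))))) :
    2 * u + 4 * p ≤ p * (2 * r * m) := by
  have h1 : 2 * u + 8 * (p * r) ≤ p * (2 * (r * (m + 2))) := by
    apply Nat.le_of_mul_le_mul_left _ (show 0 < m + 2 by omega)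
    have e : (m + 2) * (2 * u + 8 * (p * r)) =
        2 * (m + 2) * u + 4 * (p * (2 * (r * (m + 2)))) := by ring
    rw [e]
    exact h
  have h2 : p ≤ p * r := Nat.le_mul_of_pos_right p hr
  have e : p * (2 * (r * (m + 2))) = p * (2 * r * m) + 4 * (p * r) := by ring
  omega

theorem vfour_alpha {p r m u : ℕ} (hr : 2 ≤ r)
    (h : 4 * (m + 2) * u + 4 * (p * (2 * (r * (m + 2)))) ≤ (m + 2) * (p * (2 * (r * (m + 2))))) :
    2 * u + 4 * p ≤ p * (r * m) := by
  have h1 : 4 * u + 8 * (p * r) ≤ p * (2 * (r * (m + 2))) := by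
    apply Nat.le_of_mul_le_mul_left _ (show 0 < m + 2 by omega)
    have e : (m + 2) * (4 * u + 8 * (p * r)) =
        4 * (m + 2) * u + 4 * (p * (2 * (r * (m + 2)))) := by ring
    rw [e]
    exact h
  have h2 : p * 2 ≤ p * r := Nat.mul_le_mul_left p hr
  have e : p * (2 * (r * (m + 2))) = 2 * (p * (r * m)) + 4 * (p * r) := by ring
  omega

theorem four_ind' [Fintype G] (hG : IsPGroup 2 G) {j : G} (hj1 : j ≠ 1) (hj2 : j * j = 1)
    (hjc : ∀ g, g * j = j * g) (C : Subgroup G) [C.Normal] {U₀ : Finset G} (hR : Res j C U₀)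
    (k : ℕ) :
    ∀ (M : Subgroup G) [M.Normal], M ≤ C → Fintype.card G ≤ cd M + k → j ∈ M → 4 ∣ cd M →
      ∀ U : Finset G, Clo j U → (∀ g ∈ U, Strong j g) →
      ∀ W : Finset G, (∀ t ∈ W, t ∈ M ∧ t ≠ 1 ∧ t * t = 1) → 2 ≤ W.card →
      (4 * cd M * U.card + 4 * Fintype.card G ≤ cd M * Fintype.card G ∨
        ((∀ g, g ∉ M → Strong j g) ∧
          2 * cd M * U.card + 4 * Fintype.card G ≤ cd M * Fintype.card G)) →
      Psi j C U₀ (rest M U W) := by
  have : Fact (Nat.Prime 2) := ⟨Nat.prime_two⟩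
  have base : ∀ (M : Subgroup G), M ≤ C → (∀ g ∈ C, g ∈ M) → ∀ U W : Finset G,
      (∀ t ∈ W, t ∈ M ∧ t ≠ 1 ∧ t * t = 1) → 2 ≤ W.card → Psi j C U₀ (rest M U W) := by
    intro M hMC hM U W hW hW2
    obtain ⟨t, ht⟩ := Finset.card_pos.1 (show 0 < W.card by omega)
    refine ⟨∅, Cov.empty, Finset.empty_subset _, fun g hg hgC hgg => ?_, by simp,
      t, Finset.mem_union_right _ ht, hMC (hW t ht).1, (hW t ht).2.1, (hW t ht).2.2, by simp⟩
    simp only [rest, Finset.mem_union, Finset.mem_filter, Finset.mem_univ, true_and] at hg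
    rcases hg with hg | hg
    · exact absurd (hM g hgC) hg.1
    · exact absurd (hW g hg).2.2 hgg
  induction k with
  | zero =>
    intro M _ hMC hc _ _ U _ _ W hW hW2 _
    apply base M hMC _ U W hW hW2
    intro g _
    have : Finset.univ.filter (· ∈ M) = Finset.univ :=
      Finset.eq_univ_of_card _ (le_antisymm (Finset.card_le_univ _) hc)
    have h2 : g ∈ Finset.univ.filter (· ∈ M) := by rw [this]; simp
    simpa using h2
  | succ k ih =>
    intro M hMn hMC hc hjM h4 U hU hUs W hW hW2 hphase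
    by_cases hall : ∀ g ∈ C, g ∈ M
    · exact base M hMC hall U W hW hW2
    push Not at hall
    obtain ⟨w, hwC, hw0, hw2, hwc⟩ := exists_step hG M C hall
    have hwM : ∀ x ∈ M, w * x * w⁻¹ ∈ M := fun x hx => hMn.conj_mem x hx w
    set Mp := adj M w hwM hw2 with hMp
    have hMpn : Mp.Normal := adj_normal hwc
    have hcMp : cd Mp = 2 * cd M := cd_of_two hw0 fun x => mem_adj
    have lvC : ∀ x, w⁻¹ * x ∈ M → x ∈ C := by
      intro x hx
      have e : x = w * (w⁻¹ * x) := by group
      rw [e]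
      exact C.mul_mem hwC (hMC hx)
    have hMpC : Mp ≤ C := fun x hx => (mem_adj.1 hx).elim (fun h' => hMC h') (lvC x)
    have hm0 : 0 < cd M := Finset.card_pos.2 ⟨1, by simp⟩
    have hm4 : 4 ≤ cd M := Nat.le_of_dvd hm0 h4
    obtain ⟨K, hMK, hwK, hmax⟩ := exists_maxK M w hw0
    have hwK' : ∀ x ∈ K, w * x * w⁻¹ ∈ K := by
      intro x hx
      have : w * x * w⁻¹ = x * (x⁻¹ * w * x⁻¹⁻¹ * w⁻¹) := by group
      rw [this]
      exact K.mul_mem hx (hMK (hwc _))
    set S := adj K w hwK' (hMK hw2) with hS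
    have hL : Lev M w K S := ⟨hMn, hw2, hwc, hMK, hwK, fun x => mem_adj⟩
    have := Fintype.ofFinite (G ⧸ S)
    set p := Fintype.card (G ⧸ S) with hp
    set n := Fintype.card G with hn
    have hcS : cd S = 2 * cd K := cd_of_two hwK fun x => mem_adj
    have hpn : p * (2 * cd K) = n := by
      rw [← hcS, cd_eq, hp, hn, ← Nat.card_eq_fintype_card, ← Nat.card_eq_fintype_card]
      exact (Subgroup.card_eq_card_quotient_mul_card_subgroup S).symm
    have hp2 : 2 ∣ p ∨ p = 1 := by
      obtain ⟨e, he⟩ := hG.index S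
      have : p = 2 ^ e := by
        rw [← he, hp, ← Nat.card_eq_fintype_card]
        rfl
      rcases e with _ | e
      · right; simpa using this
      · left; rw [this]; exact dvd_pow_self 2 (by omega)
    have hMKc : cd M ≤ cd K := Finset.card_le_card fun x hx => by
      simp only [Finset.mem_filter, Finset.mem_univ, true_and] at hx ⊢
      exact hMK hx
    obtain ⟨r, hr⟩ : ∃ r, cd K = r * cd M := by
      obtain ⟨r, hr⟩ := Subgroup.card_dvd_of_le hMK
      exact ⟨r, by rw [cd_eq, cd_eq, hr, mul_comm]⟩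
    obtain ⟨m, hm⟩ : ∃ m, cd M = m + 2 := ⟨cd M - 2, by omega⟩
    have hm2 : 2 ≤ m := by omega
    have hr1 : 1 ≤ r := by
      rcases Nat.eq_zero_or_pos r with h0 | h0
      · rw [h0] at hr
        omega
      · exact h0
    have hmm : cd M - 2 = m := by omega
    -- the counting bound and the new phase
    have key : ∃ s, 4 ≤ s ∧ (∀ a b : G ⧸ S, a ≠ b →
        s ≤ (Finset.univ.filter fun g : G => Strong j g ∧ g ∉ U₀ ∧ g • a = b).card) ∧
        2 * U.card + 4 * p ≤ p * s ∧ ∀ u' : ℕ, u' ≤ U.card + 2 * p →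
          (4 * cd Mp * u' + 4 * n ≤ cd Mp * n ∨
            ((∀ g, g ∉ Mp → Strong j g) ∧ 2 * cd Mp * u' + 4 * n ≤ cd Mp * n)) := by
      have beta : (∀ g, g ∉ Mp → Strong j g) → 2 * cd M * U.card + 4 * n ≤ cd M * n →
          ∃ s, 4 ≤ s ∧ (∀ a b : G ⧸ S, a ≠ b →
          s ≤ (Finset.univ.filter fun g : G => Strong j g ∧ g ∉ U₀ ∧ g • a = b).card) ∧
          2 * U.card + 4 * p ≤ p * s ∧ ∀ u' : ℕ, u' ≤ U.card + 2 * p →
            (4 * cd Mp * u' + 4 * n ≤ cd Mp * n ∨
              ((∀ g, g ∉ Mp → Strong j g) ∧ 2 * cd Mp * u' + 4 * n ≤ cd Mp * n)) := by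
        intro hst hb
        have e1 : 2 * p * cd M ≤ n := by
          rw [← hpn]; nlinarith
        refine ⟨2 * r * m, by nlinarith, fun a b hab => ?_, ?_, fun u' hu' => ?_⟩
        · rw [← hmm]
          apply hR.supply hL hMC hwC (2 * r) a b
          rw [mul_assoc, ← hr]
          exact hL.full a b hab _ hst
        · exact vfour_beta hr1 (by rw [← hpn, hr, hm] at hb; exact hb)
        · right
          refine ⟨hst, ?_⟩
          rw [hcMp]
          nlinarith
      rcases hphase with hα | ⟨hst, hβ⟩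
      · by_cases hKM : K ≤ M
        · apply beta _ (by nlinarith)
          intro g hg
          have : g * g ∉ M := by
            intro hgg
            have hgM : ∀ x ∈ M, g * x * g⁻¹ ∈ M := fun x hx => hMn.conj_mem x hx g
            have := hmax (adj M g hgM hgg) (hKM.trans le_adj) (by
              rw [mem_adj]
              rintro (h' | h')
              · exact hw0 h'
              · apply hg
                have e : g = w * (g⁻¹ * w)⁻¹ := by group
                rw [e]
                exact Mp.mul_mem self_mem_adj (Mp.inv_mem (le_adj h')))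
            exact hg (le_adj (hKM (this self_mem_adj)))
          exact ⟨fun h' => this (h' ▸ M.one_mem), fun h' => this (h' ▸ hjM)⟩
        · obtain ⟨c, hc1, hc2⟩ := SetLike.not_le_iff_exists.1 hKM
          have h2 := two_cd_le hMK hc1 hc2
          have e1 : 4 * p * cd M ≤ n := by
            rw [← hpn]; nlinarith
          have hr2 : 2 ≤ r := by
            rw [hr] at h2
            exact Nat.le_of_mul_le_mul_right h2 hm0
          refine ⟨r * m, by nlinarith, fun a b hab => ?_, ?_, fun u' hu' => ?_⟩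
          · rw [← hmm]
            apply hR.supply hL hMC hwC r a b
            rw [← hr]
            refine (hL.half hmax a b hab).trans ?_
            apply Finset.card_le_card
            intro g hg
            simp only [Finset.mem_filter, Finset.mem_univ, true_and] at hg ⊢
            exact ⟨⟨fun h' => hg.1 (h' ▸ M.one_mem), fun h' => hg.1 (h' ▸ hjM)⟩, hg.2⟩
          · exact vfour_alpha hr2 (by rw [← hpn, hr, hm] at hα; exact hα)
          · left
            rw [hcMp]
            nlinarith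
      · exact beta (fun g hg => hst g fun h' => hg (le_adj h')) hβ
    obtain ⟨s, hs8, hs, hbound, hnew⟩ := key
    -- the level
    set D := Finset.univ.filter fun x : G => w⁻¹ * x ∈ M ∧ x * x ≠ 1 ∧ x ∉ U with hD
    set I := Finset.univ.filter fun x : G => w⁻¹ * x ∈ M ∧ x * x = 1 with hI
    set V := Finset.univ.filter fun x : G => w⁻¹ * x ∈ M ∧ x ∈ U with hV
    have lvinv : ∀ x, w⁻¹ * x ∈ M → w⁻¹ * x⁻¹ ∈ M := by
      intro x hx
      have : w⁻¹ * x⁻¹ = (w⁻¹ * (w⁻¹ * x)⁻¹ * w⁻¹⁻¹) * (w * w)⁻¹ := by group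
      rw [this]
      exact M.mul_mem (hMn.conj_mem _ (M.inv_mem hx) _) (M.inv_mem hw2)
    have lvnot : ∀ x, w⁻¹ * x ∈ M → x ∉ M := by
      intro x hx hx'
      exact hw0 (M.inv_mem_iff.1 ((M.mul_mem_cancel_right hx').1 hx))
    have hD1 : ∀ x ∈ D, x⁻¹ ∈ D := by
      intro x hx
      simp only [hD, Finset.mem_filter, Finset.mem_univ, true_and] at hx ⊢
      refine ⟨lvinv x hx.1, fun h' => hx.2.1 ?_, fun h' => hx.2.2 (by simpa using (hU _ h').1)⟩
      have := congrArg (·⁻¹) h'
      simpa using this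
    have hD2 : ∀ x ∈ D, w⁻¹ * x ∈ M ∧ x * x ≠ 1 := by
      intro x hx
      simp only [hD, Finset.mem_filter, Finset.mem_univ, true_and] at hx
      exact ⟨hx.1, hx.2.1⟩
    obtain ⟨a, ha⟩ := even_card_of_inv D hD1 fun x hx => (hD2 x hx).2
    have hV4 : 4 ∣ V.card := by
      apply four_dvd_card hj1 hj2 hjc
      · intro x hx
        simp only [hV, Finset.mem_filter, Finset.mem_univ, true_and] at hx ⊢
        exact ⟨⟨lvinv x hx.1, (hU x hx.2).1⟩, by rw [← mul_assoc]; exact M.mul_mem hx.1 hjM,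
          (hU x hx.2).2⟩
      · intro x hx
        simp only [hV, Finset.mem_filter, Finset.mem_univ, true_and] at hx
        exact hUs x hx.2
    have hsum : D.card + I.card + V.card = cd M := by
      rw [← card_coset M w, ← Finset.card_union_of_disjoint, ← Finset.card_union_of_disjoint]
      · congr 1
        ext x
        simp only [hD, hI, hV, Finset.mem_union, Finset.mem_filter, Finset.mem_univ, true_and]
        tauto
      · rw [Finset.disjoint_left]
        intro x hx hx'
        simp only [hD, hI, hV, Finset.mem_union, Finset.mem_filter, Finset.mem_univ,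
          true_and] at hx hx'
        rcases hx with hx | hx
        · exact hx.2.2 hx'.2
        · exact (hUs x hx'.2).1 hx.2
      · rw [Finset.disjoint_left]
        intro x hx hx'
        simp only [hD, hI, Finset.mem_filter, Finset.mem_univ, true_and] at hx hx'
        exact hx.2.1 hx'.2
    have hWI : Disjoint W I := by
      rw [Finset.disjoint_left]
      intro x hx hx'
      simp only [hI, Finset.mem_filter, Finset.mem_univ, true_and] at hx'
      exact lvnot x hx'.1 (hW x hx).1
    -- choose the pseudo label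
    have hPex : ∃ (P : Finset G) (F : Finset G), P ⊆ W ∧ 2 ≤ ((W \ P) ∪ I).card ∧ Clo j F ∧
        (∀ g ∈ F, Strong j g ∧ g ∉ U₀ ∧ g ∉ U ∧ ¬ (g ∈ M ∨ w⁻¹ * g ∈ M)) ∧
        F.card ≤ 2 * p ∧ Cov (F ∪ P ∪ D) := by
      by_cases hev : 2 ∣ a ∨ p = 1
      · obtain ⟨F, f1, f2, f3, f4⟩ := special' hL hj1 hj2 hjc hjM hR.clo hU s hs8 hs hbound D hD1 hD2
          a 0 ha ∅ (by simp) (by simp) (by simp) (by
            intro X hX
            rw [Finset.card_eq_zero] at hX
            simpa [hX] using PM.empty K) (by omega)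
        refine ⟨∅, F, by simp, ?_, f1, f2, f3, f4⟩
        exact hW2.trans (Finset.card_le_card (by simp))
      · obtain ⟨t₁, h1, t₂, h2, hne⟩ := Finset.one_lt_card.1 hW2
        obtain ⟨F, f1, f2, f3, f4⟩ := special' hL hj1 hj2 hjc hjM hR.clo hU s hs8 hs hbound D hD1 hD2
          a 1 ha {t₁, t₂} (by simp [(hW _ h1).1, (hW _ h2).1]) le_rfl (by simp) (by
            intro X hX
            obtain ⟨b, rfl⟩ := Finset.card_eq_one.1 hX
            rw [Finset.coe_singleton]
            exact hL.pseudoB hne (hW _ h1).1 (hW _ h2).1 (hW _ h1).2.1 (hW _ h2).2.1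
              (hW _ h1).2.2 (hW _ h2).2.2 b) (by omega)
        refine ⟨{t₁, t₂}, F, ?_, ?_, f1, f2, f3, f4⟩
        · intro x hx
          simp only [Finset.mem_insert, Finset.mem_singleton] at hx
          rcases hx with rfl | rfl <;> assumption
        · have : 2 ≤ I.card := by omega
          exact this.trans (Finset.card_le_card Finset.subset_union_right)
    obtain ⟨P, F, hPW, hW', hFc, hF, hFcard, hcov⟩ := hPex
    have hrec := ih Mp hMpC (by omega) (le_adj hjM) (by rw [hcMp]; omega) (U ∪ F) (hU.union hFc)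
      (by
        intro g hg
        rcases Finset.mem_union.1 hg with h' | h'
        · exact hUs g h'
        · exact (hF g h').1) ((W \ P) ∪ I) (by
        intro t ht
        rcases Finset.mem_union.1 ht with h' | h'
        · have := hW t (Finset.mem_sdiff.1 h').1
          exact ⟨le_adj this.1, this.2⟩
        · simp only [hI, Finset.mem_filter, Finset.mem_univ, true_and] at h'
          exact ⟨Or.inr h'.1, fun h1 => lvnot t h'.1 (h1 ▸ M.one_mem), h'.2⟩) hW'
      (hnew _ ((Finset.card_union_le _ _).trans (by omega)))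
    have hmem : ∀ x, x ∈ Mp ↔ x ∈ M ∨ w⁻¹ * x ∈ M := fun x => mem_adj
    have hdis : Disjoint (F ∪ P ∪ D) (rest Mp (U ∪ F) ((W \ P) ∪ I)) := by
      rw [Finset.disjoint_left]
      intro x hx hx'
      simp only [rest, hD, hI, hmem, Finset.mem_union, Finset.mem_filter, Finset.mem_univ, true_and,
        Finset.mem_sdiff] at hx hx'
      rcases hx with (hx | hx) | hx
      · have a1 := hF x hx
        rcases hx' with h' | h' | h'
        · exact h'.2 (Or.inr hx)
        · exact a1.2.2.2 (Or.inl (hW x h'.1).1)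
        · exact a1.2.2.2 (Or.inr h'.1)
      · have a1 := (hW x (hPW hx)).1
        rcases hx' with h' | h' | h'
        · exact h'.1 (Or.inl a1)
        · exact h'.2 hx
        · exact lvnot x h'.1 a1
      · rcases hx' with h' | h' | h'
        · exact h'.1 (Or.inr hx.1)
        · exact lvnot x hx.1 (hW x h'.1).1
        · exact hx.2.1 h'.2
    have heq : rest M U W = (F ∪ P ∪ D) ∪ rest Mp (U ∪ F) ((W \ P) ∪ I) := by
      ext x
      simp only [rest, hD, hI, hmem, Finset.mem_union, Finset.mem_filter, Finset.mem_univ, true_and,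
        Finset.mem_sdiff]
      constructor
      · rintro (⟨h1, h2⟩ | h1)
        · by_cases hxF : x ∈ F
          · exact Or.inl (Or.inl (Or.inl hxF))
          by_cases hl : w⁻¹ * x ∈ M
          · by_cases hxx : x * x = 1
            · exact Or.inr (Or.inr (Or.inr ⟨hl, hxx⟩))
            · exact Or.inl (Or.inr ⟨hl, hxx, h2⟩)
          · exact Or.inr (Or.inl ⟨fun h' => h'.elim h1 hl, fun h' => h'.elim h2 hxF⟩)
        · by_cases hxP : x ∈ P
          · exact Or.inl (Or.inl (Or.inr hxP))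
          · exact Or.inr (Or.inr (Or.inl ⟨h1, hxP⟩))
      · rintro (((h1 | h1) | h1) | h1 | h1 | h1)
        · exact Or.inl ⟨fun h' => (hF x h1).2.2.2 (Or.inl h'), (hF x h1).2.2.1⟩
        · exact Or.inr (hPW h1)
        · exact Or.inl ⟨lvnot x h1.1, h1.2.2⟩
        · exact Or.inl ⟨fun h' => h1.1 (Or.inl h'), fun h' => h1.2 (Or.inl h')⟩
        · exact Or.inr h1.1
        · exact Or.inl ⟨lvnot x h1.1, fun h' => (hUs x h').1 h1.2⟩
    rw [heq]
    obtain ⟨Λ, l1, l2, l3, l4, t, t1, t2, t3, t4, t5⟩ := hrec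
    refine ⟨(F ∪ P ∪ D) ∪ Λ, Cov.union (hdis.mono_right l2) hcov l1,
      Finset.union_subset_union_right l2, fun g hg hgC hgg => ?_, fun g hg hgC => ?_,
      t, Finset.mem_union_right _ t1, t2, t3, t4, fun h' => ?_⟩
    · rcases Finset.mem_union.1 hg with h' | h'
      · exact Finset.mem_union_left _ h'
      · exact Finset.mem_union_right _ (l3 g h' hgC hgg)
    · rcases Finset.mem_union.1 hg with h' | h'
      · rcases Finset.mem_union.1 h' with h' | h'
        · rcases Finset.mem_union.1 h' with h' | h'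
          · exact ⟨(hF g h').1, (hF g h').2.1⟩
          · exact absurd (hMC (hW g (hPW h')).1) hgC
        · exact absurd (lvC g (hD2 g h').1) hgC
      · exact l4 g h' hgC
    · rcases Finset.mem_union.1 h' with h' | h'
      · exact Finset.disjoint_left.1 hdis h' t1
      · exact t5 h'

theorem pI [Fintype G] (hG : IsPGroup 2 G) {j c : G} (h4 : IsFour j c) (C : Subgroup G)
    [C.Normal] (hj : j ∈ C) (hc : c ∈ C) (hsq : ∀ g, g * g ∈ C) (W : Finset G)
    (hW : W ⊆ {j, c, c * j}) (hW2 : 2 ≤ W.card) :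
    ∃ Λ : Finset G, Cov Λ ∧ (∀ g ∈ Λ, g ∈ ({j, c, c * j} : Finset G) → g ∈ W) ∧
      (∀ g ∈ C, g * g ≠ 1 → g ∈ Λ) ∧ (∀ g ∈ Λ, g ∉ C → g * g ≠ 1) ∧
      (∃ t ∈ C, t ≠ 1 ∧ t * t = 1 ∧ t ∉ Λ) ∧ ∀ g, g ∉ C → ∃ v, g⁻¹ * v ∈ C ∧ v ∉ Λ := by
  obtain ⟨hj1, hj2, hjc, hc1, hc2, hcj, hcn⟩ := h4
  have hi : j⁻¹ = j := inv_eq_of_mul_eq_one_right hj2
  have hic : c⁻¹ = c := inv_eq_of_mul_eq_one_right hc2
  set J := adj (⊥ : Subgroup G) j (by simp) (by simp [hj2]) with hJ
  have memJ : ∀ x, x ∈ J ↔ x = 1 ∨ x = j := by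
    intro x
    rw [mem_adj, Subgroup.mem_bot, Subgroup.mem_bot, inv_mul_eq_one, eq_comm (a := j)]
  have hJn : J.Normal := adj_normal (by intro g; simp [hjc g])
  have cJ : cd J = 2 := by
    rw [cd_of_two (N := ⊥) (by simpa using hj1) (fun x => mem_adj), cd_eq]
    simp
  set E := adj J c (fun x hx => hJn.conj_mem x hx c) (by simp [hc2]) with hE
  have hcJ : c ∉ J := by simp [memJ, hc1, hcj]
  have hEn : E.Normal := adj_normal (by
    intro g
    rw [memJ]
    rcases hcn g with h | h <;> rw [h]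
    · simp
    · right
      rw [hjc c]
      simp)
  have cE : cd E = 4 := by
    rw [cd_of_two hcJ (fun x => mem_adj), cJ]
  have memE : ∀ x, x ∈ E ↔ x = 1 ∨ x = j ∨ x = c ∨ x = c * j := by
    intro x
    rw [mem_adj, memJ, memJ, inv_mul_eq_one, inv_mul_eq_iff_eq_mul, eq_comm (a := c), or_assoc]
  have hcj1 : c * j ≠ 1 := by
    intro h'
    apply hcj
    rw [← hi]
    exact eq_inv_of_mul_eq_one_left h'
  have hcj2 : c * j * (c * j) = 1 := by
    rw [mul_assoc, ← mul_assoc j, ← hjc c, mul_assoc c j, hj2, mul_one, hc2]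
  have hEC : E ≤ C := by
    intro x hx
    rcases (memE x).1 hx with rfl | rfl | rfl | rfl
    · exact C.one_mem
    · exact hj
    · exact hc
    · exact C.mul_mem hc hj
  obtain ⟨U₀, hR⟩ := exists_res hj2 hjc C hj hsq
  obtain ⟨Λ, l1, l2, l3, l4, t, -, t2, t3, t4, t5⟩ := four_ind' hG hj1 hj2 hjc C hR
    (Fintype.card G) E hEC (by omega) (by simp [memE]) (by rw [cE]) ∅
    (by simp [Clo]) (by simp) W (by
      intro t ht
      have ht := hW ht
      simp only [Finset.mem_insert, Finset.mem_singleton] at ht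
      rcases ht with rfl | rfl | rfl
      · exact ⟨by simp [memE], hj1, hj2⟩
      · exact ⟨by simp [memE], hc1, hc2⟩
      · exact ⟨by simp [memE], hcj1, hcj2⟩) hW2 (by left; rw [cE]; simp)
  have memR : ∀ x, x ∈ rest E ∅ W ↔ x ∉ E ∨ x ∈ W := by
    intro x
    simp [rest]
  refine ⟨Λ, l1, fun g hg hg' => ?_, fun g hg hgg => l3 g ((memR g).2 (Or.inl fun h' => ?_)) hg hgg,
    fun g hg hgC => (l4 g hg hgC).1.1, ⟨t, t2, t3, t4, t5⟩, fun g hg => ?_⟩
  · refine ((memR g).1 (l2 hg)).resolve_left fun h' => h' ?_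
    simp only [Finset.mem_insert, Finset.mem_singleton] at hg'
    exact (memE g).2 (Or.inr hg')
  · apply hgg
    rcases (memE g).1 h' with rfl | rfl | rfl | rfl
    · exact mul_one 1
    · exact hj2
    · exact hc2
    · exact hcj2
  · have out : ∀ v, g⁻¹ * v ∈ C → v ∉ C := fun v hv hv' =>
      hg (C.inv_mem_iff.1 ((C.mul_mem_cancel_right hv').1 hv))
    by_cases hall : ∀ v, g⁻¹ * v ∈ C → Strong j v
    · obtain ⟨v, v1, v2⟩ := hR.meet g hall
      exact ⟨v, v2, fun h' => (l4 v h' (out v v2)).2 v1⟩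
    · push Not at hall
      obtain ⟨v, v1, v2⟩ := hall
      exact ⟨v, v1, fun h' => v2 (l4 v h' (out v v1)).1⟩

end Pool.Agent.P.MP_da365b_co.SV
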