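import Pool.Agent.P.MP_da365b_co.VGA0

namespace Pool.Agent.P.MP_da365b_co.SV

open Classical

set_option linter.unusedSectionVars false

universe u

variable {G : Type u} [Group G]

theorem vga_fib [Fintype G] {P : Subgroup G} (F : Fat P) (v : P) {g : G} :
    g ∈ F.fib v ↔ F.y g = v := by
  simp [Fat.fib]

theorem vga_pre [Fintype G] {P : Subgroup G} (F : Fat P) (A : Finset P) {g : G} :
    g ∈ F.pre A ↔ F.y g ∈ A := by
  simp [Fat.pre]

theorem vga_sharp [Fintype G] {O : Subgroup G} {g : G} : g ∈ sharp O ↔ g ∈ O ∧ g ≠ 1 := by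
  simp [sharp]

theorem vga_inj [Fintype G] {P : Subgroup G} (F : Fat P) (h : P.index = 1) {g g' : G}
    (e : F.y g = F.y g') : g = g' :=
  Finset.card_le_one.1 ((F.card_fib (F.y g')).trans h).le g ((vga_fib F _).2 e) g'
    ((vga_fib F _).2 rfl)

theorem vga_third [Fintype G] {P : Subgroup G} (F : Fat P) (hodd : Odd P.index)
    (h : P.index ≠ 1) (v : P) (a b : G) : ∃ g, F.y g = v ∧ g ≠ a ∧ g ≠ b := by
  have h3 : ({a, b} : Finset G).card < (F.fib v).card := by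
    rw [F.card_fib]
    obtain ⟨k, hk⟩ := hodd
    have := Finset.card_le_two (a := a) (b := b)
    omega
  obtain ⟨g, h1, h2⟩ := Finset.exists_mem_notMem_of_card_lt_card h3
  exact ⟨g, (vga_fib F _).1 h1, by simpa [not_or] using h2⟩

theorem vga_blk [Fintype G] {O P : Subgroup G} (F : Fat P) {u : P} {t₀ f g : G} :
    g ∈ sharp O ∪ (F.fib u).erase t₀ ∪ {f, f⁻¹} ↔
      (g ∈ O ∧ g ≠ 1) ∨ (g ≠ t₀ ∧ F.y g = u) ∨ g = f ∨ g = f⁻¹ := by
  simp only [Finset.mem_union, vga_sharp, Finset.mem_erase, vga_fib, Finset.mem_insert,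
    Finset.mem_singleton, or_assoc]

theorem vga_sq {f g : G} (hf : f * f ≠ 1) (h : g = f ∨ g = f⁻¹) : g * g ≠ 1 := by
  rcases h with rfl | rfl
  · exact hf
  · rwa [← mul_inv_rev, inv_ne_one]

theorem p2_of_be [Fintype G] {O P : Subgroup G} (h : Hall O P)
    (hB : Be ((Kc G).subgroupOf P)) : ∃ Λ u, P2 (Kc G) Λ u := by
  obtain ⟨Λ, u, ⟨hΛ, huC, hu1, hu2, huΛ, h1, h2, h3⟩, x, hx⟩ := hB
  obtain ⟨F, hF⟩ := exists_fat h.compl h.odd
  have hodd : Odd P.index := h.index ▸ h.odd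
  obtain ⟨t₀, ht, ht2⟩ := F.exists_invol hodd hu2
  have ht1 : t₀ ≠ 1 := fun e => hu1 (by rw [← ht, e, F.y_one])
  have htK : t₀ ∈ Kc G := (h.y_mem F hF _).1 (ht ▸ huC)
  obtain ⟨B, b0, b1, b2, b3, b4, b5⟩ : ∃ B : Finset G, Cov B ∧ (∀ g ∈ B, F.y g ∉ Λ) ∧
      (∀ g, g ≠ 1 → g ≠ t₀ → F.y g = 1 ∨ F.y g = u → g ∈ B) ∧ t₀ ∉ B ∧
      (∀ g ∈ B, g ∉ Kc G → g * g ≠ 1) ∧
      ∀ v : P, v ∉ (Kc G).subgroupOf P → ∃ g, F.y g = v ∧ g ∉ B := by
    by_cases hm : P.index = 1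
    · refine ⟨∅, Cov.empty, by simp, fun g g1 g2 e => ?_, by simp, by simp, fun v _ => ?_⟩
      · rcases e with e | e
        · exact absurd (vga_inj F hm (e.trans F.y_one.symm)) g1
        · exact absurd (vga_inj F hm (e.trans ht.symm)) g2
      · obtain ⟨g, -, hg⟩ := F.surj 1 v
        exact ⟨g, hg, by simp⟩
    · have hxC : x ∉ (Kc G).subgroupOf P := fun e => hx 1 (by simpa using e) (one_mul 1)
      obtain ⟨v₀, hv, hvΛ⟩ := h3 x hxC
      have hvC : v₀ ∉ (Kc G).subgroupOf P := fun e =>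
        hxC (by simpa using inv_mem (mul_mem hv (inv_mem e)))
      obtain ⟨f, -, hf⟩ := F.surj 1 v₀
      have hf2 : f * f ≠ 1 := fun e => hx v₀ hv (hf ▸ F.y_sq e)
      obtain ⟨χ, hχ⟩ := not_mem_Kc.1 fun e => hvC (hf ▸ (h.y_mem F hF f).2 e)
      have hc := block_two h F hF χ ht1 ht2 (mem_Kc.1 htK χ) hχ hf2
      rw [ht] at hc
      refine ⟨_, hc, fun g hg => ?_, fun g g1 g2 e => (vga_blk F).2 ?_, fun hg => ?_,
        fun g hg hK => ?_, fun v hv => ?_⟩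
      · rcases (vga_blk F).1 hg with e | e | rfl | rfl
        · rw [(h.y_eq_one F hF g).2 e.1]
          exact fun e => hΛ.ne_one e rfl
        · rwa [e.2]
        · rwa [hf]
        · rw [F.y_inv, hf]
          exact fun e => hvΛ (by simpa using hΛ.inv_mem e)
      · exact e.elim (fun e => Or.inl ⟨(h.y_eq_one F hF g).1 e, g1⟩) fun e => Or.inr (Or.inl ⟨g2, e⟩)
      · rcases (vga_blk F).1 hg with e | e | e
        · exact hu1 (ht ▸ (h.y_eq_one F hF _).2 e.1)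
        · exact e.1 rfl
        · exact vga_sq hf2 e ht2
      · rcases (vga_blk F).1 hg with e | e | e
        · exact absurd (h.le_Kc e.1) hK
        · exact absurd ((h.y_mem F hF _).1 (e.2 ▸ huC)) hK
        · exact vga_sq hf2 e
      · obtain ⟨g, g1, g2, g3⟩ := vga_third F hodd hm v f f⁻¹
        refine ⟨g, g1, fun hg => ?_⟩
        rcases (vga_blk F).1 hg with e | e | e | e
        · exact hv (g1 ▸ (h.y_mem F hF g).2 (h.le_Kc e.1))
        · exact hv (by rw [← g1, e.2]; exact huC)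
        · exact g2 e
        · exact g3 e
  have hn : ∀ g, F.y g ∉ Λ → g ∉ B → g ∉ F.pre Λ ∪ B := fun g g1 g2 e =>
    (Finset.mem_union.1 e).elim (fun e => g1 ((vga_pre F _).1 e)) g2
  have hK : ∀ g w, g ∉ Kc G → g⁻¹ * w ∈ Kc G → w ∉ Kc G := fun g w g1 g2 e =>
    g1 (by simpa using inv_mem (mul_mem g2 (inv_mem e)))
  refine ⟨F.pre Λ ∪ B, t₀, Cov.union (Finset.disjoint_left.2 fun g g1 g2 =>
    b1 g g2 ((vga_pre F _).1 g1)) (F.lift hΛ) b0, htK, ht1, ht2, hn _ (ht ▸ huΛ) b3,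
    fun g g0 g1 g2 => ?_, fun g g0 g1 => ?_, fun g g0 => ?_⟩
  · by_cases e : F.y g = 1 ∨ F.y g = u
    · exact Finset.mem_union_right _ (b2 g g1 g2 e)
    · exact Finset.mem_union_left _ ((vga_pre F _).2
        (h1 _ ((h.y_mem F hF g).2 g0) (not_or.1 e).1 (not_or.1 e).2))
  · obtain ⟨v, v', e0, e1, e2, e3, e4, e5, e6⟩ :=
      h2 _ (fun e => g0 ((h.y_mem F hF g).1 e)) (F.y_sq g1)
    obtain ⟨w, rfl, hw⟩ := F.exists_invol hodd e5
    obtain ⟨w', rfl, hw'⟩ := F.exists_invol hodd e6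
    have k1 := (h.y_coset F hF _ _).1 e1
    have k2 := (h.y_coset F hF _ _).1 e2
    exact ⟨w, w', fun e => e0 (congrArg _ e), k1, k2, hn _ e3 fun e => b4 _ e (hK _ _ g0 k1) hw,
      hn _ e4 fun e => b4 _ e (hK _ _ g0 k2) hw', hw, hw'⟩
  · have g1 : F.y g ∉ (Kc G).subgroupOf P := fun e => g0 ((h.y_mem F hF g).1 e)
    obtain ⟨v, e1, e2⟩ := h3 _ g1
    obtain ⟨w, rfl, hw⟩ := b5 v fun e => g1 (by simpa using inv_mem (mul_mem e1 (inv_mem e)))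
    exact ⟨w, (h.y_coset F hF _ _).1 e1, hn _ e2 hw⟩

theorem p1_of_bot [Fintype G] {O P : Subgroup G} (h : Hall O P)
    (h0 : (Kc G).subgroupOf P = ⊥) (h3 : ∃ g g' : P, g ≠ 1 ∧ g' ≠ 1 ∧ g ≠ g') :
    ∃ Λ, P1 (Kc G) Λ := by
  obtain ⟨x, x', hx, hx', hne⟩ := h3
  obtain ⟨F, hF⟩ := exists_fat h.compl h.odd
  have hodd : Odd P.index := h.index ▸ h.odd
  have hsq : ∀ v : P, v * v = 1 := fun v =>
    Subgroup.mem_bot.1 (h0 ▸ Subgroup.mem_subgroupOf.2 (sq_mem_Kc (v : G)))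
  have hy : ∀ g, g ∈ Kc G ↔ F.y g = 1 := fun g => by
    rw [← h.y_mem F hF, h0, Subgroup.mem_bot]
  have hO : ∀ g, g ∈ Kc G ↔ g ∈ O := fun g => (hy g).trans (h.y_eq_one F hF g)
  suffices H : ∃ Λ : Finset G, Cov Λ ∧ (∀ g ∈ O, g ≠ 1 → g ∈ Λ) ∧
      ∀ v : P, v ≠ 1 → ∃ w, F.y w = v ∧ w ∉ Λ ∧ w * w = 1 by
    obtain ⟨Λ, a, b, c⟩ := H
    refine ⟨Λ, a, fun g hg => b g ((hO g).1 hg), fun g hg => ?_⟩
    obtain ⟨w, e, e'⟩ := c _ fun e => hg ((hy g).2 e)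
    exact ⟨w, (h.y_coset F hF _ _).1 (by rw [e, inv_mul_cancel]; exact one_mem _), e'⟩
  have hn : ∀ {v : P} {w : G}, v ≠ 1 → F.y w = v → w ∉ O := fun hv e e' =>
    hv (e ▸ (h.y_eq_one F hF _).2 e')
  by_cases hm : P.index = 1
  · refine ⟨∅, Cov.empty, fun g hg g1 => absurd (vga_inj F hm
      (((h.y_eq_one F hF g).2 hg).trans F.y_one.symm)) g1, fun v _ => ?_⟩
    obtain ⟨w, e, e'⟩ := F.exists_invol hodd (hsq v)
    exact ⟨w, e, by simp, e'⟩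
  by_cases hf : ∃ f, F.y f = x ∧ f * f ≠ 1
  · obtain ⟨f, hf, hf2⟩ := hf
    obtain ⟨χ, hχ⟩ := not_mem_Kc.1 fun e => hx (hf ▸ (hy f).1 e)
    have hχx : χ x = -1 := by rw [← hf, h.char_y F hF, hχ]
    obtain ⟨u, hu1, hu⟩ : ∃ u : P, u ≠ 1 ∧ χ u = 1 := by
      rcases Int.units_eq_one_or (χ x') with e | e
      · exact ⟨x', hx', e⟩
      · refine ⟨x * x', fun e' => hne (mul_left_cancel ((hsq x).trans e'.symm)), ?_⟩
        rw [Subgroup.coe_mul, map_mul, hχx, e]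
        simp
    obtain ⟨t₀, ht, ht2⟩ := F.exists_invol hodd (hsq u)
    have hc := block_two h F hF χ (t₀ := t₀) (fun e => hu1 (by rw [← ht, e, F.y_one])) ht2
      (by rw [← h.char_y F hF, ht, hu]) hχ hf2
    rw [ht] at hc
    refine ⟨_, hc, fun g hg g1 => (vga_blk F).2 (Or.inl ⟨hg, g1⟩), fun v hv => ?_⟩
    obtain ⟨w, e1, e2, e3⟩ : ∃ w, F.y w = v ∧ w * w = 1 ∧ (v = u → w = t₀) := by
      by_cases e : v = u
      · exact ⟨t₀, ht.trans e.symm, ht2, fun _ => rfl⟩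
      · obtain ⟨w, e1, e2⟩ := F.exists_invol hodd (hsq v)
        exact ⟨w, e1, e2, fun e' => absurd e' e⟩
    refine ⟨w, e1, fun hw => ?_, e2⟩
    rcases (vga_blk F).1 hw with e | e | e
    · exact hn hv e1 e.1
    · exact e.1 (e3 (e1.symm.trans e.2))
    · exact vga_sq hf2 e e2
  · obtain ⟨t₀, ht, ht2⟩ := F.exists_invol hodd (hsq x)
    refine ⟨_, block_one h F hF (t₀ := t₀) (fun e => hx (by rw [← ht, e, F.y_one])) ht2,
      fun g hg g1 => Finset.mem_insert_of_mem (vga_sharp.2 ⟨hg, g1⟩), fun v hv => ?_⟩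
    obtain ⟨w, e1, e2, e3⟩ : ∃ w, F.y w = v ∧ w * w = 1 ∧ w ≠ t₀ := by
      by_cases e : v = x
      · obtain ⟨w, e1, e2, -⟩ := vga_third F hodd hm x t₀ t₀
        exact ⟨w, e1.trans e.symm, not_not.1 fun e' => hf ⟨w, e1, e'⟩, e2⟩
      · obtain ⟨w, e1, e2⟩ := F.exists_invol hodd (hsq v)
        exact ⟨w, e1, e2, fun e' => e (by rw [← e1, e', ht])⟩
    exact ⟨w, e1, fun hw => (Finset.mem_insert.1 hw).elim e3
      fun e => hn hv e1 (vga_sharp.1 e).1, e2⟩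

end Pool.Agent.P.MP_da365b_co.SV
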