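import Pool.Agent.P.MP_da365b_co.VXS

namespace Pool.Agent.P.MP_da365b_co.SV

open Classical

set_option linter.unusedSectionVars false

universe u

variable {G : Type u} [Group G]

theorem core_index_two [Fintype G] {x g : G} {n : ℕ} (hn : 0 < n)
    (hx : orderOf x = 2 * (2 * n)) (hg : g ∉ Subgroup.zpowers x)
    (hall : ∀ y, y ∈ Subgroup.zpowers x ∨ g⁻¹ * y ∈ Subgroup.zpowers x) {u e : ℤ}
    (hu : g * x * g⁻¹ = x ^ u) (hu4 : u % 4 = 3) (he : g * g = x ^ e) (hed : (2 * n : ℤ) ∣ e) :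
    ∃ Λ : Finset G, Cov Λ ∧ (∀ y, y ≠ 1 → y ∉ Λ → Sing y) ∧ x ∉ Λ ∧
      (∃ y, y ∉ Subgroup.zpowers x ∧ y ∉ Λ) ∧ ∃ t, t ≠ 1 ∧ t * t = 1 ∧ t ∉ Λ := by
  have xe := zpow_eq_iff hx
  have x1 := zpow_eq_one_iff' hx
  push_cast at xe x1
  have hn' : (0 : ℤ) < n := by exact_mod_cast hn
  set j := x ^ (2 * n : ℤ) with hj
  have hj1 : j ≠ 1 := by
    rw [hj, Ne, x1]
    intro h
    have := Int.le_of_dvd (by omega) h
    omega
  have hj2 : j * j = 1 := by
    rw [hj, ← zpow_add, x1]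
    exact ⟨1, by ring⟩
  have hgx : ∀ k : ℤ, g * x ^ k = x ^ (u * k) * g := by
    intro k
    rw [← conj_zpow' hu]
    group
  have hgj : g * j * g⁻¹ = j := by
    rw [hj, conj_zpow' hu, xe]
    exact ⟨(1 - u) / 2, by
      obtain ⟨v, hv⟩ : ∃ v, u = 4 * v + 3 := ⟨u / 4, by omega⟩
      subst hv
      have : (1 - (4 * v + 3)) / 2 = -2 * v - 1 := by omega
      rw [this]; ring⟩
  set J := adj (⊥ : Subgroup G) j (by simp) (by simp [hj2]) with hJ
  have memJ : ∀ y, y ∈ J ↔ y = 1 ∨ y = j := by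
    intro y
    rw [mem_adj, Subgroup.mem_bot, Subgroup.mem_bot, inv_mul_eq_one, eq_comm (a := j)]
  have powJ : ∀ k : ℤ, x ^ k ∈ J ↔ (2 * n : ℤ) ∣ k := by
    intro k
    rw [memJ, x1, hj, xe]
    constructor
    · rintro (⟨t, ht⟩ | ⟨t, ht⟩)
      · exact ⟨2 * t, by rw [ht]; ring⟩
      · exact ⟨1 - 2 * t, by linear_combination -ht⟩
    · rintro ⟨t, rfl⟩
      rcases Int.even_or_odd' t with ⟨s, rfl | rfl⟩
      · left; exact ⟨s, by ring⟩
      · right; exact ⟨-s, by ring⟩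
  have hJA : J ≤ Subgroup.zpowers x := by
    intro y hy
    rcases (memJ y).1 hy with rfl | rfl
    · exact Subgroup.one_mem _
    · exact mem_zp.2 ⟨_, rfl⟩
  set K := adj J g (by
    intro y hy
    rw [memJ] at hy ⊢
    rcases hy with rfl | rfl
    · simp
    · exact Or.inr hgj) (by rw [he, powJ]; exact hed) with hK
  have powK : ∀ k : ℤ, x ^ k ∈ K ↔ (2 * n : ℤ) ∣ k := by
    intro k
    rw [mem_adj, powJ]
    refine ⟨fun h => h.resolve_right fun h' => hg ?_, Or.inl⟩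
    exact (Subgroup.inv_mem_iff _).1
      (((Subgroup.zpowers x).mul_mem_cancel_right (mem_zp.2 ⟨k, rfl⟩)).1 (hJA h'))
  have mkeq : ∀ k l : ℤ, ((x ^ k : G) : G ⧸ K) = (x ^ l : G) ↔ (2 * n : ℤ) ∣ l - k := by
    intro k l
    rw [QuotientGroup.eq, ← zpow_neg, ← zpow_add, powK, neg_add_eq_sub]
  have mkg : ∀ y : G, ((y * g : G) : G ⧸ K) = y := by
    intro y
    rw [eq_comm, QuotientGroup.eq]
    simpa using (self_mem_adj : g ∈ K)
  have allpt : ∀ q : G ⧸ K, ∃ i : ℤ, q = (x ^ i : G) := by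
    intro q
    induction q using QuotientGroup.induction_on with
    | H y =>
      rcases hall y with h | h
      · obtain ⟨k, rfl⟩ := mem_zp.1 h
        exact ⟨k, rfl⟩
      · obtain ⟨k, hk⟩ := mem_zp.1 h
        refine ⟨u * k, ?_⟩
        rw [inv_mul_eq_iff_eq_mul] at hk
        rw [hk, hgx, mkg]
  set A₁ := Finset.univ.filter fun y : G => (∃ i : ℤ, y = x ^ (2 * i)) ∧ y * y ≠ 1 with hA₁
  have memA : ∀ y, y ∈ A₁ ↔ (∃ i : ℤ, y = x ^ (2 * i)) ∧ y * y ≠ 1 := by simp [hA₁]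
  let π : G → G ⧸ K := fun y =>
    if h : ∃ i : ℤ, y = x ^ (2 * i) then ((x ^ h.choose : G) : G ⧸ K) else ((1 : G) : G ⧸ K)
  have hπ : ∀ i : ℤ, π (x ^ (2 * i)) = (x ^ i : G) := by
    intro i
    have h : ∃ i' : ℤ, x ^ (2 * i) = x ^ (2 * i') := ⟨i, rfl⟩
    simp only [π, dif_pos h]
    have := h.choose_spec
    rw [eq_comm, xe] at this
    obtain ⟨t, ht⟩ := this
    rw [mkeq]
    exact ⟨t, by linarith⟩
  set b₀ : G ⧸ K := ((x ^ (0 : ℤ) : G) : G ⧸ K) with hb₀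
  set b₁ : G ⧸ K := ((x ^ (n : ℤ) : G) : G ⧸ K) with hb₁
  have hb01 : b₀ ≠ b₁ := by
    rw [hb₀, hb₁, Ne, mkeq]
    intro h
    have := Int.le_of_dvd (by omega) h
    omega
  have pm1 : PM K A₁ {b₀, b₁}ᶜ := by
    refine ⟨?_, ?_, π, ⟨?_, ?_, ?_⟩, ?_⟩
    · intro y hy h'
      exact ((memA y).1 hy).2 (by simp [h'])
    · intro y hy
      obtain ⟨⟨i, rfl⟩, h2⟩ := (memA y).1 hy
      refine (memA _).2 ⟨⟨-i, by rw [← zpow_neg]; congr 1; ring⟩, fun h' => h2 ?_⟩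
      have := congrArg (·⁻¹) h'
      simpa using this
    · intro y hy
      obtain ⟨⟨i, rfl⟩, h2⟩ := (memA y).1 hy
      rw [← zpow_add, Ne, x1] at h2
      simp only [hπ, Set.mem_compl_iff, Set.mem_insert_iff, Set.mem_singleton_iff, hb₀, hb₁, mkeq]
      rintro (⟨t, ht⟩ | ⟨t, ht⟩)
      · exact h2 ⟨-2 * t, by linear_combination -4 * ht⟩
      · exact h2 ⟨1 - 2 * t, by linear_combination -4 * ht⟩
    · intro y hy z hz hyz
      obtain ⟨⟨i, rfl⟩, -⟩ := (memA y).1 hy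
      obtain ⟨⟨k, rfl⟩, -⟩ := (memA z).1 hz
      rw [hπ, hπ, mkeq] at hyz
      obtain ⟨t, ht⟩ := hyz
      rw [xe]
      exact ⟨t, by linear_combination 2 * ht⟩
    · intro q hq
      obtain ⟨i, rfl⟩ := allpt q
      simp only [Set.mem_compl_iff, Set.mem_insert_iff, Set.mem_singleton_iff, hb₀, hb₁, mkeq,
        not_or] at hq
      refine ⟨x ^ (2 * i), (memA _).2 ⟨⟨i, rfl⟩, ?_⟩, hπ i⟩
      rw [← zpow_add, Ne, x1]
      rintro ⟨t, ht⟩
      rcases Int.even_or_odd' t with ⟨s, rfl | rfl⟩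
      · exact hq.1 ⟨-s, by linarith⟩
      · exact hq.2 ⟨-s, by linarith⟩
    · intro y hy
      obtain ⟨⟨i, rfl⟩, -⟩ := (memA y).1 hy
      have : (x ^ (2 * i))⁻¹ = x ^ (2 * (-i)) := by rw [← zpow_neg]; congr 1; ring
      rw [this, hπ, hπ]
      change _ = ((x ^ (2 * i) * x ^ (-i) : G) : G ⧸ K)
      rw [← zpow_add]
      congr 2
      ring
  have notA : ∀ k : ℤ, x ^ k * g ∉ Subgroup.zpowers x := fun k h =>
    hg (((Subgroup.zpowers x).mul_mem_cancel_left (mem_zp.2 ⟨k, rfl⟩)).1 h)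
  have xodd : ∀ k : ℤ, x ≠ x ^ (2 * k) := by
    intro k h
    nth_rewrite 1 [← zpow_one x] at h
    rw [xe] at h
    obtain ⟨t, ht⟩ := h
    have : 2 * k - 1 = 2 * (2 * n * t) := by rw [ht]; ring
    omega
  have hjA : j ∈ Subgroup.zpowers x := mem_zp.2 ⟨_, rfl⟩
  have hP : ∃ P : Finset G, Disjoint A₁ P ∧ PM K P {b₀, b₁} ∧ x ∉ P ∧
      (∃ y, y ∉ Subgroup.zpowers x ∧ y ∉ P) ∧ ∃ t, t ≠ 1 ∧ t * t = 1 ∧ t ∉ P := by
    by_cases hgg : g * g = 1
    · have c1 : x * g * x⁻¹ ∉ Subgroup.zpowers x := fun h => hg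
        (((Subgroup.zpowers x).mul_mem_cancel_left (Subgroup.mem_zpowers x)).1
          (((Subgroup.zpowers x).mul_mem_cancel_right
            (Subgroup.inv_mem _ (Subgroup.mem_zpowers x))).1 h))
      have c2 : x * g * x⁻¹ ∉ ({j} ∪ {g} : Finset G) := by
        simp only [Finset.mem_union, Finset.mem_singleton]
        rintro (h | h)
        · exact c1 (h ▸ hjA)
        · have h1 : x ^ u = x ^ (1 : ℤ) := by
            rw [← hu, zpow_one, mul_inv_eq_iff_eq_mul, ← mul_inv_eq_iff_eq_mul.1 h]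
          rw [xe] at h1
          obtain ⟨t, ht⟩ := h1
          have : 1 - u = 4 * (n * t) := by rw [ht]; ring
          omega
      refine ⟨{j} ∪ {g}, ?_, ?_, ?_, ⟨_, c1, c2⟩, x * g * x⁻¹,
        fun h => c1 (by rw [h]; exact Subgroup.one_mem _), ?_, c2⟩
      · rw [Finset.disjoint_left]
        intro y hy hy'
        simp only [Finset.mem_union, Finset.mem_singleton] at hy'
        rcases hy' with rfl | rfl
        · exact ((memA _).1 hy).2 hj2
        · exact ((memA _).1 hy).2 hgg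
      · have g1 : g ≠ 1 := fun h => hg (h ▸ Subgroup.one_mem _)
        refine (PM.short (b := b₀) hj1 hj2 ?_).union (PM.short (b := b₁) g1 hgg ?_) ?_ ?_
        · change ((x ^ (2 * n : ℤ) * x ^ (0 : ℤ) : G) : G ⧸ K) = (x ^ (0 : ℤ) : G)
          rw [← zpow_add, mkeq]
          exact ⟨-1, by ring⟩
        · change ((g * x ^ (n : ℤ) : G) : G ⧸ K) = (x ^ (n : ℤ) : G)
          rw [hgx, mkg, mkeq]
          obtain ⟨v, hv⟩ : ∃ v, u = 4 * v + 3 := ⟨u / 4, by omega⟩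
          exact ⟨-2 * v - 1, by rw [hv]; ring⟩
        · simp only [Finset.disjoint_singleton]
          intro h
          exact hg (h ▸ mem_zp.2 ⟨_, rfl⟩)
        · simpa using hb01
      · simp only [Finset.mem_union, Finset.mem_singleton]
        rintro (h | h)
        · exact xodd n h
        · exact hg (h ▸ Subgroup.mem_zpowers x)
      · have : x * g * x⁻¹ * (x * g * x⁻¹) = x * (g * g) * x⁻¹ := by group
        rw [this, hgg]
        group
    · have e1 : (x ^ (n : ℤ) * g) • b₀ = b₁ := by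
        change ((x ^ (n : ℤ) * g * x ^ (0 : ℤ) : G) : G ⧸ K) = (x ^ (n : ℤ) : G)
        rw [zpow_zero, mul_one, mkg]
      have e2 : x ^ (n : ℤ) * g * (x ^ (n : ℤ) * g) = g * g := by
        rw [mul_assoc, ← mul_assoc g, hgx, mul_assoc, ← mul_assoc, ← zpow_add]
        have : x ^ ((n : ℤ) + u * n) = 1 := by
          rw [x1]
          obtain ⟨v, hv⟩ : ∃ v, u = 4 * v + 3 := ⟨u / 4, by omega⟩
          exact ⟨v + 1, by rw [hv]; ring⟩
        rw [this, one_mul]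
      have c1 : ∀ y ∈ Subgroup.zpowers x,
          y ∉ ({x ^ (n : ℤ) * g, (x ^ (n : ℤ) * g)⁻¹} : Finset G) := by
        intro y hyA hy'
        simp only [Finset.mem_insert, Finset.mem_singleton] at hy'
        rcases hy' with rfl | rfl
        · exact notA _ hyA
        · exact notA _ ((Subgroup.inv_mem_iff _).1 hyA)
      refine ⟨{x ^ (n : ℤ) * g, (x ^ (n : ℤ) * g)⁻¹}, ?_, ?_, c1 _ (Subgroup.mem_zpowers x),
        ⟨x ^ (1 + n : ℤ) * g, notA _, ?_⟩, j, hj1, hj2, c1 _ hjA⟩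
      · rw [Finset.disjoint_left]
        intro y hy hy'
        obtain ⟨⟨i, hi⟩, -⟩ := (memA y).1 hy
        exact c1 y (mem_zp.2 ⟨_, hi⟩) hy'
      · rw [← e1]
        exact PM.long (by rw [e2]; exact hgg) (by rw [e1]; exact hb01.symm)
      · simp only [Finset.mem_insert, Finset.mem_singleton]
        rw [zpow_add, zpow_one, mul_assoc]
        rintro (h | h)
        · exact xodd 0 (by simpa using h)
        · rw [eq_inv_iff_mul_eq_one, mul_assoc, e2, he, mul_eq_one_iff_eq_inv, ← zpow_neg] at h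
          obtain ⟨t, ht⟩ := hed
          exact xodd (-(n * t)) (h.trans (by congr 1; rw [ht]; ring))
  obtain ⟨P, hdis, pm2, hxP, ⟨y₀, hy₀, hy₁⟩, t, ht0, ht1, ht2⟩ := hP
  have pm3 := pm1.union pm2 hdis disjoint_compl_left
  rw [Set.compl_union_self] at pm3
  have mem2 : ∀ y, y ∈ Subgroup.zpowers (x ^ (2 : ℤ)) ↔ ∃ i : ℤ, y = x ^ (2 * i) := by
    intro y
    simp only [mem_zp, ← zpow_mul]
  set H := adj (Subgroup.zpowers (x ^ (2 : ℤ))) g (by
    intro y hy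
    obtain ⟨i, rfl⟩ := (mem2 y).1 hy
    rw [conj_zpow' hu, mem2]
    exact ⟨u * i, by congr 1; ring⟩) (by
      obtain ⟨t, ht⟩ := hed
      rw [he, mem2]
      exact ⟨n * t, by congr 1; rw [ht]; ring⟩) with hH
  have hH2 : ∀ y, y ∉ H → x⁻¹ * y ∈ H := by
    intro y hy
    rw [mem_adj, mem2, mem2] at hy ⊢
    rcases hall y with h | h
    · obtain ⟨k, rfl⟩ := mem_zp.1 h
      rcases Int.even_or_odd' k with ⟨s, rfl | rfl⟩
      · exact absurd (Or.inl ⟨s, rfl⟩) hy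
      · left
        exact ⟨s, by group⟩
    · obtain ⟨k, hk⟩ := mem_zp.1 h
      rcases Int.even_or_odd' k with ⟨s, rfl | rfl⟩
      · exact absurd (Or.inr ⟨s, hk⟩) hy
      · right
        have c1 : g⁻¹ * x⁻¹ * g = x ^ (u * (-1)) := by
          rw [← conj_zpow' hu]
          have : g⁻¹ * x⁻¹ * g = g * ((g * g)⁻¹ * x⁻¹ * (g * g)) * g⁻¹ := by group
          rw [this, he]
          congr 2
          group
        obtain ⟨v, hv⟩ : ∃ v, u = 4 * v + 3 := ⟨u / 4, by omega⟩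
        refine ⟨s - 2 * v - 1, ?_⟩
        have : g⁻¹ * (x⁻¹ * y) = (g⁻¹ * x⁻¹ * g) * (g⁻¹ * y) := by group
        rw [this, c1, hk, ← zpow_add]
        congr 1
        rw [hv]; ring
  refine ⟨A₁ ∪ P, cov_of_pm pm3, fun y hy1 hy => ⟨hy1, ?_⟩, ?_, ⟨y₀, hy₀, ?_⟩, t, ht0, ht1, ?_⟩
  · rw [Finset.mem_union, not_or, memA] at hy
    by_cases hyy : y * y = 1
    · exact Or.inl hyy
    right
    by_cases hyA : y ∈ Subgroup.zpowers x
    · obtain ⟨χ, hχ⟩ := char_of_two H fun a b ha hb => by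
        have : a⁻¹ * b = (x⁻¹ * a)⁻¹ * (x⁻¹ * b) := by group
        rw [this]
        exact H.mul_mem (H.inv_mem (hH2 a ha)) (hH2 b hb)
      refine ⟨χ, (hχ y).2 ?_⟩
      rw [mem_adj, mem2, mem2]
      rintro (h | ⟨i, hi⟩)
      · exact hy.1 ⟨h, hyy⟩
      · apply hg
        have : g⁻¹ * y ∈ Subgroup.zpowers x := mem_zp.2 ⟨_, hi⟩
        exact (Subgroup.inv_mem_iff _).1
          (((Subgroup.zpowers x).mul_mem_cancel_right hyA).1 this)
    · obtain ⟨χ, hχ⟩ := char_of_two (Subgroup.zpowers x) fun a b ha hb => by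
        have : a⁻¹ * b = (g⁻¹ * a)⁻¹ * (g⁻¹ * b) := by group
        rw [this]
        exact Subgroup.mul_mem _ (Subgroup.inv_mem _ ((hall a).resolve_left ha))
          ((hall b).resolve_left hb)
      exact ⟨χ, (hχ y).2 hyA⟩
  · rw [Finset.mem_union, memA]
    rintro (⟨⟨i, hi⟩, -⟩ | h)
    · exact xodd i hi
    · exact hxP h
  · rw [Finset.mem_union, memA]
    rintro (⟨⟨i, hi⟩, -⟩ | h)
    · exact hy₀ (mem_zp.2 ⟨_, hi⟩)
    · exact hy₁ h
  · rw [Finset.mem_union, memA]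
    rintro (⟨-, h⟩ | h)
    · exact h ht1
    · exact ht2 h

theorem core_max [Fintype G] (hG : IsPGroup 2 G) (hcyc : ¬ IsCyclic G)
    (h4 : ¬ FourIn (⊤ : Subgroup G)) (C : Subgroup G) (hC : C ≠ ⊤) : Core C := by
  have hne : ∀ x : G, ∃ g, g ∉ Subgroup.zpowers x := by
    intro x
    by_contra hcon
    push Not at hcon
    exact hcyc ⟨⟨x, hcon⟩⟩
  have htop : (⊤ : Subgroup G) ≠ ⊥ := by
    intro h
    obtain ⟨g, hg⟩ := hne 1
    have : g ∈ (⊥ : Subgroup G) := h ▸ Subgroup.mem_top g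
    exact hg (by rw [Subgroup.mem_bot.1 this]; exact Subgroup.one_mem _)
  obtain ⟨x, b, -, hx, hAn, -, h3, h5⟩ := xs hG ⊤ htop (fun _ _ => Subgroup.mem_top _) h4
  have xe := zpow_eq_iff hx
  push_cast at xe
  obtain ⟨g, hg⟩ := hne x
  have hall : ∀ g, g ∉ Subgroup.zpowers x →
      ∀ y, y ∈ Subgroup.zpowers x ∨ g⁻¹ * y ∈ Subgroup.zpowers x := fun g hg y =>
    or_iff_not_imp_left.2 (h5 g (Subgroup.mem_top _) y (Subgroup.mem_top _) hg)
  obtain ⟨hg2, hb, h6⟩ := h3 g (Subgroup.mem_top _) hg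
  obtain ⟨u, hu⟩ := mem_zp.1 (hAn.conj_mem x (Subgroup.mem_zpowers x) g)
  have hu4 := h6 u hu
  obtain ⟨e, he⟩ := mem_zp.1 hg2
  obtain ⟨b, rfl⟩ : ∃ c, b = c + 1 := ⟨b - 1, by omega⟩
  obtain ⟨Λ, c1, c2, c3, ⟨y, c4, c5⟩, c6⟩ := core_index_two (n := 2 ^ b) (by positivity)
    (by rw [hx, pow_succ']) hg (hall g hg) hu hu4 he (by
      have h1 := conj_zpow' hu e
      rw [← he] at h1
      have h2 : x ^ e = x ^ (u * e) := by
        rw [← h1, ← he]; group
      rw [xe] at h2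
      obtain ⟨t, ht⟩ := h2
      obtain ⟨s, rfl⟩ : ∃ s, u = 4 * s + 3 := ⟨u / 4, by omega⟩
      push_cast
      rw [← pow_succ']
      apply (coprime_two_pow (b + 1) s).dvd_of_dvd_mul_right
      exact ⟨t, by linarith⟩)
  refine ⟨Λ, c1, fun z _ => c2 z, ?_, c6⟩
  by_cases hxC : x ∈ C
  · refine ⟨y, fun hyC => hC ?_, c5⟩
    have hle : Subgroup.zpowers x ≤ C := (Subgroup.zpowers_le).2 hxC
    rw [eq_top_iff]
    intro z _
    rcases hall y c4 z with h | h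
    · exact hle h
    · exact (C.mul_mem_cancel_left (C.inv_mem hyC)).1 (hle h)
  · exact ⟨x, hxC, c3⟩

end Pool.Agent.P.MP_da365b_co.SV
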