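import Pool.Agent.P.MP_da365b_co.VXS

namespace Pool.Agent.P.MP_da365b_co.SV

open Classical

set_option linter.unusedSectionVars false

universe u

variable {G : Type u} [Group G]

theorem vxl_top {C : Subgroup G} (hI : HInv C) (H : Subgroup G) (hle : C ≤ H)
    (h2 : ∀ a b, a ∉ H → b ∉ H → a⁻¹ * b ∈ H)
    (hinv : ∀ α : G ≃* G, (∀ g, α g ∈ C ↔ g ∈ C) → ∀ g, g ∈ H → α g ∈ H) (g : G) : g ∈ H := by
  obtain ⟨χ, hχ⟩ := char_of_two H h2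
  have h1 : ∀ g ∈ H, χ g = 1 := fun g hg =>
    (Int.units_eq_one_or (χ g)).resolve_right fun e => (hχ g).1 e hg
  by_contra hg
  have h3 := hI χ (fun c hc => h1 c (hle hc)) (fun α hα y => ?_) g
  · rw [(hχ g).2 hg] at h3
    exact absurd h3 (by decide)
  · by_cases hy : y ∈ H
    · rw [h1 y hy, h1 _ (hinv α hα y hy)]
    · rw [(hχ y).2 hy, (hχ _).2 fun e => hy ?_]
      have h4 := hinv α.symm (fun z => by rw [← hα, α.apply_symm_apply]) _ e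
      rwa [α.symm_apply_apply] at h4

theorem HInv.three {C : Subgroup G} (hI : HInv C) (hC : C ≠ ⊤) :
    ∃ g h, g ∉ C ∧ h ∉ C ∧ g⁻¹ * h ∉ C := by
  by_contra hcon
  refine hC (eq_top_iff.2 fun g _ => vxl_top hI C le_rfl (fun a b ha hb => ?_)
    (fun α hα g hg => (hα g).2 hg) g)
  by_contra h
  exact hcon ⟨a, b, ha, hb, h⟩

theorem vxl_act {x g h : G} {u v : ℤ} (hu : g * x * g⁻¹ = x ^ u) (hv : h * x * h⁻¹ = x ^ v) :
    g * h * x * (g * h)⁻¹ = x ^ (u * v) := by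
  rw [← conj_zpow' hu, ← hv]
  group

/-- The elements that act on `x` as a power congruent to one modulo four. -/
def vxl_Cp {x : G} (hA : (Subgroup.zpowers x).Normal)
    (h4 : ∀ k l : ℤ, x ^ k = x ^ l → k % 4 = l % 4) : Subgroup G where
  carrier := {g | ∃ u : ℤ, u % 4 = 1 ∧ g * x * g⁻¹ = x ^ u}
  one_mem' := ⟨1, rfl, by simp⟩
  mul_mem' := by
    rintro g h ⟨u, hu, hu'⟩ ⟨v, hv, hv'⟩
    exact ⟨u * v, by rw [Int.mul_emod, hu, hv]; rfl, vxl_act hu' hv'⟩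
  inv_mem' := by
    rintro g ⟨u, hu, hu'⟩
    obtain ⟨v, hv⟩ := mem_zp.1 (hA.conj_mem x (Subgroup.mem_zpowers x) g⁻¹)
    have h1 := h4 1 (u * v) (by rw [← vxl_act hu' hv]; group)
    refine ⟨v, ?_, hv⟩
    rw [Int.mul_emod, hu] at h1
    omega

section
variable {x : G} {hA : (Subgroup.zpowers x).Normal}
  {h4 : ∀ k l : ℤ, x ^ k = x ^ l → k % 4 = l % 4}

theorem vxl_three {g : G} (hg : g ∉ vxl_Cp hA h4) : ∃ u : ℤ, u % 4 = 3 ∧ g * x * g⁻¹ = x ^ u := by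
  obtain ⟨u, hu⟩ := mem_zp.1 (hA.conj_mem x (Subgroup.mem_zpowers x) g)
  obtain ⟨v, hv⟩ := mem_zp.1 (hA.conj_mem x (Subgroup.mem_zpowers x) g⁻¹)
  have h1 := h4 1 (u * v) (by rw [← vxl_act hu hv]; group)
  have h2 : u % 4 ≠ 1 := fun e => hg ⟨u, e, hu⟩
  refine ⟨u, ?_, hu⟩
  rw [Int.mul_emod] at h1
  have h3 : u % 4 = 0 ∨ u % 4 = 2 ∨ u % 4 = 3 := by omega
  rcases h3 with h | h | h
  · rw [h] at h1
    omega
  · rw [h] at h1
    omega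
  · exact h

theorem vxl_two (a b : G) (ha : a ∉ vxl_Cp hA h4) (hb : b ∉ vxl_Cp hA h4) :
    a⁻¹ * b ∈ vxl_Cp hA h4 := by
  obtain ⟨u, hu, hu'⟩ := vxl_three (mt (vxl_Cp hA h4).inv_mem_iff.1 ha)
  obtain ⟨v, hv, hv'⟩ := vxl_three hb
  exact ⟨u * v, by rw [Int.mul_emod, hu, hv]; rfl, vxl_act hu' hv'⟩

theorem vxl_le : Subgroup.zpowers x ≤ vxl_Cp hA h4 :=
  Subgroup.zpowers_le.2 ⟨1, rfl, by simp⟩

theorem vxl_even {g : G} (hg : g ∉ vxl_Cp hA h4) {e : ℤ} (he : g * g = x ^ e) : e % 2 = 0 := by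
  obtain ⟨u, hu, hu'⟩ := vxl_three hg
  have h1 := h4 (u * e) e (by rw [← conj_zpow' hu', ← he]; group)
  rw [Int.mul_emod, hu] at h1
  omega

theorem vxl_mul (hc : ∀ g h : G, h * g * h⁻¹ * g⁻¹ ∈ Subgroup.zpowers x) {g h : G}
    (hg : g ∈ vxl_Cp hA h4) (hh : h ∈ vxl_Cp hA h4) {e f d : ℤ} (he : g * g = x ^ e)
    (hf : h * h = x ^ f) (hd : g * h * (g * h) = x ^ d) : d % 2 = (e + f) % 2 := by
  obtain ⟨u, hu, hu'⟩ := (vxl_Cp hA h4).inv_mem hg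
  obtain ⟨v, hv, hv'⟩ := hh
  obtain ⟨k, hk⟩ := mem_zp.1 (hc h g⁻¹)
  have h1 := h4 (u * f) (k + v * k + f) (by
    rw [zpow_add, zpow_add, ← conj_zpow' hu', ← conj_zpow' hv', ← hk, ← hf]
    group)
  have h2 := h4 d (e + k + f) (by
    rw [zpow_add, zpow_add, ← hd, ← hk, ← hf, ← he]
    group)
  have h3 := Int.mul_emod u f 4
  have h5 := Int.mul_emod v k 4
  rw [hu] at h3
  rw [hv] at h5
  omega

end

theorem vxl_pow {x v : G} {b : ℕ} (hx : orderOf x = 2 * 2 ^ b) {e : ℤ} (he : v * v = x ^ e) :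
    v ^ (2 * 2 ^ b) = 1 ↔ e % 2 = 0 := by
  rw [pow_mul, pow_two, he, ← zpow_natCast, ← zpow_mul, zpow_eq_one_iff' hx,
    mul_dvd_mul_iff_right (by positivity), Int.dvd_iff_emod_eq_zero]

theorem xl [Finite G] (hG : IsPGroup 2 G) (C : Subgroup G) [C.Normal] (hsq : ∀ g, g * g ∈ C)
    (hI : HInv C) (h4 : ¬ FourIn C) (hc : 2 < Nat.card C) :
    ∃ j ∈ C, ∀ g, g ∉ C → ∃ c, g⁻¹ * c ∈ C ∧ IsFour j c := by
  have hN : C.Normal := inferInstance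
  obtain ⟨x, b, hxC, hx, hA, hcm, hout, -⟩ := xs hG C
    (by rintro rfl; simp at hc) (fun g h => by
      have e : h * g * h⁻¹ * g⁻¹ =
        h * g * (h * g) * (g⁻¹ * h⁻¹ * g * (g⁻¹ * h⁻¹ * g)) * (g⁻¹ * g⁻¹) := by group
      rw [e]
      exact C.mul_mem (C.mul_mem (hsq _) (hsq _)) (hsq _)) h4
  have hXC : Subgroup.zpowers x ≤ C := Subgroup.zpowers_le.2 hxC
  have hb : 1 ≤ b := by
    by_cases h : C ≤ Subgroup.zpowers x
    · have h1 := Subgroup.card_le_of_le h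
      rw [Nat.card_zpowers, hx] at h1
      rcases b with _ | b
      · omega
      · omega
    · obtain ⟨g, hg, hg'⟩ := SetLike.not_le_iff_exists.1 h
      exact (hout g hg hg').2.1
  have hm : ∀ k l : ℤ, x ^ k = x ^ l → k % 4 = l % 4 := fun k l h => by
    obtain ⟨b, rfl⟩ := Nat.exists_eq_add_of_le' hb
    obtain ⟨t, ht⟩ := (zpow_eq_iff hx k l).1 h
    have h1 : l - k = 4 * (2 ^ b * t) := by
      rw [ht]
      push_cast
      ring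
    omega
  have hcap : ∀ g ∈ C, g ∈ vxl_Cp hA hm → g ∈ Subgroup.zpowers x := by
    rintro g hg ⟨u, hu, hu'⟩
    by_contra h
    have := (hout g hg h).2.2 u hu'
    omega
  have hsx : ∀ g : G, ∃ e : ℤ, g * g = x ^ e := fun g => by
    refine mem_zp.1 (hcap _ (hsq g) ?_)
    by_cases h : g ∈ vxl_Cp hA hm
    · exact mul_mem h h
    · have := vxl_two g⁻¹ g (mt (vxl_Cp hA hm).inv_mem_iff.1 h) h
      rwa [inv_inv] at this
  have hmeet : ∀ g : G, ∃ v, g⁻¹ * v ∈ C ∧ v ∈ vxl_Cp hA hm := fun g => by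
    by_cases hg : g ∈ vxl_Cp hA hm
    · exact ⟨g, by simp, hg⟩
    by_cases h : C ≤ vxl_Cp hA hm
    · refine absurd (vxl_top hI _ h vxl_two ?_ g) hg
      rintro α hα y ⟨u, hu, hu'⟩
      have h1 : α.symm x ∈ C := by rw [← hα, α.apply_symm_apply]; exact hxC
      obtain ⟨l, hl⟩ := mem_zp.1 (hcap _ h1 (h h1))
      have h2 : y * α.symm x * y⁻¹ = α.symm x ^ u := by
        rw [hl, conj_zpow' hu', ← zpow_mul, mul_comm]
      refine ⟨u, hu, ?_⟩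
      have h3 := congrArg α h2
      simpa using h3
    · obtain ⟨c, hc, hc'⟩ := SetLike.not_le_iff_exists.1 h
      have := vxl_two g⁻¹ c (mt (vxl_Cp hA hm).inv_mem_iff.1 hg) hc'
      exact ⟨g * c, by simpa using hc, by rwa [inv_inv] at this⟩
  have hcos : ∀ g h v w : G, g⁻¹ * v ∈ C → h⁻¹ * w ∈ C → (g * h)⁻¹ * (v * w) ∈ C :=
    fun g h v w hv hw => by
      have e : (g * h)⁻¹ * (v * w) = h⁻¹ * (g⁻¹ * v) * h⁻¹⁻¹ * (h⁻¹ * w) := by group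
      rw [e]
      exact C.mul_mem (hN.conj_mem _ hv _) hw
  have hcoi : ∀ g v : G, g⁻¹ * v ∈ C → g⁻¹⁻¹ * v⁻¹ ∈ C := fun g v hv => by
    have e : g⁻¹⁻¹ * v⁻¹ = g * (g⁻¹ * v)⁻¹ * g⁻¹ := by group
    rw [e]
    exact hN.conj_mem _ (C.inv_mem hv) _
  have hpar : ∀ v ∈ vxl_Cp hA hm, ∀ w ∈ vxl_Cp hA hm, ((v * w) ^ (2 * 2 ^ b) = 1 ↔
      (v ^ (2 * 2 ^ b) = 1 ↔ w ^ (2 * 2 ^ b) = 1)) := fun v hv w hw => by
    obtain ⟨e, he⟩ := hsx v
    obtain ⟨f, hf⟩ := hsx w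
    obtain ⟨d, hd⟩ := hsx (v * w)
    have := vxl_mul hcm hv hw he hf hd
    rw [vxl_pow hx he, vxl_pow hx hf, vxl_pow hx hd]
    omega
  let H : Subgroup G :=
    { carrier := {g | ∃ v, g⁻¹ * v ∈ C ∧ v ∈ vxl_Cp hA hm ∧ v ^ (2 * 2 ^ b) = 1}
      one_mem' := ⟨1, by simp, one_mem _, one_pow _⟩
      mul_mem' := by
        rintro g h ⟨v, h1, h2, h3⟩ ⟨w, h5, h6, h7⟩
        exact ⟨v * w, hcos _ _ _ _ h1 h5, mul_mem h2 h6, (hpar v h2 w h6).2 (iff_of_true h3 h7)⟩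
      inv_mem' := by
        rintro g ⟨v, h1, h2, h3⟩
        exact ⟨v⁻¹, hcoi _ _ h1, inv_mem h2, by rw [inv_pow, h3, inv_one]⟩ }
  have hall : ∀ g, g ∈ H := by
    refine vxl_top hI H (fun c hc => ⟨1, by simpa using hc, one_mem _, one_pow _⟩)
      (fun g h hg hh => ?_) ?_
    · obtain ⟨v, h1, h2⟩ := hmeet g
      obtain ⟨w, h5, h6⟩ := hmeet h
      refine ⟨v⁻¹ * w, hcos _ _ _ _ (hcoi _ _ h1) h5, mul_mem (inv_mem h2) h6,
        (hpar _ (inv_mem h2) w h6).2 (iff_of_false (fun e => hg ⟨v, h1, h2, ?_⟩)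
          fun e => hh ⟨w, h5, h6, e⟩)⟩
      rwa [inv_pow, inv_eq_one] at e
    · rintro α hα g ⟨v, h1, h2, h3⟩
      obtain ⟨w, h5, h6⟩ := hmeet (α g)
      refine ⟨w, h5, h6, ?_⟩
      obtain ⟨w, rfl⟩ := α.surjective w
      rw [← map_inv, ← map_mul, hα] at h5
      rw [← map_pow, map_eq_one_iff _ α.injective]
      obtain ⟨f, hf⟩ := hsx w
      by_cases hw : w ∈ vxl_Cp hA hm
      · have h7 : v⁻¹ * w ∈ C := by
          have e : v⁻¹ * w = (g⁻¹ * v)⁻¹ * (g⁻¹ * w) := by group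
          rw [e]
          exact C.mul_mem (C.inv_mem h1) h5
        have h8 := mul_mem (inv_mem h2) hw
        obtain ⟨k, hk⟩ := mem_zp.1 (hcap _ h7 h8)
        have h9 := (hpar v h2 _ h8).2 (iff_of_true h3
          ((vxl_pow hx (e := k + k) (by rw [hk, zpow_add])).2 (by omega)))
        rwa [mul_inv_cancel_left] at h9
      · exact (vxl_pow hx hf).2 (vxl_even hw hf)
  refine ⟨x ^ ((2 : ℤ) ^ b), C.zpow_mem hxC _, fun g hg => ?_⟩
  obtain ⟨v, h1, ⟨u, hu, hu'⟩, h3⟩ := hall g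
  obtain ⟨e, he⟩ := hsx v
  have hv : v ∉ Subgroup.zpowers x := fun h =>
    hg (C.inv_mem_iff.1 ((C.mul_mem_cancel_right (hXC h)).1 h1))
  obtain ⟨i, hi⟩ := four_of' hx hA hv (hcm v) hu' hu he ((vxl_pow hx he).1 h3)
  refine ⟨_, ?_, hi⟩
  have e : g⁻¹ * (x ^ i * v) = g⁻¹ * x ^ i * g⁻¹⁻¹ * (g⁻¹ * v) := by group
  rw [e]
  exact C.mul_mem (hN.conj_mem _ (C.zpow_mem hxC i) _) h1

end Pool.Agent.P.MP_da365b_co.SV
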