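import Pool.Agent.P.MP_da365b_co.VFour
import Pool.Agent.P.MP_da365b_co.VXL
import Pool.Agent.P.MP_da365b_co.VMax

namespace Pool.Agent.P.MP_da365b_co.SV

open Classical

set_option linter.unusedSectionVars false

universe u

variable {G : Type u} [Group G]

theorem vpa_mem_sharp [Fintype G] {C : Subgroup G} {g : G} : g ∈ sharp C ↔ g ∈ C ∧ g ≠ 1 := by
  simp [sharp]

theorem vpa_add_all [Fintype G] {C : Subgroup G} {Λ : Finset G} (h : Cov Λ)
    (h1 : ∀ g ∈ C, g ≠ 1 → g ∉ Λ → Sing g) : Cov (Λ ∪ sharp C) := by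
  apply h.add
  · intro y hy
    rw [vpa_mem_sharp] at hy ⊢
    exact ⟨C.inv_mem hy.1, by simpa using hy.2⟩
  · intro y hy hn
    rw [vpa_mem_sharp] at hy
    exact h1 y hy.1 hy.2 hn

theorem vpa_add_erase [Fintype G] {C : Subgroup G} {Λ : Finset G} (h : Cov Λ)
    (h1 : ∀ g ∈ C, g ≠ 1 → g ∉ Λ → Sing g) {t : G} (ht : t * t = 1) :
    Cov (Λ ∪ (sharp C).erase t) := by
  apply h.add
  · intro y hy
    rw [Finset.mem_erase, vpa_mem_sharp] at hy ⊢
    refine ⟨?_, C.inv_mem hy.2.1, by simpa using hy.2.2⟩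
    intro e
    apply hy.1
    have e2 : t⁻¹ = t := inv_eq_of_mul_eq_one_right ht
    rw [← e2, ← e, inv_inv]
  · intro y hy hn
    rw [Finset.mem_erase, vpa_mem_sharp] at hy
    exact h1 y hy.2.1 hy.2.2 hn

theorem vpa_not_mem_all [Fintype G] {C : Subgroup G} {Λ : Finset G} {v : G} (h1 : v ∉ Λ)
    (h2 : v ∉ C) : v ∉ Λ ∪ sharp C := by
  rw [Finset.mem_union, vpa_mem_sharp]
  rintro (h | h)
  · exact h1 h
  · exact h2 h.1

theorem vpa_not_mem_erase [Fintype G] {C : Subgroup G} {Λ : Finset G} {v t : G} (h1 : v ∉ Λ)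
    (h2 : v ∉ C) : v ∉ Λ ∪ (sharp C).erase t := by
  rw [Finset.mem_union, Finset.mem_erase, vpa_mem_sharp]
  rintro (h | h)
  · exact h1 h
  · exact h2 h.2.1

theorem vpa_coset_not {C : Subgroup G} {g v : G} (hg : g ∉ C) (h : g⁻¹ * v ∈ C) : v ∉ C := by
  intro hv
  apply hg
  have e : g = v * (g⁻¹ * v)⁻¹ := by group
  rw [e]
  exact C.mul_mem hv (C.inv_mem h)

theorem vpa_mul_sq {j v : G} (hj2 : j * j = 1) (hjc : ∀ g, g * j = j * g) (hv : v * v = 1) :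
    v * j * (v * j) = 1 := by
  have e : v * j * (v * j) = v * (j * v) * j := by group
  rw [e, ← hjc v]
  have e2 : v * (v * j) * j = (v * v) * (j * j) := by group
  rw [e2, hv, hj2, one_mul]

theorem vpa_exists_not {C : Subgroup G} (hC : C ≠ ⊤) : ∃ g, g ∉ C := by
  by_contra h
  push Not at h
  exact hC ((Subgroup.eq_top_iff' C).2 h)

theorem vpa_sq_small [Finite G] {C : Subgroup G} (h : Nat.card C ≤ 2) {g : G} (hg : g ∈ C) :
    g * g = 1 := by
  have h0 : 0 < Nat.card C := Nat.card_pos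
  have h1 : (⟨g, hg⟩ : C) ^ Nat.card C = 1 := pow_card_eq_one'
  have h2 : g ^ Nat.card C = 1 := congrArg Subtype.val h1
  have h3 : Nat.card C = 1 ∨ Nat.card C = 2 := by omega
  rcases h3 with h3 | h3
  · rw [h3, pow_one] at h2
    rw [h2, one_mul]
  · rw [h3, pow_two] at h2
    exact h2

theorem vpa_comm {C : Subgroup G} [hN : C.Normal] (hsq : ∀ g, g * g ∈ C) (g w : G) :
    g * w * g⁻¹ * w⁻¹ ∈ C := by
  have e : g * w * g⁻¹ * w⁻¹ =
      (g * w * (g * w)) * (w⁻¹ * (g * g)⁻¹ * w⁻¹⁻¹) * (w * w)⁻¹ := by group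
  rw [e]
  exact C.mul_mem (C.mul_mem (hsq _) (hN.conj_mem _ (C.inv_mem (hsq g)) _)) (C.inv_mem (hsq w))

theorem Core.fin [Fintype G] {C : Subgroup G} (h : Core C) : S1 C ∨ S2 C := by
  obtain ⟨Λ, hΛ, h1, ⟨g, hgC, hgΛ⟩, t, ht1, ht2, htΛ⟩ := h
  by_cases hA : ∃ u, u ∉ C ∧ u ∉ Λ ∧ u * u = 1
  · obtain ⟨u, hu1, hu2, hu3⟩ := hA
    left
    refine ⟨Λ ∪ sharp C, vpa_add_all hΛ h1, ?_, u, hu1, vpa_not_mem_all hu2 hu1, hu3⟩
    intro y hy hy1
    exact Finset.mem_union_right _ (vpa_mem_sharp.2 ⟨hy, hy1⟩)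
  · right
    have htC : t ∈ C := by
      by_contra hh
      exact hA ⟨t, hh, htΛ, ht2⟩
    refine ⟨Λ ∪ (sharp C).erase t, t, vpa_add_erase hΛ h1 ht2, htC, ht1, ht2, ?_, ?_,
      g, hgC, vpa_not_mem_erase hgΛ hgC, fun e => hA ⟨g, hgC, hgΛ, e⟩⟩
    · rw [Finset.mem_union]
      rintro (h | h)
      · exact htΛ h
      · exact Finset.notMem_erase t _ h
    · intro y hy hy1 hyt
      exact Finset.mem_union_right _ (Finset.mem_erase.2 ⟨hyt, vpa_mem_sharp.2 ⟨hy, hy1⟩⟩)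

theorem vpa_four_ne {j c : G} (h : IsFour j c) : j ≠ c ∧ j ≠ c * j ∧ c ≠ c * j := by
  obtain ⟨h1, -, -, h4, -, h6, -⟩ := h
  refine ⟨h6.symm, ?_, ?_⟩
  · intro e
    apply h4
    have : (1 : G) * j = c * j := by rw [one_mul]; exact e
    exact (mul_right_cancel this).symm
  · intro e
    apply h1
    have : c * 1 = c * j := by rw [mul_one]; exact e
    exact (mul_left_cancel this).symm

theorem vpa_sing {Λ : Finset G} {C C' : Subgroup G} (hle : C ≤ C')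
    (h : ∀ g ∈ C', g * g ≠ 1 → g ∈ Λ) : ∀ g ∈ C, g ≠ 1 → g ∉ Λ → Sing g := by
  intro g hg hg1 hn
  refine ⟨hg1, Or.inl ?_⟩
  by_contra hh
  exact hn (h g (hle hg) hh)

theorem pa [Fintype G] (hG : IsPGroup 2 G) (C : Subgroup G) [C.Normal] (hC : C ≠ ⊤)
    (hsq : ∀ g, g * g ∈ C) (h : ¬ IsCyclic G ∨ Nat.card G ≤ 4) : S1 C ∨ S2 C := by
  apply Core.fin
  obtain ⟨g₀, hg₀⟩ := vpa_exists_not hC
  by_cases h4 : FourIn C
  · obtain ⟨j, hj, c, hc, hF⟩ := h4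
    obtain ⟨n1, n2, n3⟩ := vpa_four_ne hF
    obtain ⟨Λ, hΛ, -, a2, -, ⟨t, -, t1, t2, t3⟩, a5⟩ :=
      pI hG hF C hj hc hsq {j, c} (by
        intro y hy
        simp only [Finset.mem_insert, Finset.mem_singleton] at hy ⊢
        tauto) (by rw [Finset.card_pair n1])
    obtain ⟨v, hv1, hv2⟩ := a5 g₀ hg₀
    exact ⟨Λ, hΛ, vpa_sing le_rfl a2, ⟨v, vpa_coset_not hg₀ hv1, hv2⟩, t, t1, t2, t3⟩
  by_cases h5 : FourIn (⊤ : Subgroup G)
  · obtain ⟨j, hj, c, hc, hF⟩ := h5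
    obtain ⟨n1, n2, n3⟩ := vpa_four_ne hF
    by_cases hjC : j ∈ C
    · have hcC : c ∉ C := fun hh => h4 ⟨j, hjC, c, hh, hF⟩
      obtain ⟨Λ, hΛ, a1, a2, -, -, -⟩ :=
        pI hG hF ⊤ hj hc (fun _ => Subgroup.mem_top _) {j, c * j} (by
          intro y hy
          simp only [Finset.mem_insert, Finset.mem_singleton] at hy ⊢
          tauto) (by rw [Finset.card_pair n2])
      have hn : c ∉ Λ := by
        intro hh
        have := a1 c hh (by simp)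
        simp only [Finset.mem_insert, Finset.mem_singleton] at this
        rcases this with e | e
        · exact n1 e.symm
        · exact n3 e
      exact ⟨Λ, hΛ, vpa_sing le_top a2, ⟨c, hcC, hn⟩, c, hF.2.2.2.1, hF.2.2.2.2.1, hn⟩
    · obtain ⟨Λ, hΛ, a1, a2, -, -, -⟩ :=
        pI hG hF ⊤ hj hc (fun _ => Subgroup.mem_top _) {c, c * j} (by
          intro y hy
          simp only [Finset.mem_insert, Finset.mem_singleton] at hy ⊢
          tauto) (by rw [Finset.card_pair n3])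
      have hn : j ∉ Λ := by
        intro hh
        have := a1 j hh (by simp)
        simp only [Finset.mem_insert, Finset.mem_singleton] at this
        rcases this with e | e
        · exact n1 e
        · exact n2 e
      exact ⟨Λ, hΛ, vpa_sing le_top a2, ⟨j, hjC, hn⟩, j, hF.1, hF.2.1, hn⟩
  rcases h with h | h
  · exact core_max hG h h5 C hC
  · have hsm : Nat.card C ≤ 2 := by
      have e := C.card_mul_index
      have i1 : C.index ≠ 1 := fun hh => hC (Subgroup.index_eq_one.1 hh)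
      have i0 : C.index ≠ 0 := Subgroup.index_ne_zero_of_finite
      have i2 : 2 ≤ C.index := by omega
      have := Nat.mul_le_mul_left (Nat.card C) i2
      omega
    have hg1 : g₀ ≠ 1 := fun e => hg₀ (e ▸ C.one_mem)
    obtain ⟨k, hk1, hk2⟩ := exists_invol_pow hG hg1
    exact ⟨∅, Cov.empty, fun g hg hg1 _ => ⟨hg1, Or.inl (vpa_sq_small hsm hg)⟩,
      ⟨g₀, hg₀, by simp⟩, g₀ ^ k, hk1, hk2, by simp⟩

theorem finB [Fintype G] {C : Subgroup G} (hC : C ≠ ⊤) {j : G} (hj : j ∈ C) (hj1 : j ≠ 1)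
    (hj2 : j * j = 1) (hjc : ∀ g, g * j = j * g) {Λ : Finset G} (h : Cov Λ)
    (h1 : ∀ g ∈ C, g * g ≠ 1 → g ∈ Λ) (h2 : ∀ g ∈ Λ, g ∉ C → g * g ≠ 1)
    (h3 : ∃ t ∈ C, t ≠ 1 ∧ t * t = 1 ∧ t ∉ Λ) (h4 : ∀ g, g ∉ C → ∃ v, g⁻¹ * v ∈ C ∧ v ∉ Λ) :
    Al C ∨ Be C := by
  have hne : ∀ v : G, v ≠ v * j := by
    intro v e
    apply hj1
    have : v * 1 = v * j := by rw [mul_one]; exact e
    exact (mul_left_cancel this).symm
  have hvj : ∀ v : G, v⁻¹ * (v * j) ∈ C := by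
    intro v
    rw [inv_mul_cancel_left]
    exact hj
  have hfree : ∀ v, v ∉ C → v * v = 1 → v ∉ Λ := fun v hv e hh => h2 v hh hv e
  by_cases hA : ∀ g, g ∉ C → ∃ v, g⁻¹ * v ∈ C ∧ v * v = 1
  · left
    obtain ⟨g₀, hg₀⟩ := vpa_exists_not hC
    obtain ⟨v₀, hv1, hv2⟩ := hA g₀ hg₀
    have hv3 := vpa_coset_not hg₀ hv1
    have hv4 := vpa_coset_not hv3 (hvj v₀)
    have hv5 := vpa_mul_sq hj2 hjc hv2
    refine ⟨Λ ∪ sharp C, ⟨vpa_add_all h (vpa_sing le_rfl h1), ?_, ?_⟩, v₀, v₀ * j, hne v₀, hv3,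
      hvj v₀, vpa_not_mem_all (hfree _ hv3 hv2) hv3, vpa_not_mem_all (hfree _ hv4 hv5) hv4,
      hv2, hv5⟩
    · intro y hy hy1
      exact Finset.mem_union_right _ (vpa_mem_sharp.2 ⟨hy, hy1⟩)
    · intro g hg
      obtain ⟨v, a1, a2⟩ := hA g hg
      have a3 := vpa_coset_not hg a1
      exact ⟨v, a1, vpa_not_mem_all (hfree _ a3 a2) a3, a2⟩
  · right
    push Not at hA
    obtain ⟨x, -, hx⟩ := hA
    obtain ⟨t, htC, ht1, ht2, htΛ⟩ := h3
    refine ⟨Λ ∪ (sharp C).erase t, t, ⟨vpa_add_erase h (vpa_sing le_rfl h1) ht2, htC, ht1, ht2,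
      ?_, ?_, ?_, ?_⟩, x, hx⟩
    · rw [Finset.mem_union]
      rintro (h | h)
      · exact htΛ h
      · exact Finset.notMem_erase t _ h
    · intro y hy hy1 hyt
      exact Finset.mem_union_right _ (Finset.mem_erase.2 ⟨hyt, vpa_mem_sharp.2 ⟨hy, hy1⟩⟩)
    · intro g hg e
      have a4 := vpa_coset_not hg (hvj g)
      have a5 := vpa_mul_sq hj2 hjc e
      exact ⟨g, g * j, hne g, by simp, hvj g, vpa_not_mem_erase (hfree _ hg e) hg,
        vpa_not_mem_erase (hfree _ a4 a5) a4, e, a5⟩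
    · intro g hg
      obtain ⟨v, a1, a2⟩ := h4 g hg
      exact ⟨v, a1, vpa_not_mem_erase a2 (vpa_coset_not hg a1)⟩

theorem pb [Fintype G] (hG : IsPGroup 2 G) (C : Subgroup G) [C.Normal] (hC : C ≠ ⊤)
    (hC0 : C ≠ ⊥) (hsq : ∀ g, g * g ∈ C) (hI : HInv C) : Al C ∨ Be C := by
  have hN : C.Normal := inferInstance
  by_cases h4 : FourIn C
  · obtain ⟨j, hj, c, hc, hF⟩ := h4
    obtain ⟨n1, n2, n3⟩ := vpa_four_ne hF
    obtain ⟨Λ, hΛ, -, a2, a3, a4, a5⟩ :=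
      pI hG hF C hj hc hsq {j, c} (by
        intro y hy
        simp only [Finset.mem_insert, Finset.mem_singleton] at hy ⊢
        tauto) (by rw [Finset.card_pair n1])
    exact finB hC hj hF.1 hF.2.1 hF.2.2.1 hΛ a2 a3 a4 a5
  by_cases hsm : Nat.card C ≤ 2
  · obtain ⟨j, hj, j1, j2, j3⟩ := exists_central_invol hG C hC0
    exact finB hC hj j1 j2 j3 Cov.empty (fun g hg e => absurd (vpa_sq_small hsm hg) e)
      (by simp) ⟨j, hj, j1, j2, by simp⟩ (fun g _ => ⟨g, by simp, by simp⟩)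
  obtain ⟨j, hj, hx⟩ := xl hG C hsq hI h4 (by omega)
  obtain ⟨g₀, g₁, hg₀, hg₁, hg₂⟩ := hI.three hC
  obtain ⟨c, hc, hF⟩ := hx g₀ hg₀
  obtain ⟨n1, n2, n3⟩ := vpa_four_ne hF
  have hcC := vpa_coset_not hg₀ hc
  let C' : Subgroup G := adj C c (fun x hx => hN.conj_mem x hx c) (hsq c)
  have hN' : C'.Normal := adj_normal (fun g => vpa_comm hsq g c)
  have hle : C ≤ C' := le_adj
  obtain ⟨Λ, hΛ, a1, a2, a3, -, -⟩ :=
    pI hG hF C' (hle hj) self_mem_adj (fun g => hle (hsq g)) {j, c * j} (by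
      intro y hy
      simp only [Finset.mem_insert, Finset.mem_singleton] at hy ⊢
      tauto) (by rw [Finset.card_pair n2])
  have hn : c ∉ Λ := by
    intro hh
    have := a1 c hh (by simp)
    simp only [Finset.mem_insert, Finset.mem_singleton] at this
    rcases this with e | e
    · exact n1 e.symm
    · exact n3 e
  have hfree : ∀ v, v ∉ C' → v * v = 1 → v ∉ Λ := fun v hv e hh => a3 v hh hv e
  have hg₃ : g₁ ∉ C' := by
    intro hh
    rcases mem_adj.1 hh with hh | hh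
    · exact hg₁ hh
    · apply hg₂
      have e : g₀⁻¹ * g₁ = (g₀⁻¹ * c) * (c⁻¹ * g₁) := by group
      rw [e]
      exact C.mul_mem hc hh
  obtain ⟨d, hd, hF'⟩ := hx g₁ hg₁
  have d1 : d ∉ C' := vpa_coset_not hg₃ (hle hd)
  have d2 : d⁻¹ * (d * j) ∈ C := by
    rw [inv_mul_cancel_left]
    exact hj
  have d3 : d * j ∉ C' := vpa_coset_not d1 (hle d2)
  have d4 : d * d = 1 := hF'.2.2.2.2.1
  have d5 := vpa_mul_sq hF.2.1 hF.2.2.1 d4
  left
  refine ⟨Λ ∪ sharp C, ⟨vpa_add_all hΛ (vpa_sing hle a2), ?_, ?_⟩, d, d * j,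
    (vpa_four_ne hF').2.2, fun hh => d1 (hle hh), d2,
    vpa_not_mem_all (hfree _ d1 d4) (fun hh => d1 (hle hh)),
    vpa_not_mem_all (hfree _ d3 d5) (fun hh => d3 (hle hh)), d4, d5⟩
  · intro y hy hy1
    exact Finset.mem_union_right _ (vpa_mem_sharp.2 ⟨hy, hy1⟩)
  · intro g hg
    by_cases hg' : g ∈ C'
    · rcases mem_adj.1 hg' with hh | hh
      · exact absurd hh hg
      · refine ⟨c, ?_, vpa_not_mem_all hn hcC, hF.2.2.2.2.1⟩
        have e : g⁻¹ * c = (c⁻¹ * g)⁻¹ := by group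
        rw [e]
        exact C.inv_mem hh
    · obtain ⟨v, v1, v2⟩ := hx g hg
      have v3 : v ∉ C' := vpa_coset_not hg' (hle v1)
      exact ⟨v, v1, vpa_not_mem_all (hfree _ v3 v2.2.2.2.2.1) (fun hh => v3 (hle hh)),
        v2.2.2.2.2.1⟩

end Pool.Agent.P.MP_da365b_co.SV
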