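import Pool.Agent.P.MP_da365b_co.VBlk
import Pool.Agent.P.MP_da365b_co.VFat
import Pool.Agent.P.MP_da365b_co.VPA

namespace Pool.Agent.P.MP_da365b_co.SV

open Classical

set_option linter.unusedSectionVars false

universe u

variable {G : Type u} [Group G]

theorem vga0_sing {g : G} (h1 : g ≠ 1) (h : g ∉ Kc G) : Sing g := ⟨h1, Or.inr (not_mem_Kc.1 h)⟩

theorem vga0_pre [Fintype G] {P : Subgroup G} (F : Fat P) {Λ : Finset P} {g : G} :
    g ∈ F.pre Λ ↔ F.y g ∈ Λ := by simp [Fat.pre]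

theorem vga0_sharp [Fintype G] {O : Subgroup G} {g : G} : g ∈ sharp O ↔ g ∈ O ∧ g ≠ 1 := by
  simp [sharp]

theorem vga0_fib [Fintype G] {P : Subgroup G} (F : Fat P) {y : P} {g : G} :
    g ∈ F.fib y ↔ F.y g = y := by simp [Fat.fib]

theorem vga0_one [Fintype G] {O P : Subgroup G} (h : Hall O P) (F : Fat P) (hF : ∀ g, F.t g ∈ O)
    {Λ : Finset P} (hΛ : Cov Λ) (hC : ∀ g ∈ (Kc G).subgroupOf P, g ≠ 1 → g ∈ Λ) {u : P}
    (h1 : u ≠ 1) (h2 : u ∉ Λ) (h3 : u * u = 1) :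
    ∃ t₀, F.y t₀ = u ∧ Cov (F.pre Λ ∪ insert t₀ (sharp O)) ∧
      ∀ g ∈ Kc G, g ≠ 1 → g ∈ F.pre Λ ∪ insert t₀ (sharp O) := by
  obtain ⟨t₀, ht, ht2⟩ := F.exists_invol (h.index ▸ h.odd) h3
  refine ⟨t₀, ht, Cov.union (Finset.disjoint_left.2 fun g hg hg' => ?_) (F.lift hΛ)
    (block_one h F hF (fun e => h1 (by rw [← ht, e, F.y_one])) ht2), fun g hg hg1 => ?_⟩
  · rw [vga0_pre] at hg
    rcases Finset.mem_insert.1 hg' with rfl | hg'
    · exact h2 (ht ▸ hg)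
    · exact hΛ.ne_one hg ((h.y_eq_one F hF g).2 (vga0_sharp.1 hg').1)
  · rw [Finset.mem_union, vga0_pre, Finset.mem_insert, vga0_sharp]
    by_cases e : F.y g = 1
    · exact Or.inr (Or.inr ⟨(h.y_eq_one F hF g).1 e, hg1⟩)
    · exact Or.inl (hC _ ((h.y_mem F hF g).2 hg) e)

theorem ga [Fintype G] {O P : Subgroup G} (h : Hall O P) (hK : Kc G ≠ ⊤)
    (hP : ¬ IsCyclic P ∨ Nat.card P ≤ 4) : Cov (Finset.univ.erase (1 : G)) := by
  obtain ⟨F, hF⟩ := exists_fat h.compl h.odd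
  rcases pa h.two ((Kc G).subgroupOf P) (h.sub_ne_top hK) (fun g => sq_mem_Kc (g : G)) hP with
    ⟨Λ, hΛ, hC, u, h1, h2, h3⟩ | ⟨Λ, u, hΛ, h1, h2, h3, h4, hC, x, h5, h6, h7⟩
  · obtain ⟨t₀, -, hc, hk⟩ := vga0_one h F hF hΛ hC (u := u) (fun e => h1 (e ▸ one_mem _)) h2 h3
    exact hc.finish fun g hg hg' => vga0_sing hg fun e => hg' (hk g e hg)
  · obtain ⟨t₀, ht, ht2⟩ := F.exists_invol (h.index ▸ h.odd) h3
    obtain ⟨f, -, hf⟩ := F.surj 1 x
    obtain ⟨χ, hχ⟩ := not_mem_Kc.1 fun e => h5 (hf ▸ (h.y_mem F hF f).2 e)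
    have hb := block_two h F hF χ (fun e => h2 (by rw [← ht, e, F.y_one])) ht2
      (mem_Kc.1 ((h.y_mem F hF t₀).1 (ht ▸ h1)) χ) hχ fun e => h7 (hf ▸ F.y_sq e)
    refine (Cov.union (Finset.disjoint_left.2 fun g hg hg' => ?_) (F.lift hΛ) hb).finish
      fun g hg hg' => ?_
    · rw [vga0_pre] at hg
      simp only [Finset.mem_union, Finset.mem_erase, Finset.mem_insert, Finset.mem_singleton,
        vga0_sharp, vga0_fib] at hg'
      rcases hg' with (hg' | hg') | rfl | rfl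
      · exact hΛ.ne_one hg ((h.y_eq_one F hF g).2 hg'.1)
      · exact h4 (ht ▸ hg'.2 ▸ hg)
      · exact h6 (hf ▸ hg)
      · have := hΛ.inv_mem hg
        rw [F.y_inv, inv_inv, hf] at this
        exact h6 this
    · by_cases e : g ∈ Kc G
      · simp only [Finset.mem_union, Finset.mem_erase, vga0_sharp, vga0_fib, vga0_pre, not_or,
          not_and] at hg'
        have e1 : F.y g = u := by
          by_contra e1
          exact hg'.1 (hC _ ((h.y_mem F hF g).2 e)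
            (fun e2 => hg'.2.1.1 ((h.y_eq_one F hF g).1 e2) hg) e1)
        have e2 : g = t₀ := by
          by_contra e2
          exact hg'.2.1.2 e2 (e1.trans ht.symm)
        exact ⟨hg, Or.inl (e2 ▸ ht2)⟩
      · exact vga0_sing hg e

theorem p1_of_al [Fintype G] {O P : Subgroup G} (h : Hall O P)
    (hA : Al ((Kc G).subgroupOf P)) : ∃ Λ, P1 (Kc G) Λ := by
  obtain ⟨F, hF⟩ := exists_fat h.compl h.odd
  obtain ⟨Λ, ⟨hΛ, hC, hV⟩, u, u', hne, h1, h2, h3, h4, h5, h6⟩ := hA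
  obtain ⟨t₀, ht, hc, hk⟩ := vga0_one h F hF hΛ hC
    (fun e => h1 (by rwa [e, mul_one, inv_mem_iff] at h2)) h4 h6
  refine ⟨_, hc, hk, fun g hg => ?_⟩
  have hy := mt (h.y_mem F hF g).1 hg
  obtain ⟨v, k1, k2, k3, k4⟩ : ∃ v, (F.y g)⁻¹ * v ∈ (Kc G).subgroupOf P ∧ v ∉ Λ ∧ v * v = 1 ∧
      v ≠ u' := by
    obtain ⟨v, k1, k2, k3⟩ := hV _ hy
    by_cases e : v = u'
    · refine ⟨u, ?_, h3, h5, hne⟩
      have := mul_mem k1 (inv_mem h2)
      rwa [e, mul_inv_rev, inv_inv, mul_assoc, mul_inv_cancel_left] at this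
    · exact ⟨v, k1, k2, k3, e⟩
  obtain ⟨w, hw, hw2⟩ := F.exists_invol (h.index ▸ h.odd) k3
  refine ⟨w, (h.y_coset F hF g w).1 (hw ▸ k1), fun hm => ?_, hw2⟩
  rw [Finset.mem_union, vga0_pre, Finset.mem_insert, vga0_sharp, hw] at hm
  rcases hm with hm | rfl | hm
  · exact k2 hm
  · exact k4 (hw.symm.trans ht)
  · rw [← hw, (h.y_eq_one F hF w).2 hm.1, mul_one, inv_mem_iff] at k1
    exact hy k1

end Pool.Agent.P.MP_da365b_co.SV
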