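import Pool.Agent.P.MP_da365b_co.VCov

namespace Pool.Agent.P.MP_da365b_co.SV

open Classical

set_option linter.unusedSectionVars false

universe u

variable {G : Type u} [Group G]

theorem vtr0_smul (M : Subgroup G) [hM : M.Normal] {d : G} (hd : d ∈ M) (q : G ⧸ M) :
    d • q = q := by
  induction q using QuotientGroup.induction_on with
  | H x =>
    change ((d * x : G) : G ⧸ M) = x
    rw [QuotientGroup.eq]
    have e : (d * x)⁻¹ * x = x⁻¹ * d⁻¹ * x⁻¹⁻¹ := by group
    rw [e]
    exact hM.conj_mem _ (M.inv_mem hd) _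

theorem vtr0_transfer [Finite G] (M : Subgroup G) [M.Normal] (hodd : Odd M.index)
    (φ : M →* ℤˣ) {d : G} (hd : d ∈ M)
    (h : ∀ (x : G) (n : M), (n : G) = x⁻¹ * d * x → φ n = -1) :
    MonoidHom.transfer φ d = -1 := by
  let _ := M.fintypeQuotientOfFiniteIndex
  rw [MonoidHom.transfer_def φ default d]
  unfold Subgroup.leftTransversals.diff
  simp only
  rw [Finset.prod_congr rfl (g := fun _ => (-1 : ℤˣ))]
  · rw [Finset.prod_const, Finset.card_univ, ← Nat.card_eq_fintype_card]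
    exact Odd.neg_one_pow hodd
  · intro q _
    apply h ((default : M.LeftTransversal).2.leftQuotientEquiv q : G)
    simp only [Subgroup.smul_apply_eq_smul_apply_inv_smul, vtr0_smul M (M.inv_mem hd), smul_eq_mul,
      mul_assoc]

/-- Transfer of a character from a normal subgroup of odd index. -/
theorem tr [Finite G] (N H : Subgroup G) [N.Normal] (hNH : N ≤ H) (hodd : Odd N.index)
    (χ₀ : N →* ℤˣ) :
    ∃ χ : H →* ℤˣ, ∀ d : H, (d : G) ∈ N →
      (∀ x ∈ H, ∀ n : N, (n : G) = x⁻¹ * d * x → χ₀ n = -1) → χ d = -1 := by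
  have ho : Odd (N.subgroupOf H).index := by
    rw [← Subgroup.relIndex_mul_index hNH] at hodd
    exact (Nat.odd_mul.1 hodd).1
  refine ⟨MonoidHom.transfer (χ₀.comp (Subgroup.subgroupOfEquivOfLe hNH).toMonoidHom), ?_⟩
  intro d hd h
  apply vtr0_transfer _ ho _ (Subgroup.mem_subgroupOf.2 hd)
  intro x n hn
  apply h x x.2
  have := congrArg (fun y : H => (y : G)) hn
  simpa using this

theorem vtr0_comm (V : Subgroup G) (h2 : ∀ v ∈ V, v * v = 1) {a b : G} (ha : a ∈ V) (hb : b ∈ V) :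
    a * b = b * a := by
  have e1 : a⁻¹ = a := inv_eq_of_mul_eq_one_right (h2 a ha)
  have e2 : b⁻¹ = b := inv_eq_of_mul_eq_one_right (h2 b hb)
  have e3 : (a * b)⁻¹ = a * b := inv_eq_of_mul_eq_one_right (h2 _ (V.mul_mem ha hb))
  rw [← e3, mul_inv_rev, e1, e2]

/-- A chosen element of `V` that does not commute with `q`. -/
noncomputable def vtr0_s (V : Subgroup G) (q : G) : G :=
  Classical.epsilon fun s => s ∈ V ∧ s * q ≠ q * s

theorem vtr0_s_spec {V : Subgroup G} {q : G} (h : ∃ s ∈ V, s * q ≠ q * s) :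
    vtr0_s V q ∈ V ∧ vtr0_s V q * q ≠ q * vtr0_s V q :=
  Classical.epsilon_spec h

theorem vtr0_s_inv (V : Subgroup G) (q : G) : vtr0_s V q⁻¹ = vtr0_s V q := by
  unfold vtr0_s
  congr 1
  funext s
  have : s * q⁻¹ = q⁻¹ * s ↔ s * q = q * s := by
    constructor
    · intro h
      have h' : Commute s q⁻¹ := h
      exact (Commute.inv_right_iff.1 h')
    · intro h
      have h' : Commute s q := h
      exact h'.inv_right
  simp only [ne_eq, this]

theorem vtr0_s_mul (V : Subgroup G) (h2 : ∀ v ∈ V, v * v = 1) (q : G) {v : G} (hv : v ∈ V) :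
    vtr0_s V (q * v) = vtr0_s V q := by
  unfold vtr0_s
  congr 1
  funext s
  apply propext
  apply and_congr_right
  intro hs
  have : s * (q * v) = q * v * s ↔ s * q = q * s := by
    rw [mul_assoc q v s, ← vtr0_comm V h2 hs hv, ← mul_assoc, ← mul_assoc, mul_left_inj]
  simp only [ne_eq, this]

theorem t1 [Fintype G] (V : Subgroup G) [V.Normal] (h2 : ∀ v ∈ V, v * v = 1)
    (hc : ∀ q, q ∉ V → ∃ s ∈ V, s * q ≠ q * s) :
    Cov (Finset.univ.filter fun q : G => q ∉ V) := by
  have hN : V.Normal := inferInstance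
  let T : Finset G := Finset.univ.filter fun s => s ∈ V
  have hT : ∀ s, s ∈ T ↔ s ∈ V := fun s => by simp [T]
  let L : G → Set G := fun s => {q | q ∉ V ∧ vtr0_s V q = s}
  have hLm : ∀ s, ∀ v ∈ V, ∀ q, q * v ∈ L s ↔ q ∈ L s := by
    intro s v hv q
    simp only [L, Set.mem_ofPred_eq, vtr0_s_mul V h2 q hv, V.mul_mem_cancel_right hv]
  have hLi : ∀ s q, q ∈ L s → q⁻¹ ∈ L s := by
    intro s q hq
    simp only [L, Set.mem_ofPred_eq, vtr0_s_inv, inv_mem_iff] at hq ⊢
    exact hq
  have hM : ∀ s ∈ T, Mt (L s) (XP (L s)) := by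
    intro s hs
    rw [hT] at hs
    have e : {g | g * s ∈ L s} = L s := Set.ext fun g => hLm s s hs g
    have := mt_pr s (h2 s hs) (L s) (hLi s) ?_ ?_
    · rwa [e] at this
    · intro d hd
      have e1 : s * d * s = d * (d⁻¹ * s * d⁻¹⁻¹ * s) := by group
      rw [e1, hLm s _ (V.mul_mem (hN.conj_mem s hs _) hs)]
      exact hd
    · rintro d ⟨hd, rfl⟩
      exact (vtr0_s_spec (hc d hd)).2
  have hB := Mt.biUnion T L (fun s => XP (L s)) hM ?_ ?_
  · refine ⟨?_, Pt G, inferInstance, XP {q | q ∉ V}, ?_, ?_⟩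
    · intro g hg e
      rw [Finset.mem_filter] at hg
      exact hg.2 (e ▸ V.one_mem)
    · rintro g p ⟨x, hx, b, rfl, hb⟩
      refine ⟨g * x * g⁻¹, ?_, b, smul_pr g x b, ?_⟩
      · intro h
        apply hx
        have := hN.conj_mem _ h g⁻¹
        have e : g⁻¹ * (g * x * g⁻¹) * g⁻¹⁻¹ = x := by group
        rwa [e] at this
      · intro h
        apply hb
        have e : x * x = g⁻¹ * (g * x * g⁻¹ * (g * x * g⁻¹)) * g := by group
        rw [e, h]
        group
    · have e1 : (⋃ s ∈ T, L s) = ((Finset.univ.filter fun q : G => q ∉ V : Finset G) : Set G) := by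
        ext q
        simp only [Set.mem_iUnion, Finset.coe_filter, Finset.mem_univ, true_and,
          Set.mem_ofPred_eq, exists_prop]
        constructor
        · rintro ⟨s, -, hq, -⟩
          exact hq
        · intro hq
          exact ⟨vtr0_s V q, (hT _).2 (vtr0_s_spec (hc q hq)).1, hq, rfl⟩
      have e2 : (⋃ s ∈ T, XP (L s)) = XP {q | q ∉ V} := by
        ext p
        simp only [Set.mem_iUnion, exists_prop]
        constructor
        · rintro ⟨s, -, q, hq, hb⟩
          exact ⟨q, hq.1, hb⟩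
        · rintro ⟨q, hq, hb⟩
          exact ⟨vtr0_s V q, (hT _).2 (vtr0_s_spec (hc q hq)).1, q, ⟨hq, rfl⟩, hb⟩
      rwa [e1, e2] at hB
  · intro i _ j _ hij
    rw [Set.disjoint_left]
    rintro q ⟨-, hi⟩ ⟨-, hj⟩
    exact hij (hi.symm.trans hj)
  · intro i _ j _ hij
    rw [Set.disjoint_left]
    rintro p ⟨a, ha, b, rfl, -⟩ ⟨c, hc', b', e, -⟩
    apply hij
    rcases (pr_inj e).1 with k | k
    · rw [← ha.2, ← hc'.2, k]
    · rw [← ha.2, ← hc'.2, k, vtr0_s_inv]

theorem noInv_of [Finite G] (hK : Kc G = ⊤) (N : Subgroup G) [N.Normal] (hodd : Odd N.index) :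
    NoInv N := by
  intro χ₀ hinv g
  by_contra hg
  have hg' : χ₀ g = -1 := (Int.units_eq_one_or _).resolve_left hg
  have h1 := vtr0_transfer N hodd χ₀ g.2 (by
    intro x n hn
    rw [← hg', ← hinv (MulAut.conjNormal x⁻¹) g]
    congr 1
    apply Subtype.ext
    rw [hn, MulAut.conjNormal_apply, inv_inv])
  have h2 : (g : G) ∈ Kc G := hK ▸ Subgroup.mem_top _
  have h3 : MonoidHom.transfer χ₀ (g : G) = 1 :=
    (Subgroup.mem_iInf.1 h2 (MonoidHom.transfer χ₀) : (g : G) ∈ (MonoidHom.transfer χ₀).ker)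
  rw [h3] at h1
  exact absurd h1 (by decide)

end Pool.Agent.P.MP_da365b_co.SV
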