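import Pool.Agent.P.MP_da365b_co.VHall0
import Pool.Agent.P.MP_da365b_co.VTr0

namespace Pool.Agent.P.MP_da365b_co.SV

open Classical
open scoped Pointwise

set_option linter.unusedSectionVars false

universe u

variable {G : Type u} [Group G]

theorem vhall_mem_Kc {g : G} : g ∈ Kc G ↔ ∀ χ : G →* ℤˣ, χ g = 1 := by
  unfold Kc
  rw [Subgroup.mem_iInf]
  exact Iff.rfl

theorem vhall_Kc_normal : (Kc G).Normal :=
  ⟨fun n hn g => vhall_mem_Kc.2 fun χ => by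
    rw [map_mul, map_mul, vhall_mem_Kc.1 hn χ, mul_one, ← map_mul, mul_inv_cancel, map_one]⟩

theorem vhall_mem_Km {N : Subgroup G} {g : G} :
    g ∈ Km N ↔ ∃ h : g ∈ N, ∀ χ : N →* ℤˣ, χ ⟨g, h⟩ = 1 := by
  constructor
  · rintro ⟨n, hn, rfl⟩
    exact ⟨n.2, vhall_mem_Kc.1 hn⟩
  · rintro ⟨h, hχ⟩
    exact ⟨⟨g, h⟩, vhall_mem_Kc.2 hχ, rfl⟩

theorem vhall_Km_normal (N : Subgroup G) [hN : N.Normal] : (Km N).Normal :=
  ⟨fun n hn g => by
    obtain ⟨h, hχ⟩ := vhall_mem_Km.1 hn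
    exact vhall_mem_Km.2 ⟨hN.conj_mem n h g, fun χ =>
      hχ (χ.comp (MulAut.conjNormal (H := N) g).toMonoidHom)⟩⟩

/-- The elements whose commutators with `N` lie in `Km N`. -/
def vhallC (N : Subgroup G) [hN : N.Normal] : Subgroup G where
  carrier := {g | ∀ s ∈ N, g * s * g⁻¹ * s⁻¹ ∈ Km N}
  one_mem' := fun s _ => by simp
  mul_mem' := fun {a b} ha hb s hs => by
    have h1 := (vhall_Km_normal N).conj_mem _ (hb s hs) a
    have e : a * b * s * (a * b)⁻¹ * s⁻¹ =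
        a * (b * s * b⁻¹ * s⁻¹) * a⁻¹ * (a * s * a⁻¹ * s⁻¹) := by group
    rw [e]
    exact (Km N).mul_mem h1 (ha s hs)
  inv_mem' := fun {a} ha s hs => by
    have h1 := (vhall_Km_normal N).conj_mem _ ((Km N).inv_mem (ha s hs)) a⁻¹
    have e : a⁻¹ * s * a⁻¹⁻¹ * s⁻¹ = a⁻¹ * (a * s * a⁻¹ * s⁻¹)⁻¹ * a⁻¹⁻¹ := by group
    rw [e]
    exact h1

theorem vhallC_normal (N : Subgroup G) [hN : N.Normal] : (vhallC N).Normal :=
  ⟨fun a ha g s hs => by
    have h1 := (vhall_Km_normal N).conj_mem _ (ha _ (hN.conj_mem s hs g⁻¹)) g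
    have e : g * a * g⁻¹ * s * (g * a * g⁻¹)⁻¹ * s⁻¹ =
        g * (a * (g⁻¹ * s * g⁻¹⁻¹) * a⁻¹ * (g⁻¹ * s * g⁻¹⁻¹)⁻¹) * g⁻¹ := by group
    rw [e]
    exact h1⟩

theorem vhall_le_C (N : Subgroup G) [hN : N.Normal] : N ≤ vhallC N := fun a ha s hs => by
  refine vhall_mem_Km.2 ⟨N.mul_mem (N.mul_mem (N.mul_mem ha hs) (N.inv_mem ha)) (N.inv_mem hs),
    fun χ => ?_⟩
  have e : χ (⟨a, ha⟩ * ⟨s, hs⟩ * (⟨a, ha⟩ : N)⁻¹ * (⟨s, hs⟩ : N)⁻¹) = 1 := by
    rw [map_mul, map_mul, map_mul, map_inv, map_inv, mul_inv_cancel_comm, mul_inv_cancel]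
  exact e

theorem vhall_ne_top {H : Type u} [Group H] : Kc H ≠ ⊤ ↔ ∃ (χ : H →* ℤˣ) (d : H), χ d = -1 := by
  constructor
  · intro h
    by_contra hc
    refine h (eq_top_iff.2 fun d _ => vhall_mem_Kc.2 fun χ => ?_)
    exact (Int.units_eq_one_or (χ d)).resolve_right fun e => hc ⟨χ, d, e⟩
  · rintro ⟨χ, d, e⟩ h
    have h1 := vhall_mem_Kc.1 (h ▸ Subgroup.mem_top d : d ∈ Kc H) χ
    rw [e] at h1
    exact absurd h1 (by decide)

theorem vhallC_ne [Finite G] (N : Subgroup G) [hN : N.Normal] (hodd : Odd N.index)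
    (hK : Kc N ≠ ⊤) : Kc (vhallC N) ≠ ⊤ := by
  obtain ⟨χ₀, d, hd⟩ := vhall_ne_top.1 hK
  obtain ⟨χ, hχ⟩ := tr N (vhallC N) (vhall_le_C N) hodd χ₀
  refine vhall_ne_top.2 ⟨χ, ⟨d, vhall_le_C N d.2⟩, hχ _ d.2 fun x hx n hn => ?_⟩
  obtain ⟨h1, h2⟩ := vhall_mem_Km.1 ((vhallC N).inv_mem hx d d.2)
  have e : n = ⟨_, h1⟩ * d := Subtype.ext (by
    rw [hn]
    simp only [Subgroup.coe_mul]
    group)
  rw [e, map_mul, h2, one_mul, hd]

theorem exists_N1 [Finite G] [Group.IsSolvable G] (h2 : Even (Nat.card G)) :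
    ∃ N : Subgroup G, N.Normal ∧ Odd N.index ∧ Kc N ≠ ⊤ ∧
      ∀ g, g ∉ N → ∃ s ∈ N, g * s * g⁻¹ * s⁻¹ ∉ Km N := by
  obtain ⟨N, ⟨hN, hodd, hK⟩, hmax⟩ := Set.Finite.exists_maximal
    (s := {N : Subgroup G | N.Normal ∧ Odd N.index ∧ Kc N ≠ ⊤}) (Set.toFinite _) (exists_N0 h2)
  refine ⟨N, hN, hodd, hK, fun g hg => ?_⟩
  by_contra hc
  refine hg (hmax (y := vhallC N) ⟨vhallC_normal N, ?_, vhallC_ne N hodd hK⟩ (vhall_le_C N) ?_)
  · exact Odd.of_dvd_nat hodd (Subgroup.index_dvd_of_le (vhall_le_C N))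
  · intro s hs
    by_contra h
    exact hc ⟨s, hs, h⟩

theorem vhall_odd [Finite G] {O : Subgroup G} (h : Odd (Nat.card O)) : O ≤ Kc G := fun o ho => by
  refine vhall_mem_Kc.2 fun χ => (Int.units_eq_one_or (χ o)).resolve_right fun e => ?_
  have h1 : o ^ Nat.card O = 1 := by
    have := pow_card_eq_one' (x := (⟨o, ho⟩ : O))
    exact congrArg Subtype.val this
  have h2 := congrArg χ h1
  rw [map_pow, map_one, e, h.neg_one_pow] at h2
  exact absurd h2 (by decide)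

theorem vhall_index [Finite G] {O P : Subgroup G} (h : Hall O P) : ¬ 2 ∣ P.index := by
  rw [h.compl.index_eq_card]
  exact h.odd.not_two_dvd_nat

theorem vhall_dec {O P : Subgroup G} (h : Hall O P) (g : G) : ∃ o ∈ O, ∃ p : P, g = o * p := by
  obtain ⟨⟨o, p⟩, e⟩ := h.compl.2 g
  exact ⟨o, o.2, p, e.symm⟩

theorem vhall_ext [Finite G] {O P : Subgroup G} (h : Hall O P) (ψ : P →* ℤˣ)
    (hψ : ∀ g ∈ (Kc G).subgroupOf P, ψ g = 1) : ∃ χ : G →* ℤˣ, ∀ p : P, χ p = ψ p := by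
  have := vhall_Kc_normal (G := G)
  let φ : P →* G ⧸ Kc G := (QuotientGroup.mk' (Kc G)).comp P.subtype
  have hs : Function.Surjective φ := fun q => by
    obtain ⟨g, rfl⟩ := QuotientGroup.mk'_surjective (Kc G) q
    obtain ⟨o, ho, p, rfl⟩ := vhall_dec h g
    refine ⟨p, ?_⟩
    have e : QuotientGroup.mk' (Kc G) o = 1 := (QuotientGroup.eq_one_iff o).2 (vhall_odd h.odd ho)
    rw [map_mul, e, one_mul]
    rfl
  have hk : φ.ker ≤ ψ.ker := fun p hp => hψ p ((QuotientGroup.eq_one_iff (p : G)).1 hp)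
  exact ⟨(φ.liftOfSurjective hs ⟨ψ, hk⟩).comp (QuotientGroup.mk' (Kc G)), fun p =>
    φ.liftOfRightInverse_comp_apply _ (Function.rightInverse_surjInv hs) ⟨ψ, hk⟩ p⟩

theorem vhall_conj [Finite G] {O P : Subgroup G} (h : Hall O P) (α : G ≃* G) :
    ∃ x : G, P.map (α.trans (MulAut.conj x)).toMonoidHom = P := by
  have : Fact (Nat.Prime 2) := ⟨Nat.prime_two⟩
  let S : Sylow 2 G := h.two.toSylow (vhall_index h)
  let a : MulAut G := α
  obtain ⟨x, hx⟩ := MulAction.exists_smul_eq G (a • S) S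
  refine ⟨x, ?_⟩
  have e : ((MulAut.conj x * a) • S : Sylow 2 G) = S := by rw [mul_smul]; exact hx
  exact congrArg Sylow.toSubgroup e

theorem Hall.hInv [Finite G] {O P : Subgroup G} (h : Hall O P) (hI : NoInv G) :
    HInv ((Kc G).subgroupOf P) := by
  intro ψ hψ hinv
  obtain ⟨χ, hχ⟩ := vhall_ext h ψ hψ
  have key : ∀ β : G ≃* G, P.map β.toMonoidHom = P → ∀ g, χ (β g) = χ g := by
    intro β hβ g
    let γ : P ≃* P := (β.subgroupMap P).trans (MulEquiv.subgroupCongr hβ)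
    have hγ : ∀ p : P, (γ p : G) = β p := fun p => rfl
    have h1 : ∀ p : P, γ p ∈ (Kc G).subgroupOf P ↔ p ∈ (Kc G).subgroupOf P := fun p => by
      rw [Subgroup.mem_subgroupOf, Subgroup.mem_subgroupOf, hγ, vhall_mem_Kc, vhall_mem_Kc]
      constructor
      · intro hp ξ
        have := hp (ξ.comp β.symm.toMonoidHom)
        simpa using this
      · intro hp ξ
        exact hp (ξ.comp β.toMonoidHom)
    obtain ⟨o, ho, p, rfl⟩ := vhall_dec h g
    have ho' := vhall_mem_Kc.1 (vhall_odd h.odd ho)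
    have h2 : χ (β o) = 1 := ho' (χ.comp β.toMonoidHom)
    rw [map_mul, map_mul, map_mul, h2, ho' χ, ← hγ, hχ, hχ, hinv γ h1]
  intro p
  rw [← hχ]
  refine hI χ (fun α g => ?_) p
  obtain ⟨x, hx⟩ := vhall_conj h α
  have h3 := key _ hx g
  rw [MulEquiv.trans_apply, MulAut.conj_apply, map_mul, map_mul, map_inv, mul_inv_cancel_comm] at h3
  exact h3

/-- A cyclic Sylow 2-subgroup has a normal complement. -/
theorem exists_hall_normal [Finite G] {O P : Subgroup G} (h : Hall O P) (hP : IsCyclic P) :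
    ∃ O' : Subgroup G, Hall O' P ∧ O'.Normal := by
  have : Fact (Nat.Prime 2) := ⟨Nat.prime_two⟩
  by_cases h2 : 2 ∣ Nat.card G
  · let S : Sylow 2 G := h.two.toSylow (vhall_index h)
    have hp : (Nat.card G).minFac = 2 := (Nat.minFac_eq_two_iff _).2 h2
    have hS : IsCyclic S := hP
    have hc := hS.isComplement' hp
    refine ⟨_, ⟨hc, ?_, h.two⟩, inferInstance⟩
    have e1 := hc.index_eq_card
    have e2 : (S : Subgroup G).index = Nat.card O := h.compl.index_eq_card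
    rw [← e1, e2]
    exact h.odd
  · refine ⟨O, h, ?_⟩
    have hP1 : P = ⊥ := by
      rcases h.two.card_eq_or_dvd with e | e
      · exact Subgroup.card_eq_one.1 e
      · exact absurd (e.trans P.card_subgroup_dvd_card) h2
    have hc := h.compl
    rw [hP1, Subgroup.isComplement'_bot_right] at hc
    rw [hc]
    infer_instance

end Pool.Agent.P.MP_da365b_co.SV
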