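import Pool.Agent.P.MP_da365b_co.VGA
import Pool.Agent.P.MP_da365b_co.VHall

namespace Pool.Agent.P.MP_da365b_co.SV

open Classical

set_option linter.unusedSectionVars false

universe u

variable {G : Type u} [Group G]

theorem vgb_cov [Fintype G] {Λ D : Finset G} (h : Cov Λ) (h1 : (1 : G) ∈ D)
    (h2 : ∀ d ∈ D, d⁻¹ ∈ D) (h3 : ∀ d ∈ D, d ∉ Λ) (h4 : ∀ g ∈ Kc G, g ∉ Λ → g ∈ D) :
    Cov (Finset.univ \ D) := by
  have h5 := h.add (Finset.univ \ D)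
    (fun y hy => by
      simp only [Finset.mem_sdiff, Finset.mem_univ, true_and] at hy ⊢
      exact fun e => hy (inv_inv y ▸ h2 _ e))
    (fun y hy hy' => by
      simp only [Finset.mem_sdiff, Finset.mem_univ, true_and] at hy
      exact ⟨fun e => hy (e ▸ h1), Or.inr (not_mem_Kc.1 fun e => hy (h4 y e hy'))⟩)
  rwa [Finset.union_eq_right.2 fun g hg =>
    Finset.mem_sdiff.2 ⟨Finset.mem_univ g, fun e => h3 g e hg⟩] at h5

theorem vgb_one {g : G} : (g : G ⧸ Kc G) = ((1 : G) : G ⧸ Kc G) ↔ g ∈ Kc G := by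
  rw [eq_comm, QuotientGroup.eq, inv_one, one_mul]

theorem vgb_inv (g : G) : ((g⁻¹ : G) : G ⧸ Kc G) = g := by
  rw [QuotientGroup.eq, inv_inv]
  exact sq_mem_Kc g

theorem dout_of_p1 [Fintype G] {Λ : Finset G} (h : P1 (Kc G) Λ) : DOut G := by
  obtain ⟨h0, h1, h2⟩ := h
  have h3 : ∀ q : G ⧸ Kc G, ∃ v : G, (v : G ⧸ Kc G) = q ∧ v ∉ Λ ∧ v * v = 1 := fun q => by
    obtain ⟨g, rfl⟩ := QuotientGroup.mk_surjective q
    by_cases hg : g ∈ Kc G
    · exact ⟨1, (vgb_one.2 hg).symm, fun e => h0.ne_one e rfl, one_mul 1⟩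
    · obtain ⟨v, a, b, c⟩ := h2 g hg
      exact ⟨v, (QuotientGroup.eq.2 a).symm, b, c⟩
  choose s hs1 hs2 hs3 using h3
  have h4 : ∀ d, d ∈ Finset.univ.image (fun g : G => s g) ↔ s d = d := fun d => by
    simp only [Finset.mem_image, Finset.mem_univ, true_and]
    exact ⟨by rintro ⟨g, rfl⟩; rw [hs1], fun e => ⟨d, e⟩⟩
  have h5 : s ((1 : G) : G ⧸ Kc G) = 1 := by
    by_contra e
    exact hs2 _ (h1 _ (vgb_one.1 (hs1 _)) e)
  have h6 : ∀ d ∈ Finset.univ.image (fun g : G => s g), d * d = 1 := fun d hd =>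
    (h4 d).1 hd ▸ hs3 _
  have h7 : ∀ d ∈ Finset.univ.image (fun g : G => s g),
      d⁻¹ ∈ Finset.univ.image (fun g : G => s g) := fun d hd => by
    rwa [inv_eq_of_mul_eq_one_right (h6 d hd)]
  refine ⟨Finset.univ.image fun g : G => s g, 1, (h4 1).2 h5, h7, vgb_cov h0 ((h4 1).2 h5) h7
    (fun d hd => (h4 d).1 hd ▸ hs2 _) fun g hg hg' => ?_, Or.inl rfl, fun g => ?_,
    fun d hd e => absurd (h6 d hd) e⟩
  · have e : g = 1 := by
      by_contra e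
      exact hg' (h1 g hg e)
    exact e ▸ (h4 1).2 h5
  · refine Finset.card_eq_one.2 ⟨s g, Finset.ext fun d => ?_⟩
    rw [Finset.mem_filter, h4, Finset.mem_singleton, ← QuotientGroup.eq]
    exact ⟨fun e => e.1.symm.trans (by rw [e.2]), by rintro rfl; exact ⟨by rw [hs1], (hs1 _).symm⟩⟩

theorem dout_of_p2 [Fintype G] {Λ : Finset G} {u : G} (h : P2 (Kc G) Λ u) : DOut G := by
  obtain ⟨h0, u1, u2, u3, u4, h1, h2, h2'⟩ := h
  have h3 : ∀ q : G ⧸ Kc G, ∃ v v' : G, v ≠ v' ∧ (v : G ⧸ Kc G) = q ∧ (v' : G ⧸ Kc G) = q ∧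
      v ∉ Λ ∧ v' ∉ Λ ∧ (q = ((1 : G) : G ⧸ Kc G) → v = 1 ∧ v' = u) ∧
      ((v * v = 1 ∧ v' * v' = 1) ∨ (v' = v⁻¹ ∧ ∀ w : G, (w : G ⧸ Kc G) = q → w * w ≠ 1)) := by
    intro q
    by_cases hq : q = ((1 : G) : G ⧸ Kc G)
    · exact ⟨1, u, u2.symm, hq.symm, (vgb_one.2 u1).trans hq.symm, fun e => h0.ne_one e rfl, u4,
        fun _ => ⟨rfl, rfl⟩, Or.inl ⟨one_mul 1, u3⟩⟩
    by_cases hw : ∃ w : G, (w : G ⧸ Kc G) = q ∧ w * w = 1
    · obtain ⟨w, rfl, hw⟩ := hw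
      obtain ⟨v, v', a, b, c, d, e, f⟩ := h2 w (fun e => hq (vgb_one.2 e)) hw
      exact ⟨v, v', a, (QuotientGroup.eq.2 b).symm, (QuotientGroup.eq.2 c).symm, d, e,
        fun e => absurd e hq, Or.inl f⟩
    · obtain ⟨g, rfl⟩ := QuotientGroup.mk_surjective q
      obtain ⟨v, a, b⟩ := h2' g fun e => hq (vgb_one.2 e)
      have c : (v : G ⧸ Kc G) = g := (QuotientGroup.eq.2 a).symm
      exact ⟨v, v⁻¹, fun e => hw ⟨v, c, mul_eq_one_iff_eq_inv.2 e⟩, c, (vgb_inv v).trans c, b,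
        fun e => b (inv_inv v ▸ h0.inv_mem e), fun e => absurd e hq,
        Or.inr ⟨rfl, fun w e e' => hw ⟨w, e, e'⟩⟩⟩
  choose s t hne hs ht hsΛ htΛ hone hor using h3
  let D : Finset G := Finset.univ.filter fun d => d = s d ∨ d = t d
  have h4 : ∀ d, d ∈ D ↔ d = s d ∨ d = t d := fun d => by
    simp only [D, Finset.mem_filter, Finset.mem_univ, true_and]
  have h5 : (1 : G) ∈ D := (h4 1).2 (Or.inl (hone _ rfl).1.symm)
  have h6 : ∀ d ∈ D, d * d = 1 ∨ (t d = (s d)⁻¹ ∧ ∀ w : G, (w : G ⧸ Kc G) = d → w * w ≠ 1) :=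
    fun d hd => (hor d).imp_left fun e => by
      rcases (h4 d).1 hd with e' | e'
      · rw [e']; exact e.1
      · rw [e']; exact e.2
  have h7 : ∀ d ∈ D, d⁻¹ ∈ D := fun d hd => by
    rcases h6 d hd with e | e
    · rwa [inv_eq_of_mul_eq_one_right e]
    · rw [h4, vgb_inv]
      rcases (h4 d).1 hd with e' | e'
      · exact Or.inr (by rw [e.1, ← e'])
      · exact Or.inl (inv_eq_iff_eq_inv.2 (e'.trans e.1))
  refine ⟨D, 2, h5, h7, vgb_cov h0 h5 h7 (fun d hd => ?_) fun g hg hg' => ?_, Or.inr rfl,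
    fun g => ?_, fun d hd e v hv => ((h6 d hd).resolve_left e).2 v (QuotientGroup.eq.2 hv).symm⟩
  · rcases (h4 d).1 hd with e | e
    · rw [e]; exact hsΛ _
    · rw [e]; exact htΛ _
  · by_cases e : g = 1
    · exact e ▸ h5
    · have e' : g = u := by
        by_contra e'
        exact hg' (h1 g hg e e')
      exact (h4 g).2 (Or.inr (e'.trans (hone _ (vgb_one.2 hg)).2.symm))
  · refine Finset.card_eq_two.2 ⟨s g, t g, hne _, Finset.ext fun d => ?_⟩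
    rw [Finset.mem_filter, h4, Finset.mem_insert, Finset.mem_singleton, ← QuotientGroup.eq]
    constructor
    · rintro ⟨a, b⟩
      rwa [b]
    · rintro (rfl | rfl)
      · exact ⟨Or.inl (by rw [hs]), (hs _).symm⟩
      · exact ⟨Or.inr (by rw [ht]), (ht _).symm⟩

theorem gb [Fintype G] {O P : Subgroup G} (h : Hall O P) (hK : Kc G ≠ ⊤) (hI : NoInv G) :
    DOut G := by
  by_cases h0 : (Kc G).subgroupOf P = ⊥
  · obtain ⟨g, g', a, b, c⟩ := (h.hInv hI).three (h.sub_ne_top hK)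
    obtain ⟨Λ, hΛ⟩ := p1_of_bot h h0 ⟨g, g', fun e => a (e ▸ one_mem _),
      fun e => b (e ▸ one_mem _), fun e => c (by rw [e, inv_mul_cancel]; exact one_mem _)⟩
    exact dout_of_p1 hΛ
  · rcases pb h.two _ (h.sub_ne_top hK) h0 (fun g => sq_mem_Kc (g : G)) (h.hInv hI) with a | a
    · obtain ⟨Λ, hΛ⟩ := p1_of_al h a
      exact dout_of_p1 hΛ
    · obtain ⟨Λ, u, hΛ⟩ := p2_of_be h a
      exact dout_of_p2 hΛ

end Pool.Agent.P.MP_da365b_co.SV
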