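import Pool.Agent.P.MP_da365b_co.VBlk0
import Pool.Agent.P.MP_da365b_co.VDirac

namespace Pool.Agent.P.MP_da365b_co.SV

open Classical

set_option linter.unusedSectionVars false

universe u

variable {G : Type u} [Group G]

theorem vgc0_quad (g : G) : quad (1 : G) g = {g, g⁻¹} := by
  ext x
  simp only [mem_quad, mul_one, Finset.mem_insert, Finset.mem_singleton]
  tauto

theorem vgc0_pm {K : Subgroup G} {U : Finset G} (E : Finset (G × G ⧸ K)) (h : Good (1 : G) U E) :
    PM K (labs 1 E) (cov E : Finset (G ⧸ K)) ∧ (labs (1 : G) E).card ≤ 2 * E.card := by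
  induction E using Finset.induction_on with
  | empty => exact ⟨by simpa [labs, cov] using PM.empty K, by simp [labs]⟩
  | insert e E he ih =>
    obtain ⟨h1, h2⟩ := ih (h.mono (Finset.subset_insert _ _))
    have hm := Finset.mem_insert_self e E
    have hne : ∀ e' ∈ E, e ≠ e' := fun e' he' h0 => he (h0 ▸ he')
    have e1 : labs (1 : G) (insert e E) = {e.1, e.1⁻¹} ∪ labs 1 E := by
      rw [labs, Finset.biUnion_insert, vgc0_quad]
      rfl
    have e2 : ((cov (insert e E) : Finset (G ⧸ K)) : Set (G ⧸ K)) =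
        {e.2, e.1 • e.2} ∪ ((cov E : Finset (G ⧸ K)) : Set (G ⧸ K)) := by
      rw [cov, Finset.biUnion_insert, Finset.coe_union, pts, Finset.coe_pair]
      rfl
    rw [e1, e2, Finset.card_insert_of_notMem he]
    refine ⟨(PM.long (h.strong e hm).1 (h.move e hm)).union h1 ?_ ?_, ?_⟩
    · rw [← vgc0_quad, labs, Finset.disjoint_biUnion_right]
      exact fun e' he' => h.dq e hm e' (Finset.mem_insert_of_mem he') (hne e' he')
    · rw [← Finset.coe_pair, Finset.disjoint_coe, cov, Finset.disjoint_biUnion_right]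
      exact fun e' he' => h.dp e hm e' (Finset.mem_insert_of_mem he') (hne e' he')
    · have h3 := Finset.card_union_le ({e.1, e.1⁻¹} : Finset G) (labs 1 E)
      have h4 : ({e.1, e.1⁻¹} : Finset G).card ≤ 2 := Finset.card_le_two
      omega

/-- The block on `G ⧸ P`: a loop, one label over `z`, and fillers over `Y₀`. -/
theorem gp_block [Fintype G] {O P : Subgroup G} (h : Hall O P) (h3 : 3 ≤ Nat.card O)
    (φ : G →* P) (hφ1 : ∀ o ∈ O, φ o = 1) (hφ2 : ∀ p : P, φ p = p) {u z : P} (hu1 : u ≠ 1)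
    (hu2 : u * u = 1) (hz : z * z ≠ 1) (Y₀ : Finset P) (hY : 4 ≤ Y₀.card)
    (hY1 : ∀ p ∈ Y₀, p⁻¹ ∈ Y₀ ∧ p * p ≠ 1) (hzY : z ∉ Y₀) :
    ∃ (t₀ e : G) (L : Finset G), φ t₀ = u ∧ t₀ * t₀ = 1 ∧ φ e = z ∧ (∀ g ∈ L, φ g ∈ Y₀) ∧
      (∀ g ∈ L, g⁻¹ ∈ L) ∧ L.card ≤ Nat.card O ∧ Cov (insert t₀ ({e, e⁻¹} ∪ L)) := by
  have hc : Fintype.card (G ⧸ P) = Nat.card O := by
    rw [← h.index, Subgroup.index_eq_card, Nat.card_eq_fintype_card]
  have hrep : ∀ a : G ⧸ P, ∃ o ∈ O, a = (o : G ⧸ P) := fun a => by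
    obtain ⟨⟨o, p⟩, hop⟩ := h.compl.2 a.out
    refine ⟨o, o.2, ?_⟩
    rw [← QuotientGroup.out_eq' a, ← hop]
    exact QuotientGroup.mk_mul_of_mem _ p.2
  choose r hr1 hr2 using hrep
  have k1 : ∀ a b (p : P), φ (r b * p * (r a)⁻¹) = p := fun a b p => by
    rw [map_mul, map_mul, map_inv, hφ1 _ (hr1 a), hφ1 _ (hr1 b), hφ2, one_mul, inv_one, mul_one]
  have k2 : ∀ a b (p : P), (r b * p * (r a)⁻¹) • a = b := fun a b p => by
    conv_lhs => rw [hr2 a]
    conv_rhs => rw [hr2 b]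
    rw [MulAction.Quotient.smul_mk, ← hr2 a, smul_eq_mul, inv_mul_cancel_right]
    exact QuotientGroup.mk_mul_of_mem _ p.2
  have k3 : ∀ g, φ g * φ g ≠ 1 → g * g ≠ 1 := fun g hg h0 => hg (by rw [← map_mul, h0, map_one])
  obtain ⟨m, hm⟩ : ∃ m, Nat.card O = 2 * m + 3 := by
    obtain ⟨k, hk⟩ := h.odd
    exact ⟨k - 1, by omega⟩
  obtain ⟨E, hE1, hE⟩ := dirac' (Ω := G ⧸ P) (j := (1 : G)) (mul_one 1)
    (fun g => by rw [mul_one, one_mul]) (U₁ := Finset.univ.filter fun g => φ g ∉ Y₀) (U := ∅) 4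
    le_rfl (fun a b _ => hY.trans (Finset.card_le_card_of_injOn
      (fun p : P => r b * p * (r a)⁻¹) (fun p hp => by
        have h1 := k3 _ ((k1 a b p).symm ▸ (hY1 p hp).2)
        simp only [Finset.coe_filter, Finset.mem_filter, Finset.mem_univ, true_and,
          Set.mem_ofPred_eq, k1, k2, not_not, and_true]
        exact ⟨⟨h1, h1⟩, hp⟩)
      fun p _ q _ hpq => (k1 a b p).symm.trans ((congrArg φ hpq).trans (k1 a b q))))
    (by simp [mul_comm]) m (Or.inr (by omega))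
  obtain ⟨pm, hcard⟩ := vgc0_pm E hE
  have hL : ∀ g ∈ labs (1 : G) E, φ g ∈ Y₀ := fun g hg => by
    obtain ⟨e, he, hg⟩ := Finset.mem_biUnion.1 hg
    have h1 : φ e.1 ∈ Y₀ := by simpa using hE.notU e he
    rw [vgc0_quad, Finset.mem_insert, Finset.mem_singleton] at hg
    rcases hg with rfl | rfl
    · exact h1
    · rw [map_inv]
      exact (hY1 _ h1).1
  obtain ⟨a, b, c, hab, hac, hbc, habc⟩ := Finset.card_eq_three.1
    (show (cov E)ᶜ.card = 3 by rw [Finset.card_compl, hE.card_cov]; omega)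
  have hmem : ∀ x, x ∉ cov E ↔ x = a ∨ x = b ∨ x = c := fun x => by
    rw [← Finset.mem_compl, habc]
    simp
  have t1 := k1 a a u
  have t2 : r a * u * (r a)⁻¹ * (r a * u * (r a)⁻¹) = 1 := by
    have h1 : (u : G) * u = 1 := congrArg Subtype.val hu2
    calc _ = r a * ((u : G) * u) * (r a)⁻¹ := by group
      _ = 1 := by rw [h1, mul_one, mul_inv_cancel]
  have e1 := k1 b c z
  have e2 := k3 _ (e1.symm ▸ hz)
  have e3 := k2 b c z
  have t3 := k2 a a u
  generalize r a * u * (r a)⁻¹ = t at t1 t2 t3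
  generalize r c * z * (r b)⁻¹ = e at e1 e2 e3
  refine ⟨t, e, labs 1 E, t1, t2, e1, hL, pm.inv_mem, by omega, cov_of_pm (K := P) ?_⟩
  have p1 : PM P {t} {a} := PM.short (fun h0 => hu1 (by rw [← t1, h0, map_one])) t2 t3
  have p2 : PM P {e, e⁻¹} {b, c} := e3 ▸ PM.long e2 (e3.symm ▸ hbc.symm)
  have p3 := p2.union pm (by
    rw [Finset.disjoint_left]
    intro g hg hg'
    have h1 := hL g hg'
    rw [Finset.mem_insert, Finset.mem_singleton] at hg
    rcases hg with rfl | rfl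
    · exact hzY (e1 ▸ h1)
    · rw [map_inv, e1] at h1
      exact hzY (inv_inv z ▸ (hY1 _ h1).1)) (by
    rw [Set.disjoint_left]
    rintro x (rfl | rfl)
    · exact (hmem _).2 (Or.inr (Or.inl rfl))
    · exact (hmem _).2 (Or.inr (Or.inr rfl)))
  have p4 := p1.union p3 (by
    rw [Finset.disjoint_singleton_left, Finset.mem_union, Finset.mem_insert, Finset.mem_singleton]
    rintro ((rfl | rfl) | h1)
    · exact e2 t2
    · exact e2 (by rw [← mul_inv_rev, inv_eq_one] at t2; exact t2)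
    · exact (hY1 _ (hL t h1)).2 (t1.symm ▸ hu2)) (by
    rw [Set.disjoint_singleton_left]
    rintro ((h1 | h1) | h1)
    · exact hab h1
    · exact hac h1
    · exact (hmem _).2 (Or.inl rfl) h1)
  have e4 : ({a} ∪ ({b, c} ∪ ((cov E : Finset (G ⧸ P)) : Set (G ⧸ P))) : Set (G ⧸ P)) =
      Set.univ := by
    refine Set.eq_univ_of_forall fun x => ?_
    by_cases hx : x ∈ cov E
    · exact Or.inr (Or.inr hx)
    · rcases (hmem x).1 hx with h1 | h1 | h1
      · exact Or.inl h1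
      · exact Or.inr (Or.inl (Or.inl h1))
      · exact Or.inr (Or.inl (Or.inr h1))
  rw [Finset.insert_eq t, ← e4]
  exact p4

end Pool.Agent.P.MP_da365b_co.SV
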