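import Pool.Agent.P.MP_da365b_co.VCov

namespace Pool.Agent.P.MP_da365b_co.SV

open Classical

set_option linter.unusedSectionVars false

universe u

variable {G : Type u} [Group G]

theorem vgc1_mem {Q : Type u} [Group Q] {y : Q} {d : ℤ} (hd : d ∣ orderOf y) (k : ℤ) :
    y ^ k ∈ Subgroup.zpowers (y ^ d) ↔ d ∣ k := by
  constructor
  · rintro ⟨c, hc⟩
    simp only [← zpow_mul, zpow_eq_zpow_iff_modEq] at hc
    have h1 := (hd.trans hc.dvd).add (dvd_mul_right d c)
    rwa [sub_add_cancel] at h1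
  · rintro ⟨c, rfl⟩
    exact ⟨c, (zpow_mul y d c).symm⟩

/-- The labels over `y ^ 2` and its inverse, without one pair, in blocks of four points. -/
theorem z4_blocks [Fintype G] {Q : Type u} [Group Q] (φ : G →* Q) (hφ : Function.Surjective φ)
    {y : Q} {n : ℕ} (hall : ∀ g, g ∈ Subgroup.zpowers y) (hy : orderOf y = 2 * (2 * n))
    (hn : 2 ≤ n) (hodd : Odd (Nat.card φ.ker)) {e : G} (he : φ e = y ^ (2 : ℤ)) :
    Cov ((Finset.univ.filter fun g : G => φ g = y ^ (2 : ℤ) ∨ φ g = y ^ (-2 : ℤ)) \ {e, e⁻¹}) := by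
  have hk : ∀ g : G, ∃ k : ℤ, φ g = y ^ k := fun g => by
    obtain ⟨k, hk⟩ := hall (φ g)
    exact ⟨k, hk.symm⟩
  have h4 := vgc1_mem (y := y) (d := 4) ⟨n, by rw [hy]; push_cast; ring⟩
  have h2 := vgc1_mem (y := y) (d := 2) ⟨2 * n, by rw [hy]; push_cast; ring⟩
  have hne : ∀ k : ℤ, k = 4 ∨ k = -4 → y ^ k ≠ 1 := fun k hk h => by
    have h0 : |k| = 4 := by rcases hk with rfl | rfl <;> rfl
    have h1 := Int.le_of_dvd (by omega) ((dvd_abs _ k).2 (orderOf_dvd_iff_zpow_eq_one.2 h))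
    rw [hy, h0] at h1
    omega
  have hc : ∀ g g' : G, φ (g * g' * g⁻¹) = φ g' := fun g g' => by
    obtain ⟨k, h⟩ := hk g
    obtain ⟨k', h'⟩ := hk g'
    rw [map_mul, map_mul, map_inv, h, h', ← zpow_add, add_comm, zpow_add, mul_inv_cancel_right]
  have hw : ∀ (x : G) (k : ℤ), φ x = y ^ k → φ (e⁻¹ * x) = y ^ (k - 2) := fun x k h => by
    rw [map_mul, map_inv, he, h, ← zpow_neg, ← zpow_add, neg_add_eq_sub]
  have hL : Lev ((Subgroup.zpowers (y ^ (4 : ℤ))).comap φ) e
      ((Subgroup.zpowers (y ^ (4 : ℤ))).comap φ) ((Subgroup.zpowers (y ^ (2 : ℤ))).comap φ) :=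
    { normal := ⟨fun g hg g' => by rwa [Subgroup.mem_comap, hc]⟩
      sq := by
        rw [Subgroup.mem_comap, map_mul, he, ← zpow_add, h4]
        norm_num
      comm := fun g => by
        rw [Subgroup.mem_comap, map_mul, hc, map_inv, mul_inv_cancel]
        exact Subgroup.one_mem _
      le := le_rfl
      notK := by
        rw [Subgroup.mem_comap, he, h4]
        norm_num
      memS := fun x => by
        obtain ⟨k, h⟩ := hk x
        simp only [Subgroup.mem_comap]
        rw [hw x k h, h, h2, h4, h4]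
        omega }
  have hS : Fintype.card (G ⧸ (Subgroup.zpowers (y ^ (2 : ℤ))).comap φ) = 2 := by
    rw [← Nat.card_eq_fintype_card, ← Subgroup.index_eq_card, Subgroup.index_eq_two_iff]
    obtain ⟨a, ha⟩ := hφ y
    refine ⟨a, fun b => ?_⟩
    obtain ⟨k, h⟩ := hk b
    simp only [Subgroup.mem_comap]
    rw [map_mul, h, ha, ← zpow_add_one, h2, h2]
    unfold Xor
    omega
  have hf : ∀ b : Q, (Finset.univ.filter fun g : G => φ g = b).card = Nat.card φ.ker := fun b => by
    rw [MonoidHom.card_fiber_eq_of_mem_range φ (hφ b) (hφ 1), Nat.card_eq_fintype_card,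
      Fintype.card_subtype]
    simp only [MonoidHom.mem_ker]
  have hd : y ^ (2 : ℤ) ≠ y ^ (-2 : ℤ) := fun h => hne 4 (Or.inl rfl) (by
    rw [show (4 : ℤ) = 2 + 2 from rfl, zpow_add]
    nth_rewrite 1 [h]
    rw [zpow_neg, inv_mul_cancel])
  have he' : φ e⁻¹ = y ^ (-2 : ℤ) := by rw [map_inv, he, zpow_neg]
  obtain ⟨q, hq⟩ := hodd
  refine copies' hL q _ (fun x hx => ?_) (fun x hx => ?_) ?_
  · simp only [Finset.mem_sdiff, Finset.mem_filter, Finset.mem_univ, true_and, Finset.mem_insert,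
      Finset.mem_singleton, map_inv, zpow_neg, inv_eq_iff_eq_inv, inv_inv] at hx ⊢
    exact ⟨hx.1.symm, fun h => hx.2 h.symm⟩
  · have h1 := (Finset.mem_filter.1 (Finset.mem_sdiff.1 hx).1).2
    refine ⟨?_, fun h => ?_⟩
    · rcases h1 with h1 | h1 <;> rw [Subgroup.mem_comap, hw x _ h1, h4] <;> norm_num
    · have h3 := congrArg φ h
      rw [map_mul, map_one] at h3
      rcases h1 with h1 | h1 <;> rw [h1, ← zpow_add] at h3
      · exact hne _ (Or.inl rfl) h3
      · exact hne _ (Or.inr rfl) h3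
  · rw [Finset.card_sdiff_of_subset (by
      intro x hx
      simp only [Finset.mem_insert, Finset.mem_singleton] at hx
      rcases hx with rfl | rfl
      · exact Finset.mem_filter.2 ⟨Finset.mem_univ _, Or.inl he⟩
      · exact Finset.mem_filter.2 ⟨Finset.mem_univ _, Or.inr he'⟩), Finset.filter_or,
      Finset.card_union_of_disjoint (Finset.disjoint_filter.2 fun x _ h h' => hd (h.symm.trans h')), hf, hf,
      Finset.card_pair fun h => hd (by rw [← he, ← he', ← h]), hS, hq]
    omega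

end Pool.Agent.P.MP_da365b_co.SV
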