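import Pool.Agent.P.MP_da365b_co.VLift

namespace Pool.Agent.P.MP_da365b_co.SV

open Classical

set_option linter.unusedSectionVars false

universe u

variable {G : Type u} [Group G]

/-- Lifting data for a normal subgroup of odd index. -/
theorem exists_fat_normal [Finite G] (N : Subgroup G) [N.Normal] (hodd : Odd N.index) :
    ∃ F : Fat N, (∀ g : N, F.y g = g) ∧ ∀ g g', g⁻¹ * g' ∈ N → F.t g = F.t g' := by
  obtain ⟨k, hk⟩ := hodd
  let p : G →* G ⧸ N := QuotientGroup.mk' N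
  let sg : G ⧸ N → G := fun q => if q = 1 then 1 else q.out
  have h1 : ∀ q, p (sg q) = q := fun q => by
    simp only [sg]
    split_ifs with h
    · rw [h, map_one]
    · exact QuotientGroup.out_eq' q
  have h2 : ∀ q : G ⧸ N, q ^ (k + 1) * q ^ (k + 1) = q := fun q => by
    have : q ^ N.index = 1 := pow_card_eq_one'
    rw [← pow_add, show k + 1 + (k + 1) = N.index + 1 by omega, pow_succ, this, one_mul]
  have h3 : ∀ g, g ∈ N ↔ p g = 1 := fun g => (QuotientGroup.eq_one_iff g).symm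
  have h4 : ∀ g g', g⁻¹ * g' ∈ N ↔ p g = p g' := fun g g' => by
    rw [h3, map_mul, map_inv, inv_mul_eq_one]
  let t : G → G := fun g => sg (p g ^ (k + 1))⁻¹
  have h5 : ∀ g, t g⁻¹ = sg (p g ^ (k + 1)) := fun g => by simp only [t, map_inv, inv_pow, inv_inv]
  have h6 : ∀ g g', p (t g) = p (t g') → p g ^ (k + 1) = p g' ^ (k + 1) := fun g g' h => by
    rwa [h1, h1, inv_inj] at h
  refine ⟨⟨t, fun g => ⟨(t g⁻¹)⁻¹ * (g * t g), (h4 _ _).2 ?_⟩, fun g => (mul_inv_cancel_left _ _).symm,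
    fun g g' h => ?_, fun g g' h h' => ?_, fun x h => ?_⟩, fun g => ?_, fun g g' h => ?_⟩
  · rw [h5, map_mul, h1, h1, eq_mul_inv_iff_mul_eq, h2]
  · simp only [t, h6 _ _ ((h4 _ _).1 h)]
  · have e := congrArg Subtype.val h'
    simp only [h5, h6 _ _ (congrArg p h), h] at e
    exact mul_right_cancel (mul_left_cancel e)
  · have e : p (sg (p x)⁻¹ * h * (sg (p x))⁻¹) ^ (k + 1) = (p x)⁻¹ := by
      rw [map_mul, map_mul, map_inv, h1, h1, (h3 _).1 h.2, mul_one,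
        (Commute.refl _).mul_pow, h2]
    refine ⟨sg (p x)⁻¹ * h * (sg (p x))⁻¹, (h4 _ _).2 ?_, Subtype.ext ?_⟩
    · rw [h1, e, inv_inv]
    · simp only [h5, e]
      simp only [t, e, inv_inv]
      group
  · refine Subtype.ext ?_
    simp only [h5]
    simp [t, sg, (h3 _).1 g.2]
  · simp only [t, (h4 _ _).1 h]

theorem vl1_enum (s : Finset G) : ∃ f : G → ℕ, Set.BijOn f s (Set.Iio s.card) := by
  refine ⟨fun g => if h : g ∈ s then s.equivFin ⟨g, h⟩ else 0, fun g hg => ?_,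
    fun g hg g' hg' e => ?_, fun n hn => ?_⟩
  · simp only [dif_pos (Finset.mem_coe.1 hg)]
    exact (s.equivFin _).2
  · simp only [dif_pos (Finset.mem_coe.1 hg), dif_pos (Finset.mem_coe.1 hg')] at e
    exact congrArg Subtype.val (s.equivFin.injective (Fin.ext e))
  · exact ⟨s.equivFin.symm ⟨n, hn⟩, (s.equivFin.symm ⟨n, hn⟩).2, by simp⟩

/-- Pull a matching back along a homomorphism whose fibres on `A` have constant size. -/
theorem mult_lift {Q : Type u} [Group Q] [Finite G] [Finite Q] (φ : G →* Q) {B : Finset Q}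
    (hB : Cov B) (hB2 : ∀ b ∈ B, b * b ≠ 1) (A : Finset G) (h1 : ∀ g ∈ A, g⁻¹ ∈ A)
    (h2 : ∀ g ∈ A, φ g ∈ B) (a : ℕ) (h3 : ∀ b ∈ B, (A.filter fun g => φ g = b).card = a) :
    Cov A := by
  obtain ⟨ν, hν⟩ := symm_choice (X := Q) (Y := G → ℕ) (·⁻¹) (fun f g => f g⁻¹) inv_inv
    (fun f => by simp) (fun b f => b ∈ B → Set.BijOn f {g | g ∈ A ∧ φ g = b} (Set.Iio a))
    (fun b f h hb => (h (inv_inv b ▸ hB.inv_mem hb)).comp (f := (·⁻¹))
      ⟨fun g hg => ⟨h1 g hg.1, by rw [map_inv, hg.2, inv_inv]⟩, inv_injective.injOn,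
        fun g hg => ⟨g⁻¹, ⟨h1 g hg.1, by rw [map_inv, hg.2]⟩, inv_inv g⟩⟩)
    (fun b _ => by
      obtain ⟨f, hf⟩ := vl1_enum (A.filter fun g => φ g = b)
      exact ⟨f, fun hb => by simpa only [h3 b hb, Finset.coe_filter] using hf⟩)
    fun b h => ⟨0, fun hb => absurd (mul_eq_one_iff_inv_eq.2 h) (hB2 b hb), rfl⟩
  obtain ⟨h0, Ω, _, X, hX, -, π, hπ, hc⟩ := hB
  let act : MulAction G (Ω × ℕ) :=
    { smul := fun g x => (φ g • x.1, x.2)
      one_smul := fun x => Prod.ext (by change φ 1 • x.1 = x.1; rw [map_one, one_smul]) rfl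
      mul_smul := fun g g' x =>
        Prod.ext (by change φ (g * g') • x.1 = φ g • φ g' • x.1; rw [map_mul, mul_smul]) rfl }
  refine ⟨fun g hg e => h0 _ (h2 g hg) (by rw [e, map_one]), Ω × ℕ, act, X ×ˢ Set.Iio a,
    fun g x hx => ⟨hX _ _ hx.1, hx.2⟩, h1, fun g => (π (φ g), ν (φ g) g),
    ⟨fun g hg => ⟨hπ.1 (h2 g hg), ((hν _).1 (h2 g hg)).1 ⟨hg, rfl⟩⟩, fun g hg g' hg' e => ?_,
      fun x hx => ?_⟩, fun g hg => Prod.ext ?_ ?_⟩
  · have e1 : φ g' = φ g := hπ.2.1 (h2 g' hg') (h2 g hg) (congrArg Prod.fst e).symm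
    refine ((hν _).1 (h2 g hg)).2.1 ⟨hg, rfl⟩ ⟨hg', e1⟩ ?_
    have e2 : ν (φ g) g = ν (φ g') g' := congrArg Prod.snd e
    rw [e2, e1]
  · obtain ⟨b, hb, e⟩ := hπ.2.2 hx.1
    obtain ⟨g, ⟨hg, rfl⟩, e'⟩ := ((hν b).1 hb).2.2 hx.2
    exact ⟨g, hg, Prod.ext e e'⟩
  · change π (φ g) = φ g • π (φ g⁻¹)
    rw [map_inv]
    exact hc _ (h2 g hg)
  · change ν (φ g) g = ν (φ g⁻¹) g⁻¹
    simp only [map_inv, (hν _).2, inv_inv]

end Pool.Agent.P.MP_da365b_co.SV
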