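import Pool.Agent.P.MP_da365b_co.VBlk
import Pool.Agent.P.MP_da365b_co.VFat
import Pool.Agent.P.MP_da365b_co.VL1
import Pool.Agent.P.MP_da365b_co.VCyc
import Pool.Agent.P.MP_da365b_co.VGC0
import Pool.Agent.P.MP_da365b_co.VGC1

namespace Pool.Agent.P.MP_da365b_co.SV

open Classical

set_option linter.unusedSectionVars false

universe u

variable {G : Type u} [Group G]

theorem vgc_phi {O P : Subgroup G} (h : Hall O P) [O.Normal] :
    ∃ φ : G →* P, (∀ g, φ g = 1 ↔ g ∈ O) ∧ ∀ p : P, φ p = p := by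
  refine ⟨h.compl.symm.QuotientMulEquiv.toMonoidHom.comp (QuotientGroup.mk' O), fun g => ?_,
    fun p => h.compl.symm.QuotientMulEquiv.apply_symm_apply p⟩
  change h.compl.symm.QuotientMulEquiv (QuotientGroup.mk' O g) = 1 ↔ _
  rw [map_eq_one_iff _ h.compl.symm.QuotientMulEquiv.injective, QuotientGroup.mk'_apply,
    QuotientGroup.eq_one_iff]

theorem vgc_one {Q : Type u} [Group Q] {y : Q} {n : ℕ} (hy : orderOf y = 2 * (2 * n)) (i : ℤ) :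
    y ^ i = 1 ↔ (2 * (2 * n) : ℤ) ∣ i := by
  rw [← orderOf_dvd_iff_zpow_eq_one, hy]
  push_cast
  rfl

theorem vgc_odd_sq {Q : Type u} [Group Q] {y : Q} {n : ℕ} (hy : orderOf y = 2 * (2 * n)) (i : ℤ) :
    y ^ (2 * i + 1) * y ^ (2 * i + 1) ≠ 1 := by
  rw [← zpow_add, Ne, vgc_one hy]
  rintro ⟨c, hc⟩
  have h : 2 * i + 1 + (2 * i + 1) = 4 * (n * c) := by rw [hc]; ring
  omega

theorem vgc_odd_ne {Q : Type u} [Group Q] {y : Q} {n : ℕ} (hy : orderOf y = 2 * (2 * n))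
    (i j : ℤ) : y ^ (2 * i + 1) ≠ y ^ (2 * j) := by
  intro h
  have h1 : y ^ (2 * i + 1 - 2 * j) = 1 := by rw [zpow_sub, h, mul_inv_cancel]
  obtain ⟨c, hc⟩ := (vgc_one hy _).1 h1
  have h : 2 * i + 1 - 2 * j = 4 * (n * c) := by rw [hc]; ring
  omega

theorem vgc_par {Q : Type u} [Group Q] {y : Q} (hall : ∀ g, g ∈ Subgroup.zpowers y) (p : Q) :
    ∃ i : ℤ, p = y ^ (2 * i) ∨ p = y ^ (2 * i + 1) := by
  obtain ⟨k, rfl⟩ := Subgroup.mem_zpowers_iff.1 (hall p)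
  obtain ⟨i, hi⟩ := Int.even_or_odd' k
  exact ⟨i, hi.imp (fun h => by rw [h]) fun h => by rw [h]⟩

theorem vgc_invol {Q : Type u} [Group Q] {y : Q} {n : ℕ} (hall : ∀ g, g ∈ Subgroup.zpowers y)
    (hy : orderOf y = 2 * (2 * n)) {p : Q} (hp : p * p = 1) : p = 1 ∨ p = y ^ (2 * (n : ℤ)) := by
  obtain ⟨k, rfl⟩ := Subgroup.mem_zpowers_iff.1 (hall p)
  rw [← zpow_add, vgc_one hy] at hp
  obtain ⟨c, hc⟩ := hp
  have hk : k = 2 * n * c := by linarith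
  obtain ⟨d, hd | hd⟩ := Int.even_or_odd' c
  · left
    rw [vgc_one hy]
    exact ⟨d, by rw [hk, hd]; ring⟩
  · right
    have h1 : y ^ (2 * (2 * (n : ℤ)) * d) = 1 := (vgc_one hy _).2 ⟨d, rfl⟩
    rw [show k = 2 * (2 * (n : ℤ)) * d + 2 * n by rw [hk, hd]; ring, zpow_add, h1, one_mul]

theorem vgc_char {Q : Type u} [Group Q] {y : Q} {n : ℕ} (hall : ∀ g, g ∈ Subgroup.zpowers y)
    (hy : orderOf y = 2 * (2 * n)) :
    ∃ ψ : Q →* ℤˣ, (∀ i : ℤ, ψ (y ^ (2 * i)) = 1) ∧ ∀ i : ℤ, ψ (y ^ (2 * i + 1)) = -1 := by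
  have hm : ∀ i : ℤ, y ^ (2 * i) ∈ Subgroup.zpowers (y ^ (2 : ℤ)) := fun i =>
    Subgroup.mem_zpowers_iff.2 ⟨i, by rw [← zpow_mul]⟩
  obtain ⟨ψ, hψ⟩ := char_of_two (Subgroup.zpowers (y ^ (2 : ℤ))) (by
    intro a b ha hb
    obtain ⟨i, rfl | rfl⟩ := vgc_par hall a
    · exact absurd (hm i) ha
    obtain ⟨j, rfl | rfl⟩ := vgc_par hall b
    · exact absurd (hm j) hb
    rw [← zpow_neg, ← zpow_add, show -(2 * i + 1) + (2 * j + 1) = 2 * (j - i) by ring]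
    exact hm _)
  refine ⟨ψ, fun i => ?_, fun i => (hψ _).2 fun hi => ?_⟩
  · rcases Int.units_eq_one_or (ψ (y ^ (2 * i))) with h | h
    · exact h
    · exact absurd (hm i) ((hψ _).1 h)
  · obtain ⟨j, hj⟩ := Subgroup.mem_zpowers_iff.1 hi
    rw [← zpow_mul] at hj
    exact vgc_odd_ne hy i j hj.symm

theorem vgc_gen {Q : Type u} [Group Q] [Finite Q] (h2 : IsPGroup 2 Q) (hP : IsCyclic Q)
    (h8 : 4 < Nat.card Q) : ∃ (y : Q) (n : ℕ), (∀ g, g ∈ Subgroup.zpowers y) ∧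
      orderOf y = 2 * (2 * n) ∧ (n = 2 ∨ (4 ≤ n ∧ Even n)) := by
  have : Fact (Nat.Prime 2) := ⟨Nat.prime_two⟩
  obtain ⟨k, hk⟩ := IsPGroup.iff_card.1 h2
  obtain ⟨y, hy⟩ := hP.exists_generator
  have hk3 : 3 ≤ k := by
    by_contra hlt
    have h1 : 2 ^ k ≤ 2 ^ 2 := Nat.pow_le_pow_right (by norm_num) (by omega)
    omega
  obtain ⟨l, rfl⟩ := Nat.exists_eq_add_of_le hk3
  refine ⟨y, 2 ^ (l + 1), hy, ?_, ?_⟩
  · rw [orderOf_eq_card_of_forall_mem_zpowers hy, hk]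
    ring
  · rcases l with _ | l
    · left
      rfl
    · right
      have h1 : 1 ≤ 2 ^ l := Nat.one_le_two_pow
      refine ⟨?_, ⟨2 ^ (l + 1), by ring⟩⟩
      rw [pow_succ, pow_succ]
      omega

theorem gc [Fintype G] {O P : Subgroup G} (h : Hall O P) [O.Normal] (h3 : 3 ≤ Nat.card O)
    (hP : IsCyclic P) (h8 : 4 < Nat.card P) : Cov (Finset.univ.erase (1 : G)) := by
  obtain ⟨φ, hφ1, hφ2⟩ := vgc_phi h
  obtain ⟨F, hF⟩ := exists_fat h.compl h.odd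
  have hFy : ∀ g, F.y g = φ g := by
    intro g
    have h1 := congrArg φ (F.eq g)
    rw [map_mul, map_mul, (hφ1 _).2 (hF g), (hφ1 _).2 (hF g⁻¹), hφ2, mul_one, one_mul] at h1
    exact h1.symm
  have hfib : ∀ b : P, (F.fib b).card = Nat.card O := fun b => by rw [F.card_fib, h.index]
  have mfib : ∀ (b : P) g, g ∈ F.fib b ↔ φ g = b := fun b g => by simp [Fat.fib, hFy]
  obtain ⟨y, n, hall, hy, hn⟩ := vgc_gen h.two hP h8
  have hn2 : 2 ≤ n := by omega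
  let _ : Fintype P := Fintype.ofFinite P
  obtain ⟨B, hB, hB2, hBm, Y₀, hY4, hY⟩ := cyc_block hall hy hn
  obtain ⟨ψ, hψ0, hψ1⟩ := vgc_char hall hy
  obtain ⟨u, hu⟩ : ∃ u : P, u = y ^ (2 * (n : ℤ)) := ⟨_, rfl⟩
  obtain ⟨z, hz⟩ : ∃ z : P, z = y ^ (2 : ℤ) := ⟨_, rfl⟩
  have hz' : y ^ (-2 : ℤ) = z⁻¹ := by rw [hz, zpow_neg]
  have hu1 : u ≠ 1 := by
    rw [hu, Ne, vgc_one hy]
    intro hd
    have := Int.le_of_dvd (by omega) hd
    omega
  have hu2 : u * u = 1 := by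
    rw [hu, ← zpow_add, vgc_one hy]
    exact ⟨1, by ring⟩
  have hz2 : z * z ≠ 1 := by
    rw [hz, ← zpow_add, Ne, vgc_one hy]
    intro hd
    have := Int.le_of_dvd (by omega) hd
    omega
  have hz3 : z⁻¹ * z⁻¹ ≠ 1 := by
    rw [← mul_inv_rev, Ne, inv_eq_one]
    exact hz2
  have hY1 : ∀ p ∈ Y₀, p⁻¹ ∈ Y₀ ∧ p * p ≠ 1 := by
    intro p hp
    obtain ⟨h1, -, i, rfl⟩ := hY p hp
    exact ⟨h1, vgc_odd_sq hy i⟩
  have hzY : z ∉ Y₀ := by
    intro hp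
    obtain ⟨-, -, i, hi⟩ := hY z hp
    exact vgc_odd_ne hy i 1 (by rw [← hi, hz, mul_one])
  have hzY' : z⁻¹ ∉ Y₀ := fun hp => hzY (by simpa using (hY1 _ hp).1)
  have hzB : z ∉ B := by
    intro hb
    have h1 := (hBm 1).1 (by rwa [mul_one, ← hz])
    exact h1.2.1 (by rw [mul_one])
  have hzB' : z⁻¹ ∉ B := fun hb => hzB (by simpa using hB.inv_mem hb)
  have hYB : ∀ p ∈ Y₀, p ∉ B := fun p hp => (hY p hp).2.1
  obtain ⟨t₀, e, L, ht1, ht2, he, hL1, hL2, hL3, hA2⟩ := gp_block h h3 φ (fun o ho => (hφ1 o).2 ho)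
    hφ2 hu1 hu2 hz2 Y₀ hY4 hY1 hzY
  have he' : φ e⁻¹ = z⁻¹ := by rw [map_inv, he]
  obtain ⟨f, hf1, hf2⟩ : ∃ f, φ f ∈ Y₀ ∧ f ∉ L := by
    obtain ⟨p, hp, q, hq, hpq⟩ := Finset.one_lt_card.1 (show 1 < Y₀.card by omega)
    have hd : Disjoint (F.fib p) (F.fib q) := Finset.disjoint_left.2 fun g h1 h2 =>
      hpq (((mfib p g).1 h1).symm.trans ((mfib q g).1 h2))
    have hc : L.card < (F.fib p ∪ F.fib q).card := by
      rw [Finset.card_union_of_disjoint hd, hfib, hfib]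
      omega
    obtain ⟨f, hf, hfL⟩ := Finset.exists_mem_notMem_of_card_lt_card hc
    refine ⟨f, ?_, hfL⟩
    rcases Finset.mem_union.1 hf with h1 | h1
    · rwa [(mfib p f).1 h1]
    · rwa [(mfib q f).1 h1]
  have hf1' : φ f⁻¹ ∈ Y₀ := by
    rw [map_inv]
    exact (hY1 _ hf1).1
  have hf2' : f⁻¹ ∉ L := fun hm => hf2 (by simpa using hL2 _ hm)
  obtain ⟨A1, hA1, m1⟩ : ∃ A : Finset G, Cov A ∧ ∀ g, g ∈ A ↔ φ g ∈ B := by
    refine ⟨Finset.univ.filter fun g => φ g ∈ B, mult_lift φ hB hB2 _ (fun g hg => ?_)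
      (fun g hg => (Finset.mem_filter.1 hg).2) (Nat.card O) fun b hb => ?_, fun g => by simp⟩
    · refine Finset.mem_filter.2 ⟨Finset.mem_univ _, ?_⟩
      rw [map_inv]
      exact hB.inv_mem (Finset.mem_filter.1 hg).2
    · rw [← hfib b]
      congr 1
      ext g
      simp only [mfib, Finset.mem_filter, Finset.mem_univ, true_and]
      exact ⟨fun h1 => h1.2, fun h1 => ⟨h1 ▸ hb, h1⟩⟩
  obtain ⟨A2, hA2, m2⟩ : ∃ A : Finset G, Cov A ∧
      ∀ g, g ∈ A ↔ g = t₀ ∨ g = e ∨ g = e⁻¹ ∨ g ∈ L :=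
    ⟨_, hA2, fun g => by simp only [Finset.mem_insert, Finset.mem_union, Finset.mem_singleton,
      or_assoc]⟩
  obtain ⟨A3, hA3, m3⟩ : ∃ A : Finset G, Cov A ∧
      ∀ g, g ∈ A ↔ (φ g = 1 ∧ g ≠ 1) ∨ (g ≠ t₀ ∧ φ g = u) ∨ g = f ∨ g = f⁻¹ := by
    refine ⟨_, block_two h F hF (ψ.comp φ) (t₀ := t₀) (f := f) ?_ ht2 ?_ ?_ ?_, fun g => ?_⟩
    · rintro rfl
      exact hu1 (by rw [← ht1, map_one])
    · rw [MonoidHom.comp_apply, ht1, hu, hψ0]
    · obtain ⟨-, -, i, hi⟩ := hY _ hf1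
      rw [MonoidHom.comp_apply, hi, hψ1]
    · intro h1
      exact (hY1 _ hf1).2 (by rw [← map_mul, h1, map_one])
    · simp only [Finset.mem_insert, Finset.mem_union, Finset.mem_singleton, Finset.mem_erase, mfib,
        hFy, ht1, sharp, Finset.mem_filter, Finset.mem_univ, true_and, hφ1, or_assoc]
  obtain ⟨A4, hA4, m4⟩ : ∃ A : Finset G, Cov A ∧
      ∀ g, g ∈ A ↔ (φ g = z ∨ φ g = z⁻¹) ∧ g ≠ e ∧ g ≠ e⁻¹ := by
    have hker : φ.ker = O := Subgroup.ext fun g => hφ1 g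
    refine ⟨_, z4_blocks φ (fun p => ⟨p, hφ2 p⟩) hall hy hn2 (by rw [hker]; exact h.odd)
      (he.trans hz), fun g => ?_⟩
    simp only [Finset.mem_sdiff, Finset.mem_filter, Finset.mem_univ, true_and, Finset.mem_insert,
      Finset.mem_singleton, not_or, hz', ← hz]
  have h1B : (1 : P) ∉ B := fun hb => hB2 _ hb (one_mul 1)
  have huB : u ∉ B := fun hb => hB2 _ hb hu2
  have h1Y : (1 : P) ∉ Y₀ := fun hb => (hY1 _ hb).2 (one_mul 1)
  have huY : u ∉ Y₀ := fun hb => (hY1 _ hb).2 hu2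
  have hz1 : z ≠ 1 := fun h1 => hz2 (by rw [h1, one_mul])
  have hz1' : z⁻¹ ≠ 1 := fun h1 => hz3 (by rw [h1, one_mul])
  have hzu : z ≠ u := fun h1 => hz2 (by rw [h1, hu2])
  have hzu' : z⁻¹ ≠ u := fun h1 => hz3 (by rw [h1, hu2])
  have d12 : Disjoint A1 A2 := by
    refine Finset.disjoint_left.2 fun g h1 h2 => ?_
    rw [m1] at h1
    rcases (m2 g).1 h2 with rfl | rfl | rfl | h2
    · exact huB (ht1 ▸ h1)
    · exact hzB (he ▸ h1)
    · exact hzB' (he' ▸ h1)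
    · exact hYB _ (hL1 g h2) h1
  have d13 : Disjoint A1 A3 := by
    refine Finset.disjoint_left.2 fun g h1 h2 => ?_
    rw [m1] at h1
    rcases (m3 g).1 h2 with h2 | h2 | rfl | rfl
    · exact h1B (h2.1 ▸ h1)
    · exact huB (h2.2 ▸ h1)
    · exact hYB _ hf1 h1
    · exact hYB _ hf1' h1
  have d14 : Disjoint A1 A4 := by
    refine Finset.disjoint_left.2 fun g h1 h2 => ?_
    rw [m1] at h1
    rcases ((m4 g).1 h2).1 with h2 | h2
    · exact hzB (h2 ▸ h1)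
    · exact hzB' (h2 ▸ h1)
  have d23 : Disjoint A2 A3 := by
    refine Finset.disjoint_left.2 fun g h1 h2 => ?_
    have hg : (φ g = u ∧ g = t₀) ∨ φ g = z ∨ φ g = z⁻¹ ∨ (φ g ∈ Y₀ ∧ g ∈ L) := by
      rcases (m2 g).1 h1 with rfl | rfl | rfl | h1
      · exact Or.inl ⟨ht1, rfl⟩
      · exact Or.inr (Or.inl he)
      · exact Or.inr (Or.inr (Or.inl he'))
      · exact Or.inr (Or.inr (Or.inr ⟨hL1 g h1, h1⟩))
    have hg' : φ g = 1 ∨ (g ≠ t₀ ∧ φ g = u) ∨ (φ g ∈ Y₀ ∧ g ∉ L) := by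
      rcases (m3 g).1 h2 with h2 | h2 | rfl | rfl
      · exact Or.inl h2.1
      · exact Or.inr (Or.inl h2)
      · exact Or.inr (Or.inr ⟨hf1, hf2⟩)
      · exact Or.inr (Or.inr ⟨hf1', hf2'⟩)
    rcases hg with a | a | a | a <;> rcases hg' with b | b | b
    · exact hu1 (a.1.symm.trans b)
    · exact b.1 a.2
    · exact huY (a.1 ▸ b.1)
    · exact hz1 (a.symm.trans b)
    · exact hzu (a.symm.trans b.2)
    · exact hzY (a ▸ b.1)
    · exact hz1' (a.symm.trans b)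
    · exact hzu' (a.symm.trans b.2)
    · exact hzY' (a ▸ b.1)
    · exact h1Y (b ▸ a.1)
    · exact huY (b.2 ▸ a.1)
    · exact b.2 a.2
  have d24 : Disjoint A2 A4 := by
    refine Finset.disjoint_left.2 fun g h1 h2 => ?_
    obtain ⟨a, b, c⟩ := (m4 g).1 h2
    rcases (m2 g).1 h1 with rfl | h1 | h1 | h1
    · rcases a with a | a
      · exact hzu (a.symm.trans ht1)
      · exact hzu' (a.symm.trans ht1)
    · exact b h1
    · exact c h1
    · rcases a with a | a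
      · exact hzY (a ▸ hL1 g h1)
      · exact hzY' (a ▸ hL1 g h1)
  have d34 : Disjoint A3 A4 := by
    refine Finset.disjoint_left.2 fun g h1 h2 => ?_
    have hg' : φ g = 1 ∨ φ g = u ∨ φ g ∈ Y₀ := by
      rcases (m3 g).1 h1 with h1 | h1 | rfl | rfl
      · exact Or.inl h1.1
      · exact Or.inr (Or.inl h1.2)
      · exact Or.inr (Or.inr hf1)
      · exact Or.inr (Or.inr hf1')
    rcases ((m4 g).1 h2).1 with a | a <;> rcases hg' with b | b | b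
    · exact hz1 (a.symm.trans b)
    · exact hzu (a.symm.trans b)
    · exact hzY (a ▸ b)
    · exact hz1' (a.symm.trans b)
    · exact hzu' (a.symm.trans b)
    · exact hzY' (a ▸ b)
  have hall' : Cov (A1 ∪ (A2 ∪ (A3 ∪ A4))) :=
    Cov.union (Finset.disjoint_union_right.2 ⟨d12, Finset.disjoint_union_right.2 ⟨d13, d14⟩⟩) hA1
      (Cov.union (Finset.disjoint_union_right.2 ⟨d23, d24⟩) hA2 (Cov.union d34 hA3 hA4))
  refine hall'.finish fun g hg1 hg => ?_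
  simp only [Finset.mem_union, not_or] at hg
  obtain ⟨g1, g2, g3, g4⟩ := hg
  obtain ⟨i, hi | hi⟩ := vgc_par hall (φ g)
  · exfalso
    rw [m1, hi, hBm, hz', ← hz, ← hi] at g1
    by_cases hs : φ g * φ g = 1
    · rcases vgc_invol hall hy hs with a | a
      · exact g3 ((m3 g).2 (Or.inl ⟨a, hg1⟩))
      · by_cases b : g = t₀
        · exact g2 ((m2 g).2 (Or.inl b))
        · exact g3 ((m3 g).2 (Or.inr (Or.inl ⟨b, a.trans hu.symm⟩)))
    · refine g4 ((m4 g).2 ⟨?_, fun b => g2 ((m2 g).2 (Or.inr (Or.inl b))),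
        fun b => g2 ((m2 g).2 (Or.inr (Or.inr (Or.inl b))))⟩)
      by_contra hc
      rw [not_or] at hc
      exact g1 ⟨hs, hc.1, hc.2⟩
  · exact ⟨hg1, Or.inr ⟨ψ.comp φ, by rw [MonoidHom.comp_apply, hi, hψ1]⟩⟩

end Pool.Agent.P.MP_da365b_co.SV
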