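import Pool.Agent.P.MP_da365b_co.VCov

namespace Pool.Agent.P.MP_da365b_co.SV

open Classical

set_option linter.unusedSectionVars false

universe u

variable {G : Type u} [Group G]

theorem vhall0_normal_p [Finite G] [Group.IsSolvable G] [Nontrivial G] :
    ∃ (M : Subgroup G) (p : ℕ), p.Prime ∧ M.Normal ∧ M ≠ ⊥ ∧ IsPGroup p M := by
  obtain ⟨N, ⟨hN, hN0⟩, hmin⟩ := (wellFounded_lt (α := Subgroup G)).has_min
    {N | N.Normal ∧ N ≠ ⊥} ⟨⊤, inferInstance, top_ne_bot⟩
  have hc : ⁅N, N⁆ = ⊥ := by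
    by_contra h
    exact hmin _ ⟨inferInstance, h⟩ (Group.IsSolvable.commutator_lt_of_ne_bot hN0)
  have hcomm : ∀ a ∈ N, ∀ b ∈ N, Commute a b := fun a ha b hb => by
    have := Subgroup.commutator_mem_commutator ha hb
    rw [hc, Subgroup.mem_bot] at this
    exact commutatorElement_eq_one_iff_commute.1 this
  obtain ⟨p, hp, hd⟩ := Nat.exists_prime_and_dvd (n := Nat.card N)
    fun h => hN0 (Subgroup.card_eq_one.1 h)
  have := Fact.mk hp
  obtain ⟨x, hx⟩ := exists_prime_orderOf_dvd_card' p hd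
  let M : Subgroup G :=
    { carrier := {g | g ∈ N ∧ g ^ p = 1}
      one_mem' := ⟨N.one_mem, one_pow p⟩
      mul_mem' := fun {a b} ha hb => ⟨N.mul_mem ha.1 hb.1, by
        rw [(hcomm a ha.1 b hb.1).mul_pow, ha.2, hb.2, one_mul]⟩
      inv_mem' := fun {a} ha => ⟨N.inv_mem ha.1, by rw [inv_pow, ha.2, inv_one]⟩ }
  refine ⟨M, p, hp, ⟨fun a ha g => ⟨hN.conj_mem a ha.1 g, by
    rw [conj_pow, ha.2, mul_one, mul_inv_cancel]⟩⟩, fun h => ?_, fun a => ⟨1, ?_⟩⟩
  · have h1 : (x : G) ∈ M := ⟨x.2, by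
      rw [← Subgroup.coe_pow, ← hx, pow_orderOf_eq_one, Subgroup.coe_one]⟩
    rw [h, Subgroup.mem_bot, OneMemClass.coe_eq_one] at h1
    rw [h1, orderOf_one] at hx
    exact hp.one_lt.ne hx
  · rw [pow_one]
    exact Subtype.ext a.2.2

theorem vhall0_ind (n : ℕ) : ∀ (G : Type u) [Group G] [Finite G] [Group.IsSolvable G],
    Nat.card G = n → ∃ O : Subgroup G, Odd (Nat.card O) ∧ ∃ k : ℕ, O.index = 2 ^ k := by
  induction n using Nat.strongRecOn with | ind n ih => ?_
  rintro G _ _ _ rfl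
  rcases subsingleton_or_nontrivial G with hG | hG
  · exact ⟨⊤, by rw [Nat.card_unique]; exact odd_one, 0, Subgroup.index_top⟩
  obtain ⟨M, p, hp, hM, hM0, hpM⟩ := vhall0_normal_p (G := G)
  have := Fact.mk hp
  have hM1 : 1 < Nat.card M := (Subgroup.one_lt_card_iff_ne_bot M).2 hM0
  have hMc := M.card_mul_index
  have hpos : 0 < M.index := Nat.pos_of_ne_zero M.index_ne_zero_of_finite
  obtain ⟨Q, hQ, k, hk⟩ := ih (Nat.card (G ⧸ M)) (by
    change M.index < _
    nlinarith) (G ⧸ M) rfl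
  set U := Q.comap (QuotientGroup.mk' M) with hU
  have hUi : U.index = 2 ^ k :=
    (Q.index_comap_of_surjective (QuotientGroup.mk'_surjective M)).trans hk
  have hUc : Nat.card U = Nat.card M * Nat.card Q := by
    have h1 := U.card_mul_index
    have h2 := Q.card_mul_index
    change _ = M.index at h2
    rw [hUi, ← hMc, ← h2, hk, ← mul_assoc] at h1
    exact Nat.eq_of_mul_eq_mul_right (by positivity) h1
  obtain ⟨a, ha⟩ := IsPGroup.iff_card.1 hpM
  rcases hp.eq_two_or_odd' with rfl | hodd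
  · have hle : M ≤ U := fun g hg => by
      rw [hU, Subgroup.mem_comap, QuotientGroup.mk'_apply, (QuotientGroup.eq_one_iff g).2 hg]
      exact Q.one_mem
    have h1 : Nat.card (M.subgroupOf U) = Nat.card M :=
      Nat.card_congr (Subgroup.subgroupOfEquivOfLe hle).toEquiv
    have h2 : (M.subgroupOf U).index = Nat.card Q := by
      have h3 := (M.subgroupOf U).card_mul_index
      rw [h1, hUc] at h3
      exact Nat.eq_of_mul_eq_mul_left (by omega) h3
    obtain ⟨H, hH⟩ := Subgroup.exists_right_complement'_of_coprime (N := M.subgroupOf U) (by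
      rw [h1, h2, ha]
      exact (Nat.coprime_two_left.2 hQ).pow_left a)
    refine ⟨H.map U.subtype, ?_, a + k, ?_⟩
    · rw [Subgroup.card_map_of_injective U.subtype_injective, ← hH.symm.index_eq_card, h2]
      exact hQ
    · rw [Subgroup.index_map_subtype, hH.index_eq_card, h1, ha, hUi, pow_add]
  · exact ⟨U, by rw [hUc, ha]; exact hodd.pow.mul hQ, k, hUi⟩

theorem exists_odd_two_index [Finite G] [Group.IsSolvable G] :
    ∃ O : Subgroup G, Odd (Nat.card O) ∧ ∃ k : ℕ, O.index = 2 ^ k :=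
  vhall0_ind _ G rfl

theorem exists_hall [Finite G] [Group.IsSolvable G] : ∃ O P : Subgroup G, Hall O P := by
  obtain ⟨O, hO, k, hk⟩ := exists_odd_two_index (G := G)
  have := Fact.mk Nat.prime_two
  have h1 := O.card_mul_index
  obtain ⟨P, hP⟩ := Sylow.exists_subgroup_card_pow_prime (G := G) 2 (n := k)
    (hk ▸ O.index_dvd_card)
  refine ⟨O, P, Subgroup.isComplement'_of_coprime (by rw [hP, ← hk, h1]) ?_, hO,
    IsPGroup.of_card hP⟩
  rw [hP]
  exact (Nat.coprime_two_right.2 hO).pow_right k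

theorem vhall0_char {A : Type u} [CommGroup A] [Finite A] (h2 : Even (Nat.card A)) :
    ∃ (χ : A →* ℤˣ) (a : A), χ a ≠ 1 := by
  have := Fact.mk Nat.prime_two
  obtain ⟨x, hx⟩ := exists_prime_orderOf_dvd_card' (G := A) 2 h2.two_dvd
  set S := (powMonoidHom (α := A) 2).range with hS
  have hne : ¬ Function.Surjective (powMonoidHom (α := A) 2) := fun h => by
    have h1 := Finite.injective_iff_surjective.2 h
    have h3 : x = 1 := h1 (by rw [map_one, powMonoidHom_apply, ← hx, pow_orderOf_eq_one])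
    rw [h3, orderOf_one] at hx
    omega
  obtain ⟨b, hb⟩ := not_forall.1 hne
  have hb' : (b : A ⧸ S) ≠ 1 := fun h => hb ((QuotientGroup.eq_one_iff b).1 h)
  have hexp : Monoid.exponent (A ⧸ S) ∣ 2 := Monoid.exponent_dvd_of_forall_pow_eq_one fun q => by
    obtain ⟨y, rfl⟩ := QuotientGroup.mk_surjective q
    rw [← QuotientGroup.mk_pow, QuotientGroup.eq_one_iff]
    exact ⟨y, rfl⟩
  have : HasEnoughRootsOfUnity ℤ 2 := ⟨⟨-1, IsPrimitiveRoot.neg_one 0 (by norm_num)⟩, inferInstance⟩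
  have := HasEnoughRootsOfUnity.of_dvd ℤ hexp
  obtain ⟨φ, hφ⟩ := CommGroup.exists_apply_ne_one_of_hasEnoughRootsOfUnity (A ⧸ S) ℤ hb'
  exact ⟨φ.comp (QuotientGroup.mk' S), b, hφ⟩

theorem exists_N0 [Finite G] [Group.IsSolvable G] (h2 : Even (Nat.card G)) :
    ∃ N : Subgroup G, N.Normal ∧ Odd N.index ∧ Kc N ≠ ⊤ := by
  obtain ⟨N, ⟨hN, hNo⟩, hmin⟩ := (wellFounded_lt (α := Subgroup G)).has_min
    {N | N.Normal ∧ Odd N.index} ⟨⊤, inferInstance, by rw [Subgroup.index_top]; exact odd_one⟩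
  refine ⟨N, hN, hNo, fun hK => ?_⟩
  have hN0 : N ≠ ⊥ := by
    rintro rfl
    rw [Subgroup.index_bot] at hNo
    exact Nat.not_even_iff_odd.2 hNo h2
  have h1 : ⁅N, N⁆ = (commutator N).map N.subtype := by
    rw [commutator_def, Subgroup.map_commutator, ← MonoidHom.range_eq_map, Subgroup.range_subtype]
  have h3 : Even (Nat.card (Abelianization N)) := by
    by_contra h
    refine hmin ⁅N, N⁆ ⟨inferInstance, ?_⟩ (Group.IsSolvable.commutator_lt_of_ne_bot hN0)
    rw [h1, Subgroup.index_map_subtype]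
    exact (Nat.not_even_iff_odd.1 h).mul hNo
  obtain ⟨χ, a, ha⟩ := vhall0_char h3
  obtain ⟨g, rfl⟩ := QuotientGroup.mk_surjective a
  have h4 : g ∈ Kc N := hK ▸ Subgroup.mem_top g
  exact ha (Subgroup.mem_iInf.1 h4 (χ.comp Abelianization.of))

end Pool.Agent.P.MP_da365b_co.SV
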