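import Pool.Agent.P.MP_da365b_co.VCov

namespace Pool.Agent.P.MP_da365b_co.SV

open Classical

set_option linter.unusedSectionVars false

universe u

variable {G : Type u} [Group G]

theorem vls0_conj {Y : Type*} (a b : Equiv.Perm Y) (ha : a * a = 1) (hb : b * b = 1) (i : ℤ)
    (y : Y) : a (((a * b) ^ i) y) = ((a * b) ^ (-i)) (a y) := by
  have h1 : (a * b)⁻¹ = b * a := by
    apply inv_eq_of_mul_eq_one_right
    calc a * b * (b * a) = a * (b * b) * a := by simp only [mul_assoc]
      _ = 1 := by rw [hb, mul_one, ha]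
  have h2 : SemiconjBy a (a * b) (a * b)⁻¹ := by
    unfold SemiconjBy
    rw [h1, ← mul_assoc, ha, one_mul, mul_assoc, ha, mul_one]
  have h3 := (h2.zpow_right i).eq
  rw [inv_zpow'] at h3
  have h4 := congrArg (fun e : Equiv.Perm Y => e y) h3
  simpa only [Equiv.Perm.mul_apply] using h4

/-- Two fixed point free involutions flip a common 2-colouring. -/
theorem sign_lemma {Y : Type*} [Finite Y] (α β : Y → Y) (hα : ∀ y, α (α y) = y)
    (hβ : ∀ y, β (β y) = y) (hα' : ∀ y, α y ≠ y) (hβ' : ∀ y, β y ≠ y) :
    ∃ ε : Y → Bool, (∀ y, ε (α y) = !ε y) ∧ ∀ y, ε (β y) = !ε y := by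
  let a : Equiv.Perm Y := ⟨α, α, hα, hα⟩
  let b : Equiv.Perm Y := ⟨β, β, hβ, hβ⟩
  have hay : ∀ y, a y = α y := fun _ => rfl
  have hby : ∀ y, b y = β y := fun _ => rfl
  have ha : a * a = 1 := Equiv.ext fun y => hα y
  have hb : b * b = 1 := Equiv.ext fun y => hβ y
  have hc := vls0_conj a b ha hb
  have hβρ : ∀ y, β y = α ((a * b) y) := fun y => (hα (β y)).symm
  have key : ∀ y, ¬ (a * b).SameCycle y (α y) := by
    rintro y ⟨n, hn⟩
    obtain ⟨i, hi | hi⟩ := Int.even_or_odd' n
    · apply hα' (((a * b) ^ i) y)
      rw [← hay, hc, hay, ← hn, ← Equiv.Perm.mul_apply, ← zpow_add]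
      have e : -i + n = i := by omega
      rw [e]
    · apply hβ' (((a * b) ^ i) y)
      have e1 : (a * b) (((a * b) ^ i) y) = ((a * b) ^ (1 + i)) y := by
        rw [zpow_add, zpow_one]
        rfl
      rw [hβρ, e1, ← hay, hc, hay, ← hn, ← Equiv.Perm.mul_apply, ← zpow_add]
      have e : -(1 + i) + n = i := by omega
      rw [e]
  have hmap : ∀ y y', (a * b).SameCycle y y' → (a * b).SameCycle (α y) (α y') := by
    rintro y y' ⟨n, hn⟩
    refine ⟨-n, ?_⟩
    rw [← hn, ← hay, ← hay, hc]
  let S : Setoid Y := Equiv.Perm.SameCycle.setoid (a * b)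
  let ι : Quotient S → Quotient S := Quotient.map α hmap
  have hιι : ∀ x, ι (ι x) = x := by
    intro x
    induction x using Quotient.inductionOn with
    | h y =>
      show Quotient.mk S (α (α y)) = Quotient.mk S y
      rw [hα]
  obtain ⟨f, hf⟩ := symm_choice (Y := Bool) ι (fun t => !t) hιι (fun t => Bool.not_not t)
    (fun _ _ => True) (fun _ _ _ => trivial) (fun _ _ => ⟨true, trivial⟩) (by
      intro x hx
      exfalso
      induction x using Quotient.inductionOn with
      | h y => exact key y (Equiv.Perm.SameCycle.symm (Quotient.exact hx)))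
  refine ⟨fun y => f (Quotient.mk S y), fun y => (hf (Quotient.mk S y)).2, fun y => ?_⟩
  have e : Quotient.mk S ((a * b) y) = Quotient.mk S y :=
    Quotient.sound (Equiv.Perm.sameCycle_apply_left.2 (Equiv.Perm.SameCycle.refl _ _))
  show f (Quotient.mk S (β y)) = !f (Quotient.mk S y)
  rw [hβρ, ← e]
  exact (hf (Quotient.mk S ((a * b) y))).2

theorem vls0_ep {A : Type*} [AddCommGroup A] [Finite A] (h2 : ∀ a : A, a + a = 0 → a = 0) :
    ∃ ep : A → A → Bool, (∀ k c, ep (-k) c = ep k c) ∧
      (∀ r c, r ≠ c → ep (r + c) r = !ep (r + c) c) ∧ ∀ c, ep (c + c) (-c) = ep (c + c) c := by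
  have hinj : ∀ a b : A, a + a = b + b → a = b := by
    intro a b h
    have h3 : (a - b) + (a - b) = 0 := by
      have e : (a - b) + (a - b) = (a + a) - (b + b) := by abel
      rw [e, h, sub_self]
    exact sub_eq_zero.1 (h2 _ h3)
  have hsurj : Function.Surjective fun a : A => a + a :=
    Finite.surjective_of_injective fun a b h => hinj a b h
  choose hf hhf using hsurj
  let al : A → Option A → Option A := fun k y =>
    match y with
    | none => some (hf k)
    | some c => if c + c = k then none else some (k - c)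
  have al0 : ∀ k, al k none = some (hf k) := fun _ => rfl
  have al1 : ∀ k c, c + c = k → al k (some c) = none := fun k c h => if_pos h
  have al2 : ∀ k c, c + c ≠ k → al k (some c) = some (k - c) := fun k c h => if_neg h
  have hinv : ∀ k y, al k (al k y) = y := by
    intro k y
    cases y with
    | none => rw [al0, al1 k _ (hhf k)]
    | some c =>
      by_cases h : c + c = k
      · rw [al1 k c h, al0, hinj _ _ ((hhf k).trans h.symm)]
      · have h' : (k - c) + (k - c) ≠ k := by
          intro h4
          apply h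
          have e : c + c = k + k - ((k - c) + (k - c)) := by abel
          rw [e, h4]
          abel
        rw [al2 k c h, al2 k _ h', sub_sub_cancel]
  have hfree : ∀ k y, al k y ≠ y := by
    intro k y
    cases y with
    | none => rw [al0]; exact Option.some_ne_none _
    | some c =>
      by_cases h : c + c = k
      · rw [al1 k c h]; exact (Option.some_ne_none _).symm
      · rw [al2 k c h]
        intro h4
        exact h (eq_sub_iff_add_eq.1 (Option.some.inj h4).symm)
  let P : A → (Option A → Bool) → Prop := fun k ε =>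
    (∀ y, ε (al k y) = !ε y) ∧ ∀ y, ε (al (-k) y) = !ε y
  have hP : ∀ k, P (-k) = P k := by
    intro k
    funext ε
    apply propext
    show ((∀ y, ε (al (-k) y) = !ε y) ∧ ∀ y, ε (al (- -k) y) = !ε y) ↔ _
    rw [neg_neg]
    exact and_comm
  have hE : ∀ k, P k (Classical.epsilon (P k)) := fun k =>
    Classical.epsilon_spec (sign_lemma (al k) (al (-k)) (hinv k) (hinv _) (hfree k) (hfree _))
  refine ⟨fun k c => Classical.epsilon (P k) (some c), fun k c => ?_, fun r c hrc => ?_,
    fun c => ?_⟩
  · show Classical.epsilon (P (-k)) (some c) = Classical.epsilon (P k) (some c)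
    rw [hP]
  · have h : c + c ≠ r + c := fun h => hrc (add_right_cancel h).symm
    have h4 := (hE (r + c)).1 (some c)
    rw [al2 _ _ h, add_sub_cancel_right] at h4
    exact h4
  · have h4 := (hE (c + c)).1 (some c)
    have h5 := (hE (c + c)).2 (some (-c))
    rw [al1 _ _ rfl] at h4
    rw [al1 _ _ (by abel)] at h5
    exact Bool.not_inj (h5.symm.trans h4)

/-- The model square on an abelian group in which doubling is injective. -/
theorem ls_model {A : Type*} [AddCommGroup A] [Finite A] (h2 : ∀ a : A, a + a = 0 → a = 0)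
    (E : Set A) (hE : ∀ a ∈ E, -a ∈ E) (h0 : (0 : A) ∉ E) :
    ∃ L : A → A → A, (∀ r c, L c r = if L r c ∈ E then -L r c else L r c) ∧
      ∀ c, Function.Injective fun r => L r c := by
  obtain ⟨ep, ep1, ep2, ep3⟩ := vls0_ep h2
  have hE' : ∀ a, a ∉ E → -a ∉ E := fun a ha h => ha (by simpa using hE _ h)
  let T : A → A → A := fun c k => if k ∈ E then (if ep k c = true then k else -k) else k
  have T0 : ∀ c k, k ∉ E → T c k = k := fun c k h => if_neg h
  have T1 : ∀ c k, k ∈ E → ep k c = true → T c k = k := by
    intro c k h h'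
    show (if k ∈ E then (if ep k c = true then k else -k) else k) = k
    rw [if_pos h, if_pos h']
  have T2 : ∀ c k, k ∈ E → ep k c = false → T c k = -k := by
    intro c k h h'
    show (if k ∈ E then (if ep k c = true then k else -k) else k) = -k
    rw [if_pos h, if_neg (by rw [h']; exact Bool.false_ne_true)]
  have TT : ∀ c k, T c (T c k) = k := by
    intro c k
    by_cases h : k ∈ E
    · cases h' : ep k c with
      | true => rw [T1 c k h h', T1 c k h h']
      | false => rw [T2 c k h h', T2 c (-k) (hE k h) (by rw [ep1, h']), neg_neg]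
    · rw [T0 c k h, T0 c k h]
  let kk : A → A → A := fun r c => if c + c ∈ E then Equiv.swap 0 (c + c) (r + c) else r + c
  have k0 : ∀ r c, c + c ∉ E → kk r c = r + c := fun r c h => if_neg h
  have k1 : ∀ r c, c + c ∈ E → kk r c = Equiv.swap 0 (c + c) (r + c) := fun r c h => if_pos h
  have k2 : ∀ r c, r ≠ c → r + c ≠ 0 → kk r c = r + c := by
    intro r c h h'
    by_cases hc : c + c ∈ E
    · rw [k1 r c hc, Equiv.swap_apply_of_ne_of_ne h' fun h4 => h (add_right_cancel h4)]
    · exact k0 r c hc
  refine ⟨fun r c => T c (kk r c), fun r c => ?_, fun c r r' h => ?_⟩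
  · show T r (kk c r) = if T c (kk r c) ∈ E then -T c (kk r c) else T c (kk r c)
    by_cases hrc : r = c
    · subst hrc
      have h : kk r r ∉ E := by
        by_cases hc : r + r ∈ E
        · rw [k1 r r hc, Equiv.swap_apply_right]
          exact h0
        · rw [k0 r r hc]
          exact hc
      rw [T0 r _ h, if_neg h]
    · by_cases hs : r + c = 0
      · have hr : r = -c := eq_neg_of_add_eq_zero_left hs
        subst hr
        have e : -c + -c = -(c + c) := by abel
        by_cases hc : c + c ∈ E
        · have hc' : -c + -c ∈ E := by rw [e]; exact hE _ hc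
          rw [k1 _ _ hc, k1 _ _ hc', neg_add_cancel, add_neg_cancel, Equiv.swap_apply_left,
            Equiv.swap_apply_left, e]
          cases h' : ep (c + c) c with
          | true =>
            rw [T1 c _ hc h', if_pos hc, T1 _ _ (hE _ hc) (by rw [ep1, ep3, h'])]
          | false =>
            rw [T2 c _ hc h', if_pos (hE _ hc), T2 _ _ (hE _ hc) (by rw [ep1, ep3, h'])]
        · have hc' : -c + -c ∉ E := by rw [e]; exact hE' _ hc
          rw [k0 _ _ hc, k0 _ _ hc', neg_add_cancel, add_neg_cancel, T0 _ _ h0, T0 _ _ h0,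
            if_neg h0]
      · rw [k2 r c hrc hs, k2 c r (Ne.symm hrc) (by rw [add_comm]; exact hs), add_comm c r]
        by_cases hc : r + c ∈ E
        · cases h' : ep (r + c) c with
          | true =>
            rw [T1 c _ hc h', if_pos hc, T2 _ _ hc (by rw [ep2 r c hrc, h']; rfl)]
          | false =>
            rw [T2 c _ hc h', if_pos (hE _ hc), T1 _ _ hc (by rw [ep2 r c hrc, h']; rfl),
              neg_neg]
        · rw [T0 _ _ hc, T0 _ _ hc, if_neg hc]
  · have h3 : kk r c = kk r' c := by
      have h4 : T c (T c (kk r c)) = T c (T c (kk r' c)) := congrArg (T c) h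
      rwa [TT, TT] at h4
    by_cases hc : c + c ∈ E
    · rw [k1 _ _ hc, k1 _ _ hc] at h3
      exact add_right_cancel ((Equiv.swap 0 (c + c)).injective h3)
    · rw [k0 _ _ hc, k0 _ _ hc] at h3
      exact add_right_cancel h3

end Pool.Agent.P.MP_da365b_co.SV
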