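import Pool.Agent.P.MP_da365b_co.VTr0

namespace Pool.Agent.P.MP_da365b_co.SV

open Classical

set_option linter.unusedSectionVars false

universe u

variable {G : Type u} [Group G]

theorem vtr_mem (N : Subgroup G) (g : G) (q : G ⧸ N) : (g • q).out⁻¹ * g * q.out ∈ N := by
  rw [mul_assoc, ← QuotientGroup.eq, QuotientGroup.out_eq', ← smul_eq_mul,
    MulAction.Quotient.coe_smul_out]

/-- The element of `N` attached to `g` and a coset. -/
noncomputable def vtrEl (N : Subgroup G) (g : G) (q : G ⧸ N) : N := ⟨_, vtr_mem N g q⟩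

theorem vtrEl_mul (N : Subgroup G) (g h : G) (q : G ⧸ N) :
    vtrEl N (g * h) q = vtrEl N g (h • q) * vtrEl N h q := by
  apply Subtype.ext
  simp only [vtrEl, Subgroup.coe_mul, mul_smul]
  group

theorem vtrEl_one (N : Subgroup G) (q : G ⧸ N) : vtrEl N 1 q = 1 := by
  apply Subtype.ext
  simp [vtrEl]

section

variable (N : Subgroup G) [N.Normal]

/-- A character that is non-trivial on a given coset, if there is one. -/
noncomputable def vtrCh (y : G ⧸ Km N) : N →* ℤˣ :=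
  Classical.epsilon fun χ : N →* ℤˣ => ∃ n : N, ((n : G) : G ⧸ Km N) = y ∧ χ n = -1

theorem vtrCh_conj (n : N) (y : G ⧸ Km N) :
    vtrCh N (((n : G) : G ⧸ Km N) * y * ((n : G) : G ⧸ Km N)⁻¹) = vtrCh N y := by
  refine congrArg Classical.epsilon (funext fun χ => propext ⟨?_, ?_⟩)
  · rintro ⟨m, h1, h2⟩
    refine ⟨n⁻¹ * m * n, ?_, ?_⟩
    · simp only [Subgroup.coe_mul, Subgroup.coe_inv, QuotientGroup.mk_mul, QuotientGroup.mk_inv, h1]
      group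
    · rw [map_mul, map_mul, map_inv, inv_mul_cancel_comm, h2]
  · rintro ⟨m, h1, h2⟩
    refine ⟨n * m * n⁻¹, ?_, ?_⟩
    · simp only [Subgroup.coe_mul, Subgroup.coe_inv, QuotientGroup.mk_mul, QuotientGroup.mk_inv, h1]
    · rw [map_mul, map_mul, map_inv, mul_inv_cancel_comm, h2]

theorem vtrCh_self (m : N) (hm : (m : G) ∉ Km N) : vtrCh N ((m : G) : G ⧸ Km N) m = -1 := by
  obtain ⟨χ, hχ⟩ := not_mem_Kc.1 fun h => hm (mem_Km.2 h)
  obtain ⟨n, h1, h2⟩ := Classical.epsilon_spec (p := fun χ : N →* ℤˣ =>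
    ∃ n : N, ((n : G) : G ⧸ Km N) = ((m : G) : G ⧸ Km N) ∧ χ n = -1) ⟨χ, m, rfl, hχ⟩
  have h3 : n⁻¹ * m ∈ Kc N := mem_Km.1 (QuotientGroup.eq.1 h1)
  have h4 := mem_Kc.1 h3 (vtrCh N ((m : G) : G ⧸ Km N))
  rw [map_mul, map_inv, inv_mul_eq_one] at h4
  exact h4.symm.trans h2

variable [Fintype (G ⧸ N)]

/-- The cocycle. -/
noncomputable def vtrCo (g : G) (y : G ⧸ Km N) : ℤˣ :=
  ∏ q : G ⧸ N, vtrCh N ((q.out : G ⧸ Km N)⁻¹ * y * (q.out : G ⧸ Km N)) (vtrEl N g q)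

theorem vtrCo_mul (g h : G) (y : G ⧸ Km N) :
    vtrCo N (g * h) y = vtrCo N g ((h : G ⧸ Km N) * y * (h : G ⧸ Km N)⁻¹) * vtrCo N h y := by
  simp only [vtrCo, vtrEl_mul, map_mul, Finset.prod_mul_distrib]
  congr 1
  refine Fintype.prod_equiv (MulAction.toPerm h) _ _ fun q => ?_
  rw [← vtrCh_conj N (vtrEl N h q), MulAction.toPerm_apply]
  refine congrArg (fun z => vtrCh N z (vtrEl N g (h • q))) ?_
  simp only [vtrEl, QuotientGroup.mk_mul, QuotientGroup.mk_inv]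
  group

theorem vtrCo_self (hodd : Odd N.index) {d : G} (h1 : d ∈ N) (h2 : d ∉ Km N) :
    vtrCo N d (d : G ⧸ Km N) = -1 := by
  have h3 : ∀ q : G ⧸ N,
      vtrCh N ((q.out : G ⧸ Km N)⁻¹ * (d : G ⧸ Km N) * (q.out : G ⧸ Km N)) (vtrEl N d q) = -1 := by
    intro q
    have e : d • q = q := by
      rw [← MulAction.Quotient.coe_smul_out, smul_eq_mul, QuotientGroup.mk_mul,
        (QuotientGroup.eq_one_iff d).2 h1, one_mul, QuotientGroup.out_eq']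
    have e2 : ((vtrEl N d q : N) : G) = q.out⁻¹ * d * q.out := by simp only [vtrEl, e]
    have h4 := vtrCh_self N (vtrEl N d q) fun h => h2 (by
      have := (Km_normal N).conj_mem _ h q.out
      rwa [e2, show q.out * (q.out⁻¹ * d * q.out) * q.out⁻¹ = d by group] at this)
    rwa [e2, QuotientGroup.mk_mul, QuotientGroup.mk_mul, QuotientGroup.mk_inv] at h4
  rw [vtrCo, Finset.prod_congr rfl fun q _ => h3 q, Finset.prod_const, Finset.card_univ,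
    ← Nat.card_eq_fintype_card]
  exact Odd.neg_one_pow hodd

/-- The action on two points over every coset. -/
@[reducible] noncomputable def vtrAct : MulAction G ((G ⧸ Km N) × ℤˣ) where
  smul g p := ((g : G ⧸ Km N) * p.1 * (g : G ⧸ Km N)⁻¹, vtrCo N g p.1 * p.2)
  one_smul p := by
    change (((1 : G) : G ⧸ Km N) * p.1 * ((1 : G) : G ⧸ Km N)⁻¹, vtrCo N 1 p.1 * p.2) = p
    simp [vtrCo, vtrEl_one]
  mul_smul g h p := by
    change (((g * h : G) : G ⧸ Km N) * p.1 * ((g * h : G) : G ⧸ Km N)⁻¹,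
      vtrCo N (g * h) p.1 * p.2) = ((g : G ⧸ Km N) * ((h : G ⧸ Km N) * p.1 * (h : G ⧸ Km N)⁻¹) *
        (g : G ⧸ Km N)⁻¹, vtrCo N g ((h : G ⧸ Km N) * p.1 * (h : G ⧸ Km N)⁻¹) *
          (vtrCo N h p.1 * p.2))
    rw [vtrCo_mul, QuotientGroup.mk_mul, mul_inv_rev]
    simp only [mul_assoc]

end

theorem hb [Finite G] (N : Subgroup G) [N.Normal] (hodd : Odd N.index) (A : Finset G)
    (h1 : ∀ d ∈ A, d ∈ N ∧ d ∉ Km N ∧ d⁻¹ ∈ A ∧ d * d ≠ 1)
    (h2 : ∀ d ∈ A, ∀ e ∈ A, d⁻¹ * e ∈ Km N → e = d ∨ e = d⁻¹)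
    (h3 : ∀ d ∈ A, ∀ x : G, ∃ e ∈ A, (x * d * x⁻¹)⁻¹ * e ∈ Km N) : Cov A := by
  have _ := Fintype.ofFinite (G ⧸ N)
  obtain ⟨f, hf⟩ := exists_injective_nat G
  set s : G → ℤˣ := fun d => if f d < f d⁻¹ then 1 else -1 with hs
  have hs1 : ∀ d ∈ A, s d⁻¹ = -s d := fun d hd => by
    have h4 : f d ≠ f d⁻¹ := fun e => (h1 d hd).2.2.2 (mul_eq_one_iff_eq_inv.2 (hf e))
    simp only [hs, inv_inv]
    rcases lt_or_gt_of_ne h4 with h | h
    · rw [if_pos h, if_neg h.asymm]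
    · rw [if_pos h, if_neg h.asymm, neg_neg]
  have hq : ∀ d ∈ A, ((d⁻¹ : G) : G ⧸ Km N) = d := fun d hd =>
    QuotientGroup.eq.2 (by rw [inv_inv]; exact sq_mem_Km (h1 d hd).1)
  refine ⟨fun g hg e => (h1 g hg).2.2.2 (by rw [e, mul_one]), (G ⧸ Km N) × ℤˣ, vtrAct N,
    {p | ∃ d ∈ A, (d : G ⧸ Km N) = p.1}, ?_, fun g hg => (h1 g hg).2.2.1,
    fun d => ((d : G ⧸ Km N), s d), ⟨fun d hd => ⟨d, hd, rfl⟩, ?_, ?_⟩, fun g hg => ?_⟩
  · rintro g ⟨y, ε⟩ ⟨d, hd, rfl⟩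
    obtain ⟨e, he, h4⟩ := h3 d hd g
    exact ⟨e, he, (QuotientGroup.eq.2 h4).symm⟩
  · intro d hd e he h4
    rcases h2 d hd e he (QuotientGroup.eq.1 (congrArg Prod.fst h4)) with h5 | h5
    · exact h5.symm
    · have h6 : s d = s e := congrArg Prod.snd h4
      rw [h5, hs1 d hd] at h6
      exact absurd h6 (by rcases Int.units_eq_one_or (s d) with h | h <;> rw [h] <;> decide)
  · rintro ⟨y, ε⟩ ⟨d, hd, rfl⟩
    by_cases h4 : s d = ε
    · exact ⟨d, hd, Prod.ext rfl h4⟩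
    · refine ⟨d⁻¹, (h1 d hd).2.2.1, Prod.ext (hq d hd) ?_⟩
      change s d⁻¹ = ε
      rw [hs1 d hd, Int.units_ne_iff_eq_neg.1 h4, neg_neg]
  · change ((g : G ⧸ Km N), s g) = ((g : G ⧸ Km N) * ((g⁻¹ : G) : G ⧸ Km N) * (g : G ⧸ Km N)⁻¹,
      vtrCo N g ((g⁻¹ : G) : G ⧸ Km N) * s g⁻¹)
    rw [hq g hg, vtrCo_self N hodd (h1 g hg).1 (h1 g hg).2.1, hs1 g hg, mul_inv_cancel_right,
      neg_mul_neg, one_mul]

end Pool.Agent.P.MP_da365b_co.SV
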