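import Pool.Agent.P.MP_da365b_co.VGB
import Pool.Agent.P.MP_da365b_co.VGC
import Pool.Agent.P.MP_da365b_co.VTr

namespace Pool.Agent.P.MP_da365b_co.SV

open Classical

set_option linter.unusedSectionVars false

universe u

variable {G : Type u} [Group G]

theorem vmain_sq [Finite G] (N : Subgroup G) [N.Normal] (hodd : Odd N.index) {g : G}
    (h : g * g ∈ N) : g ∈ N := by
  obtain ⟨k, hk⟩ := hodd
  have h1 : g ^ N.index ∈ N := Subgroup.pow_index_mem N g
  rw [hk, pow_succ, pow_mul, pow_two] at h1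
  exact (N.mul_mem_cancel_left (N.pow_mem h k)).1 h1

theorem vmain_pairs [Fintype G] (N : Subgroup G) [N.Normal] [Fintype N] (hodd : Odd N.index)
    (D : Finset N) (a : ℕ) (hinv : ∀ d ∈ D, d⁻¹ ∈ D) (ha : a = 1 ∨ a = 2)
    (hcard : ∀ g : N, (D.filter fun d => g⁻¹ * d ∈ Kc N).card = a)
    (hno : ∀ d ∈ D, d * d ≠ 1 → ∀ v : N, d⁻¹ * v ∈ Kc N → v * v ≠ 1) :
    Cov (Finset.univ.filter fun g : G => ∃ d ∈ D, (d : G) = g ∧ d * d ≠ 1) := by
  apply hb N hodd
  · intro g hg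
    obtain ⟨d, hd, rfl, h2⟩ := (Finset.mem_filter.1 hg).2
    refine ⟨d.2, ?_, ?_, ?_⟩
    · intro hK
      have h3 : d ∈ Kc N := mem_Km.1 hK
      exact hno d hd h2 1 (by simpa using h3) (by simp)
    · refine Finset.mem_filter.2 ⟨Finset.mem_univ _, d⁻¹, hinv d hd, by simp, ?_⟩
      intro h
      apply h2
      have : (d⁻¹ * d⁻¹)⁻¹ = 1 := by rw [h]; simp
      simpa using this
    · intro h
      exact h2 (Subtype.ext (by simpa using h))
  · intro g hg g' hg' hK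
    obtain ⟨d, hd, rfl, h2⟩ := (Finset.mem_filter.1 hg).2
    obtain ⟨e, he, rfl, -⟩ := (Finset.mem_filter.1 hg').2
    have h3 : d⁻¹ * e ∈ Kc N := mem_Km.1 (by simpa using hK)
    by_contra hne
    push Not at hne
    have e1 : e ≠ d := fun h => hne.1 (by rw [h])
    have e2 : e ≠ d⁻¹ := fun h => hne.2 (by rw [h]; simp)
    have e3 : d ≠ d⁻¹ := fun h => h2 (by nth_rewrite 2 [h]; simp)
    have hsub : ({e, d, d⁻¹} : Finset N) ⊆ D.filter fun x => d⁻¹ * x ∈ Kc N := by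
      intro x hx
      simp only [Finset.mem_insert, Finset.mem_singleton] at hx
      rcases hx with rfl | rfl | rfl
      · exact Finset.mem_filter.2 ⟨he, h3⟩
      · exact Finset.mem_filter.2 ⟨hd, by simp⟩
      · exact Finset.mem_filter.2 ⟨hinv d hd, sq_mem_Kc _⟩
    have h4 := Finset.card_le_card hsub
    rw [hcard d, Finset.card_eq_three.2 ⟨e, d, d⁻¹, e1, e2, e3, rfl⟩] at h4
    omega
  · intro g hg x
    obtain ⟨d, hd, rfl, h2⟩ := (Finset.mem_filter.1 hg).2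
    have hN : N.Normal := inferInstance
    have hx : x * d * x⁻¹ ∈ N := hN.conj_mem _ d.2 x
    have hpos : 0 < (D.filter fun e => (⟨_, hx⟩ : N)⁻¹ * e ∈ Kc N).card := by
      rw [hcard]; omega
    obtain ⟨e, he⟩ := Finset.card_pos.1 hpos
    obtain ⟨he1, he2⟩ := Finset.mem_filter.1 he
    have he3 : (x * d * x⁻¹)⁻¹ * e ∈ Km N := mem_Km.2 he2
    refine ⟨e, Finset.mem_filter.2 ⟨Finset.mem_univ _, e, he1, rfl, ?_⟩, he3⟩
    have hv : x⁻¹ * e * x⁻¹⁻¹ ∈ N := hN.conj_mem _ e.2 x⁻¹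
    have h5 := (Km_normal N).conj_mem _ he3 x⁻¹
    have h6 : d⁻¹ * (⟨_, hv⟩ : N) ∈ Kc N := by
      apply mem_Km.1
      have e0 : ((d⁻¹ * (⟨_, hv⟩ : N) : N) : G) = x⁻¹ * ((x * d * x⁻¹)⁻¹ * e) * x⁻¹⁻¹ := by
        simp only [Subgroup.coe_mul, Subgroup.coe_inv]
        group
      rw [e0]
      exact h5
    intro h
    apply hno d hd h2 _ h6
    apply Subtype.ext
    have h7 : (e : G) * e = 1 := by simpa using congrArg Subtype.val h
    have e0 : (x⁻¹ * e * x⁻¹⁻¹) * (x⁻¹ * e * x⁻¹⁻¹) = x⁻¹ * ((e : G) * e) * x := by group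
    simp only [Subgroup.coe_mul, Subgroup.coe_one]
    rw [e0, h7]
    group

theorem vmain_out [Fintype G] (N : Subgroup G) [N.Normal] [Fintype N] (hodd : Odd N.index)
    (hc : ∀ g, g ∉ N → ∃ s ∈ N, g * s * g⁻¹ * s⁻¹ ∉ Km N) (F : Fat N)
    (hF : ∀ g g', g⁻¹ * g' ∈ N → F.t g = F.t g')
    (D : Finset N) (a : ℕ) (hinv : ∀ d ∈ D, d⁻¹ ∈ D)
    (hcard : ∀ g : N, (D.filter fun d => g⁻¹ * d ∈ Kc N).card = a)
    {Q : Type u} [Group Q] [Fintype Q] (φ : G →* Q) (hφ : Function.Surjective φ)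
    (hφ2 : ∀ g g', φ g = φ g' ↔ g⁻¹ * g' ∈ Km N) :
    Cov (Finset.univ.filter fun g : G => g ∉ N ∧ F.y g ∈ D) := by
  have hN : N.Normal := inferInstance
  have hφ1 : ∀ g, φ g = 1 ↔ g ∈ Km N := by
    intro g
    rw [eq_comm, ← φ.map_one, hφ2]
    simp
  have hV : ∀ g, φ g ∈ N.map φ ↔ g ∈ N := by
    intro g
    constructor
    · rintro ⟨n, hn, e⟩
      exact (N.mul_mem_cancel_left (N.inv_mem hn)).1 (Km_le N ((hφ2 _ _).1 e))
    · intro h
      exact ⟨g, h, rfl⟩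
  have : (N.map φ).Normal := hN.map φ hφ
  have hB : Cov (Finset.univ.filter fun q : Q => q ∉ N.map φ) := by
    apply t1
    · rintro v ⟨n, hn, rfl⟩
      rw [← map_mul, hφ1]
      exact sq_mem_Km hn
    · intro q hq
      obtain ⟨g, rfl⟩ := hφ q
      obtain ⟨s, hs, h⟩ := hc g (fun h => hq ((hV g).2 h))
      refine ⟨φ s, (hV s).2 hs, fun e => h ?_⟩
      rw [← hφ1, map_mul, map_mul, map_mul, ← e, map_inv, map_inv]
      group
  refine mult_lift φ hB ?_ _ ?_ ?_ a ?_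
  · intro b hb' e
    obtain ⟨g, rfl⟩ := hφ b
    apply (Finset.mem_filter.1 hb').2
    rw [← map_mul, hφ1] at e
    exact (hV g).2 (vmain_sq N hodd (Km_le N e))
  · intro g hg
    obtain ⟨h1, h2⟩ := (Finset.mem_filter.1 hg).2
    refine Finset.mem_filter.2 ⟨Finset.mem_univ _, fun h => h1 (N.inv_mem_iff.1 h), ?_⟩
    rw [F.y_inv]
    exact hinv _ h2
  · intro g hg
    obtain ⟨h1, -⟩ := (Finset.mem_filter.1 hg).2
    exact Finset.mem_filter.2 ⟨Finset.mem_univ _, fun h => h1 ((hV g).1 h)⟩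
  · intro b hb'
    obtain ⟨g₀, rfl⟩ := hφ b
    have hg₀ : g₀ ∉ N := fun h => (Finset.mem_filter.1 hb').2 ((hV g₀).2 h)
    have hy : ∀ g, g₀⁻¹ * g ∈ N → (F.y g : G) = (F.t g₀⁻¹)⁻¹ * g * F.t g₀ := by
      intro g hg
      have e1 : F.t g₀ = F.t g := hF _ _ hg
      have e2 : F.t g₀⁻¹ = F.t g⁻¹ := by
        apply hF
        have h2 := hN.conj_mem _ (N.inv_mem hg) g
        have e3 : g₀⁻¹⁻¹ * g⁻¹ = g * (g₀⁻¹ * g)⁻¹ * g⁻¹ := by group
        rw [e3]
        exact h2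
      rw [e1, e2, mul_assoc, F.eq g]
      group
    have hy0 := hy g₀ (by simp)
    rw [← hcard (F.y g₀)]
    apply Finset.card_bij (fun g _ => F.y g)
    · intro g hg
      obtain ⟨h1, h2⟩ := Finset.mem_filter.1 hg
      obtain ⟨-, h3⟩ := (Finset.mem_filter.1 h1).2
      have h4 : g₀⁻¹ * g ∈ Km N := (hφ2 _ _).1 h2.symm
      refine Finset.mem_filter.2 ⟨h3, mem_Km.1 ?_⟩
      have h5 := (Km_normal N).conj_mem _ h4 (F.t g₀)⁻¹
      have e0 : (((F.y g₀)⁻¹ * F.y g : N) : G) = (F.t g₀)⁻¹ * (g₀⁻¹ * g) * (F.t g₀)⁻¹⁻¹ := by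
        simp only [Subgroup.coe_mul, Subgroup.coe_inv]
        rw [hy0, hy g (Km_le N h4)]
        group
      rw [e0]
      exact h5
    · intro g hg g' hg' e
      have h4 : g₀⁻¹ * g ∈ Km N := (hφ2 _ _).1 (Finset.mem_filter.1 hg).2.symm
      have h5 : g₀⁻¹ * g' ∈ Km N := (hφ2 _ _).1 (Finset.mem_filter.1 hg').2.symm
      exact F.inj _ _ ((hF _ _ (Km_le N h4)).symm.trans (hF _ _ (Km_le N h5))) e
    · intro d hd
      obtain ⟨h1, h2⟩ := Finset.mem_filter.1 hd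
      have h3 : ((F.y g₀ : G))⁻¹ * d ∈ Km N := mem_Km.2 h2
      have h4 : g₀⁻¹ * (F.t g₀⁻¹ * d * (F.t g₀)⁻¹) ∈ Km N := by
        have h5 := (Km_normal N).conj_mem _ h3 (F.t g₀)
        have e0 : g₀⁻¹ * (F.t g₀⁻¹ * d * (F.t g₀)⁻¹) =
            F.t g₀ * (((F.y g₀ : G))⁻¹ * d) * (F.t g₀)⁻¹ := by
          rw [hy0]
          group
        rw [e0]
        exact h5
      have h6 : F.y (F.t g₀⁻¹ * d * (F.t g₀)⁻¹) = d := by
        apply Subtype.ext
        rw [hy _ (Km_le N h4)]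
        group
      refine ⟨_, Finset.mem_filter.2 ⟨Finset.mem_filter.2 ⟨Finset.mem_univ _, ?_, ?_⟩,
        ((hφ2 _ _).2 h4).symm⟩, h6⟩
      · intro h
        exact hg₀ (N.inv_mem_iff.1 ((N.mul_mem_cancel_right h).1 (Km_le N h4)))
      · rw [h6]
        exact h1

theorem cov_of_dout [Fintype G] (N : Subgroup G) [N.Normal] [Fintype N] (hodd : Odd N.index)
    (hc : ∀ g, g ∉ N → ∃ s ∈ N, g * s * g⁻¹ * s⁻¹ ∉ Km N) (hD : DOut N) :
    Cov (Finset.univ.erase (1 : G)) := by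
  obtain ⟨D, a, -, hinv, hcov, ha, hcard, hno⟩ := hD
  obtain ⟨F, hF1, hF2⟩ := exists_fat_normal N hodd
  obtain ⟨E, hE, mE⟩ : ∃ E : Finset N, Cov E ∧ ∀ d, d ∈ E ↔ d ∉ D := ⟨_, hcov, by simp⟩
  have c1 := F.lift hE
  have : Fintype (G ⧸ Km N) := Fintype.ofFinite _
  have c2 := vmain_pairs N hodd D a hinv ha hcard hno
  have c3 := vmain_out N hodd hc F hF2 D a hinv hcard (QuotientGroup.mk' (Km N))
    (QuotientGroup.mk'_surjective _) (fun g g' => QuotientGroup.eq)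
  have m1 : ∀ g, g ∈ F.pre E ↔ F.y g ∉ D := by
    intro g
    simp [Fat.pre, mE]
  have c23 := Cov.union (by
    rw [Finset.disjoint_left]
    intro g hg hg'
    obtain ⟨d, -, rfl, -⟩ := (Finset.mem_filter.1 hg).2
    exact (Finset.mem_filter.1 hg').2.1 d.2) c2 c3
  have c := Cov.union (by
    rw [Finset.disjoint_left]
    intro g hg hg'
    apply (m1 g).1 hg
    rcases Finset.mem_union.1 hg' with h | h
    · obtain ⟨d, hd, rfl, -⟩ := (Finset.mem_filter.1 h).2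
      rw [hF1]
      exact hd
    · exact (Finset.mem_filter.1 h).2.2) c1 c23
  apply c.finish
  intro y hy1 hy
  refine ⟨hy1, Or.inl ?_⟩
  simp only [Finset.mem_union, not_or] at hy
  obtain ⟨h1, h2, h3⟩ := hy
  have h4 : F.y y ∈ D := by
    by_contra h
    exact h1 ((m1 y).2 h)
  have h5 : y ∈ N := by
    by_contra h
    exact h3 (Finset.mem_filter.2 ⟨Finset.mem_univ _, h, h4⟩)
  have h6 : F.y y = ⟨y, h5⟩ := hF1 ⟨y, h5⟩
  by_contra h
  apply h2
  refine Finset.mem_filter.2 ⟨Finset.mem_univ _, ⟨y, h5⟩, h6 ▸ h4, rfl, fun e => h ?_⟩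
  simpa using congrArg Subtype.val e

theorem main [Finite G] [Group.IsSolvable G] (h2 : Even (Nat.card G)) (h : ¬ HasStarter G) :
    IsCyclic G ∧ ∃ k : ℕ, Nat.card G = 2 ^ k := by
  have := Fintype.ofFinite G
  have key : ¬ Cov (Finset.univ.erase (1 : G)) := fun c => h (hasStarter_of_cover c.cover)
  by_cases hK : Kc G = ⊤
  · exfalso
    obtain ⟨N, hN, hodd, hK', hc⟩ := exists_N1 (G := G) h2
    have := Fintype.ofFinite N
    obtain ⟨O, P, hH⟩ := exists_hall (G := N)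
    exact key (cov_of_dout N hodd hc (gb hH hK' (noInv_of hK N hodd)))
  · obtain ⟨O, P, hH⟩ := exists_hall (G := G)
    by_cases hP : ¬ IsCyclic P ∨ Nat.card P ≤ 4
    · exact absurd (ga hH hK hP) key
    · push Not at hP
      obtain ⟨O', hH', hn⟩ := exists_hall_normal hH hP.1
      by_cases h3 : 3 ≤ Nat.card O'
      · exact absurd (gc hH' h3 hP.1 hP.2) key
      · have h1 : Nat.card O' = 1 := by
          obtain ⟨k, hk⟩ := hH'.odd
          omega
        have hP1 : P = ⊤ := Subgroup.index_eq_one.1 (hH'.index.trans h1)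
        obtain ⟨k, hk⟩ := hH'.two.exists_card_eq
        have hc := hP.1
        subst hP1
        exact ⟨isCyclic_of_surjective _ Subgroup.topEquiv.surjective,
          k, by rw [← hk, Subgroup.card_top]⟩

end Pool.Agent.P.MP_da365b_co.SV
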