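import Pool.Agent.P.MP_da365b_co.VCov

namespace Pool.Agent.P.MP_da365b_co.SV

open Classical

set_option linter.unusedSectionVars false

universe u

variable {G : Type u} [Group G]

theorem vspec0_quad {j : G} {C : Subgroup G} (hj : j ∈ C) (hsq : ∀ g, g * g ∈ C) {g x : G}
    (hx : x ∈ quad j g) : g⁻¹ * x ∈ C := by
  rw [mem_quad] at hx
  rcases hx with hx | hx | hx | hx
  · rw [hx, inv_mul_cancel]
    exact C.one_mem
  · rw [hx]
    exact hsq g⁻¹
  · rw [hx, inv_mul_cancel_left]
    exact hj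
  · rw [hx, ← mul_assoc]
    exact C.mul_mem (hsq g⁻¹) hj

theorem exists_res [Fintype G] {j : G} (hj2 : j * j = 1) (hjc : ∀ g, g * j = j * g)
    (C : Subgroup G) (hj : j ∈ C) (hsq : ∀ g, g * g ∈ C) : ∃ U₀, Res j C U₀ := by
  have : Fintype (G ⧸ C) := Fintype.ofFinite _
  refine ⟨(Finset.univ.filter fun q : G ⧸ C => ∀ v, q.out⁻¹ * v ∈ C → Strong j v).biUnion
    fun q => quad j q.out, ?_, ?_, ?_, ?_⟩
  · intro g hg
    rw [Finset.mem_biUnion] at hg
    obtain ⟨q, hq, hg⟩ := hg
    have := clo_quad hj2 hjc q.out g hg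
    exact ⟨Finset.mem_biUnion.2 ⟨q, hq, this.1⟩, Finset.mem_biUnion.2 ⟨q, hq, this.2⟩⟩
  · intro g hg v hv
    rw [Finset.mem_biUnion] at hg
    obtain ⟨q, hq, hg⟩ := hg
    apply (Finset.mem_filter.1 hq).2
    have e : q.out⁻¹ * v = (q.out⁻¹ * g) * (g⁻¹ * v) := by group
    rw [e]
    exact C.mul_mem (vspec0_quad hj hsq hg) hv
  · intro g
    refine le_trans (Finset.card_le_card ?_) (card_quad_le j (g : G ⧸ C).out)
    intro v hv
    rw [Finset.mem_filter, Finset.mem_biUnion] at hv
    obtain ⟨⟨q, _, hq⟩, hv⟩ := hv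
    have e : q = (g : G ⧸ C) := by
      rw [← QuotientGroup.out_eq' q, QuotientGroup.eq]
      have e' : q.out⁻¹ * g = (q.out⁻¹ * v) * (g⁻¹ * v)⁻¹ := by group
      rw [e']
      exact C.mul_mem (vspec0_quad hj hsq hq) (C.inv_mem hv)
    rw [← e]
    exact hq
  · intro g hg
    have hgo : g⁻¹ * (g : G ⧸ C).out ∈ C := by
      rw [← QuotientGroup.eq, QuotientGroup.out_eq']
    refine ⟨(g : G ⧸ C).out, Finset.mem_biUnion.2 ⟨(g : G ⧸ C), ?_, self_mem_quad _ _⟩, hgo⟩
    refine Finset.mem_filter.2 ⟨Finset.mem_univ _, fun v hv => hg v ?_⟩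
    have e : g⁻¹ * v = (g⁻¹ * (g : G ⧸ C).out) * ((g : G ⧸ C).out⁻¹ * v) := by group
    rw [e]
    exact C.mul_mem hgo hv

theorem Res.count [Fintype G] {j : G} {C : Subgroup G} {U₀ : Finset G} (h : Res j C U₀)
    {M' : Subgroup G} (hle : M' ≤ C) (X : Finset G) (hX : ∀ g ∈ X, ∀ m ∈ M', g * m ∈ X) :
    cd M' * (X.filter fun g => g ∈ U₀).card ≤ 4 * (X.filter fun g => Strong j g).card := by
  unfold cd
  rw [← Finset.card_product]
  apply Finset.card_le_mul_card_image_of_maps_to (f := fun p : G × G => p.2 * p.1)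
  · intro p hp
    simp only [Finset.mem_product, Finset.mem_filter, Finset.mem_univ, true_and] at hp ⊢
    refine ⟨hX _ hp.2.1 _ hp.1, h.strong _ hp.2.2 _ ?_⟩
    rw [inv_mul_cancel_left]
    exact hle hp.1
  · intro x _
    refine le_trans ?_ (h.four x)
    apply Finset.card_le_card_of_injOn (fun p : G × G => p.2)
    · intro p hp
      simp only [Finset.coe_filter, Finset.mem_product, Finset.mem_filter, Finset.mem_univ,
        true_and, Set.mem_ofPred_eq] at hp ⊢
      refine ⟨hp.1.2.2, ?_⟩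
      have e : x⁻¹ * p.2 = p.1⁻¹ := by
        rw [← hp.2]
        group
      rw [e]
      exact C.inv_mem (hle hp.1.1)
    · intro p hp p' hp' e
      simp only [Finset.coe_filter, Set.mem_ofPred_eq] at hp hp' e
      have e2 : p.2 * p.1 = p'.2 * p'.1 := hp.2.trans hp'.2.symm
      rw [e] at e2
      exact Prod.ext (mul_left_cancel e2) e

/-- The supply of fillers outside the reserve. -/
theorem Res.supply [Fintype G] {j : G} {C : Subgroup G} {U₀ : Finset G} (hR : Res j C U₀)
    {M : Subgroup G} {w : G} {K S : Subgroup G} (h : Lev M w K S) (hM : M ≤ C) (hw : w ∈ C)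
    (k : ℕ) (a b : G ⧸ S)
    (hk : k * cd M ≤ (Finset.univ.filter fun g : G => Strong j g ∧ g • a = b).card) :
    k * (cd M - 2) ≤
      (Finset.univ.filter fun g : G => Strong j g ∧ g ∉ U₀ ∧ g • a = b).card := by
  have h1 : ∀ x ∈ M, w * x * w⁻¹ ∈ M := fun x hx => h.normal.conj_mem x hx w
  have hle : adj M w h1 h.sq ≤ C := by
    intro x hx
    rcases mem_adj.1 hx with hx | hx
    · exact hM hx
    · have e : x = w * (w⁻¹ * x) := by group
      rw [e]
      exact C.mul_mem hw (hM hx)
  have hcd : cd (adj M w h1 h.sq) = 2 * cd M :=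
    cd_of_two (fun h' => h.notK (h.le h')) fun x => mem_adj
  have hc := hR.count hle (Finset.univ.filter fun g : G => g • a = b) (by
    intro g hg m hm
    simp only [Finset.mem_filter, Finset.mem_univ, true_and] at hg ⊢
    rw [mul_smul, h.smul_S (mem_adj.1 hm), hg])
  rw [hcd] at hc
  have e1 : ((Finset.univ.filter fun g : G => g • a = b).filter fun g => Strong j g) =
      Finset.univ.filter fun g : G => Strong j g ∧ g • a = b := by
    ext g
    simp only [Finset.mem_filter, Finset.mem_univ, true_and]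
    exact and_comm
  rw [e1] at hc
  have hsub : (Finset.univ.filter fun g : G => Strong j g ∧ g • a = b) ⊆
      (Finset.univ.filter fun g : G => Strong j g ∧ g ∉ U₀ ∧ g • a = b) ∪
        ((Finset.univ.filter fun g : G => g • a = b).filter fun g => g ∈ U₀) := by
    intro g hg
    simp only [Finset.mem_union, Finset.mem_filter, Finset.mem_univ, true_and] at hg ⊢
    by_cases hu : g ∈ U₀
    · exact Or.inr ⟨hg.2, hu⟩
    · exact Or.inl ⟨hg.1, hu, hg.2⟩
  have hT := (Finset.card_le_card hsub).trans (Finset.card_union_le _ _)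
  have hm0 : 0 < cd M := by
    unfold cd
    exact Finset.card_pos.2 ⟨1, Finset.mem_filter.2 ⟨Finset.mem_univ _, M.one_mem⟩⟩
  generalize (Finset.univ.filter fun g : G => Strong j g ∧ g • a = b).card = T at *
  generalize (Finset.univ.filter fun g : G => Strong j g ∧ g ∉ U₀ ∧ g • a = b).card = A at *
  generalize ((Finset.univ.filter fun g : G => g • a = b).filter fun g => g ∈ U₀).card = R at *
  generalize cd M = m at *
  rcases Nat.lt_or_ge m 2 with hm | hm
  · have : m - 2 = 0 := by omega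
    rw [this]
    omega
  · obtain ⟨n, rfl⟩ := Nat.exists_eq_add_of_le hm
    rw [Nat.add_sub_cancel_left]
    apply Nat.le_of_mul_le_mul_left _ hm0
    have t1 : n * (k * (2 + n)) ≤ n * T := Nat.mul_le_mul_left _ hk
    have t2 : (2 + n) * T ≤ (2 + n) * (A + R) := Nat.mul_le_mul_left _ hT
    nlinarith

end Pool.Agent.P.MP_da365b_co.SV
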