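import Pool.Agent.P.MP_da365b_co.VDirac
import Pool.Agent.P.MP_da365b_co.VSpec0

namespace Pool.Agent.P.MP_da365b_co.SV

open Classical

set_option linter.unusedSectionVars false

universe u

variable {G : Type u} [Group G]

theorem special' [Fintype G] {M : Subgroup G} {w : G} {K S : Subgroup G} (h : Lev M w K S)
    [Fintype (G ⧸ S)] {j : G} (hj1 : j ≠ 1) (hj2 : j * j = 1)
    (hjc : ∀ g, g * j = j * g) (hjM : j ∈ M) {U₁ U : Finset G} (hU₁ : Clo j U₁) (hU : Clo j U)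
    (s : ℕ) (hs4 : 4 ≤ s)
    (hs : ∀ a b : G ⧸ S, a ≠ b →
      s ≤ (Finset.univ.filter fun g : G => Strong j g ∧ g ∉ U₁ ∧ g • a = b).card)
    (hbound : 2 * U.card + 4 * Fintype.card (G ⧸ S) ≤ Fintype.card (G ⧸ S) * s)
    (D : Finset G) (hD1 : ∀ x ∈ D, x⁻¹ ∈ D) (hD2 : ∀ x ∈ D, w⁻¹ * x ∈ M ∧ x * x ≠ 1)
    (a ε : ℕ) (ha : D.card = 2 * a) (P : Finset G) (hPM : ∀ t ∈ P, t ∈ M) (hε : ε ≤ 1)
    (hP0 : ε = 0 → P = ∅)
    (hP : ∀ X : Finset (G ⧸ S), X.card = ε → PM K P (h.rho ⁻¹' (X : Set (G ⧸ S))))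
    (hpar : (2 ∣ a + ε ∧ 2 ∣ Fintype.card (G ⧸ S)) ∨ Fintype.card (G ⧸ S) = 1) :
    ∃ F : Finset G, Clo j F ∧
      (∀ g ∈ F, Strong j g ∧ g ∉ U₁ ∧ g ∉ U ∧ ¬ (g ∈ M ∨ w⁻¹ * g ∈ M)) ∧
      F.card ≤ 2 * Fintype.card (G ⧸ S) ∧ Cov (F ∪ P ∪ D) := by
  set p := Fintype.card (G ⧸ S) with hp
  have hp0 : 0 < p := Fintype.card_pos
  by_cases h0 : a + ε = 0
  · refine ⟨∅, by simp [Clo], by simp, by simp, ?_⟩
    have : D = ∅ := by
      rw [← Finset.card_eq_zero]; omega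
    rw [this, hP0 (by omega)]
    simpa using (Cov.empty : Cov (∅ : Finset G))
  obtain ⟨q, r, hqr, hr1, hrp⟩ : ∃ q r, a + ε = q * p + r ∧ 1 ≤ r ∧ r ≤ p := by
    refine ⟨(a + ε - 1) / p, (a + ε - 1) % p + 1, ?_, by omega, Nat.mod_lt _ hp0⟩
    have := Nat.div_add_mod (a + ε - 1) p
    rw [mul_comm] at this
    omega
  obtain ⟨m, hm, hm'⟩ : ∃ m, 2 * m + r = p ∧ (m = 0 ∨ 2 * m + 2 ≤ p) := by
    rcases hpar with ⟨h1, h2⟩ | h1
    · have : 2 ∣ q * p := Dvd.dvd.mul_left h2 q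
      exact ⟨(p - r) / 2, by omega, by omega⟩
    · exact ⟨0, by omega, Or.inl rfl⟩
  obtain ⟨E, hEc, hE⟩ := dirac' hj2 hjc s hs4 hs hbound m hm'
  have hcc : (cov E)ᶜ.card = r := by
    rw [Finset.card_compl, hE.card_cov]; omega
  obtain ⟨XP, hXP, hXPc⟩ := Finset.exists_subset_card_eq (s := (cov E)ᶜ) (n := ε) (by omega)
  have hXL : ((cov E)ᶜ \ XP).card = r - ε := by rw [Finset.card_sdiff_of_subset hXP, hcc, hXPc]
  obtain ⟨D₁, hsub, hpm, hcard⟩ := h.loops ((cov E)ᶜ \ XP) D hD1 hD2 (by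
    rw [hXL, ha]; omega)
  have hF : ∀ g ∈ labs j E, Strong j g ∧ g ∉ U₁ ∧ g ∉ U ∧ ¬ (g ∈ M ∨ w⁻¹ * g ∈ M) := by
    intro g hg
    obtain ⟨e, he, hg⟩ := Finset.mem_biUnion.1 hg
    have hn := Finset.disjoint_left.1
      (disjoint_quad hj2 hjc (hU₁.union hU) (hE.notU e he)) hg
    refine ⟨strong_of_mem_quad hj2 hjc (hE.strong e he) hg,
      fun h' => hn (Finset.mem_union_left _ h'), fun h' => hn (Finset.mem_union_right _ h'), ?_⟩
    intro h'
    apply hE.move e he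
    have h1 := h.smul_S h'
    have h2 := h.smul_S (Or.inl hjM)
    have h3 : ∀ b : G ⧸ S, g⁻¹ • b = b := fun b => by rw [inv_smul_eq_iff, h1]
    rcases mem_quad.1 (mem_quad_symm hj2 hjc hg) with h4 | h4 | h4 | h4 <;> rw [h4]
    · exact h1 _
    · exact h3 _
    · rw [mul_smul, h2, h1]
    · rw [mul_smul, h2, h3]
  have dFP : Disjoint (labs j E) P := by
    rw [Finset.disjoint_left]
    intro g hg hg'
    exact (hF g hg).2.2.2 (Or.inl (hPM g hg'))
  have dD : Disjoint (labs j E ∪ P) D := by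
    rw [Finset.disjoint_left]
    intro g hg hg'
    rcases Finset.mem_union.1 hg with h1 | h1
    · exact (hF g h1).2.2.2 (Or.inr (hD2 g hg').1)
    · apply h.notK
      apply h.le
      have : w = g * (w⁻¹ * g)⁻¹ := by group
      rw [this]
      exact M.mul_mem (hPM g h1) (M.inv_mem (hD2 g hg').1)
  have pm1 := (h.dbls hj1 hj2 hjc hjM E hE).union (hP XP hXPc) dFP (by
    apply Disjoint.preimage
    rw [Finset.disjoint_coe]
    exact Finset.disjoint_left.2 fun x hx hx' => Finset.mem_compl.1 (hXP hx') hx)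
  have pm2 := pm1.union hpm (dD.mono_right hsub) (by
    rw [← Set.preimage_union]
    apply Disjoint.preimage
    rw [← Finset.coe_union, Finset.disjoint_coe, Finset.disjoint_left]
    intro x hx hx'
    rw [Finset.mem_sdiff, Finset.mem_compl] at hx'
    rcases Finset.mem_union.1 hx with h1 | h1
    · exact hx'.1 h1
    · exact hx'.2 h1)
  have huniv : (h.rho ⁻¹' (cov E : Set (G ⧸ S)) ∪ h.rho ⁻¹' (XP : Set (G ⧸ S))) ∪
      h.rho ⁻¹' (((cov E)ᶜ \ XP : Finset (G ⧸ S)) : Set (G ⧸ S)) = Set.univ := by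
    ext x
    simp only [Set.mem_union, Set.mem_preimage, Finset.mem_coe, Finset.mem_sdiff,
      Finset.mem_compl, Set.mem_univ, iff_true]
    tauto
  rw [huniv] at pm2
  have c2 : Cov (D \ D₁) := by
    apply copies' h q
    · intro x hx
      rw [Finset.mem_sdiff] at hx ⊢
      exact ⟨hD1 x hx.1, fun h' => hx.2 (by simpa using hpm.inv_mem _ h')⟩
    · intro x hx
      exact hD2 x (Finset.mem_sdiff.1 hx).1
    · rw [Finset.card_sdiff_of_subset hsub, ha, hcard, hXL, ← hp]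
      omega
  refine ⟨labs j E, clo_labs hj2 hjc E, hF, (card_labs_le j E).trans (by omega), ?_⟩
  have := Cov.union (A := labs j E ∪ P ∪ D₁) (B := D \ D₁) (by
    rw [Finset.disjoint_union_left]
    exact ⟨dD.mono_right Finset.sdiff_subset, Finset.disjoint_sdiff⟩) (cov_of_pm pm2) c2
  rwa [Finset.union_assoc _ D₁, Finset.union_sdiff_of_subset hsub] at this

end Pool.Agent.P.MP_da365b_co.SV
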