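import Pool.Agent.P.MP_da365b_co.VCov

namespace Pool.Agent.P.MP_da365b_co.SV

open Classical

set_option linter.unusedSectionVars false

universe u

variable {G : Type u} [Group G]

theorem four_of' {x g : G} {b : ℕ} (hx : orderOf x = 2 * 2 ^ b)
    (hA : (Subgroup.zpowers x).Normal) (hg : g ∉ Subgroup.zpowers x)
    (hc : ∀ h, h * g * h⁻¹ * g⁻¹ ∈ Subgroup.zpowers x) {u e : ℤ}
    (hu : g * x * g⁻¹ = x ^ u) (hu4 : u % 4 = 1) (he : g * g = x ^ e) (hev : e % 2 = 0) :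
    ∃ i : ℤ, IsFour (x ^ ((2 : ℤ) ^ b)) (x ^ i * g) := by
  have xe := zpow_eq_iff hx
  have x1 := zpow_eq_one_iff' hx
  push_cast at xe x1
  set N : ℤ := 2 ^ b with hN
  have hN0 : 0 < N := by positivity
  obtain ⟨s, rfl⟩ : ∃ s, u = 4 * s + 1 := ⟨u / 4, by omega⟩
  obtain ⟨f, rfl⟩ : ∃ f, e = 2 * f := ⟨e / 2, by omega⟩
  have cop : IsCoprime N (2 * s + 1) := coprime_two_pow b s
  obtain ⟨α, β, hαβ⟩ := id cop
  have hgx : ∀ k : ℤ, g * x ^ k = x ^ ((4 * s + 1) * k) * g := by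
    intro k
    rw [← conj_zpow' hu]
    group
  have sqf : ∀ k : ℤ, x ^ k * g * (x ^ k * g) = x ^ (k + (4 * s + 1) * k + 2 * f) := by
    intro k
    rw [mul_assoc, ← mul_assoc g, hgx, mul_assoc, he, ← zpow_add, ← zpow_add, add_assoc]
  have invol : ∀ k : ℤ, N ∣ k → x ^ k = 1 ∨ x ^ k = x ^ N := by
    rintro k ⟨t, rfl⟩
    rw [x1, xe]
    rcases Int.even_or_odd' t with ⟨r, rfl | rfl⟩
    · left; exact ⟨r, by ring⟩
    · right; exact ⟨-r, by ring⟩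
  have hj1 : x ^ N ≠ 1 := by
    rw [Ne, x1]
    intro h
    have := Int.le_of_dvd hN0 h
    omega
  have hj2 : x ^ N * x ^ N = 1 := by
    rw [← zpow_add, x1]
    exact ⟨1, by ring⟩
  have hjc : ∀ h, h * x ^ N = x ^ N * h := by
    intro h
    obtain ⟨k, hk⟩ := mem_zp.1 (hA.conj_mem _ (mem_zp.2 ⟨N, rfl⟩) h)
    have h2 : x ^ k * x ^ k = 1 := by
      rw [← hk]
      have : h * x ^ N * h⁻¹ * (h * x ^ N * h⁻¹) = h * (x ^ N * x ^ N) * h⁻¹ := by group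
      rw [this, hj2]; group
    rw [← zpow_add, x1] at h2
    obtain ⟨t, ht⟩ := h2
    rcases invol k ⟨t, by linarith⟩ with h3 | h3
    · exfalso
      apply hj1
      rw [h3] at hk
      simpa using hk
    · rw [h3] at hk
      rw [← mul_inv_eq_iff_eq_mul, hk]
  have notA : ∀ k : ℤ, x ^ k * g ∉ Subgroup.zpowers x := fun k h =>
    hg (((Subgroup.zpowers x).mul_mem_cancel_left (mem_zp.2 ⟨k, rfl⟩)).1 h)
  set i : ℤ := -f * β with hi
  have hc2 : x ^ i * g * (x ^ i * g) = 1 := by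
    rw [sqf, x1]
    exact ⟨f * α, by rw [hi]; linear_combination (-2 * f) * hαβ⟩
  refine ⟨i, hj1, hj2, hjc, fun h => notA i (h ▸ Subgroup.one_mem _), hc2,
    fun h => notA i (h ▸ mem_zp.2 ⟨N, rfl⟩), fun h => ?_⟩
  have m1 : h * (x ^ i * g) * h⁻¹ * g⁻¹ ∈ Subgroup.zpowers x := by
    have : h * (x ^ i * g) * h⁻¹ * g⁻¹ = (h * x ^ i * h⁻¹) * (h * g * h⁻¹ * g⁻¹) := by group
    rw [this]
    exact Subgroup.mul_mem _ (hA.conj_mem _ (mem_zp.2 ⟨i, rfl⟩) h) (hc h)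
  obtain ⟨k, hk⟩ := mem_zp.1 m1
  rw [mul_inv_eq_iff_eq_mul] at hk
  have h2 : x ^ k * g * (x ^ k * g) = 1 := by
    rw [← hk]
    have : h * (x ^ i * g) * h⁻¹ * (h * (x ^ i * g) * h⁻¹) =
      h * (x ^ i * g * (x ^ i * g)) * h⁻¹ := by group
    rw [this, hc2]; group
  rw [sqf, x1] at h2 hc2
  obtain ⟨t1, ht1⟩ := h2
  obtain ⟨t2, ht2⟩ := hc2
  have hd : N ∣ k - i := by
    apply cop.dvd_of_dvd_mul_right
    exact ⟨t1 - t2, by linarith⟩
  have e3 : x ^ k * g = x ^ (k - i) * (x ^ i * g) := by group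
  rw [hk, e3]
  rcases invol _ hd with h3 | h3 <;> rw [h3]
  · left; rw [one_mul]
  · right; rw [hjc]

theorem xs [Finite G] (hG : IsPGroup 2 G) (C : Subgroup G) [C.Normal] (hC : C ≠ ⊥)
    (hcomm : ∀ g h, h * g * h⁻¹ * g⁻¹ ∈ C) (h4 : ¬ FourIn C) :
    ∃ (x : G) (b : ℕ), x ∈ C ∧ orderOf x = 2 * 2 ^ b ∧ (Subgroup.zpowers x).Normal ∧
      (∀ g h, h * g * h⁻¹ * g⁻¹ ∈ Subgroup.zpowers x) ∧
      (∀ g ∈ C, g ∉ Subgroup.zpowers x → g * g ∈ Subgroup.zpowers x ∧ 1 ≤ b ∧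
        ∀ u : ℤ, g * x * g⁻¹ = x ^ u → u % 4 = 3) ∧
      ∀ g ∈ C, ∀ h ∈ C, g ∉ Subgroup.zpowers x → h ∉ Subgroup.zpowers x →
        g⁻¹ * h ∈ Subgroup.zpowers x := by
  have : Fact (Nat.Prime 2) := ⟨Nat.prime_two⟩
  obtain ⟨A, hAmax⟩ := (Set.toFinite
    {A : Subgroup G | A.Normal ∧ A ≤ C ∧ ∃ x, A = Subgroup.zpowers x}).exists_maximal
    ⟨⊥, inferInstance, bot_le, 1, by simp⟩
  obtain ⟨hAn, hAC, x, rfl⟩ := hAmax.prop
  have hxC : x ∈ C := hAC (Subgroup.mem_zpowers x)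
  have hmax : ∀ g ∈ C, x ∈ Subgroup.zpowers g → (Subgroup.zpowers g).Normal →
      g ∈ Subgroup.zpowers x := by
    intro g hgC h1 h2
    exact hAmax.le_of_ge ⟨h2, (Subgroup.zpowers_le).2 hgC, g, rfl⟩
      ((Subgroup.zpowers_le).2 h1) (Subgroup.mem_zpowers g)
  have hnorm : ∀ g ∈ C, x ∈ Subgroup.zpowers g →
      (∀ h, h * g * h⁻¹ * g⁻¹ ∈ Subgroup.zpowers x) → g ∈ Subgroup.zpowers x := by
    intro g hgC h1 h2
    apply hmax g hgC h1
    constructor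
    intro y hy h
    obtain ⟨k, rfl⟩ := mem_zp.1 hy
    rw [← conj_zpow]
    apply Subgroup.zpow_mem
    have : h * g * h⁻¹ = (h * g * h⁻¹ * g⁻¹) * g := by group
    rw [this]
    exact Subgroup.mul_mem _ ((Subgroup.zpowers_le).2 h1 (h2 h)) (Subgroup.mem_zpowers g)
  have hx1 : x ≠ 1 := by
    rintro rfl
    obtain ⟨c, hc1⟩ := Subgroup.ne_bot_iff_exists_ne_one.1 hC
    obtain ⟨w, hwC, hw0, -, hwc⟩ := exists_step hG (Subgroup.zpowers (1 : G)) C
      ⟨c, c.2, fun h => hc1 (Subtype.ext (by simpa using h))⟩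
    exact hw0 (hnorm w hwC (Subgroup.one_mem _) hwc)
  obtain ⟨b, hx⟩ : ∃ b, orderOf x = 2 * 2 ^ b := by
    obtain ⟨k, hk⟩ := IsPGroup.iff_orderOf.1 hG x
    rcases k with _ | k
    · exact absurd (orderOf_eq_one_iff.1 (by simpa using hk)) hx1
    · exact ⟨k, by rw [hk, pow_succ']⟩
  have xe := zpow_eq_iff hx
  have x1 := zpow_eq_one_iff' hx
  push_cast at xe x1
  have cop2 : ∀ s : ℤ, IsCoprime (2 * (2 : ℤ) ^ b) (2 * s + 1) := by
    intro s
    rw [← pow_succ']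
    exact coprime_two_pow _ s
  have step : ∀ g ∈ C, g ∉ Subgroup.zpowers x → g * g ∈ Subgroup.zpowers x →
      (∀ h, h * g * h⁻¹ * g⁻¹ ∈ Subgroup.zpowers x) → ∀ u : ℤ, g * x * g⁻¹ = x ^ u →
      u % 4 ≠ 1 := by
    intro g hgC hg hg2 hc u hu hu4
    obtain ⟨e, he⟩ := mem_zp.1 hg2
    by_cases hev : e % 2 = 0
    · obtain ⟨i, hi⟩ := four_of' hx hAn hg hc hu hu4 he hev
      exact h4 ⟨_, C.zpow_mem hxC _, _, C.mul_mem (C.zpow_mem hxC _) hgC, hi⟩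
    · apply hg
      apply hnorm g hgC _ hc
      obtain ⟨f, rfl⟩ : ∃ f, e = 2 * f + 1 := ⟨e / 2, by omega⟩
      obtain ⟨α, β, hαβ⟩ := cop2 f
      have : x = (g * g) ^ β := by
        rw [he, ← zpow_mul]
        nth_rewrite 1 [← zpow_one x]
        rw [xe]
        exact ⟨-α, by linear_combination hαβ⟩
      rw [this]
      exact Subgroup.zpow_mem _
        (Subgroup.mul_mem _ (Subgroup.mem_zpowers g) (Subgroup.mem_zpowers g)) _
  have cent : ∀ h ∈ C, h * x = x * h → h ∈ Subgroup.zpowers x := by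
    intro h hhC hh
    by_contra hcon
    have hCn : (Subgroup.centralizer (Subgroup.zpowers x : Set G)).Normal := inferInstance
    obtain ⟨w, hwC, hw0, hw2, hwc⟩ := exists_step hG (Subgroup.zpowers x)
      (C ⊓ Subgroup.centralizer (Subgroup.zpowers x : Set G)) ⟨h, Subgroup.mem_inf.2 ⟨hhC, by
        rw [Subgroup.mem_centralizer_iff]
        intro y hy
        obtain ⟨k, rfl⟩ := mem_zp.1 hy
        exact (Commute.zpow_left (show Commute x h from hh.symm) k)⟩, hcon⟩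
    obtain ⟨hwC, hwZ⟩ := Subgroup.mem_inf.1 hwC
    rw [Subgroup.mem_centralizer_iff] at hwZ
    have := hwZ x (Subgroup.mem_zpowers x)
    exact step w hwC hw0 hw2 hwc 1 (by rw [← this]; simp) rfl
  have act : ∀ h, ∃ u : ℤ, h * x * h⁻¹ = x ^ u := fun h =>
    mem_zp.1 (hAn.conj_mem x (Subgroup.mem_zpowers x) h)
  have actmul : ∀ (g h : G) (u v : ℤ), g * x * g⁻¹ = x ^ u → h * x * h⁻¹ = x ^ v →
      (g * h) * x * (g * h)⁻¹ = x ^ (u * v) := by
    intro g h u v hu hv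
    rw [← conj_zpow' hu, ← hv]
    group
  have comm : ∀ g h, h * g * h⁻¹ * g⁻¹ ∈ Subgroup.zpowers x := by
    intro g h
    obtain ⟨u, hu⟩ := act g
    obtain ⟨v, hv⟩ := act h
    have e1 := actmul g h u v hu hv
    have e2 := actmul h g v u hv hu
    rw [mul_comm v u, ← e1] at e2
    have : (g * h)⁻¹ * (h * g) ∈ Subgroup.zpowers x := by
      apply cent
      · have e0 : (g * h)⁻¹ * (h * g) = h⁻¹ * g⁻¹ * h⁻¹⁻¹ * g⁻¹⁻¹ := by group
        rw [e0]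
        exact hcomm _ _
      have e3 : (g * h)⁻¹ * (h * g) * x = (g * h)⁻¹ * (h * g * x * (h * g)⁻¹) * (h * g) := by group
      rw [e3, e2]
      group
    have e4 : h * g * h⁻¹ * g⁻¹ = (g * h) * ((g * h)⁻¹ * (h * g)) * (g * h)⁻¹ := by group
    rw [e4]
    exact hAn.conj_mem _ this _
  have odd : ∀ (h : G) (u : ℤ), h * x * h⁻¹ = x ^ u → u % 2 = 1 := by
    intro h u hu
    by_contra hcon
    obtain ⟨v, rfl⟩ : ∃ v, u = 2 * v := ⟨u / 2, by omega⟩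
    have h1 := conj_zpow' hu (2 ^ b)
    have h2 : x ^ (2 * v * 2 ^ b) = 1 := by
      rw [x1]
      exact ⟨v, by ring⟩
    rw [h2] at h1
    have h3 : x ^ ((2 : ℤ) ^ b) = 1 := by simpa using h1
    rw [x1] at h3
    have hN0 : (0 : ℤ) < 2 ^ b := by positivity
    have := Int.le_of_dvd hN0 h3
    omega
  have three : ∀ g ∈ C, g ∉ Subgroup.zpowers x → g * g ∈ Subgroup.zpowers x →
      ∀ u : ℤ, g * x * g⁻¹ = x ^ u → u % 4 = 3 := by
    intro g hgC hg hg2 u hu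
    have := step g hgC hg hg2 (comm g) u hu
    have := odd g u hu
    omega
  have sqmem : ∀ (k : ℕ), ∀ h ∈ C, h ^ 2 ^ k ∈ Subgroup.zpowers x → h ∉ Subgroup.zpowers x →
      h * h ∈ Subgroup.zpowers x := by
    intro k
    induction k with
    | zero =>
      intro h _ h1 h2
      exact absurd (by simpa using h1) h2
    | succ k ih =>
      intro h hhC h1 h2
      by_contra h3
      have hh2 := C.mul_mem hhC hhC
      have h5 := ih (h * h) hh2 (by rwa [← pow_two, ← pow_mul, ← pow_succ']) h3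
      obtain ⟨v, hv⟩ := act h
      have h6 := three (h * h) hh2 h3 h5 _ (actmul h h v v hv hv)
      have h7 := odd h v hv
      obtain ⟨t, rfl⟩ : ∃ t, v = 2 * t + 1 := ⟨v / 2, by omega⟩
      have : (2 * t + 1) * (2 * t + 1) = 4 * (t * t + t) + 1 := by ring
      omega
  have sq : ∀ g ∈ C, g ∉ Subgroup.zpowers x → g * g ∈ Subgroup.zpowers x := by
    intro g hgC hg
    obtain ⟨k, hk⟩ := hG g
    exact sqmem k g hgC (hk ▸ Subgroup.one_mem _) hg
  have three' : ∀ g ∈ C, g ∉ Subgroup.zpowers x → ∀ u : ℤ, g * x * g⁻¹ = x ^ u → u % 4 = 3 :=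
    fun g hgC hg => three g hgC hg (sq g hgC hg)
  refine ⟨x, b, hxC, hx, hAn, comm, fun g hgC hg => ⟨sq g hgC hg, ?_, three' g hgC hg⟩, ?_⟩
  · rcases b with _ | b
    · obtain ⟨u, hu⟩ := act g
      have hu4 := three' g hgC hg u hu
      have := three' g hgC hg (u - 2) (by
        rw [hu, xe]
        exact ⟨-1, by ring⟩)
      omega
    · omega
  · intro g hgC y hyC hg hy
    by_contra hcon
    obtain ⟨u, hu⟩ := act g⁻¹
    obtain ⟨v, hv⟩ := act y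
    have h1 := three' g⁻¹ (C.inv_mem hgC) (by simpa using hg) u hu
    have h2 := three' y hyC hy v hv
    have h3 := three' _ (C.mul_mem (C.inv_mem hgC) hyC) hcon _ (actmul _ _ u v hu hv)
    obtain ⟨s, rfl⟩ : ∃ s, u = 4 * s + 3 := ⟨u / 4, by omega⟩
    obtain ⟨t, rfl⟩ : ∃ t, v = 4 * t + 3 := ⟨v / 4, by omega⟩
    have : (4 * s + 3) * (4 * t + 3) = 4 * (4 * s * t + 3 * s + 3 * t + 2) + 1 := by ring
    omega

end Pool.Agent.P.MP_da365b_co.SV
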