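import Pool.Agent.P.MP_da365b_co.Main

namespace Pool.Agent.P.MP_da365b_co.VariantTwoGroups

open Pool.Agent.P.MP_da365b_co

theorem result {G : Type*} [Group G] [Finite G] (k : ℕ) (hk : Nat.card G = 2 ^ k)
    (h : ¬ HasStarter G) : IsCyclic G :=
  Pool.Agent.P.MP_da365b_co.main k hk h

end Pool.Agent.P.MP_da365b_co.VariantTwoGroups
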