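import Pool.Agent.P.MP_da365b_co.Defs

namespace Pool.Agent.P.MP_da365b_co

universe u

/-- The groups that descend to a solvable group by steps `G = O H` in which `O ⊓ H` is normal in
`G` and has odd index in `O`. -/
inductive OddTower : (G : Type u) → [Group G] → Prop
  | solv (G : Type u) [Group G] (h : Group.IsSolvable G) : OddTower G
  | step (G : Type u) [Group G] (O H : Subgroup G) (hm : ∀ g : G, ∃ o ∈ O, ∃ x ∈ H, g = o * x)
      (hn : (O ⊓ H).Normal) (hodd : Odd (H.relIndex O)) (h : OddTower H) : OddTower G

end Pool.Agent.P.MP_da365b_co
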