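import Pool.Agent.P.MP_da365b_co.WFat
import Pool.Agent.P.MP_da365b_co.WDefs

namespace Pool.Agent.P.MP_da365b_co.SV

open Classical

set_option linter.unusedSectionVars false

universe u

variable {G : Type u} [Group G]

/-- Lifting data that are normalised at `1`, `w`, `x` and `x⁻¹`. -/
structure Nrm {P : Subgroup G} (F : Fat P) (w x : P) : Prop where
  tK : ∀ g, F.t g ∈ Kc G
  one : F.t 1 = 1
  tw : F.t w = 1
  tx : F.t x = 1
  tx' : F.t (x : G)⁻¹ = 1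

/-- `P` has odd index and normalised lifting data. -/
def Ad (P : Subgroup G) : Prop :=
  Odd P.index ∧ ∀ w x : P, w * w = 1 → ∃ F : Fat P, Nrm F w x

theorem Fat.y_of {P : Subgroup G} (F : Fat P) {p : P} (h1 : F.t p = 1) (h2 : F.t (p : G)⁻¹ = 1) :
    F.y p = p := by
  have e := F.eq p
  rw [h1, h2, mul_one, one_mul] at e
  exact Subtype.ext e.symm

theorem wad_inv {P : Subgroup G} {w : P} (hw : w * w = 1) : (w : G)⁻¹ = w :=
  inv_eq_of_mul_eq_one_right (congrArg Subtype.val hw)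

theorem Nrm.yw {P : Subgroup G} {F : Fat P} {w x : P} (h : Nrm F w x) (hw : w * w = 1) :
    F.y w = w := F.y_of h.tw (by rw [wad_inv hw, h.tw])

theorem Nrm.yx {P : Subgroup G} {F : Fat P} {w x : P} (h : Nrm F w x) : F.y x = x :=
  F.y_of h.tx h.tx'

theorem ad_exact [Finite G] {O P : Subgroup G} (hc : O.IsComplement' P)
    (hodd : Odd (Nat.card O)) : Ad P := by
  refine ⟨hc.index_eq_card ▸ hodd, fun w x hw => ?_⟩
  obtain ⟨F, h0, h1, h2, h3, h4⟩ := wfat_exact hc hodd w x hw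
  exact ⟨F, fun g => vhall_odd hodd (h0 g), h1, h2, h3, h4⟩

theorem wad_map_Kc {Q : Type u} [Group Q] (f : G →* Q) {g : G} (hg : g ∈ Kc G) : f g ∈ Kc Q :=
  mem_Kc.2 fun χ => mem_Kc.1 hg (χ.comp f)

theorem Ad.trans {H : Subgroup G} (h₁ : Ad H) {K : Subgroup H} (h₂ : Ad K) :
    Ad (K.map H.subtype) := by
  refine ⟨by rw [Subgroup.index_map_subtype]; exact h₂.1.mul h₁.1, ?_⟩
  rintro ⟨_, w, hwK, rfl⟩ ⟨_, x, hxK, rfl⟩ hw
  have hw1 : w * w = 1 := Subtype.ext (congrArg (fun z : K.map H.subtype => (z : G)) hw)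
  have hw2 : (⟨w, hwK⟩ : K) * ⟨w, hwK⟩ = 1 := Subtype.ext hw1
  obtain ⟨F, a⟩ := h₁.2 w x hw1
  obtain ⟨E, b⟩ := h₂.2 ⟨w, hwK⟩ ⟨x, hxK⟩ hw2
  have mem : ∀ z : H, (z : G) ∈ K.map H.subtype ↔ z ∈ K := fun z =>
    Subgroup.mem_map_iff_mem (f := H.subtype) Subtype.val_injective
  have key : ∀ g g', (F.t g * E.t (F.y g))⁻¹ * (F.t g' * E.t (F.y g')) ∈ K.map H.subtype →
      F.t g = F.t g' ∧ E.t (F.y g) = E.t (F.y g') := by
    intro g g' hk
    have e : F.t g = F.t g' := by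
      apply F.tr
      have : (F.t g)⁻¹ * F.t g' = E.t (F.y g) *
          ((F.t g * E.t (F.y g))⁻¹ * (F.t g' * E.t (F.y g'))) * (E.t (F.y g') : G)⁻¹ := by group
      rw [this]
      exact H.mul_mem (H.mul_mem (E.t _).2 (Subgroup.map_subtype_le K hk)) (H.inv_mem (E.t _).2)
    refine ⟨e, E.tr _ _ ((mem _).1 ?_)⟩
    rw [e] at hk
    simpa [mul_assoc] using hk
  refine ⟨⟨fun g => F.t g * E.t (F.y g), fun g => ⟨(E.y (F.y g) : H), (mem _).2 (E.y _).2⟩,
    fun g => ?_, fun g g' hk => ?_, fun g g' e e' => ?_, fun z k => ?_⟩, fun g => ?_, ?_, ?_, ?_, ?_⟩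
  · have e := congrArg Subtype.val (E.eq (F.y g))
    simp only [Subgroup.coe_mul] at e
    simp only
    rw [← mul_assoc, F.eq g, mul_assoc, e, F.y_inv, mul_assoc]
  · obtain ⟨e1, e2⟩ := key g g' hk
    simp only [e1, e2]
  · obtain ⟨e1, e2⟩ := key g g' (by
      have e0 : F.t g * E.t (F.y g) = F.t g' * E.t (F.y g') := e
      rw [e0]; simp)
    exact F.inj _ _ e1 (E.inj _ _ e2 (Subtype.ext (Subtype.ext
      (congrArg (fun z : K.map H.subtype => (z : G)) e'))))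
  · obtain ⟨_, k, hk, rfl⟩ := k
    obtain ⟨g₀, m₀, -⟩ := F.surj z 1
    obtain ⟨c, mc, ec⟩ := E.surj (⟨_, m₀⟩ : H)⁻¹ ⟨k, hk⟩
    obtain ⟨g, mg, eg⟩ := F.surj z c
    have e : F.t g = F.t g₀ := by
      apply F.tr
      have : (F.t g)⁻¹ * F.t g₀ = (z⁻¹ * F.t g)⁻¹ * (z⁻¹ * F.t g₀) := by group
      rw [this]
      exact H.mul_mem (H.inv_mem mg) m₀
    refine ⟨g, ?_, Subtype.ext ?_⟩
    · have := (mem _).2 mc
      simp only [eg, e]
      simpa [mul_assoc] using this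
    · simp only [eg, ec]
      rfl
  · exact (Kc G).mul_mem (a.tK g) (wad_map_Kc H.subtype (b.tK _))
  · simp only [a.one, F.y_one, b.one]
    simp
  · show F.t w * E.t (F.y w) = 1
    rw [a.tw, a.yw hw1, b.tw]
    simp
  · show F.t x * E.t (F.y x) = 1
    rw [a.tx, a.yx, b.tx]
    simp
  · show F.t (x : G)⁻¹ * E.t (F.y (x : G)⁻¹) = 1
    rw [a.tx', F.y_inv, a.yx, b.tx']
    simp

theorem wad_Kc_le [Finite G] (Y : Subgroup G) (hY : ∀ g, g * g ∈ Y) : Kc G ≤ Y := by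
  intro y hy
  by_contra hy'
  obtain ⟨K, hK1, hK2, hK3⟩ := exists_maxK Y y hy'
  have key : ∀ a, a ∉ K → a⁻¹ * y ∈ K := by
    intro a ha
    have n1 : ∀ x ∈ K, a * x * a⁻¹ ∈ K := by
      intro x hx
      have : a * x * a⁻¹ = (a * x) * (a * x) * x⁻¹ * (a⁻¹ * a⁻¹) := by group
      rw [this]
      exact K.mul_mem (K.mul_mem (hK1 (hY _)) (K.inv_mem hx)) (hK1 (hY _))
    by_contra hc
    have := hK3 (adj K a n1 (hK1 (hY a))) le_adj (by
      rw [mem_adj]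
      exact fun h => h.elim hK2 hc)
    exact ha (this self_mem_adj)
  obtain ⟨χ, hχ⟩ := char_of_two K fun a b ha hb => by
    have : a⁻¹ * b = (a⁻¹ * y) * (b⁻¹ * y)⁻¹ := by group
    rw [this]
    exact K.mul_mem (key a ha) (K.inv_mem (key b hb))
  exact not_mem_Kc.2 ⟨χ, (hχ y).2 hK2⟩ hy

theorem Nrm.comap {Q : Type u} [Group Q] [Finite Q] (f : G →* Q) (hf : Function.Surjective f)
    {K : Subgroup Q} (w x : K.comap f) {E : Fat K} (b : Nrm E ⟨f w, w.2⟩ ⟨f x, x.2⟩) :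
    ∃ F : Fat (K.comap f), Nrm F w x ∧ (∀ g, f (F.y g) = E.y (f g)) ∧
      ∀ g g', E.t (f g) = E.t (f g') → F.t g = F.t g' := by
  have hl : ∀ q : Q, ∃ g : G, (q ∈ Kc Q → g ∈ Kc G ∧ f g = q) ∧ (q = 1 → g = 1) := by
    intro q
    by_cases h1 : q = 1
    · exact ⟨1, fun _ => ⟨(Kc G).one_mem, by simp [h1]⟩, fun _ => rfl⟩
    by_cases hq : q ∈ Kc Q
    · obtain ⟨g, hg, e⟩ := wad_Kc_le ((Kc G).map f) (fun a => by
        obtain ⟨g, rfl⟩ := hf a
        exact ⟨g * g, sq_mem_Kc g, map_mul f g g⟩) hq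
      exact ⟨g, fun _ => ⟨hg, e⟩, fun h' => absurd h' h1⟩
    · exact ⟨1, fun h' => absurd h' hq, fun _ => rfl⟩
  choose σ hσ hσ1 using hl
  have ft : ∀ q, f (σ (E.t q)) = E.t q := fun q => (hσ _ (b.tK q)).2
  have fy : ∀ g, f ((σ (E.t (f g⁻¹)))⁻¹ * g * σ (E.t (f g))) = E.y (f g) := by
    intro g
    rw [map_mul, map_mul, map_inv, ft, ft, map_inv, mul_assoc, E.eq, inv_mul_cancel_left]
  refine ⟨⟨fun g => σ (E.t (f g)), fun g => ⟨(σ (E.t (f g⁻¹)))⁻¹ * g * σ (E.t (f g)), ?_⟩,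
    fun g => ?_, fun g g' hk => ?_, fun g g' e e' => ?_, fun z k => ?_⟩,
    ⟨fun g => (hσ _ (b.tK _)).1, ?_, hσ1 _ b.tw, hσ1 _ b.tx, ?_⟩, fy,
    fun g g' e => congrArg σ e⟩
  · rw [Subgroup.mem_comap, fy]
    exact (E.y _).2
  · simp only
    group
  · rw [Subgroup.mem_comap, map_mul, map_inv, ft, ft] at hk
    simp only [E.tr _ _ hk]
  · have e0 : (σ (E.t (f g⁻¹)))⁻¹ * g * σ (E.t (f g)) =
        (σ (E.t (f g'⁻¹)))⁻¹ * g' * σ (E.t (f g')) := congrArg Subtype.val e'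
    have e1 : E.t (f g) = E.t (f g') := by
      rw [← ft, ← ft (f g')]
      exact congrArg f e
    have e2 : E.y (f g) = E.y (f g') := Subtype.ext (by rw [← fy, ← fy, e0])
    have e3 := E.inj _ _ e1 e2
    rw [map_inv, map_inv, e3] at e0
    simpa using e0
  · obtain ⟨q, mq, eq⟩ := E.surj (f z) ⟨f k, k.2⟩
    have eq' : (E.y q : Q) = f k := congrArg Subtype.val eq
    have e : f (σ (E.t q⁻¹) * k * (σ (E.t q))⁻¹) = q := by
      rw [map_mul, map_mul, map_inv, ft, ft, ← eq', ← E.eq q]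
      simp
    refine ⟨σ (E.t q⁻¹) * k * (σ (E.t q))⁻¹, ?_, Subtype.ext ?_⟩
    · rw [Subgroup.mem_comap]
      simp only [e]
      rw [map_mul, map_inv, ft]
      exact mq
    · simp only [map_inv f, e]
      group
  · exact hσ1 _ (by rw [map_one]; exact b.one)
  · exact hσ1 _ (by rw [map_inv]; exact b.tx')

theorem Ad.comap {Q : Type u} [Group Q] [Finite Q] (f : G →* Q) (hf : Function.Surjective f)
    {K : Subgroup Q} (h : Ad K) : Ad (K.comap f) := by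
  refine ⟨by rw [Subgroup.index_comap_of_surjective _ hf]; exact h.1, fun w x hw => ?_⟩
  obtain ⟨E, b⟩ := h.2 ⟨f w, w.2⟩ ⟨f x, x.2⟩ (Subtype.ext (by
    have := congrArg (fun z : K.comap f => f z) hw
    simpa using this))
  obtain ⟨F, a, -⟩ := Nrm.comap f hf w x b
  exact ⟨F, a⟩

/-- A Sylow 2-subgroup has normalised lifting data. -/
def AdT (G : Type u) [Group G] : Prop := ∃ P : Subgroup G, IsPGroup 2 P ∧ Ad P

theorem Ad.up {H : Subgroup G} (h₁ : Ad H) (h₂ : AdT H) : AdT G := by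
  obtain ⟨P, a, b⟩ := h₂
  exact ⟨_, a.map _, h₁.trans b⟩

theorem adT_solv [Finite G] [Group.IsSolvable G] : AdT G := by
  obtain ⟨O, P, h⟩ := exists_hall (G := G)
  exact ⟨P, h.two, ad_exact h.compl h.odd⟩

theorem wad_quot [Finite G] (O H : Subgroup G) (hm : ∀ g : G, ∃ o ∈ O, ∃ x ∈ H, g = o * x)
    [hn : (O ⊓ H).Normal] (hodd : Odd (H.relIndex O)) :
    (H.map (QuotientGroup.mk' (O ⊓ H))).comap (QuotientGroup.mk' (O ⊓ H)) = H ∧
      (O.map (QuotientGroup.mk' (O ⊓ H))).IsComplement' (H.map (QuotientGroup.mk' (O ⊓ H))) ∧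
      Odd (Nat.card (O.map (QuotientGroup.mk' (O ⊓ H)))) := by
  let f := QuotientGroup.mk' (O ⊓ H)
  have hf : Function.Surjective f := QuotientGroup.mk'_surjective _
  have hk : f.ker = O ⊓ H := QuotientGroup.ker_mk' _
  have e1 : (H.map f).comap f = H := Subgroup.comap_map_eq_self (hk.le.trans inf_le_right)
  have e2 : (O.map f).comap f = O := Subgroup.comap_map_eq_self (hk.le.trans inf_le_left)
  refine ⟨e1, Subgroup.isComplement'_of_disjoint_and_mul_eq_univ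
      (Subgroup.disjoint_def.2 fun {q} h1 h2 => ?_) (Set.eq_univ_of_forall fun q => ?_), ?_⟩
  · obtain ⟨g, rfl⟩ := hf q
    exact (QuotientGroup.eq_one_iff g).2
      ⟨e2 ▸ Subgroup.mem_comap.2 h1, e1 ▸ Subgroup.mem_comap.2 h2⟩
  · obtain ⟨g, rfl⟩ := hf q
    obtain ⟨o, ho, x, hx, rfl⟩ := hm g
    rw [map_mul]
    exact Set.mul_mem_mul ⟨o, ho, rfl⟩ ⟨x, hx, rfl⟩
  · rwa [← Subgroup.relIndex_ker, hk, Subgroup.inf_relIndex_left]

theorem ad_step [Finite G] (O H : Subgroup G) (hm : ∀ g : G, ∃ o ∈ O, ∃ x ∈ H, g = o * x)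
    [hn : (O ⊓ H).Normal] (hodd : Odd (H.relIndex O)) : Ad H := by
  obtain ⟨e1, hc, ho⟩ := wad_quot O H hm hodd
  have h1 := (ad_exact hc ho).comap _ (QuotientGroup.mk'_surjective _)
  rwa [e1] at h1

theorem adT_tower {G : Type u} [Group G] (h : OddTower G) : Finite G → AdT G := by
  induction h with
  | solv G h => exact fun _ => adT_solv
  | step G O H hm hn hodd _ ih => exact fun _ => (ad_step O H hm hodd).up (ih inferInstance)

theorem adT_normal [Finite G] (N M : Subgroup G) [N.Normal] (hodd : Odd N.index) (hle : N ≤ M)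
    (h : AdT N) : AdT M := by
  have h1 : Ad (⊥ : Subgroup (M ⧸ N.subgroupOf M)) :=
    ad_exact (O := ⊤) Subgroup.isComplement'_top_bot (by
      rw [Subgroup.card_top]
      exact Odd.of_dvd_nat hodd (Subgroup.relIndex_dvd_index_of_normal N M))
  have h2 := h1.comap _ (QuotientGroup.mk'_surjective (N.subgroupOf M))
  rw [MonoidHom.comap_bot, QuotientGroup.ker_mk'] at h2
  obtain ⟨P, a, b⟩ := h
  exact h2.up ⟨_, a.comap_of_injective _ (Subgroup.subgroupOfEquivOfLe hle).injective,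
    b.comap (Subgroup.subgroupOfEquivOfLe hle).toMonoidHom
      (Subgroup.subgroupOfEquivOfLe hle).surjective⟩

end Pool.Agent.P.MP_da365b_co.SV
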