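import Pool.Agent.P.MP_da365b_co.WAd

namespace Pool.Agent.P.MP_da365b_co.SV

open Classical

set_option linter.unusedSectionVars false

universe u

variable {G : Type u} [Group G] {P : Subgroup G} {F : Fat P}

theorem wchar (hF : ∀ g, F.t g ∈ Kc G) (χ : G →* ℤˣ) (g : G) : χ (F.y g) = χ g := by
  have e := congrArg χ (F.eq g)
  have h1 : ∀ x, χ (F.t x) = 1 := fun x => mem_Kc.1 (hF x) χ
  rw [map_mul, map_mul, h1, h1, mul_one, one_mul] at e
  exact e.symm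

theorem wcoset (hF : ∀ g, F.t g ∈ Kc G) (g g' : G) :
    (F.y g)⁻¹ * F.y g' ∈ (Kc G).subgroupOf P ↔ g⁻¹ * g' ∈ Kc G := by
  rw [Subgroup.mem_subgroupOf, mem_Kc, mem_Kc]
  apply forall_congr'
  intro χ
  rw [Subgroup.coe_mul, Subgroup.coe_inv, map_mul, map_mul, map_inv, map_inv, wchar hF, wchar hF]

theorem wmem (hF : ∀ g, F.t g ∈ Kc G) (g : G) : F.y g ∈ (Kc G).subgroupOf P ↔ g ∈ Kc G := by
  rw [Subgroup.mem_subgroupOf, mem_Kc, mem_Kc]
  apply forall_congr'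
  intro χ
  rw [wchar hF]

theorem wdec (F : Fat P) (g : G) : ∃ g', ∃ p : P, g = F.t g' * p := by
  obtain ⟨g', h, -⟩ := F.surj g 1
  exact ⟨g', (⟨_, h⟩ : P)⁻¹, by simp⟩

theorem Ad.dec (h : Ad P) (g : G) : ∃ o ∈ Kc G, ∃ p : P, g = o * p := by
  obtain ⟨F, a⟩ := h.2 1 1 (one_mul 1)
  obtain ⟨g', p, e⟩ := wdec F g
  exact ⟨_, a.tK g', p, e⟩

theorem Ad.sub_ne_top (h : Ad P) (hK : Kc G ≠ ⊤) : (Kc G).subgroupOf P ≠ ⊤ := by
  intro e
  apply hK
  rw [Subgroup.subgroupOf_eq_top] at e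
  rw [eq_top_iff]
  intro g _
  obtain ⟨o, ho, p, rfl⟩ := h.dec g
  exact (Kc G).mul_mem ho (e p.2)

theorem wfib [Fintype G] (F : Fat P) (Q : Subgroup G) (hQ : Q ≤ P) {t₀ c : G} (h2 : t₀ * t₀ = 1)
    (hc : c ∈ P) (hu : c⁻¹ * (F.y t₀ : G)⁻¹ * c ∈ Q) :
    Mt (((F.fib (F.y t₀)).erase t₀ : Finset G) : Set G)
      {x : G ⧸ Q | x ≠ (F.t t₀ * c : G) ∧ ∃ g, x = (F.t g * c : G)} := by
  have hi : t₀⁻¹ = t₀ := inv_eq_of_mul_eq_one_right h2
  have hy : (F.y t₀)⁻¹ = F.y t₀ := by rw [← F.y_inv, hi]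
  have mem : ∀ g, g ∈ (((F.fib (F.y t₀)).erase t₀ : Finset G) : Set G) ↔
      g ≠ t₀ ∧ F.y g = F.y t₀ := by
    intro g
    simp [Fat.fib, and_comm]
  have hinv : ∀ g, F.y g = F.y t₀ → F.y g⁻¹ = F.y t₀ := by
    intro g hg
    rw [F.y_inv, hg, hy]
  have inj : ∀ g g', F.y g = F.y t₀ → F.y g' = F.y t₀ →
      ((F.t g * c : G) : G ⧸ Q) = (F.t g' * c : G) → g = g' := by
    intro g g' hg hg' e
    refine F.inj g g' (F.tr g g' ?_) (hg.trans hg'.symm)
    have e1 : (F.t g)⁻¹ * F.t g' = c * ((F.t g * c)⁻¹ * (F.t g' * c)) * c⁻¹ := by group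
    rw [e1]
    exact P.mul_mem (P.mul_mem hc (hQ (QuotientGroup.eq.1 e))) (P.inv_mem hc)
  refine ⟨?_, fun g => ((F.t g⁻¹ * c : G) : G ⧸ Q), ⟨?_, ?_, ?_⟩, ?_⟩
  · intro g hg
    rw [mem] at hg ⊢
    exact ⟨fun e => hg.1 (by rw [← inv_inv g, e, hi]), hinv g hg.2⟩
  · intro g hg
    rw [mem] at hg
    refine ⟨fun e => hg.1 ?_, g⁻¹, rfl⟩
    have := inj _ _ (hinv g hg.2) rfl e
    rw [← inv_inv g, this, hi]
  · intro g hg g' hg' e
    rw [mem] at hg hg'
    exact inv_injective (inj _ _ (hinv g hg.2) (hinv g' hg'.2) e)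
  · rintro x ⟨hx, o, rfl⟩
    obtain ⟨g, hg1, hg2⟩ := F.surj (F.t o) (F.y t₀)
    have e' : F.t g = F.t o := (F.tr _ _ hg1).symm
    refine ⟨g⁻¹, (mem _).2 ⟨fun e2 => hx ?_, hinv g hg2⟩, ?_⟩
    · have : g = t₀ := by rw [← inv_inv g, e2, hi]
      rw [← e', this]
    · simp only [inv_inv, e']
  · intro g hg
    rw [mem] at hg
    simp only [inv_inv]
    rw [MulAction.Quotient.smul_mk, smul_eq_mul, ← mul_assoc, F.eq g, hg.2]
    apply QuotientGroup.eq.2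
    have e1 : (F.t g⁻¹ * c)⁻¹ * (F.t g⁻¹ * F.y t₀ * c) = (c⁻¹ * (F.y t₀ : G)⁻¹ * c)⁻¹ := by group
    rw [e1]
    exact Q.inv_mem hu

theorem wmem_er [Fintype G] (F : Fat P) {v : P} {a g : G} :
    g ∈ (F.fib v).erase a ↔ g ≠ a ∧ F.y g = v := by
  simp [Fat.fib]

theorem wblock_one [Fintype G] {u x : P} (h : Nrm F u x) (h1 : u ≠ 1) (h2 : u * u = 1) :
    Cov (insert (u : G) ((F.fib 1).erase 1)) := by
  have hinv : (u : G)⁻¹ = u := wad_inv h2
  have m2 := wfib F P le_rfl (t₀ := 1) (c := 1) (one_mul 1) P.one_mem (by simp)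
  rw [F.y_one, h.one] at m2
  have m1 : Mt ({(u : G)} : Set G) ({((1 * 1 : G) : G ⧸ P)} : Set (G ⧸ P)) := by
    refine ⟨?_, fun _ => ((1 * 1 : G) : G ⧸ P), Set.bijOn_singleton.2 rfl, ?_⟩
    · intro g hg
      rw [Set.mem_singleton_iff] at hg ⊢
      rw [hg, hinv]
    · intro g hg
      rw [Set.mem_singleton_iff] at hg
      rw [hg, MulAction.Quotient.smul_mk]
      exact QuotientGroup.eq.2 (by simp)
  have m3 := m1.union m2
    (by
      rw [Set.disjoint_singleton_left, Finset.mem_coe, wmem_er, h.yw h2]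
      exact fun e => h1 e.2)
    (by
      rw [Set.disjoint_singleton_left]
      exact fun e => e.1 rfl)
  refine ⟨?_, G ⧸ P, inferInstance, Set.univ, fun _ _ _ => Set.mem_univ _, ?_⟩
  · intro g hg
    rw [Finset.mem_insert, wmem_er] at hg
    rcases hg with rfl | hg
    · exact fun e => h1 (Subtype.ext e)
    · exact hg.1
  · rw [Finset.coe_insert, Set.insert_eq]
    have e2 : (Set.univ : Set (G ⧸ P)) = {((1 * 1 : G) : G ⧸ P)} ∪
        {x : G ⧸ P | x ≠ (1 * 1 : G) ∧ ∃ g, x = (F.t g * 1 : G)} := by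
      ext z
      simp only [Set.mem_univ, true_iff]
      by_cases e : z = ((1 * 1 : G) : G ⧸ P)
      · exact Or.inl e
      · obtain ⟨g, rfl⟩ := QuotientGroup.mk_surjective z
        obtain ⟨g', p, rfl⟩ := wdec F g
        exact Or.inr ⟨e, g', QuotientGroup.eq.2 (by simp)⟩
    rw [e2]
    exact m3

theorem wblock_two [Fintype G] {u f : P} (h : Nrm F u f) (χ : G →* ℤˣ) (h1 : u ≠ 1)
    (h2 : u * u = 1) (h3 : χ u = 1) (h4 : χ f = -1) (h5 : f * f ≠ 1) :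
    Cov ((F.fib 1).erase 1 ∪ (F.fib u).erase u ∪ {(f : G), (f : G)⁻¹}) := by
  have hO : ∀ g, χ (F.t g) = 1 := fun g => mem_Kc.1 (h.tK g) χ
  have hne : (-1 : ℤˣ) ≠ 1 := by decide
  have h4' : χ (f : G)⁻¹ = -1 := by rw [map_inv, h4]; rfl
  have h5' : (f : G) * f ≠ 1 := fun e => h5 (Subtype.ext e)
  have hA : ∀ g, g ∈ (F.fib 1).erase 1 → χ g = 1 := fun g hg => by
    rw [← wchar h.tK, ((wmem_er F).1 hg).2]; simp
  have hB : ∀ g, g ∈ (F.fib u).erase u → χ g = 1 := fun g hg => by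
    rw [← wchar h.tK, ((wmem_er F).1 hg).2, h3]
  set Q := P ⊓ χ.ker with hQ
  have m1 := wfib F Q inf_le_left (t₀ := 1) (c := (f : G)⁻¹) (one_mul 1) (P.inv_mem f.2)
    (by rw [F.y_one]; simp)
  have m2 := wfib F Q inf_le_left (t₀ := u) (c := 1) (congrArg Subtype.val h2) P.one_mem
    (by
      rw [h.yw h2, wad_inv h2, inv_one, one_mul, mul_one]
      exact ⟨u.2, h3⟩)
  rw [F.y_one, h.one, one_mul] at m1
  rw [h.yw h2, h.tw, one_mul] at m2
  have hp₁ : (f : G)⁻¹ • ((1 : G) : G ⧸ Q) = (((f : G)⁻¹ : G) : G ⧸ Q) := by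
    rw [MulAction.Quotient.smul_mk, smul_eq_mul, mul_one]
  have hp : (f : G)⁻¹ • ((1 : G) : G ⧸ Q) ≠ ((1 : G) : G ⧸ Q) := by
    intro e
    have := vblk_char χ (hp₁.symm.trans e)
    rw [h4', map_one] at this
    exact hne this
  have m3 := vblk_pair (f : G) ((1 : G) : G ⧸ Q) h5' hp
  rw [hp₁] at m3
  have m12 := m1.union m2 (by
    rw [Set.disjoint_left]
    intro g hg hg'
    exact h1 (((wmem_er F).1 hg').2.symm.trans ((wmem_er F).1 hg).2)) (by
    rw [Set.disjoint_left]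
    rintro x ⟨_, o, rfl⟩ ⟨_, o', e⟩
    have := vblk_char χ e
    rw [map_mul, map_mul, h4', hO, hO, one_mul, map_one, one_mul] at this
    exact hne this)
  have m123 := m12.union m3 (by
    rw [Set.disjoint_left]
    intro g hg hg'
    have e1 : χ g = 1 := hg.elim (hA g) (hB g)
    have e2 : χ g = -1 := by
      rcases hg' with rfl | rfl
      · exact h4
      · exact h4'
    exact hne (e2.symm.trans e1)) (by
    rw [Set.disjoint_left]
    rintro x (⟨hx, o, e⟩ | ⟨hx, o, e⟩) (hx' | hx')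
    · have := vblk_char χ (e.symm.trans hx')
      rw [map_mul, h4', hO, one_mul, map_one] at this
      exact hne this
    · exact hx hx'
    · exact hx hx'
    · have := vblk_char χ (hx'.symm.trans e)
      rw [h4', map_mul, hO, map_one, one_mul] at this
      exact hne this)
  refine ⟨?_, G ⧸ Q, inferInstance, Set.univ, fun _ _ _ => Set.mem_univ _, ?_⟩
  · intro g hg e
    subst e
    simp only [Finset.mem_union, Finset.mem_insert, Finset.mem_singleton] at hg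
    rcases hg with (hg | hg) | hg | hg
    · exact ((wmem_er F).1 hg).1 rfl
    · exact h1 (((wmem_er F).1 hg).2.symm.trans F.y_one)
    · exact h5' (by rw [← hg, one_mul])
    · exact h5' (by rw [inv_eq_one.1 hg.symm, one_mul])
  · rw [Finset.coe_union, Finset.coe_union, Finset.coe_pair]
    have e : (Set.univ : Set (G ⧸ Q)) =
        ({x : G ⧸ Q | x ≠ ((f : G)⁻¹ : G) ∧ ∃ g, x = (F.t g * (f : G)⁻¹ : G)} ∪
          {x : G ⧸ Q | x ≠ (1 : G) ∧ ∃ g, x = (F.t g * 1 : G)}) ∪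
          {((1 : G) : G ⧸ Q), (((f : G)⁻¹ : G) : G ⧸ Q)} := by
      symm
      rw [Set.eq_univ_iff_forall]
      intro x
      by_cases x1 : x = ((1 : G) : G ⧸ Q)
      · exact Or.inr (Or.inl x1)
      by_cases x2 : x = (((f : G)⁻¹ : G) : G ⧸ Q)
      · exact Or.inr (Or.inr x2)
      left
      obtain ⟨g, rfl⟩ := QuotientGroup.mk_surjective x
      obtain ⟨o, p, rfl⟩ := wdec F g
      rcases Int.units_eq_one_or (χ p) with c | c
      · right
        refine ⟨x1, o, (QuotientGroup.eq.2 ?_).symm⟩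
        rw [mul_one, inv_mul_cancel_left]
        exact ⟨p.2, c⟩
      · left
        refine ⟨x2, o, QuotientGroup.eq.2 ?_⟩
        have e3 : (F.t o * p)⁻¹ * (F.t o * (f : G)⁻¹) = (p : G)⁻¹ * (f : G)⁻¹ := by group
        rw [e3]
        refine ⟨P.mul_mem (P.inv_mem p.2) (P.inv_mem f.2), ?_⟩
        show χ ((p : G)⁻¹ * (f : G)⁻¹) = 1
        rw [map_mul, map_inv χ (p : G), c, h4', inv_mul_cancel]
    rw [e]
    exact m123

end Pool.Agent.P.MP_da365b_co.SV
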