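import Pool.Agent.P.MP_da365b_co.VMain

namespace Pool.Agent.P.MP_da365b_co.SV

open Classical

set_option linter.unusedSectionVars false

universe u

variable {G : Type u} [Group G]

theorem wstep {X : Type*} (s : Setoid X) (ρ : Equiv.Perm X) (hρ : ∀ c, s (ρ c) c) (a b : X)
    (hab : s b a) : ∃ ρ' : Equiv.Perm X, (∀ c, s (ρ' c) c) ∧ ρ' a = b ∧
      ∀ c, c ≠ a → ρ c ≠ b → ρ' c = ρ c := by
  refine ⟨Equiv.swap (ρ a) b * ρ, fun c => ?_, by simp, fun c h1 h2 => ?_⟩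
  · rw [Equiv.Perm.mul_apply]
    by_cases h1 : ρ c = ρ a
    · rw [h1, Equiv.swap_apply_left, ρ.injective h1]
      exact hab
    by_cases h2 : ρ c = b
    · rw [h2, Equiv.swap_apply_right]
      exact s.trans (hρ a) (s.trans (s.symm hab) (h2 ▸ hρ c))
    · rw [Equiv.swap_apply_of_ne_of_ne h1 h2]
      exact hρ c
  · rw [Equiv.Perm.mul_apply, Equiv.swap_apply_of_ne_of_ne (fun e => h1 (ρ.injective e)) h2]

/-- The symmetric Latin squares, normalised at two symbols. -/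
theorem wls {X : Type*} [Finite X] (ι : X → X) (hι : ∀ x, ι (ι x) = x) (s : Setoid X)
    (hs : ∀ a b, s a b → s (ι a) (ι b)) (hodd : ∀ a, Odd (Nat.card {b // s b a}))
    (w x : X) (hw : ι w = w) :
    ∃ L : X → X → X, (∀ r c, s r (ι c) → s (L r c) r ∧ L c r = ι (L r c)) ∧
      (∀ r r' c, s r (ι c) → s r' (ι c) → L r c = L r' c → r = r') ∧
      L w w = w ∧ L x (ι x) = x := by
  obtain ⟨L, hL, hLi⟩ := ls_classes ι hι s hs hodd
  have := Fintype.ofFinite X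
  have hs' : ∀ a b, s a (ι b) → s b (ι a) := fun a b h => by
    have h1 := hs _ _ h
    rw [hι] at h1
    exact s.symm h1
  have row : ∀ z c, ∃ r, s z (ι c) → s r (ι c) ∧ L r c = z := by
    intro z c
    by_cases hz : s z (ι c)
    · let f : {r // s r (ι c)} → {r // s r (ι c)} := fun r =>
        ⟨L r.1 c, s.trans (hL _ _ r.2).1 r.2⟩
      have hf : Function.Injective f := fun r r' e =>
        Subtype.ext (hLi _ _ c r.2 r'.2 (congrArg Subtype.val e))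
      obtain ⟨r, hr⟩ := Finite.surjective_of_injective hf ⟨z, hz⟩
      exact ⟨r.1, fun _ => ⟨r.2, congrArg Subtype.val hr⟩⟩
    · exact ⟨z, fun h => absurd h hz⟩
  choose σ hσ using row
  have diag : ∀ v, ι v = v → ∃ c, s c v ∧ L c c = v := by
    intro v hv
    have k0 : ∀ c, s c v → s v (ι c) := fun c h => hs' _ _ (by rw [hv]; exact h)
    have k1 : ∀ c, s c v → s (σ v c) v := fun c h =>
      s.trans (hσ v c (k0 c h)).1 (s.symm (k0 c h))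
    obtain ⟨c, hc, e⟩ := exists_fixed (Finset.univ.filter fun c => s c v) (σ v)
      (fun c h => by simpa using k1 c (by simpa using h))
      (fun c h => by
        have h' : s c v := by simpa using h
        obtain ⟨a1, a2⟩ := hσ v c (k0 c h')
        obtain ⟨b1, b2⟩ := hσ v _ (k0 _ (k1 c h'))
        refine hLi _ _ _ b1 (hs' _ _ a1) ?_
        rw [b2, (hL _ _ a1).2, a2, hv])
      (by
        have := hodd v
        rwa [Nat.card_eq_fintype_card, Fintype.card_subtype] at this)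
    have h' : s c v := by simpa using hc
    exact ⟨c, h', by have := (hσ v c (k0 c h')).2; rwa [e] at this⟩
  suffices H : ∃ ρ : Equiv.Perm X, (∀ c, s (ρ c) c) ∧ L (ρ w) (ρ w) = w ∧
      L (ρ x) (ρ (ι x)) = x by
    obtain ⟨ρ, h1, h2, h3⟩ := H
    have k : ∀ r c, s r (ι c) → s (ρ r) (ι (ρ c)) := fun r c h =>
      s.trans (h1 r) (s.trans h (hs _ _ (s.symm (h1 c))))
    exact ⟨fun r c => L (ρ r) (ρ c), fun r c h => ⟨s.trans (hL _ _ (k r c h)).1 (h1 r),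
      (hL _ _ (k r c h)).2⟩, fun r r' c h h' e => ρ.injective (hLi _ _ _ (k _ _ h) (k _ _ h') e),
      h2, h3⟩
  obtain ⟨c₀, hc₀, e₀⟩ := diag w hw
  obtain ⟨ρ₁, a1, a2, -⟩ := wstep s 1 (fun c => s.refl c) w c₀ hc₀
  by_cases hx : ι x = x
  · by_cases hxw : x = w
    · exact ⟨ρ₁, a1, by rw [a2, e₀], by rw [hx, hxw, a2, e₀]⟩
    obtain ⟨c₁, hc₁, e₁⟩ := diag x hx
    obtain ⟨ρ₂, b1, b2, b3⟩ := wstep s ρ₁ a1 x c₁ hc₁
    have hne : ρ₁ w ≠ c₁ := fun e => hxw (by rw [← e₁, ← e, a2, e₀])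
    exact ⟨ρ₂, b1, by rw [b3 w (Ne.symm hxw) hne, a2, e₀], by rw [hx, b2, e₁]⟩
  have hxw : x ≠ w := fun e => hx (by rw [e, hw])
  have hxw' : ι x ≠ w := fun e => hxw (by rw [← hι x, e, hw])
  have k0 : ∀ c, s c (ι x) → s x (ι c) := fun c h => hs' _ _ h
  obtain ⟨c₁, hc₁, n1, n2⟩ : ∃ c, s c (ι x) ∧ c ≠ c₀ ∧ σ x c ≠ c₀ := by
    by_cases hwx : s w x
    · have hwx' : s w (ι x) := by have := hs _ _ hwx; rwa [hw] at this
      have hxx : s x (ι x) := s.trans (s.symm hwx) hwx'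
      have inj : ∀ c c', s c (ι x) → s c' (ι x) → σ x c = σ x c' → c = c' := by
        intro c c' h h' e
        obtain ⟨p1, p2⟩ := hσ x c (k0 c h)
        obtain ⟨q1, q2⟩ := hσ x c' (k0 c' h')
        refine hLi c c' (σ x c) (hs' _ _ p1) (e ▸ hs' _ _ q1) ?_
        rw [(hL _ _ p1).2, p2, e, (hL _ _ q1).2, q2]
      by_contra hno
      push Not at hno
      have t1 := hno w hwx'
      have t2 := hno x hxx
      have t3 := hno (ι x) (s.refl _)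
      by_cases u1 : w = c₀
      · exact hx (inj _ _ (s.refl _) hxx ((t3 (u1 ▸ hxw')).trans (t2 (u1 ▸ hxw)).symm))
      by_cases u2 : x = c₀
      · exact hxw' (inj _ _ (s.refl _) hwx' ((t3 (u2 ▸ hx)).trans (t1 u1).symm))
      · exact hxw (inj _ _ hxx hwx' ((t2 u2).trans (t1 u1).symm))
    · refine ⟨ι x, s.refl _, fun e => hwx ?_, fun e => hwx ?_⟩
      · have := hs _ _ (e ▸ hc₀ : s (ι x) w)
        rw [hι, hw] at this
        exact s.symm this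
      · have := (hσ x (ι x) (k0 _ (s.refl _))).1
        rw [e, hι] at this
        exact s.trans (s.symm hc₀) this
  obtain ⟨p1, p2⟩ := hσ x c₁ (k0 _ hc₁)
  have n3 : σ x c₁ ≠ c₁ := fun e => hx (by
    have := (hL _ _ p1).2
    rw [p2, e] at this
    rw [e] at p2
    rw [← this, p2])
  obtain ⟨ρ₂, b1, b2, b3⟩ := wstep s ρ₁ a1 x (σ x c₁) (s.trans p1 (s.symm (k0 _ hc₁)))
  obtain ⟨ρ₃, d1, d2, d3⟩ := wstep s ρ₂ b1 (ι x) c₁ hc₁
  have e2 : ρ₂ w = c₀ := by rw [b3 w hxw.symm (by rw [a2]; exact n2.symm), a2]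
  refine ⟨ρ₃, d1, ?_, ?_⟩
  · rw [d3 w hxw'.symm (by rw [e2]; exact n1.symm), e2, e₀]
  · rw [d2, d3 x (Ne.symm hx) (by rw [b2]; exact n3), b2, p2]

theorem wfat_exact [Finite G] {O P : Subgroup G} (hc : O.IsComplement' P)
    (hodd : Odd (Nat.card O)) (w z₀ : P) (hw : w * w = 1) :
    ∃ F : Fat P, (∀ g, F.t g ∈ O) ∧ F.t 1 = 1 ∧ F.t w = 1 ∧ F.t z₀ = 1 ∧ F.t (z₀ : G)⁻¹ = 1 := by
  choose r hr using vfat_rep hc
  obtain ⟨x, a, hx, hxi, ha, hy⟩ := exists_base hc hodd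
  obtain ⟨L, hL, hLi, hLw, hLz⟩ := wls (fun y : P => y⁻¹) inv_inv (dc O P) (fun _ _ => dc_inv)
    (dc_odd hc hodd) w z₀ (inv_eq_of_mul_eq_one_right hw)
  obtain ⟨k, hk⟩ := vfat_root hodd
  have hgc : ∀ g, g * r g⁻¹ ∈ O := fun g => by simpa using hr g⁻¹
  have hrc : ∀ g, dc O P (r g) (r g⁻¹)⁻¹ := fun g =>
    ⟨g * r g⁻¹, hgc g, (g⁻¹ * r g)⁻¹, O.inv_mem (hr g), by
      rw [Subgroup.coe_inv]
      group⟩
  have hxc : ∀ g, (x (r g⁻¹) : G) = (x (r g) : G)⁻¹ := fun g => by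
    rw [hx _ _ (hrc g), hxi, Subgroup.coe_inv, inv_inv]
  have hxa : ∀ y : P, (x y : G) = (a y)⁻¹ * y * a y⁻¹ := fun y => by
    rw [hy y]
    group
  obtain ⟨ga, hga⟩ : ∃ ga : G → G, ∀ g,
      ga g = (x (r g) : G)⁻¹ * (a (r g))⁻¹ * g * a (r g⁻¹) := ⟨_, fun _ => rfl⟩
  have ga1 : ∀ g, ga g ∈ O := fun g => by
    have e : ga g = (a (r g)⁻¹)⁻¹ * (g⁻¹ * r g)⁻¹ * a (r g⁻¹) := by
      rw [hga, hxa]
      group
    rw [e]
    exact O.mul_mem (O.mul_mem (O.inv_mem (ha _)) (O.inv_mem (hr g))) (ha _)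
  have ga2 : ∀ g, ga g⁻¹ = x (r g) * (ga g)⁻¹ * (x (r g) : G)⁻¹ := fun g => by
    rw [hga, hga, hxc, inv_inv, inv_inv]
    group
  obtain ⟨de, hde⟩ : ∃ de : G → G, ∀ g, de g = (ga g)⁻¹ ^ k := ⟨_, fun _ => rfl⟩
  have de1 : ∀ g, de g ∈ O := fun g => hde g ▸ O.pow_mem (O.inv_mem (ga1 g)) k
  have de2 : ∀ g, de g⁻¹ = x (r g) * (de g)⁻¹ * (x (r g) : G)⁻¹ := fun g => by
    rw [hde, hde, ga2, inv_pow, conj_pow]
    group
  have de3 : ∀ g, ga g = (de g)⁻¹ * (de g)⁻¹ := fun g => by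
    rw [← mul_inv_rev, hde, hk _ (O.inv_mem (ga1 g)), inv_inv]
  have hg : ∀ g, g = a (r g) * x (r g) * ((de g)⁻¹ * (de g)⁻¹) * (a (r g⁻¹))⁻¹ := fun g => by
    rw [← de3, hga]
    group
  obtain ⟨y, hy'⟩ : ∃ y : G → P, ∀ g, y g = L (r g) (r g⁻¹) := ⟨_, fun _ => rfl⟩
  have y1 : ∀ g, x (y g) = x (r g) := fun g => hx _ _ (hy' g ▸ (hL _ _ (hrc g)).1)
  have y2 : ∀ g, y g⁻¹ = (y g)⁻¹ := fun g => by
    rw [hy', hy', inv_inv]
    exact (hL _ _ (hrc g)).2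
  obtain ⟨t, ht⟩ : ∃ t : G → G, ∀ g, t g = a (r g⁻¹) * de g * (a (y g)⁻¹)⁻¹ := ⟨_, fun _ => rfl⟩
  have t1 : ∀ g, t g ∈ O := fun g =>
    ht g ▸ O.mul_mem (O.mul_mem (ha _) (de1 g)) (O.inv_mem (ha _))
  have hinj : ∀ g g', t g = t g' → y g = y g' → g = g' := by
    intro g g' h1 h2
    have e1 : x (r g) = x (r g') := by rw [← y1, ← y1, h2]
    have e2 : a (r g⁻¹) * de g = a (r g'⁻¹) * de g' := by
      rw [ht, ht, h2] at h1
      exact mul_right_cancel h1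
    have e3 : ∀ g, (r g⁻¹ : G)⁻¹ * (a (r g⁻¹) * de g * (x (r g) : G)⁻¹) ∈ O := fun g => by
      have e : (r g⁻¹ : G)⁻¹ * (a (r g⁻¹) * de g * (x (r g) : G)⁻¹) =
          a (r g⁻¹)⁻¹ * (de g⁻¹)⁻¹ := by
        have e' : (x (r g) : G) = (a (r g⁻¹)⁻¹)⁻¹ * (r g⁻¹ : G)⁻¹ * a (r g⁻¹) := by
          rw [← inv_inv (x (r g) : G), ← hxc, hxa]
          group
        rw [de2, e']
        group
      rw [e]
      exact O.mul_mem (ha _) (O.inv_mem (de1 _))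
    have e4 : r g⁻¹ = r g'⁻¹ := by
      have e5 := O.mul_mem (e3 g) (O.inv_mem (e3 g'))
      rw [e2, e1] at e5
      have e6 : (r g⁻¹ : G)⁻¹ * r g'⁻¹ ∈ O := by simpa [mul_assoc] using e5
      exact Subtype.ext (inv_mul_eq_one.1
        (vfat_one hc e6 (P.mul_mem (P.inv_mem (r g⁻¹).2) (r g'⁻¹).2)))
    have e5 : de g = de g' := by
      rw [e4] at e2
      exact mul_left_cancel e2
    have e6 : r g = r g' := by
      refine hLi _ _ (r g⁻¹) (hrc g) (e4 ▸ hrc g') ?_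
      rw [← hy', h2, hy', e4]
    rw [hg g, hg g', e4, e5, e6]
  have hn : ∀ p : P, L p p⁻¹ = p → t p = 1 := fun p hp => by
    have hrp : ∀ q : P, r q = q := fun q => Subtype.ext (inv_mul_eq_one.1
      (vfat_one hc (hr q) (P.mul_mem (P.inv_mem q.2) (r q).2))).symm
    have e1 : r (p : G)⁻¹ = p⁻¹ := hrp p⁻¹
    have e2 : ga p = 1 := by
      rw [hga, e1, hrp, hxa]
      group
    rw [ht, hde, e2, hy', e1, hrp, hp]
    simp
  have h11 : L 1 1⁻¹ = 1 := by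
    obtain ⟨b, hb, c, hc', e⟩ := (hL 1 1⁻¹ (by simp)).1
    refine Subtype.ext (vfat_one hc ?_ (L 1 1⁻¹).2)
    rw [e]
    simpa using O.mul_mem hb (O.inv_mem hc')
  have hzz : L z₀⁻¹ z₀⁻¹⁻¹ = z₀⁻¹ := by
    rw [inv_inv, (hL z₀ z₀⁻¹ (by simp)).2, hLz]
  refine ⟨⟨t, y, fun g => ?_, fun g g' h => ?_, hinj, fun z h => ?_⟩, t1, hn 1 h11,
    hn w (by rw [inv_eq_of_mul_eq_one_right hw]; exact hLw), hn z₀ hLz, hn z₀⁻¹ hzz⟩
  · have e : g * a (r g⁻¹) = a (r g) * x (r g) * ((de g)⁻¹ * (de g)⁻¹) :=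
      (mul_inv_eq_iff_eq_mul.1 (hg g).symm).symm
    rw [ht, ht, y2, inv_inv, inv_inv, de2, hy (y g), y1, ← mul_assoc, ← mul_assoc, e]
    group
  · exact inv_mul_eq_one.1 (vfat_one hc (O.mul_mem (O.inv_mem (t1 g)) (t1 g')) h)
  · have hb : Function.Bijective fun g : G => ((⟨t g, t1 g⟩, y g) : O × P) := by
      refine (Nat.bijective_iff_injective_and_card _).2 ⟨fun g g' h => ?_, ?_⟩
      · exact hinj g g' (congrArg (fun q : O × P => (q.1 : G)) h) (congrArg Prod.snd h)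
      · rw [Nat.card_prod, hc.card_mul_card]
    obtain ⟨⟨o, p⟩, h1, -⟩ := hc.existsUnique z
    have h' : (o : G) * (p : G) = z := h1
    obtain ⟨g, hg'⟩ := hb.2 (⟨o, o.2⟩, h)
    have e1 : t g = o := congrArg (fun q : O × P => (q.1 : G)) hg'
    refine ⟨g, ?_, congrArg Prod.snd hg'⟩
    rw [e1, ← h']
    simp

end Pool.Agent.P.MP_da365b_co.SV
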