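import Pool.Agent.P.MP_da365b_co.WMain

namespace Pool.Agent.P.MP_da365b_co.SV

open Classical

set_option linter.unusedSectionVars false

universe u

variable {G : Type u} [Group G]

theorem wswap {Ω : Type*} [MulAction G Ω] {L : Set G} {X : Set Ω} {π : G → Ω}
    (hi : ∀ g ∈ L, g⁻¹ ∈ L) (hb : Set.BijOn π L X) (hc : ∀ g ∈ L, π g = g • π g⁻¹) {a b : G}
    (ha : a ∈ L) (ha2 : a⁻¹ = a) (hbL : b ∉ L) (hb2 : b⁻¹ = b) (hfix : b • π a = π a) :
    (∀ g ∈ insert b (L \ {a}), g⁻¹ ∈ insert b (L \ {a})) ∧ ∃ π' : G → Ω, π' b = π a ∧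
      Set.BijOn π' (insert b (L \ {a})) X ∧ ∀ g ∈ insert b (L \ {a}), π' g = g • π' g⁻¹ := by
  have up : ∀ g ∈ L, Function.update π b (π a) g = π g := fun g hg =>
    Function.update_of_ne (fun e : g = b => hbL (e ▸ hg)) _ _
  refine ⟨?_, Function.update π b (π a), Function.update_self _ _ _, ⟨?_, ?_, fun x hx => ?_⟩, ?_⟩
  · rintro g (rfl | ⟨h1, h2⟩)
    · exact Or.inl hb2
    · exact Or.inr ⟨hi g h1, fun e => h2 (by rw [← inv_inv g, show g⁻¹ = a from e, ha2]; rfl)⟩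
  · rintro g (rfl | ⟨h1, -⟩)
    · rw [Function.update_self]; exact hb.mapsTo ha
    · rw [up g h1]; exact hb.mapsTo h1
  · rintro g (rfl | ⟨h1, h2⟩) g' (rfl | ⟨h1', h2'⟩) e
    · rfl
    · rw [Function.update_self, up g' h1'] at e
      exact absurd (hb.injOn ha h1' e).symm h2'
    · rw [Function.update_self, up g h1] at e
      exact absurd (hb.injOn h1 ha e) h2
    · rw [up g h1, up g' h1'] at e
      exact hb.injOn h1 h1' e
  · obtain ⟨g, hg, rfl⟩ := hb.surjOn hx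
    by_cases e : g = a
    · exact ⟨b, Or.inl rfl, by rw [Function.update_self, e]⟩
    · exact ⟨g, Or.inr ⟨hg, e⟩, up g hg⟩
  · rintro g (rfl | ⟨h1, -⟩)
    · rw [hb2, Function.update_self, hfix]
    · rw [up g h1, up _ (hi g h1), ← hc g h1]

/-- The lifted matching. -/
noncomputable def wpi {H : Subgroup G} (F : Fat H) {Ω : Type u} [MulAction H Ω] (π : H → Ω)
    (g : G) : VLiftInd H Ω := ⟨(F.t g⁻¹ : G ⧸ H), vlift_d H (F.t g⁻¹) • π (F.y g)⟩

theorem wpi_smul {H : Subgroup G} (F : Fat H) {Ω : Type u} [MulAction H Ω] (π : H → Ω) (g : G)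
    (h : π (F.y g) = F.y g • π (F.y g)⁻¹) : wpi F π g = g • wpi F π g⁻¹ := by
  have e1 : g • (F.t g : G ⧸ H) = (F.t g⁻¹ : G ⧸ H) := by
    rw [MulAction.Quotient.smul_coe, smul_eq_mul, F.eq, QuotientGroup.mk_mul_of_mem _ (F.y g).2]
  have e2 : vlift_c g (F.t g : G ⧸ H) * vlift_d H (F.t g) = vlift_d H (F.t g⁻¹) * F.y g :=
    Subtype.ext (by
      simp only [vlift_c, vlift_d, Subgroup.coe_mul, e1, mul_assoc, mul_inv_cancel_left, F.eq])
  change (⟨(F.t g⁻¹ : G ⧸ H), vlift_d H (F.t g⁻¹) • π (F.y g)⟩ : VLiftInd H Ω) =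
    (⟨g • (F.t g⁻¹⁻¹ : G ⧸ H), vlift_c g (F.t g⁻¹⁻¹ : G ⧸ H) •
    vlift_d H (F.t g⁻¹⁻¹) • π (F.y g⁻¹)⟩ : VLiftInd H Ω)
  rw [inv_inv, e1, ← mul_smul, e2, mul_smul, F.y_inv, ← h]

theorem wpi_bij {H : Subgroup G} (F : Fat H) {Ω : Type u} [MulAction H Ω] {π : H → Ω} {A : Set H}
    {X : Set Ω} (hX : ∀ g : H, ∀ x ∈ X, g • x ∈ X) (hπ : Set.BijOn π A X) :
    Set.BijOn (wpi F π) {g | F.y g ∈ A} {p | p.x ∈ X} := by
  refine ⟨fun g hg => hX _ _ (hπ.mapsTo hg), fun g hg g' hg' e => ?_, fun p hp => ?_⟩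
  · have e1 := F.tr _ _ (QuotientGroup.eq.1 (congrArg VLiftInd.q e))
    have e2 : vlift_d H (F.t g⁻¹) • π (F.y g) = vlift_d H (F.t g'⁻¹) • π (F.y g') :=
      congrArg VLiftInd.x e
    rw [e1, smul_left_cancel_iff] at e2
    have e3 := hπ.injOn hg hg' e2
    exact inv_injective (F.inj _ _ e1 (by rw [F.y_inv, F.y_inv, e3]))
  · obtain ⟨g₀, h₀, -⟩ := F.surj p.q.out 1
    obtain ⟨a, ha, e⟩ := hπ.surjOn (hX (vlift_d H (F.t g₀))⁻¹ _ hp)
    obtain ⟨g, h₁, h₂⟩ := F.surj p.q.out a⁻¹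
    have e1 : (F.t g : G ⧸ H) = p.q :=
      (QuotientGroup.eq.2 h₁).symm.trans (QuotientGroup.out_eq' _)
    have e2 : F.t g = F.t g₀ := F.tr _ _ (QuotientGroup.eq.1 (e1.trans
      ((QuotientGroup.out_eq' _).symm.trans (QuotientGroup.eq.2 h₀))))
    have e3 : F.y g⁻¹ = a := by rw [F.y_inv, h₂, inv_inv]
    refine ⟨g⁻¹, show F.y g⁻¹ ∈ A from e3 ▸ ha, VLiftInd.ext ?_ ?_⟩
    · simpa only [wpi, inv_inv] using e1
    · simp only [wpi, inv_inv, e3, e, e2, smul_inv_smul]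

/-- If the fibre of one involution consists of involutions, a starter lifts. -/
theorem wfi [Fintype G] {H : Subgroup G} {F : Fat H} {u : H} (h : Nrm F u 1)
    (h1 : u ≠ 1) (h2 : u * u = 1) (h3 : ∀ g, F.y g = u → g * g = 1)
    {A : Finset H} (hc : Cov A) (hA : ∀ v, v ∈ A ↔ v ≠ 1) :
    Cov (Finset.univ.erase (1 : G)) := by
  obtain ⟨-, Ω, _, X, hX, iA, π, hπ, cπ⟩ := hc
  have hu : u ∈ (A : Set H) := (hA u).2 h1
  have hi : u⁻¹ = u := inv_eq_of_mul_eq_one_right h2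
  obtain ⟨a1, π', a0, a2, a3⟩ := wswap iA hπ cπ hu hi (b := 1) (fun e => (hA 1).1 e rfl) inv_one (one_smul _ _)
  have mem : ∀ v : H, v ∈ insert (1 : H) ((A : Set H) \ {u}) ↔ v ≠ u := fun v => by
    by_cases e : v = 1
    · simp [e, h1.symm]
    · simp [e, hA]
  have hfix : (u : G) • wpi F π' 1 = wpi F π' 1 := by
    have e : wpi F π' 1 = wpi F π u := by
      simp only [wpi, inv_one, wad_inv h2, h.one, h.tw, F.y_one, h.yw h2, a0]
    have e' := wpi_smul F π u (by rw [h.yw h2]; exact cπ u hu)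
    rw [wad_inv h2] at e'
    rw [e, ← e']
  obtain ⟨b1, π'', -, b2, b3⟩ := wswap (fun g hg => by
      rw [Set.mem_ofPred_eq, F.y_inv]
      exact a1 _ hg) (wpi_bij F hX a2) (fun g hg => wpi_smul F _ g (a3 _ hg))
    (a := 1) (b := u) (by
      rw [Set.mem_ofPred_eq, F.y_one, mem]
      exact h1.symm) inv_one (by
      rw [Set.mem_ofPred_eq, h.yw h2, mem]
      exact fun e => e rfl) (wad_inv h2) hfix
  have c : Cov (Finset.univ.filter fun g : G => g = u ∨ (F.y g ≠ u ∧ g ≠ 1)) := by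
    refine ⟨fun g hg => ?_, VLiftInd H Ω, inferInstance, {p | p.x ∈ X},
      fun g p hp => hX _ _ hp, ?_⟩
    · rcases (Finset.mem_filter.1 hg).2 with rfl | e
      · exact fun e => h1 (Subtype.ext e)
      · exact e.2
    · have e : ((Finset.univ.filter fun g : G => g = u ∨ (F.y g ≠ u ∧ g ≠ 1) : Finset G) : Set G) =
          insert (u : G) ({g | F.y g ∈ insert (1 : H) ((A : Set H) \ {u})} \ {1}) := by
        ext g
        simp only [Finset.coe_filter, Finset.mem_univ, true_and, Set.mem_ofPred_eq, mem]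
        exact Iff.rfl
      rw [e]
      exact ⟨b1, _, b2, b3⟩
  refine c.finish fun g hg hg' => ⟨hg, Or.inl (h3 g ?_)⟩
  by_contra e
  exact hg' (Finset.mem_filter.2 ⟨Finset.mem_univ _, Or.inr ⟨e, hg⟩⟩)

theorem wfi_fat [Finite G] (O H : Subgroup G) (hm : ∀ g : G, ∃ o ∈ O, ∃ x ∈ H, g = o * x)
    [hn : (O ⊓ H).Normal] (hodd : Odd (H.relIndex O)) (u : H) (h2 : u * u = 1)
    (hinv : ∀ o ∈ O, u * o * u * o ∈ O ⊓ H) :
    ∃ F : Fat H, Nrm F u 1 ∧ ∀ g, F.y g = u → g * g = 1 := by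
  obtain ⟨e1, hc, ho⟩ := wad_quot O H hm hodd
  set f := QuotientGroup.mk' (O ⊓ H) with hf
  have key : ∀ H' : Subgroup G, (H.map f).comap f = H' → ∀ w : H', (w : G) = u →
      ∃ F : Fat H', Nrm F w 1 ∧ ∀ g, F.y g = w → g * g = 1 := by
    rintro _ rfl w hw
    have hu2 : (u : G) * u = 1 := congrArg Subtype.val h2
    obtain ⟨E, t0, t1, t2, t3, t4⟩ := wfat_exact hc ho ⟨f w, w.2⟩
      ⟨f (1 : (H.map f).comap f), (1 : (H.map f).comap f).2⟩ (Subtype.ext (by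
        show f w * f w = 1
        rw [← map_mul, hw, hu2, map_one]))
    obtain ⟨F, a, b, c⟩ := Nrm.comap f (QuotientGroup.mk'_surjective _) w 1
      ⟨fun g => vhall_odd ho (t0 g), t1, t2, t3, t4⟩
    refine ⟨F, a, fun g hg => ?_⟩
    have k1 : (E.y (f g) : G ⧸ (O ⊓ H)) = f u := by rw [← b, hg, hw]
    have k2 : f g * f g = 1 := by
      obtain ⟨p, hp, ep⟩ := t0 (f g)⁻¹
      obtain ⟨q, hq, eq⟩ := t0 (f g)
      have e := E.eq (f g)
      rw [k1, ← ep, ← eq, ← eq_mul_inv_iff_mul_eq] at e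
      have z2 : f (u * (q⁻¹ * p) * u * (q⁻¹ * p)) = 1 :=
        (QuotientGroup.eq_one_iff _).2 (hinv _ (O.mul_mem (O.inv_mem hq) hp))
      rw [e]
      simp only [map_mul, map_inv] at z2
      calc f p * f u * (f q)⁻¹ * (f p * f u * (f q)⁻¹)
          = f p * (f u * ((f q)⁻¹ * f p) * f u * ((f q)⁻¹ * f p)) * (f p)⁻¹ := by group
        _ = 1 := by rw [z2]; simp
    have k3 : F.t g⁻¹ = F.t g := c _ _ (by rw [map_inv, inv_eq_of_mul_eq_one_right k2])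
    have e := F.eq g
    rw [k3, hg, hw, ← eq_mul_inv_iff_mul_eq] at e
    calc g * g = F.t g * u * (F.t g)⁻¹ * (F.t g * u * (F.t g)⁻¹) := by rw [← e]
      _ = F.t g * (u * u) * (F.t g)⁻¹ := by group
      _ = 1 := by rw [hu2]; simp
  exact key H e1 u rfl

theorem wfinal [Finite G] (O H : Subgroup G) (hm : ∀ g : G, ∃ o ∈ O, ∃ x ∈ H, g = o * x)
    (hn : (O ⊓ H).Normal) (hO : Odd (H.relIndex O)) (u : G) (hu : u ∈ H) (hu2 : orderOf u = 2)
    (hinv : ∀ o ∈ O, u * o * u * o ∈ O ⊓ H) (N : Subgroup H) [N.Normal] (hodd : Odd N.index)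
    (hT : OddTower N) (h2 : ∃ M : Subgroup N, M.index = 2) (h : ¬ HasStarter G) :
    IsCyclic G ∧ ∃ k : ℕ, Nat.card G = 2 ^ k := by
  have := Fintype.ofFinite G
  have := Fintype.ofFinite H
  have : Fact (Nat.Prime 2) := ⟨Nat.prime_two⟩
  have key : ¬ Cov (Finset.univ.erase (1 : G)) := fun c => h (hasStarter_of_cover c.cover)
  have h1 : (⟨u, hu⟩ : H) ≠ 1 := fun e => by
    rw [show u = 1 from congrArg Subtype.val e, orderOf_one] at hu2
    omega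
  have h3 : (⟨u, hu⟩ : H) * ⟨u, hu⟩ = 1 := Subtype.ext (by
    show u * u = 1
    rw [← pow_two, ← hu2, pow_orderOf_eq_one])
  obtain ⟨F, a, b⟩ := wfi_fat O H hm hO ⟨u, hu⟩ h3 hinv
  obtain ⟨c, k, hk⟩ := wcore N hodd (adT_tower hT inferInstance) (wne_top h2)
    fun c => key (wfi a h1 h3 b c (by simp))
  have hA := ad_step O H hm hO
  have hP : IsPGroup 2 H := IsPGroup.of_card hk
  have hc : 1 < Nat.card H := Finite.one_lt_card_iff_nontrivial.2 ⟨_, _, h1⟩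
  obtain ⟨O', hH, hn'⟩ := whall hP hA.1 c hc
  obtain ⟨φ, -, hφ⟩ := vgc_phi hH
  have hK : Kc (⊤ : Subgroup G) ≠ ⊤ := by
    obtain ⟨χ, x, hx⟩ : ∃ (χ : H →* ℤˣ) (x : H), χ x ≠ 1 := by
      let _ := c.commGroup
      refine vhall0_char (A := H) ?_
      rw [hk] at hc ⊢
      exact (Nat.even_pow.2 ⟨even_two, fun e => by rw [e] at hc; omega⟩)
    intro e
    have := mem_Kc.1 (e ▸ Subgroup.mem_top (⟨x, Subgroup.mem_top _⟩ : (⊤ : Subgroup G)))
      ((χ.comp φ).comp (⊤ : Subgroup G).subtype)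
    exact hx (by simpa [hφ] using this)
  let e : (⊤ : Subgroup G) ≃* G := Subgroup.topEquiv
  exact wcore ⊤ (by simp) ⟨_, hP.comap_of_injective e.toMonoidHom e.injective,
    hA.comap e.toMonoidHom e.surjective⟩ hK key

end Pool.Agent.P.MP_da365b_co.SV
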