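import Pool.Agent.P.MP_da365b_co.WBlk

namespace Pool.Agent.P.MP_da365b_co.SV

open Classical

set_option linter.unusedSectionVars false

universe u

variable {G : Type u} [Group G] {P : Subgroup G}

theorem wone [Fintype G] {F : Fat P} {u x : P} (h : Nrm F u x)
    {Λ : Finset P} (hΛ : Cov Λ) (hC : ∀ g ∈ (Kc G).subgroupOf P, g ≠ 1 → g ∈ Λ)
    (h1 : u ≠ 1) (h2 : u ∉ Λ) (h3 : u * u = 1) :
    Cov (F.pre Λ ∪ insert (u : G) ((F.fib 1).erase 1)) ∧
      ∀ g ∈ Kc G, g ≠ 1 → g ∈ F.pre Λ ∪ insert (u : G) ((F.fib 1).erase 1) := by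
  refine ⟨Cov.union (Finset.disjoint_left.2 fun g hg hg' => ?_) (F.lift hΛ)
    (wblock_one h h1 h3), fun g hg hg1 => ?_⟩
  · rw [vga0_pre] at hg
    rcases Finset.mem_insert.1 hg' with rfl | hg'
    · exact h2 (h.yw h3 ▸ hg)
    · exact hΛ.ne_one hg ((wmem_er F).1 hg').2
  · rw [Finset.mem_union, vga0_pre, Finset.mem_insert, wmem_er]
    by_cases e : F.y g = 1
    · exact Or.inr (Or.inr ⟨hg1, e⟩)
    · exact Or.inl (hC _ ((wmem h.tK g).2 hg) e)

theorem wga [Fintype G] (h2 : IsPGroup 2 P) (h : Ad P) (hK : Kc G ≠ ⊤)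
    (hP : ¬ IsCyclic P ∨ Nat.card P ≤ 4) : Cov (Finset.univ.erase (1 : G)) := by
  rcases pa h2 ((Kc G).subgroupOf P) (h.sub_ne_top hK) (fun g => sq_mem_Kc (g : G)) hP with
    ⟨Λ, hΛ, hC, u, h1, h2, h3⟩ | ⟨Λ, u, hΛ, h1, h2, h3, h4, hC, x, h5, h6, h7⟩
  · obtain ⟨F, a⟩ := h.2 u 1 h3
    obtain ⟨hc, hk⟩ := wone a hΛ hC (fun e => h1 (e ▸ one_mem _)) h2 h3
    exact hc.finish fun g hg hg' => vga0_sing hg fun e => hg' (hk g e hg)
  · obtain ⟨F, a⟩ := h.2 u x h3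
    obtain ⟨χ, hχ⟩ := not_mem_Kc.1 fun e => h5 (Subgroup.mem_subgroupOf.2 e)
    have hb := wblock_two a χ h2 h3 (mem_Kc.1 (Subgroup.mem_subgroupOf.1 h1) χ) hχ h7
    refine (Cov.union (Finset.disjoint_left.2 fun g hg hg' => ?_) (F.lift hΛ) hb).finish
      fun g hg hg' => ?_
    · rw [vga0_pre] at hg
      simp only [Finset.mem_union, Finset.mem_insert, Finset.mem_singleton, wmem_er] at hg'
      rcases hg' with (hg' | hg') | rfl | rfl
      · exact hΛ.ne_one hg hg'.2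
      · exact h4 (hg'.2 ▸ hg)
      · exact h6 (a.yx ▸ hg)
      · have := hΛ.inv_mem hg
        rw [F.y_inv, inv_inv, a.yx] at this
        exact h6 this
    · by_cases e : g ∈ Kc G
      · simp only [Finset.mem_union, wmem_er, vga0_pre, not_or, not_and] at hg'
        have e1 : F.y g = u := by
          by_contra e1
          exact hg'.1 (hC _ ((wmem a.tK g).2 e) (hg'.2.1.1 hg) e1)
        have e2 : g = u := by
          by_contra e2
          exact hg'.2.1.2 e2 e1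
        exact ⟨hg, Or.inl (e2 ▸ congrArg Subtype.val h3)⟩
      · exact vga0_sing hg e

theorem wp1_of_al [Fintype G] (h : Ad P) (hA : Al ((Kc G).subgroupOf P)) : ∃ Λ, P1 (Kc G) Λ := by
  obtain ⟨Λ, ⟨hΛ, hC, hV⟩, u, u', hne, h1, h2, h3, h4, h5, h6⟩ := hA
  obtain ⟨F, a⟩ := h.2 u' 1 h6
  obtain ⟨hc, hk⟩ := wone a hΛ hC (fun e => h1 (by rwa [e, mul_one, inv_mem_iff] at h2)) h4 h6
  refine ⟨_, hc, hk, fun g hg => ?_⟩
  have hy := mt (wmem a.tK g).1 hg
  obtain ⟨v, k1, k2, k3, k4⟩ : ∃ v, (F.y g)⁻¹ * v ∈ (Kc G).subgroupOf P ∧ v ∉ Λ ∧ v * v = 1 ∧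
      v ≠ u' := by
    obtain ⟨v, k1, k2, k3⟩ := hV _ hy
    by_cases e : v = u'
    · refine ⟨u, ?_, h3, h5, hne⟩
      have := mul_mem k1 (inv_mem h2)
      rwa [e, mul_inv_rev, inv_inv, mul_assoc, mul_inv_cancel_left] at this
    · exact ⟨v, k1, k2, k3, e⟩
  obtain ⟨w, hw, hw2⟩ := F.exists_invol h.1 k3
  refine ⟨w, (wcoset a.tK g w).1 (hw ▸ k1), fun hm => ?_, hw2⟩
  rw [Finset.mem_union, vga0_pre, Finset.mem_insert, wmem_er, hw] at hm
  rcases hm with hm | rfl | hm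
  · exact k2 hm
  · exact k4 (hw.symm.trans (a.yw h6))
  · rw [hm.2, mul_one, inv_mem_iff] at k1
    exact hy k1

theorem wp2_of_be [Fintype G] (h : Ad P) (hB : Be ((Kc G).subgroupOf P)) :
    ∃ Λ u, P2 (Kc G) Λ u := by
  obtain ⟨Λ, u, ⟨hΛ, huC, hu1, hu2, huΛ, h1, h2, h3⟩, x, hx⟩ := hB
  have hxC : x ∉ (Kc G).subgroupOf P := fun e => hx 1 (by simpa using e) (one_mul 1)
  obtain ⟨f, hv, hvΛ⟩ := h3 x hxC
  have hvC : f ∉ (Kc G).subgroupOf P := fun e =>
    hxC (by simpa using inv_mem (mul_mem hv (inv_mem e)))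
  obtain ⟨F, a⟩ := h.2 u f hu2
  have hodd := h.1
  have ht := a.yw hu2
  have hf := a.yx
  have ht2 : (u : G) * u = 1 := congrArg Subtype.val hu2
  have ht1 : (u : G) ≠ 1 := fun e => hu1 (Subtype.ext e)
  have htK : (u : G) ∈ Kc G := huC
  obtain ⟨B, b0, b1, b2, b3, b4, b5⟩ : ∃ B : Finset G, Cov B ∧ (∀ g ∈ B, F.y g ∉ Λ) ∧
      (∀ g : G, g ≠ 1 → g ≠ u → F.y g = 1 ∨ F.y g = u → g ∈ B) ∧ (u : G) ∉ B ∧
      (∀ g ∈ B, g ∉ Kc G → g * g ≠ 1) ∧
      ∀ v : P, v ∉ (Kc G).subgroupOf P → ∃ g, F.y g = v ∧ g ∉ B := by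
    by_cases hm : P.index = 1
    · refine ⟨∅, Cov.empty, by simp, fun g g1 g2 e => ?_, by simp, by simp, fun v _ => ?_⟩
      · rcases e with e | e
        · exact absurd (vga_inj F hm (e.trans F.y_one.symm)) g1
        · exact absurd (vga_inj F hm (e.trans ht.symm)) g2
      · obtain ⟨g, -, hg⟩ := F.surj 1 v
        exact ⟨g, hg, by simp⟩
    · have hf2 : (f : G) * f ≠ 1 := fun e => hx f hv (Subtype.ext e)
      obtain ⟨χ, hχ⟩ := not_mem_Kc.1 fun e => hvC (Subgroup.mem_subgroupOf.2 e)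
      have hc := wblock_two a χ hu1 hu2 (mem_Kc.1 htK χ) hχ (hx f hv)
      have blk : ∀ g : G, g ∈ (F.fib 1).erase 1 ∪ (F.fib u).erase u ∪ {(f : G), (f : G)⁻¹} ↔
          (g ≠ 1 ∧ F.y g = 1) ∨ (g ≠ u ∧ F.y g = u) ∨ g = f ∨ g = (f : G)⁻¹ := fun g => by
        simp only [Finset.mem_union, wmem_er, Finset.mem_insert, Finset.mem_singleton, or_assoc]
      refine ⟨_, hc, fun g hg => ?_, fun g g1 g2 e => (blk g).2 ?_, fun hg => ?_,
        fun g hg hK => ?_, fun v hv => ?_⟩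
      · rcases (blk g).1 hg with e | e | rfl | rfl
        · rw [e.2]
          exact fun e => hΛ.ne_one e rfl
        · rwa [e.2]
        · rwa [hf]
        · rw [F.y_inv, hf]
          exact fun e => hvΛ (by simpa using hΛ.inv_mem e)
      · exact e.elim (fun e => Or.inl ⟨g1, e⟩) fun e => Or.inr (Or.inl ⟨g2, e⟩)
      · rcases (blk _).1 hg with e | e | e
        · exact hu1 (ht ▸ e.2)
        · exact e.1 rfl
        · exact vga_sq hf2 e ht2
      · rcases (blk g).1 hg with e | e | e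
        · exact absurd ((wmem a.tK _).1 (e.2 ▸ one_mem _)) hK
        · exact absurd ((wmem a.tK _).1 (e.2 ▸ huC)) hK
        · exact vga_sq hf2 e
      · obtain ⟨g, g1, g2, g3⟩ := vga_third F hodd hm v f (f : G)⁻¹
        refine ⟨g, g1, fun hg => ?_⟩
        rcases (blk g).1 hg with e | e | e | e
        · exact hv (by rw [← g1, e.2]; exact one_mem _)
        · exact hv (by rw [← g1, e.2]; exact huC)
        · exact g2 e
        · exact g3 e
  have hn : ∀ g, F.y g ∉ Λ → g ∉ B → g ∉ F.pre Λ ∪ B := fun g g1 g2 e =>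
    (Finset.mem_union.1 e).elim (fun e => g1 ((vga_pre F _).1 e)) g2
  have hK : ∀ g w, g ∉ Kc G → g⁻¹ * w ∈ Kc G → w ∉ Kc G := fun g w g1 g2 e =>
    g1 (by simpa using inv_mem (mul_mem g2 (inv_mem e)))
  refine ⟨F.pre Λ ∪ B, u, Cov.union (Finset.disjoint_left.2 fun g g1 g2 =>
    b1 g g2 ((vga_pre F _).1 g1)) (F.lift hΛ) b0, htK, ht1, ht2, hn _ (ht.symm ▸ huΛ) b3,
    fun g g0 g1 g2 => ?_, fun g g0 g1 => ?_, fun g g0 => ?_⟩
  · by_cases e : F.y g = 1 ∨ F.y g = u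
    · exact Finset.mem_union_right _ (b2 g g1 g2 e)
    · exact Finset.mem_union_left _ ((vga_pre F _).2
        (h1 _ ((wmem a.tK g).2 g0) (not_or.1 e).1 (not_or.1 e).2))
  · obtain ⟨v, v', e0, e1, e2, e3, e4, e5, e6⟩ :=
      h2 _ (fun e => g0 ((wmem a.tK g).1 e)) (F.y_sq g1)
    obtain ⟨w, rfl, hw⟩ := F.exists_invol hodd e5
    obtain ⟨w', rfl, hw'⟩ := F.exists_invol hodd e6
    have k1 := (wcoset a.tK _ _).1 e1
    have k2 := (wcoset a.tK _ _).1 e2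
    exact ⟨w, w', fun e => e0 (congrArg _ e), k1, k2, hn _ e3 fun e => b4 _ e (hK _ _ g0 k1) hw,
      hn _ e4 fun e => b4 _ e (hK _ _ g0 k2) hw', hw, hw'⟩
  · have g1 : F.y g ∉ (Kc G).subgroupOf P := fun e => g0 ((wmem a.tK g).1 e)
    obtain ⟨v, e1, e2⟩ := h3 _ g1
    obtain ⟨w, rfl, hw⟩ := b5 v fun e => g1 (by simpa using inv_mem (mul_mem e1 (inv_mem e)))
    exact ⟨w, (wcoset a.tK _ _).1 e1, hn _ e2 hw⟩

theorem Ad.hInv [Finite G] (h2 : IsPGroup 2 P) (h : Ad P) (hI : NoInv G) :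
    HInv ((Kc G).subgroupOf P) := by
  intro ψ hψ hinv
  obtain ⟨χ, hχ⟩ : ∃ χ : G →* ℤˣ, ∀ p : P, χ p = ψ p := by
    let φ : P →* G ⧸ Kc G := (QuotientGroup.mk' (Kc G)).comp P.subtype
    have hs : Function.Surjective φ := fun q => by
      obtain ⟨g, rfl⟩ := QuotientGroup.mk'_surjective (Kc G) q
      obtain ⟨o, ho, p, rfl⟩ := h.dec g
      refine ⟨p, ?_⟩
      have e : QuotientGroup.mk' (Kc G) o = 1 := (QuotientGroup.eq_one_iff o).2 ho
      rw [map_mul, e, one_mul]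
      rfl
    have hk : φ.ker ≤ ψ.ker := fun p hp => hψ p ((QuotientGroup.eq_one_iff (p : G)).1 hp)
    exact ⟨(φ.liftOfSurjective hs ⟨ψ, hk⟩).comp (QuotientGroup.mk' (Kc G)), fun p =>
      φ.liftOfRightInverse_comp_apply _ (Function.rightInverse_surjInv hs) ⟨ψ, hk⟩ p⟩
  have key : ∀ β : G ≃* G, P.map β.toMonoidHom = P → ∀ g, χ (β g) = χ g := by
    intro β hβ g
    let γ : P ≃* P := (β.subgroupMap P).trans (MulEquiv.subgroupCongr hβ)
    have hγ : ∀ p : P, (γ p : G) = β p := fun p => rfl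
    have h1 : ∀ p : P, γ p ∈ (Kc G).subgroupOf P ↔ p ∈ (Kc G).subgroupOf P := fun p => by
      rw [Subgroup.mem_subgroupOf, Subgroup.mem_subgroupOf, hγ, equiv_mem_Kc]
    obtain ⟨o, ho, p, rfl⟩ := h.dec g
    have ho' := mem_Kc.1 ho
    have h2 : χ (β o) = 1 := ho' (χ.comp β.toMonoidHom)
    rw [map_mul, map_mul, map_mul, h2, ho' χ, ← hγ, hχ, hχ, hinv γ h1]
  intro p
  rw [← hχ]
  refine hI χ (fun α g => ?_) p
  obtain ⟨x, hx⟩ : ∃ x : G, P.map (α.trans (MulAut.conj x)).toMonoidHom = P := by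
    have : Fact (Nat.Prime 2) := ⟨Nat.prime_two⟩
    let S : Sylow 2 G := h2.toSylow h.1.not_two_dvd_nat
    let a : MulAut G := α
    obtain ⟨x, hx⟩ := MulAction.exists_smul_eq G (a • S) S
    refine ⟨x, ?_⟩
    have e : ((MulAut.conj x * a) • S : Sylow 2 G) = S := by rw [mul_smul]; exact hx
    exact congrArg Sylow.toSubgroup e
  have h3 := key _ hx g
  rw [MulEquiv.trans_apply, MulAut.conj_apply, map_mul, map_mul, map_inv, mul_inv_cancel_comm] at h3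
  exact h3

theorem wgb [Fintype G] (h2 : IsPGroup 2 P) (h : Ad P) (hK : Kc G ≠ ⊤) (hI : NoInv G) :
    DOut G := by
  by_cases h0 : (Kc G).subgroupOf P = ⊥
  · have hc : (Kc G).IsComplement' P := by
      refine Subgroup.isComplement'_of_disjoint_and_mul_eq_univ
        (Subgroup.subgroupOf_eq_bot.1 h0) (Set.eq_univ_of_forall fun g => ?_)
      obtain ⟨o, ho, p, rfl⟩ := h.dec g
      exact Set.mul_mem_mul ho p.2
    exact gb ⟨hc, hc.index_eq_card ▸ h.1, h2⟩ hK hI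
  · rcases pb h2 _ (h.sub_ne_top hK) h0 (fun g => sq_mem_Kc (g : G)) (h.hInv h2 hI) with a | a
    · obtain ⟨Λ, hΛ⟩ := wp1_of_al h a
      exact dout_of_p1 hΛ
    · obtain ⟨Λ, u, hΛ⟩ := wp2_of_be h a
      exact dout_of_p2 hΛ

theorem wne_top [Finite G] (h2 : ∃ H : Subgroup G, H.index = 2) : Kc G ≠ ⊤ := by
  obtain ⟨H, hH⟩ := h2
  intro e
  have := wad_Kc_le H (Subgroup.mul_self_mem_of_index_two hH)
  rw [e, top_le_iff] at this
  rw [this, Subgroup.index_top] at hH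
  omega

theorem whall [Finite G] (a : IsPGroup 2 P) (b : Odd P.index) (hP : IsCyclic P)
    (h1 : 1 < Nat.card P) : ∃ O' : Subgroup G, Hall O' P ∧ O'.Normal := by
  have : Fact (Nat.Prime 2) := ⟨Nat.prime_two⟩
  obtain ⟨k, hk⟩ := a.exists_card_eq
  let S : Sylow 2 G := a.toSylow b.not_two_dvd_nat
  have hd : 2 ∣ Nat.card P := by
    rw [hk]
    refine dvd_pow_self 2 fun e => ?_
    rw [hk, e] at h1
    omega
  have hp : (Nat.card G).minFac = 2 :=
    (Nat.minFac_eq_two_iff _).2 (hd.trans P.card_subgroup_dvd_card)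
  have hS : IsCyclic S := hP
  have hc := hS.isComplement' hp
  exact ⟨_, ⟨hc, hc.index_eq_card ▸ b, a⟩, inferInstance⟩

theorem wcore [Fintype G] (N : Subgroup G) [hN : N.Normal] (hodd : Odd N.index)
    (hA : AdT N) (hKN : Kc N ≠ ⊤) (key : ¬ Cov (Finset.univ.erase (1 : G))) :
    IsCyclic G ∧ ∃ k : ℕ, Nat.card G = 2 ^ k := by
  have : Fact (Nat.Prime 2) := ⟨Nat.prime_two⟩
  by_cases hK : Kc G = ⊤
  · exfalso
    obtain ⟨M, ⟨hM, hle, hK'⟩, hmax⟩ := Set.Finite.exists_maximal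
      (s := {M : Subgroup G | M.Normal ∧ N ≤ M ∧ Kc M ≠ ⊤}) (Set.toFinite _) ⟨N, hN, le_rfl, hKN⟩
    have hoM : Odd M.index := Odd.of_dvd_nat hodd (Subgroup.index_dvd_of_le hle)
    have := Fintype.ofFinite M
    obtain ⟨P, a, b⟩ := adT_normal N M hodd hle hA
    refine key (cov_of_dout M hoM (fun g hg => ?_) (wgb a b hK' (noInv_of hK M hoM)))
    by_contra hc
    refine hg (hmax (y := vhallC M) ⟨vhallC_normal M, hle.trans (vhall_le_C M),
      vhallC_ne M hoM hK'⟩ (vhall_le_C M) fun s hs => ?_)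
    by_contra h'
    exact hc ⟨s, hs, h'⟩
  · obtain ⟨P, a, b⟩ : AdT G := by
      obtain ⟨P, a, b⟩ := adT_normal N ⊤ hodd le_top hA
      let e : G ≃* (⊤ : Subgroup G) := Subgroup.topEquiv.symm
      exact ⟨_, a.comap_of_injective e.toMonoidHom e.injective,
        b.comap e.toMonoidHom e.surjective⟩
    by_cases hP : ¬ IsCyclic P ∨ Nat.card P ≤ 4
    · exact absurd (wga a b hK hP) key
    · push Not at hP
      obtain ⟨k, hk⟩ := a.exists_card_eq
      obtain ⟨O', hH', hn⟩ := whall a b.1 hP.1 (by omega)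
      by_cases h3 : 3 ≤ Nat.card O'
      · exact absurd (gc hH' h3 hP.1 hP.2) key
      · have h1 : Nat.card O' = 1 := by
          obtain ⟨k, hk⟩ := hH'.odd
          omega
        have hP1 : P = ⊤ := Subgroup.index_eq_one.1 (hH'.index.trans h1)
        have hc := hP.1
        subst hP1
        exact ⟨isCyclic_of_surjective _ Subgroup.topEquiv.surjective,
          k, by rw [← hk, Subgroup.card_top]⟩

end Pool.Agent.P.MP_da365b_co.SV
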